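import Pool.Agent.MP_d50107_co.H61.Spec2

/-! The numerical comparisons for the explicit thresholds. -/

namespace Pool.Agent.MP_d50107_co.H61

namespace ArithAux

lemma cb (i : ℕ) : Nat.centralBinom (i + 1) = 2 * CC i := by
  rw [Nat.centralBinom, CC, show 2 * (i + 1) = 2 * i + 1 + 1 by ring, Nat.choose_succ_succ',
    Nat.choose_symm_half]
  ring

lemma cat (i : ℕ) : (i + 2) * catalan (i + 1) = 2 * CC i := by
  rw [← cb]
  exact succ_mul_catalan_eq_centralBinom (i + 1)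

lemma cc_le (i : ℕ) : CC i ≤ 4 ^ i := by
  rw [CC, Nat.choose_symm_half]
  exact Nat.choose_middle_le_pow i

lemma cc_rec (i : ℕ) : (i + 2) * CC (i + 1) = 2 * (2 * i + 3) * CC i := by
  have h := Nat.succ_mul_centralBinom_succ (i + 1)
  rw [cb, cb] at h
  nlinarith [h]

lemma cc_pos (i : ℕ) : 0 < CC i := Nat.choose_pos (by omega)

lemma cc_up (i : ℕ) : CC (i + 1) ≤ 4 * CC i :=
  Nat.le_of_mul_le_mul_left (by rw [cc_rec]; nlinarith [cc_pos i]) (show 0 < i + 2 by omega)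

lemma cc_down (i : ℕ) : 2 * CC i ≤ CC (i + 1) :=
  Nat.le_of_mul_le_mul_left (by rw [cc_rec]; nlinarith [cc_pos i]) (show 0 < i + 2 by omega)

lemma cc_pow (j d : ℕ) : CC (j + d) ≤ 4 ^ d * CC j := by
  induction d with
  | zero => simp
  | succ d ih =>
    calc CC (j + (d + 1)) ≤ 4 * CC (j + d) := cc_up (j + d)
      _ ≤ 4 * (4 ^ d * CC j) := Nat.mul_le_mul_left 4 ih
      _ = _ := by ring

lemma pow_le_cc (i : ℕ) : 2 ^ (2 * i + 1) ≤ (2 * i + 2) * CC i := by
  have h := Nat.four_pow_le_two_mul_self_mul_centralBinom (i + 1) (by omega)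
  rw [cb] at h
  have e : 4 ^ (i + 1) = 2 * 2 ^ (2 * i + 1) := by
    rw [show (4 : ℕ) = 2 ^ 2 by norm_num, ← pow_mul]
    ring
  rw [e] at h
  nlinarith [h]

lemma sq_lt (K : ℕ) : K ^ 2 < 4 ^ K := by
  rw [show (4 : ℕ) = 2 ^ 2 by norm_num, ← pow_mul, mul_comm, pow_mul]
  exact Nat.pow_lt_pow_left Nat.lt_two_pow_self (by norm_num)

lemma ex (i P C T B0 B1 W : ℕ) (c1 : (i + 2) * T = 2 * C) (c2 : W ≤ (2 * i + 2) * C)
    (i1 : (i + 2) * (i + 1) ≤ P) (p0 : 0 < B0) (b1 : 16 * P * B0 ≤ B1) :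
    4 * ((i + 2) * (T * B1 + 2 * C * B0 + W)) ≤ 9 * (C * B1) := by
  have i2 : i + 2 ≤ P := (Nat.le_mul_of_pos_right _ (by omega)).trans i1
  have a1 : 16 * (i + 2) * B0 ≤ B1 :=
    (Nat.mul_le_mul_right B0 (Nat.mul_le_mul_left 16 i2)).trans b1
  have a2 : 16 * ((i + 2) * (i + 1)) ≤ B1 :=
    (Nat.mul_le_mul_left 16 i1).trans ((Nat.le_mul_of_pos_right _ p0).trans b1)
  have x1 : (i + 2) * (T * B1) = 2 * (C * B1) := by rw [← mul_assoc, c1, mul_assoc]
  have x2 : 16 * ((i + 2) * (C * B0)) ≤ C * B1 :=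
    (le_of_eq (by ring)).trans (Nat.mul_le_mul_left C a1)
  have x3 : 8 * ((i + 2) * W) ≤ C * B1 :=
    (Nat.mul_le_mul_left 8 (Nat.mul_le_mul_left (i + 2) c2)).trans
      ((le_of_eq (by ring)).trans (Nat.mul_le_mul_left C a2))
  have e : (i + 2) * (T * B1 + 2 * C * B0 + W) =
      (i + 2) * (T * B1) + 2 * ((i + 2) * (C * B0)) + (i + 2) * W := by ring
  omega

lemma sqs (r w : ℕ) (h : 7 * r ≤ w) : 3 * ((r + w) * (r + w)) ≤ 4 * (w * (w + 1)) := by
  obtain ⟨d, rfl⟩ := Nat.exists_eq_add_of_le h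
  nlinarith [Nat.zero_le (r * r), Nat.zero_le (r * d), Nat.zero_le (d * d)]

/-- the basic bound for the excess -/
lemma main (K i t m : ℕ) (hi : i + 2 ≤ K) (ht : QQ K ≤ t) (h : Sz K i t m) :
    (i + 2) * t * EE K i t ≤ 3 * (K - i) * m := by
  obtain ⟨s, hs⟩ : ∃ s, K - i = s + 2 := ⟨K - i - 2, by omega⟩
  obtain ⟨-, h2, -⟩ := h
  have e1 : s + 2 - 1 = s + 1 := by omega
  have e2 : s + 2 - 2 = s := by omega
  rw [EE, hs, e1, e2]
  rw [hs] at h2
  have tq : 32 * (K * K ^ 2) + 32 * K ≤ t :=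
    (le_of_eq (by ring)).trans
      ((Nat.mul_le_mul_left (32 * K) (show K ^ 2 + 1 ≤ 4 ^ K from sq_lt K)).trans ht)
  have k3 : 16 * K ^ 2 * (s + 1) ≤ 16 * (K * K ^ 2) := by
    rw [mul_comm K, mul_assoc]
    exact Nat.mul_le_mul_left 16 (Nat.mul_le_mul_left _ (by omega))
  obtain ⟨w, hw⟩ : ∃ w, t = s + 2 + w := Nat.exists_eq_add_of_le (by omega)
  have r1 := Nat.choose_succ_right_eq t s
  have r2 := Nat.choose_succ_right_eq t (s + 1)
  have r3 := Nat.choose_mul_succ_eq (t - 1) (s + 2)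
  rw [show t - 1 + 1 = t by omega, show t - (s + 2) = w by omega] at r3
  rw [show t - s = w + 2 by omega] at r1
  rw [show t - (s + 1) = w + 1 by omega, show s + 1 + 1 = s + 2 from rfl] at r2
  have p0 : 0 < t.choose s := Nat.choose_pos (by omega)
  have w1 : 16 * K ^ 2 * (s + 1) ≤ w + 2 := by omega
  have b1 : 16 * K ^ 2 * t.choose s ≤ t.choose (s + 1) := by
    refine Nat.le_of_mul_le_mul_right ?_ (show 0 < s + 1 by omega)
    rw [r1]
    exact (le_of_eq (by ring)).trans (Nat.mul_le_mul_left (t.choose s) w1)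
  have i1 : (i + 2) * (i + 1) ≤ K ^ 2 := by
    rw [pow_two]
    exact Nat.mul_le_mul (by omega) (by omega)
  have a3 := ex i _ _ _ _ _ _ (cat i) (pow_le_cc i) i1 p0 b1
  have w3 : 3 * (t * t) ≤ 4 * (w * (w + 1)) := by
    rw [hw]
    exact sqs (s + 2) w (by omega)
  have t0 : 0 < 4 * t := by omega
  generalize CC i = C at *
  generalize catalan (i + 1) * t.choose (s + 1) + 2 * C * t.choose s + 2 ^ (2 * i + 1) = E at *
  generalize t.choose (s + 1) = B1 at *
  generalize t.choose (s + 2) = B2 at *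
  generalize (t - 1).choose (s + 2) = B3 at *
  have a4 : C * B1 * (w * (w + 1)) ≤ (s + 2) * t * m := by
    calc C * B1 * (w * (w + 1)) = C * (B1 * (w + 1)) * w := by ring
      _ = C * (B2 * w) * (s + 2) := by rw [← r2]; ring
      _ = (s + 2) * t * (C * B3) := by rw [← r3]; ring
      _ ≤ _ := Nat.mul_le_mul_left _ h2
  refine Nat.le_of_mul_le_mul_left ?_ t0
  calc 4 * t * ((i + 2) * t * E) = t * t * (4 * ((i + 2) * E)) := by ring
    _ ≤ t * t * (9 * (C * B1)) := Nat.mul_le_mul_left _ a3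
    _ = 3 * (C * B1) * (3 * (t * t)) := by ring
    _ ≤ 3 * (C * B1) * (4 * (w * (w + 1))) := Nat.mul_le_mul_left _ w3
    _ = 12 * (C * B1 * (w * (w + 1))) := by ring
    _ ≤ 12 * ((s + 2) * t * m) := Nat.mul_le_mul_left _ a4
    _ = _ := by ring

lemma small (K i t m : ℕ) (hi : i + 2 ≤ K) (ht : QQ K ≤ t) (h : Sz K i t m) :
    2 ^ (2 * K + 1) * (EE K i t + 1) ≤ m := by
  have b := main K i t m hi ht h
  have e1 : 1 ≤ EE K i t := le_add_left Nat.one_le_two_pow
  have e : 2 ^ (2 * K + 1) = 2 * 4 ^ K := by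
    rw [show (4 : ℕ) = 2 ^ 2 by norm_num, ← pow_mul]
    ring
  rw [e]
  set E := EE K i t
  have c : 2 * (32 * K * 4 ^ K) * E ≤ 3 * K * m :=
    (Nat.mul_le_mul_right E (Nat.mul_le_mul (show 2 ≤ i + 2 by omega) ht)).trans
      (b.trans (Nat.mul_le_mul_right m (by omega)))
  have d : 64 * (4 ^ K * E) ≤ 3 * m :=
    Nat.le_of_mul_le_mul_left (by nlinarith) (show 0 < K by omega)
  nlinarith [Nat.mul_le_mul_left (4 ^ K) e1]

lemma grow (v K L r : ℕ) (hv : K * L + K ≤ v) : ∀ d, r + d ≤ K →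
    L ^ d * v.choose r ≤ v.choose (r + d) := by
  intro d
  induction d with
  | zero => simp
  | succ d ih =>
    intro hd
    have a := Nat.choose_succ_right_eq v (r + d)
    have b : (r + d + 1) * L ≤ v - (r + d) := by
      have := Nat.mul_le_mul_right L (show r + d + 1 ≤ K by omega)
      omega
    have c : L * v.choose (r + d) ≤ v.choose (r + d + 1) := by
      refine Nat.le_of_mul_le_mul_right ?_ (show 0 < r + d + 1 by omega)
      rw [a]
      nlinarith [Nat.mul_le_mul_left (v.choose (r + d)) b]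
    calc L ^ (d + 1) * v.choose r = L * (L ^ d * v.choose r) := by ring
      _ ≤ L * v.choose (r + d) := Nat.mul_le_mul_left L (ih (by omega))
      _ ≤ _ := c

lemma shrink (t v : ℕ) : ∀ r, t + 3 * r ≤ 4 * v → t.choose r ≤ 4 ^ r * v.choose r := by
  intro r
  induction r with
  | zero => simp
  | succ r ih =>
    intro hr
    refine Nat.le_of_mul_le_mul_right ?_ (show 0 < r + 1 by omega)
    rw [Nat.choose_succ_right_eq, mul_assoc, Nat.choose_succ_right_eq]
    calc t.choose r * (t - r) ≤ 4 ^ r * v.choose r * (4 * (v - r)) :=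
          Nat.mul_le_mul (ih (by omega)) (by omega)
      _ = _ := by ring

lemma lower (K i j t u m : ℕ) (hi : i + 2 ≤ K) (hj : j < i) (ht : QQ K ≤ t) (h : Sz K i t m)
    (g : Sz K j u m) : EE K i t ≤ catalan (j + 1) * (u - 1).choose (K - j - 1) := by
  have b := main K i t m hi ht h
  obtain ⟨-, -, h3⟩ := h
  obtain ⟨g1, g2, g3⟩ := g
  have p4 : 1 ≤ 4 ^ K := Nat.one_le_pow _ _ (by norm_num)
  have pk : K ≤ K * 4 ^ K := Nat.le_mul_of_pos_right K p4
  rw [QQ, mul_assoc] at ht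
  by_cases c : 3 * u ≤ t
  · have a := Nat.add_one_mul_choose_eq (u - 1) (K - j - 1)
    rw [show u - 1 + 1 = u by omega, show K - j - 1 + 1 = K - j by omega] at a
    have x : (K - j) * m ≤ (j + 2) * u * (catalan (j + 1) * (u - 1).choose (K - j - 1)) := by
      calc (K - j) * m ≤ (K - j) * (2 * CC j * u.choose (K - j)) := Nat.mul_le_mul_left _ g3
        _ = 2 * CC j * (u.choose (K - j) * (K - j)) := by ring
        _ = _ := by rw [← a, ← cat]; ring
    refine Nat.le_of_mul_le_mul_left ?_ (show 0 < (i + 2) * t from Nat.mul_pos (by omega) (by omega))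
    calc (i + 2) * t * EE K i t ≤ 3 * (K - i) * m := b
      _ ≤ 3 * ((K - j) * m) := by
          rw [mul_assoc]
          exact Nat.mul_le_mul_left 3 (Nat.mul_le_mul_right m (by omega))
      _ ≤ 3 * ((j + 2) * u * (catalan (j + 1) * (u - 1).choose (K - j - 1))) :=
          Nat.mul_le_mul_left 3 x
      _ = (j + 2) * (3 * u) * (catalan (j + 1) * (u - 1).choose (K - j - 1)) := by ring
      _ ≤ _ := Nat.mul_le_mul_right _ (Nat.mul_le_mul (by omega) c)
  · exfalso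
    obtain ⟨d, rfl⟩ := Nat.exists_eq_add_of_lt hj
    set r := K - (j + d + 1) with hr
    have e : K - j = r + (d + 1) := by omega
    rw [e] at g2
    have a1 := grow (u - 1) K (3 * 4 ^ K) r (by
      rw [show K * (3 * 4 ^ K) = 3 * (K * 4 ^ K) by ring]
      omega) (d + 1) (by omega)
    have a2 := shrink t (u - 1) r (by omega)
    have a3 : CC (j + d + 1) ≤ 4 ^ (d + 1) * CC j := cc_pow j (d + 1)
    have a4 : 3 * 4 ^ K ≤ (3 * 4 ^ K) ^ (d + 1) := Nat.le_self_pow (by omega) _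
    have a5 : 4 ^ (d + 1) * 4 ^ r ≤ 4 ^ K := by
      rw [← pow_add]
      exact Nat.pow_le_pow_right (by norm_num) (by omega)
    have p0 : 0 < CC j * (u - 1).choose r := Nat.mul_pos (cc_pos j) (Nat.choose_pos (by omega))
    have z : 3 * 4 ^ K * (CC j * (u - 1).choose r) ≤ 2 * 4 ^ K * (CC j * (u - 1).choose r) := by
      calc 3 * 4 ^ K * (CC j * (u - 1).choose r)
          ≤ (3 * 4 ^ K) ^ (d + 1) * (CC j * (u - 1).choose r) := Nat.mul_le_mul_right _ a4
        _ = CC j * ((3 * 4 ^ K) ^ (d + 1) * (u - 1).choose r) := by ring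
        _ ≤ CC j * (u - 1).choose (r + (d + 1)) := Nat.mul_le_mul_left _ a1
        _ ≤ 2 * CC (j + d + 1) * t.choose r := g2.trans h3
        _ ≤ 2 * (4 ^ (d + 1) * CC j) * (4 ^ r * (u - 1).choose r) :=
            Nat.mul_le_mul (Nat.mul_le_mul_left 2 a3) a2
        _ = 2 * (4 ^ (d + 1) * 4 ^ r) * (CC j * (u - 1).choose r) := by ring
        _ ≤ _ := Nat.mul_le_mul_right _ (Nat.mul_le_mul_left 2 a5)
    have := Nat.le_of_mul_le_mul_right z p0
    omega

lemma sq_choose (Q : ℕ) : ∀ s, Q * Q.choose (s + 1) ≤ (Q * Q).choose (s + 1) := by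
  intro s
  induction s with
  | zero => simp
  | succ s ih =>
    refine Nat.le_of_mul_le_mul_right ?_ (show 0 < s + 1 + 1 by omega)
    rw [mul_assoc, Nat.choose_succ_right_eq, Nat.choose_succ_right_eq (Q * Q), ← mul_assoc]
    exact Nat.mul_le_mul ih (Nat.sub_le_sub_right (Nat.le_mul_self Q) _)

lemma bign (K i t n m : ℕ) (hi : i + 2 ≤ K) (h : Sz K i t m)
    (hm : CC (i + 1) * (n - (2 * i + 3)).choose (K - i - 1) < m)
    (hn : 64 * (K + 1) ^ 2 * 16 ^ (K + 1) ≤ n) : QQ K ≤ t := by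
  by_contra c
  obtain ⟨-, -, h3⟩ := h
  obtain ⟨s, hs⟩ : ∃ s, K - i = s + 1 + 1 := ⟨K - i - 2, by omega⟩
  rw [hs] at hm h3
  rw [Nat.add_sub_cancel] at hm
  have a1 : t.choose (s + 1 + 1) ≤ QQ K * (QQ K).choose (s + 1) := by
    refine (Nat.choose_le_choose _ (le_of_not_ge c)).trans ?_
    refine (Nat.le_mul_of_pos_right _ (show 0 < s + 1 + 1 by omega)).trans ?_
    rw [Nat.choose_succ_right_eq, mul_comm]
    exact Nat.mul_le_mul_right _ (Nat.sub_le _ _)
  have a2 : QQ K * QQ K ≤ n - (2 * i + 3) := by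
    have e : QQ K * QQ K = 1024 * K ^ 2 * 16 ^ K := by
      rw [QQ, show (16 : ℕ) = 4 * 4 by norm_num, mul_pow]
      ring
    have p : 1 ≤ 16 ^ K := Nat.one_le_pow _ _ (by norm_num)
    have e' : 64 * (K + 1) ^ 2 * 16 ^ (K + 1) =
        1024 * K ^ 2 * 16 ^ K + 1024 * ((2 * K + 1) * 16 ^ K) := by ring
    have p' : 2 * K + 1 ≤ (2 * K + 1) * 16 ^ K := Nat.le_mul_of_pos_right _ p
    omega
  have a3 := a1.trans ((sq_choose _ s).trans (Nat.choose_le_choose _ a2))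
  exact absurd (hm.trans_le h3) (not_lt.2 (Nat.mul_le_mul (cc_down i) a3))

lemma bigm (K i t m : ℕ) (hi : i + 2 ≤ K) (h : Sz K i t m)
    (hm : (32 * (K + 1) * 4 ^ (K + 1)) ^ (K + 1) ≤ m) : QQ K ≤ t := by
  by_contra c
  obtain ⟨-, -, h3⟩ := h
  have p4 : 1 ≤ 4 ^ K := Nat.one_le_pow _ _ (by norm_num)
  have q0 : 0 < QQ K := Nat.mul_pos (by omega) p4
  have a1 : t.choose (K - i) ≤ QQ K ^ K :=
    (Nat.choose_le_pow _ _).trans ((Nat.pow_le_pow_left (le_of_not_ge c) _).trans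
      (Nat.pow_le_pow_right q0 (by omega)))
  have a2 : CC i ≤ 4 ^ K := (cc_le i).trans (Nat.pow_le_pow_right (by norm_num) (by omega))
  have e : 32 * (K + 1) * 4 ^ (K + 1) = 4 * QQ K + 128 * 4 ^ K := by
    rw [QQ]
    ring
  rw [e, pow_succ] at hm
  have a3 : QQ K ^ K ≤ (4 * QQ K + 128 * 4 ^ K) ^ K := Nat.pow_le_pow_left (by omega) K
  have a4 : QQ K ^ K * (128 * 4 ^ K) ≤ 2 * 4 ^ K * QQ K ^ K :=
    (Nat.mul_le_mul a3 (Nat.le_add_left _ _)).trans
      (hm.trans (h3.trans (Nat.mul_le_mul (Nat.mul_le_mul_left 2 a2) a1)))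
  have p : 0 < QQ K ^ K * 4 ^ K := Nat.mul_pos (Nat.pow_pos q0) p4
  nlinarith

end ArithAux

theorem ar : AR := ⟨ArithAux.small, ArithAux.lower, ArithAux.bign, ArithAux.bigm⟩

end Pool.Agent.MP_d50107_co.H61
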