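import Pool.Agent.MP_d50107_co.H61.Spec

/-! Basic facts on `kk`, `cl`, fibres and shifted families. -/

namespace Pool.Agent.MP_d50107_co.H61

open Finset
open scoped FinsetFamily

/-! ### Numbers -/

@[simp] theorem kk_zero_left (m : ℕ) : kk 0 m = 0 := rfl

@[simp] theorem cl_zero_left (m : ℕ) : cl 0 m = 0 := rfl

@[simp] theorem kk_zero (l : ℕ) : kk l 0 = 0 := by cases l <;> simp [kk]

@[simp] theorem cl_zero (l : ℕ) : cl l 0 = 0 := by cases l <;> simp [cl]

theorem le_choose_add (l m : ℕ) : m + 1 ≤ (m + (l + 1)).choose (l + 1) := by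
  induction m with
  | zero => simp
  | succ m ih =>
    have h1 : (m + 1 + (l + 1)).choose (l + 1) =
        (m + (l + 1)).choose l + (m + (l + 1)).choose (l + 1) := by
      rw [show m + 1 + (l + 1) = m + (l + 1) + 1 by ring, Nat.choose_succ_succ']
    have h2 : 0 < (m + (l + 1)).choose l := Nat.choose_pos (by omega)
    omega

theorem top_eq {l m x : ℕ} (h1 : x.choose (l + 1) ≤ m) (h2 : m < (x + 1).choose (l + 1)) :
    top (l + 1) m = x := by
  have hx : x ≤ m + (l + 1) := by
    by_contra hc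
    have := Nat.choose_le_choose (l + 1) (not_le.1 hc).le
    have := le_choose_add l m
    omega
  refine le_antisymm ?_ (Nat.le_findGreatest (P := fun a => a.choose (l + 1) ≤ m) hx h1)
  by_contra hc
  have h3 : (top (l + 1) m).choose (l + 1) ≤ m :=
    Nat.findGreatest_spec (P := fun a => a.choose (l + 1) ≤ m) hx h1
  have := Nat.choose_le_choose (l + 1) (show x + 1 ≤ top (l + 1) m from not_le.1 hc)
  omega

theorem exists_top (l m : ℕ) : ∃ x, x.choose (l + 1) ≤ m ∧ m < (x + 1).choose (l + 1) := by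
  have hex : ∃ x, m < (x + 1).choose (l + 1) :=
    ⟨m + l, by have := le_choose_add l m; rwa [← add_assoc] at this⟩
  refine ⟨Nat.find hex, ?_, Nat.find_spec hex⟩
  rcases h : Nat.find hex with _ | x
  · simp
  · exact not_lt.1 (Nat.find_min hex (by omega))

theorem kk_lt_block {l x r : ℕ} (hx : l + 1 ≤ x) (hr : r < x.choose l) :
    kk (l + 1) (x.choose (l + 1) + r) = x.choose l + kk l r := by
  have h0 : 0 < x.choose (l + 1) := Nat.choose_pos hx
  have ht : top (l + 1) (x.choose (l + 1) + r) = x :=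
    top_eq (by omega) (by rw [Nat.choose_succ_succ']; omega)
  rw [kk, if_neg (by omega), ht, Nat.add_sub_cancel_left]

theorem cl_lt_block {l x r : ℕ} (hx : l + 1 ≤ x) (hr : r < x.choose l) :
    cl (l + 1) (x.choose (l + 1) + r) = x.choose (l + 2) + cl l r := by
  have h0 : 0 < x.choose (l + 1) := Nat.choose_pos hx
  have ht : top (l + 1) (x.choose (l + 1) + r) = x :=
    top_eq (by omega) (by rw [Nat.choose_succ_succ']; omega)
  rw [cl, if_neg (by omega), ht, Nat.add_sub_cancel_left]

/-- one step of the cascade -/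
theorem decomp (l : ℕ) {m : ℕ} (hm : 1 ≤ m) : ∃ x r, l + 1 ≤ x ∧ r < x.choose l ∧
    m = x.choose (l + 1) + r ∧ kk (l + 1) m = x.choose l + kk l r ∧
    cl (l + 1) m = x.choose (l + 2) + cl l r := by
  obtain ⟨x, h1, h2⟩ := exists_top l m
  have hx : l + 1 ≤ x := by
    by_contra hc
    have := Nat.choose_le_choose (l + 1) (show x + 1 ≤ l + 1 by omega)
    rw [Nat.choose_self] at this
    omega
  rw [Nat.choose_succ_succ'] at h2
  obtain ⟨r, rfl⟩ := Nat.exists_eq_add_of_le h1
  exact ⟨x, r, hx, by omega, rfl, kk_lt_block hx (by omega), cl_lt_block hx (by omega)⟩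

theorem kk_choose {l x : ℕ} (hx : l + 1 ≤ x) : kk (l + 1) (x.choose (l + 1)) = x.choose l := by
  simpa using kk_lt_block (r := 0) hx (Nat.choose_pos (by omega))

theorem cl_choose (l x : ℕ) : cl (l + 1) (x.choose (l + 1)) = x.choose (l + 2) := by
  by_cases hx : l + 1 ≤ x
  · simpa using cl_lt_block (r := 0) hx (Nat.choose_pos (by omega))
  · rw [Nat.choose_eq_zero_of_lt (by omega), Nat.choose_eq_zero_of_lt (by omega), cl_zero]

theorem kk_one (l : ℕ) : kk l 1 = l := by
  rcases l with _ | l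
  · rfl
  · simpa using kk_choose (l := l) le_rfl

theorem cl_one (l : ℕ) : cl l 1 = 0 := by
  rcases l with _ | l
  · rfl
  · simpa using cl_choose l (l + 1)

theorem kk_block {l x r : ℕ} (hx : l + 1 ≤ x) (hr : r ≤ x.choose l) :
    kk (l + 1) (x.choose (l + 1) + r) = x.choose l + kk l r := by
  rcases hr.lt_or_eq with hr | rfl
  · exact kk_lt_block hx hr
  · rw [add_comm (x.choose (l + 1)), ← Nat.choose_succ_succ', kk_choose (by omega)]
    rcases l with _ | l
    · simp
    · rw [kk_choose (by omega), Nat.choose_succ_succ', add_comm]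

theorem cl_block {l x r : ℕ} (hl : 1 ≤ l) (hr : r ≤ x.choose l) :
    cl (l + 1) (x.choose (l + 1) + r) = x.choose (l + 2) + cl l r := by
  obtain ⟨l, rfl⟩ : ∃ l', l = l' + 1 := ⟨l - 1, by omega⟩
  rcases hr.lt_or_eq with hr | rfl
  · by_cases hx : l + 1 + 1 ≤ x
    · exact cl_lt_block hx hr
    · have h1 := Nat.choose_le_choose (l + 1) (show x ≤ l + 1 by omega)
      rw [Nat.choose_self] at h1
      obtain rfl : r = 0 := by omega
      rw [add_zero, cl_choose, cl_zero, add_zero]
  · rw [add_comm (x.choose (l + 1 + 1)), ← Nat.choose_succ_succ', cl_choose, cl_choose,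
      Nat.choose_succ_succ', add_comm]

theorem sk_nil (K : ℕ) : sk K [] = 0 := rfl

theorem sk_cons (K x : ℕ) (g : List ℕ) : sk K (x :: g) = kk K x + sk K g := by simp [sk]

theorem sk_append (K : ℕ) (g h : List ℕ) : sk K (g ++ h) = sk K g + sk K h := by simp [sk]

theorem sk_replicate (K q x : ℕ) : sk K (List.replicate q x) = q * kk K x := by simp [sk]

/-- the list of the values of `f` on a finite set -/
theorem sk_toList {ι : Type*} (K : ℕ) (s : Finset ι) (f : ι → ℕ) :
    sk K (s.toList.map f) = ∑ y ∈ s, kk K (f y) := by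
  rw [sk, List.map_map, Finset.sum_map_toList]
  rfl

theorem sum_toList {ι : Type*} (s : Finset ι) (f : ι → ℕ) :
    (s.toList.map f).sum = ∑ y ∈ s, f y := Finset.sum_map_toList _ _

theorem Le.mono {K m : ℕ} {u v : ℝ} (h : Le K m u) (huv : u ≤ v) : Le K m v := by
  obtain ⟨M, g, h1, h2⟩ := h
  exact ⟨M, g, h1, h2.trans huv⟩

theorem Osc.mono {l : ℕ} {lam B B' : ℝ} (h : Osc l lam B) (hB : B ≤ B') : Osc l lam B' :=
  fun r => (h r).trans hB

theorem Osc.nonneg {l : ℕ} {lam B : ℝ} (h : Osc l lam B) : 0 ≤ B := by simpa using h 0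

/-! ### Families -/

theorem mem_fib {w : ℕ} {F : Finset (Finset ℕ)} {T g : Finset ℕ} :
    g ∈ fib w F T ↔ g ⊆ range w ∧ g ∪ T ∈ F := by simp [fib]

theorem mem_fib_empty {w : ℕ} {F : Finset (Finset ℕ)} {g : Finset ℕ} :
    g ∈ fib w F ∅ ↔ g ⊆ range w ∧ g ∈ F := by simp [fib]

theorem mem_fib_one {w y : ℕ} {F : Finset (Finset ℕ)} {g : Finset ℕ} :
    g ∈ fib w F {y} ↔ g ⊆ range w ∧ insert y g ∈ F := by
  rw [mem_fib, union_comm, ← insert_eq]

theorem mem_fib_two {w y z : ℕ} {F : Finset (Finset ℕ)} {g : Finset ℕ} :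
    g ∈ fib w F {y, z} ↔ g ⊆ range w ∧ insert y (insert z g) ∈ F := by
  rw [mem_fib, union_comm, insert_union, ← insert_eq]

theorem Out.disjoint {w : ℕ} {T g : Finset ℕ} (hT : Out w T) (hg : g ⊆ range w) :
    Disjoint g T :=
  disjoint_left.2 fun x hx hx' => by
    have := mem_range.1 (hg hx)
    have := hT x hx'
    omega

theorem out_empty (w : ℕ) : Out w ∅ := fun y hy => absurd hy (notMem_empty y)

theorem out_singleton {w y : ℕ} (h : w ≤ y) : Out w {y} := fun z hz => mem_singleton.1 hz ▸ h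

theorem Out.insert {w y : ℕ} {T : Finset ℕ} (hT : Out w T) (h : w ≤ y) : Out w (insert y T) :=
  fun z hz => (mem_insert.1 hz).elim (fun e => e ▸ h) (hT z)

theorem Out.mono {w w' : ℕ} {T : Finset ℕ} (hT : Out w T) (h : w' ≤ w) : Out w' T :=
  fun z hz => h.trans (hT z hz)

theorem out_of_mem_tails {w : ℕ} {F : Finset (Finset ℕ)} {T : Finset ℕ} (h : T ∈ tails w F) :
    Out w T := by
  obtain ⟨A, -, rfl⟩ := mem_image.1 h
  exact fun y hy => (mem_filter.1 hy).2

theorem filter_union_tail {w : ℕ} {T g : Finset ℕ} (hT : Out w T) (hg : g ⊆ range w) :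
    ((g ∪ T).filter fun y => w ≤ y) = T := by
  ext y
  simp only [mem_filter, mem_union]
  constructor
  · rintro ⟨h | h, h2⟩
    · have := mem_range.1 (hg h)
      omega
    · exact h
  · exact fun h => ⟨Or.inr h, hT y h⟩

theorem mem_tails_of_nonempty {w : ℕ} {F : Finset (Finset ℕ)} {T : Finset ℕ} (hT : Out w T)
    (h : (fib w F T).Nonempty) : T ∈ tails w F := by
  obtain ⟨g, hg⟩ := h
  rw [mem_fib] at hg
  exact mem_image.2 ⟨_, hg.2, filter_union_tail hT hg.1⟩

theorem card_of_mem_fib {w k : ℕ} {F : Finset (Finset ℕ)} {T g : Finset ℕ}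
    (hF : ∀ A ∈ F, A.card = k) (hT : Out w T) (hg : g ∈ fib w F T) : g.card + T.card = k := by
  rw [mem_fib] at hg
  rw [← card_union_of_disjoint (hT.disjoint hg.1), hF _ hg.2]

theorem fib_subset {w k l : ℕ} {F : Finset (Finset ℕ)} {T : Finset ℕ}
    (hF : ∀ A ∈ F, A.card = k) (hT : Out w T) (hl : l + T.card = k) :
    fib w F T ⊆ powersetCard l (range w) := fun g hg =>
  mem_powersetCard.2 ⟨(mem_fib.1 hg).1, by have := card_of_mem_fib hF hT hg; omega⟩

theorem card_le_choose {w l : ℕ} {X : Finset (Finset ℕ)} (h : X ⊆ powersetCard l (range w)) :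
    X.card ≤ w.choose l := by
  simpa using card_le_card h

theorem card_eq_of_subset {w l : ℕ} {X : Finset (Finset ℕ)} (h : X ⊆ powersetCard l (range w)) :
    ∀ A ∈ X, A.card = l := fun _ hA => (mem_powersetCard.1 (h hA)).2

theorem subset_range_mono {w w' l : ℕ} {X : Finset (Finset ℕ)}
    (h : X ⊆ powersetCard l (range w)) (hw : w ≤ w') : X ⊆ powersetCard l (range w') :=
  h.trans (powersetCard_mono (range_mono hw))

theorem Shifted.fib {w : ℕ} {F : Finset (Finset ℕ)} {T : Finset ℕ} (hF : Shifted F)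
    (hT : Out w T) : Shifted (fib w F T) := by
  intro g hg i j hij hj hi
  rw [mem_fib] at hg ⊢
  have hjw := mem_range.1 (hg.1 hj)
  have hiT : i ∉ T := fun h => by have := hT i h; omega
  have hjT : j ∉ T := fun h => by have := hT j h; omega
  refine ⟨insert_subset (mem_range.2 (by omega)) ((erase_subset _ _).trans hg.1), ?_⟩
  have := hF _ hg.2 i j hij (mem_union_left _ hj) (by simp [hi, hiT])
  rwa [erase_union_distrib, erase_eq_of_notMem hjT, ← insert_union] at this

theorem nonMember_fib (w : ℕ) (F : Finset (Finset ℕ)) (T : Finset ℕ) :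
    nonMemberSubfamily w (fib (w + 1) F T) = fib w F T := by
  ext g
  rw [mem_nonMemberSubfamily, mem_fib, mem_fib, range_add_one]
  constructor
  · rintro ⟨⟨h1, h2⟩, h3⟩
    exact ⟨(subset_insert_iff_of_notMem h3).1 h1, h2⟩
  · rintro ⟨h1, h2⟩
    exact ⟨⟨h1.trans (subset_insert _ _), h2⟩, fun h => by simpa using h1 h⟩

theorem member_fib (w : ℕ) (F : Finset (Finset ℕ)) (T : Finset ℕ) :
    memberSubfamily w (fib (w + 1) F T) = fib w F (insert w T) := by
  ext g
  rw [mem_memberSubfamily, mem_fib, mem_fib, range_add_one, insert_union, union_insert]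
  constructor
  · rintro ⟨⟨h1, h2⟩, h3⟩
    exact ⟨(subset_insert_iff_of_notMem h3).1 ((subset_insert _ _).trans h1), h2⟩
  · rintro ⟨h1, h2⟩
    exact ⟨⟨insert_subset_insert _ h1, h2⟩, fun h => by simpa using h1 h⟩

theorem nonMember_range {w a : ℕ} {X : Finset (Finset ℕ)}
    (h : X ⊆ powersetCard a (range (w + 1))) :
    nonMemberSubfamily w X ⊆ powersetCard a (range w) :=
  H54.nonMember_subset (range_add_one (n := w) ▸ h)

theorem member_range {w a : ℕ} {X : Finset (Finset ℕ)}
    (h : X ⊆ powersetCard (a + 1) (range (w + 1))) :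
    memberSubfamily w X ⊆ powersetCard a (range w) :=
  H54.member_subset (range_add_one (n := w) ▸ h)

theorem Shifted.nonMember {w a : ℕ} {X : Finset (Finset ℕ)} (hX : Shifted X)
    (h : X ⊆ powersetCard a (range (w + 1))) : Shifted (nonMemberSubfamily w X) := by
  intro A hA i j hij hj hi
  rw [mem_nonMemberSubfamily] at hA ⊢
  have := mem_range.1 ((mem_powersetCard.1 (h hA.1)).1 hj)
  refine ⟨hX _ hA.1 i j hij hj hi, ?_⟩
  simp only [mem_insert, mem_erase, not_or, not_and]
  exact ⟨by omega, fun _ => hA.2⟩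

theorem Shifted.member {w a : ℕ} {X : Finset (Finset ℕ)} (hX : Shifted X)
    (h : X ⊆ powersetCard a (range (w + 1))) : Shifted (memberSubfamily w X) := by
  intro A hA i j hij hj hi
  rw [mem_memberSubfamily] at hA ⊢
  have h1 := mem_range.1 ((mem_powersetCard.1 (h hA.1)).1 (mem_insert_of_mem hj))
  have h2 : j ≠ w := fun e => hA.2 (e ▸ hj)
  have h3 := hX _ hA.1 i j hij (mem_insert_of_mem hj) (by
    simp only [mem_insert, not_or]
    exact ⟨by omega, hi⟩)
  rw [erase_insert_of_ne h2.symm, insert_comm] at h3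
  refine ⟨h3, ?_⟩
  simp only [mem_insert, mem_erase, not_or, not_and]
  exact ⟨by omega, fun _ => hA.2⟩

theorem card_split (y : ℕ) (X : Finset (Finset ℕ)) :
    (nonMemberSubfamily y X).card + (memberSubfamily y X).card = X.card := by
  rw [add_comm, card_memberSubfamily_add_card_nonMemberSubfamily]

theorem shadow_split (y : ℕ) (X : Finset (Finset ℕ)) :
    (∂ (nonMemberSubfamily y X)).card + (∂ (memberSubfamily y X)).card ≤ (∂ X).card := by
  rw [H54.card_shadow_eq y X, add_comm]
  exact Nat.add_le_add_left (card_le_card subset_union_left) _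

theorem card_fib_split (w : ℕ) (F : Finset (Finset ℕ)) (T : Finset ℕ) :
    (fib w F T).card + (fib w F (insert w T)).card = (fib (w + 1) F T).card := by
  rw [← nonMember_fib, ← member_fib, card_split]

theorem shadow_fib_split (w : ℕ) (F : Finset (Finset ℕ)) (T : Finset ℕ) :
    (∂ (fib w F T)).card + (∂ (fib w F (insert w T))).card ≤ (∂ (fib (w + 1) F T)).card := by
  rw [← nonMember_fib, ← member_fib]
  exact shadow_split _ _

/-- one of the two halves keeps the ratio -/
theorem peel (y : ℕ) {ρ : Finset (Finset ℕ)} {lam : ℝ} (hne : ρ.Nonempty)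
    (h : ((∂ ρ).card : ℝ) ≤ lam * ρ.card) :
    ((nonMemberSubfamily y ρ).Nonempty ∧
      ((∂ (nonMemberSubfamily y ρ)).card : ℝ) ≤ lam * (nonMemberSubfamily y ρ).card) ∨
    ((memberSubfamily y ρ).Nonempty ∧
      ((∂ (memberSubfamily y ρ)).card : ℝ) ≤ lam * (memberSubfamily y ρ).card) := by
  have h1 : ((nonMemberSubfamily y ρ).card : ℝ) + (memberSubfamily y ρ).card = ρ.card := by
    exact_mod_cast card_split y ρ
  have h2 : ((∂ (nonMemberSubfamily y ρ)).card : ℝ) + (∂ (memberSubfamily y ρ)).card ≤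
      (∂ ρ).card := by exact_mod_cast shadow_split y ρ
  have h3 := card_split y ρ
  have h4 := hne.card_pos
  rcases (nonMemberSubfamily y ρ).eq_empty_or_nonempty with e0 | e0
  · rw [e0] at h1 h2 h3
    simp only [card_empty, shadow_empty, Nat.cast_zero, zero_add] at h1 h2 h3
    exact Or.inr ⟨card_pos.1 (by omega), by rw [h1]; exact h2.trans h⟩
  rcases (memberSubfamily y ρ).eq_empty_or_nonempty with e1 | e1
  · rw [e1] at h1 h2
    simp only [card_empty, shadow_empty, Nat.cast_zero, add_zero] at h1 h2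
    exact Or.inl ⟨e0, by rw [h1]; exact h2.trans h⟩
  by_contra hc
  simp only [not_or, not_and, not_le] at hc
  have h5 := hc.1 e0
  have h6 := hc.2 e1
  rw [← h1, mul_add] at h
  linarith

/-- replace the point `j` by a point `i ≤ j` -/
theorem Shifted.swap {F : Finset (Finset ℕ)} (hF : Shifted F) {g : Finset ℕ} {i j : ℕ}
    (h : insert j g ∈ F) (hij : i ≤ j) (hj : j ∉ g) (hi : i ∉ g) : insert i g ∈ F := by
  rcases hij.lt_or_eq with hlt | rfl
  · have := hF _ h i j hlt (mem_insert_self _ _) (by simp [hi, hlt.ne])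
    rwa [erase_insert hj] at this
  · exact h

/-- a set whose new points all lie below the lost points -/
theorem Shifted.star {F : Finset (Finset ℕ)} (hF : Shifted F) {A B : Finset ℕ} (hA : A ∈ F)
    (hc : A.card = B.card) (h : ∀ x ∈ B, x ∉ A → ∀ y ∈ A, y ∉ B → x < y) : B ∈ F := by
  induction' hn : (B \ A).card with n ih generalizing A
  · have h1 : B ⊆ A := sdiff_eq_empty_iff_subset.1 (card_eq_zero.1 hn)
    rwa [eq_of_subset_of_card_le h1 hc.le]
  · obtain ⟨x, hx⟩ : (B \ A).Nonempty := card_pos.1 (by omega)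
    have h2 : (A \ B).card = (B \ A).card := card_sdiff_comm hc
    obtain ⟨y, hy⟩ : (A \ B).Nonempty := card_pos.1 (by omega)
    rw [mem_sdiff] at hx hy
    refine ih (hF _ hA x y (h x hx.1 hx.2 y hy.1 hy.2) hy.1 hx.2)
      ((H54.card_swap hy.1 hx.2).trans hc) (fun u hu hu' v hv hv' => ?_) ?_
    · simp only [mem_insert, mem_erase, not_or, not_and] at hu' hv
      have hu1 : u ∉ A := hu'.2 fun e => hy.2 (e ▸ hu)
      rcases hv with rfl | hv
      · exact absurd hx.1 hv'
      · exact h u hu hu1 v hv.2 hv'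
    · have : B \ insert x (A.erase y) = (B \ A).erase x := by
        ext u
        simp only [mem_sdiff, mem_insert, mem_erase, not_or, not_and]
        constructor
        · rintro ⟨a1, a2, a3⟩
          exact ⟨a2, a1, a3 fun e => hy.2 (e ▸ a1)⟩
        · rintro ⟨a1, a2, a3⟩
          exact ⟨a2, a1, fun _ => a3⟩
      rw [this, card_erase_of_mem (mem_sdiff.2 hx), hn]
      rfl

/-- two disjoint sets are not both members -/
theorem Good.not_disjoint {K : ℕ} {F : Finset (Finset ℕ)} (hF : Good K F) {A B : Finset ℕ}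
    (hA : A ∈ F) (hB : B ∈ F) : ¬ Disjoint A B := fun h => by
  obtain ⟨x, h1, h2⟩ := hF.2.1 A hA B hB
  exact disjoint_left.1 h h1 h2

end Pool.Agent.MP_d50107_co.H61
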