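import Pool.Agent.MP_d50107_co.H61.Basic

/-! The two budgets. -/

namespace Pool.Agent.MP_d50107_co.H61

open Finset
open scoped FinsetFamily

namespace Bud

/-- a family with few missing sets -/
theorem few (hK : KN) {k a w : ℕ} {lam : ℝ} {Y : Finset (Finset ℕ)} (hk : 1 ≤ k) (hw : k + a = w)
    (hl : 1 ≤ lam) (hY : Y ⊆ powersetCard a (range w))
    (hs : w.choose k ≤ Y.card + (2 * k + 1).choose k) :
    (w.choose (k + 1) : ℝ) - lam * w.choose k ≤ ((∂ Y).card : ℝ) - lam * Y.card := by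
  subst hw
  have h1 := card_le_choose hY
  rw [← Nat.choose_symm_add] at h1
  obtain ⟨s, hs'⟩ := Nat.exists_eq_add_of_le h1
  have h2 := hK.thm a Y (card_eq_of_subset hY)
  have h3 := hK.dual k a s hk (by omega)
  rw [show (k + a).choose k - s = Y.card by omega] at h3
  have h4 := hK.clym k (2 * k + 1) s (by omega)
  rw [show 2 * k + 1 - k = k + 1 by omega] at h4
  have h5 : cl k s ≤ s := Nat.le_of_mul_le_mul_left h4 (Nat.succ_pos k)
  have h6 : ((k + a).choose (k + 1) : ℝ) ≤ (∂ Y).card + s := by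
    exact_mod_cast (by omega : (k + a).choose (k + 1) ≤ (∂ Y).card + s)
  have h7 : ((k + a).choose k : ℝ) = Y.card + s := by exact_mod_cast hs'
  have h8 : (0 : ℝ) ≤ (lam - 1) * s := mul_nonneg (by linarith) (Nat.cast_nonneg s)
  rw [h7]
  linarith

/-- the seed, with explicit indices -/
def Sd (k j : ℕ) (F ρ : Finset (Finset ℕ)) (lam : ℝ) : Prop :=
  j ≤ k + 1 ∧ ρ ⊆ powersetCard j (range (2 * k + 2)) ∧ ρ.Nonempty ∧
    ((∂ ρ).card : ℝ) ≤ lam * ρ.card ∧
    ∀ g ∈ ρ, ∀ B : Finset ℕ, g ⊆ B → B ⊆ range (2 * k + 3) → B.card = k + 1 →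
      insert (2 * k + 4) (insert (2 * k + 5) B) ∈ F

theorem sd {k : ℕ} {F : Finset (Finset ℕ)} {lam : ℝ}
    (h : Seed (k + 2) F lam (2 * (k + 2)) (2 * (k + 2) + 1)) : ∃ j ρ, Sd k j F ρ lam := by
  obtain ⟨j, ρ, h1, h2, h3, h4, h5⟩ := h
  exact ⟨j, ρ, by omega, h2, h3, h4, fun g hg B a1 a2 a3 => h5 g hg B a1 a2 (by omega)⟩

theorem cross_of {X ρ : Finset (Finset ℕ)} (h : ∀ x ∈ X, ∀ g ∈ ρ, ¬ Disjoint x g) :
    Cross X ρ := fun x hx g hg => by
  obtain ⟨y, h1, h2⟩ := not_disjoint_iff.1 (h x hx g hg)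
  exact ⟨y, h1, h2⟩

/-- the middle fibres cross the seed -/
theorem cross_mid {k j u y : ℕ} {F ρ : Finset (Finset ℕ)} {lam : ℝ} (hF : Good (k + 2) F)
    (hS : Sd k j F ρ lam) (hu : 2 * k + 3 ≤ u) (hu' : u ≤ 2 * k + 4) (hy : 2 * k + 3 ≤ y)
    (hy' : y ≤ 2 * k + 4) (huy : u ≠ y) : Cross (fib (2 * k + 2) F {2 * k + 2, y}) ρ := by
  refine cross_of fun x hx g hg hd => ?_
  have hT : Out (2 * k + 2) {2 * k + 2, y} := (out_singleton (by omega)).insert le_rfl
  have hc := card_of_mem_fib hF.1 hT hx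
  rw [card_pair (by omega)] at hc
  rw [mem_fib_two] at hx
  have hg' := (mem_powersetCard.1 (hS.2.1 hg)).1
  have h1 := hS.2.2.2.2 g hg (range (2 * k + 2) \ x) (subset_sdiff.2 ⟨hg', hd.symm⟩)
    (sdiff_subset.trans (range_mono (by omega)))
    (by rw [card_sdiff_of_subset hx.1, card_range]; omega)
  have h2 := hF.2.2.swap h1 hu' (by simp) (by simp; omega)
  refine hF.not_disjoint h2 hx.2 (disjoint_left.2 fun z hz hz' => ?_)
  simp only [mem_insert, mem_sdiff, mem_range] at hz hz'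
  rcases hz' with rfl | rfl | hz'
  · omega
  · omega
  · have := mem_range.1 (hx.1 hz')
    rcases hz with rfl | rfl | hz
    · omega
    · omega
    · exact hz.2 hz'

/-- the top fibre crosses the seed -/
theorem cross_top {k j : ℕ} {F ρ : Finset (Finset ℕ)} {lam : ℝ} (hF : Good (k + 2) F)
    (hS : Sd k j F ρ lam) : Cross (fib (2 * k + 3) F {2 * k + 3, 2 * k + 4}) ρ := by
  refine cross_of fun x hx g hg hd => ?_
  have hT : Out (2 * k + 3) {2 * k + 3, 2 * k + 4} := (out_singleton (by omega)).insert le_rfl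
  have hc := card_of_mem_fib hF.1 hT hx
  rw [card_pair (by omega)] at hc
  rw [mem_fib_two] at hx
  obtain ⟨hg', hgc⟩ := mem_powersetCard.1 (hS.2.1 hg)
  have hB : (range (2 * k + 3) \ x).card = k + 2 := by
    rw [card_sdiff_of_subset hx.1, card_range]; omega
  have hgB : g ⊆ range (2 * k + 3) \ x :=
    subset_sdiff.2 ⟨hg'.trans (range_mono (by omega)), hd.symm⟩
  obtain ⟨q, hq, hq'⟩ := exists_mem_notMem_of_card_lt_card
    (show g.card < (range (2 * k + 3) \ x).card by have := hS.1; omega)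
  have h1 := hS.2.2.2.2 g hg ((range (2 * k + 3) \ x).erase q)
    (subset_erase.2 ⟨hgB, hq'⟩) ((erase_subset _ _).trans sdiff_subset)
    (by rw [card_erase_of_mem hq, hB]; rfl)
  have hq2 := mem_range.1 (mem_sdiff.1 hq).1
  have h2 := hF.2.2.swap h1 (show q ≤ 2 * k + 4 by omega) (by simp) (by simp; omega)
  refine hF.not_disjoint h2 hx.2 (disjoint_left.2 fun z hz hz' => ?_)
  simp only [mem_insert, mem_erase, mem_sdiff, mem_range] at hz hz'
  rcases hz' with rfl | rfl | hz'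
  · omega
  · omega
  · have := mem_range.1 (hx.1 hz')
    rcases hz with rfl | rfl | hz
    · exact (mem_sdiff.1 hq).2 hz'
    · omega
    · exact hz.2.2 hz'

/-- the bound for a middle fibre -/
theorem mid (hC : CT) (hG : GStmt) {k j u y : ℕ} {F ρ : Finset (Finset ℕ)} {lam c : ℝ}
    (hF : Good (k + 2) F) (hS : Sd k j F ρ lam) (hc0 : 0 ≤ c) (hc1 : c ≤ 1) (hl : 1 ≤ lam)
    (hst : Stop lam lam c (k + 1)) (hu : 2 * k + 3 ≤ u) (hu' : u ≤ 2 * k + 4)
    (hy : 2 * k + 3 ≤ y) (hy' : y ≤ 2 * k + 4) (huy : u ≠ y) :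
    c * catalan (k + 1) - lam * (2 * k + 2).choose (k + 1) + (2 * k + 2).choose (k + 2) ≤
      ((∂ (fib (2 * k + 2) F {2 * k + 2, y})).card : ℝ) -
        lam * (fib (2 * k + 2) F {2 * k + 2, y}).card := by
  have hT : Out (2 * k + 2) {2 * k + 2, y} := (out_singleton (by omega)).insert le_rfl
  have h1 := hG lam lam c (k + 1) (2 * k + 2) (k + 1) (k + 1) j _ ρ hc0 hc1 hl hst (by omega)
    (by omega) hS.1 hS.1 (fib_subset hF.1 hT (by rw [card_pair (by omega)])) (hF.2.2.fib hT)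
    hS.2.1 hS.2.2.1 hS.2.2.2.1 (cross_mid hF hS hu hu' hy hy' huy)
  have h2 : (2 * k + 2).choose (k + 1) = (2 * k + 2).choose (k + 2) + catalan (k + 1) :=
    hC.c2 (k + 2) (by omega)
  have h3 : ((2 * k + 2).choose (k + 1) : ℝ) - (2 * k + 2).choose (k + 1 + 1) =
      catalan (k + 1) := by
    rw [h2]; push_cast; ring
  rwa [h3] at h1

theorem pas (n r : ℕ) : ((n + 1).choose (r + 1) : ℝ) = n.choose r + n.choose (r + 1) := by
  rw [Nat.choose_succ_succ']; push_cast; rfl

end Bud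

open Bud

theorem budA (hK : KN) (hC : CT) (hG : GStmt) : BudAStmt := by
  intro K F lam c hK3 hF hc0 hc1 hl hst hS hf
  obtain ⟨k, rfl⟩ : ∃ k, K = k + 2 := ⟨K - 2, by omega⟩
  obtain ⟨j, ρ, hS⟩ := sd hS
  change (2 * k + 4).choose (k + 3) ≤ (fib (2 * k + 4) F ∅).card + (2 * k + 2).choose (k + 1) at hf
  change Stop lam lam c (k + 1) at hst
  change c * catalan (k + 1) + (2 * k + 4).choose (k + 2) - lam * (2 * k + 4).choose (k + 3) ≤
      ((∂ (fib (2 * k + 4) F ∅)).card : ℝ) - lam * (fib (2 * k + 4) F ∅).card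
  have hsym : (2 * k + 4).choose (k + 3) = (2 * k + 4).choose (k + 1) :=
    Nat.choose_symm_of_eq_add (by omega)
  have hsy2 : (2 * k + 1).choose (k + 1) = (2 * k + 1).choose k :=
    Nat.choose_symm_of_eq_add (by omega)
  have hY : fib (2 * k + 4) F ∅ ⊆ powersetCard (k + 3) (range (2 * k + 4)) :=
    fib_subset hF.1 (out_empty _) (by simp)
  obtain ⟨s, hs⟩ := Nat.exists_eq_add_of_le (card_le_choose hY)
  rcases le_total ((2 * k + 1).choose (k + 1)) s with h | h
  · have h2 := hK.thm _ _ (card_eq_of_subset hY)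
    have h3 := hK.dual (k + 1) (k + 3) s (by omega)
      (by rw [show k + 1 + (k + 3) = 2 * k + 4 by omega]; omega)
    rw [show k + 1 + (k + 3) = 2 * k + 4 by omega,
      show (2 * k + 4).choose (k + 1) - s = (fib (2 * k + 4) F ∅).card by omega] at h3
    have h4 := hst (k + 1) ((2 * k + 1).choose (k + 1)) s (by omega) le_rfl
      (Nat.choose_pos (by omega)) h (by rw [show 2 * (k + 1) = 2 * k + 2 by omega]; omega)
      (by
        rw [kk_choose (by omega), hsy2]
        exact le_mul_of_one_le_left (Nat.cast_nonneg _) hl)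
    have h6 : ((2 * k + 4).choose (k + 2) : ℝ) ≤
        (∂ (fib (2 * k + 4) F ∅)).card + cl (k + 1) s := by
      exact_mod_cast (by rw [← h3]; omega :
        (2 * k + 4).choose (k + 2) ≤ (∂ (fib (2 * k + 4) F ∅)).card + cl (k + 1) s)
    have h7 : ((2 * k + 4).choose (k + 3) : ℝ) = (fib (2 * k + 4) F ∅).card + s := by
      exact_mod_cast hs
    rw [h7]
    linarith
  · have c1 := card_fib_split (2 * k + 3) F ∅
    have c2 := card_fib_split (2 * k + 2) F {2 * k + 3}
    have d1 := shadow_fib_split (2 * k + 3) F ∅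
    have d2 := shadow_fib_split (2 * k + 2) F {2 * k + 3}
    rw [insert_empty_eq] at c1 d1
    have hT : Out (2 * k + 2) {2 * k + 2, 2 * k + 3} := (out_singleton (by omega)).insert le_rfl
    have y1 : fib (2 * k + 3) F ∅ ⊆ powersetCard (k + 3) (range (2 * k + 3)) :=
      fib_subset hF.1 (out_empty _) (by simp)
    have y2 : fib (2 * k + 2) F {2 * k + 3} ⊆ powersetCard (k + 2) (range (2 * k + 2)) :=
      fib_subset hF.1 (out_singleton (by omega)) (by simp)
    have y3 : fib (2 * k + 2) F {2 * k + 2, 2 * k + 3} ⊆ powersetCard (k + 1) (range (2 * k + 2)) :=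
      fib_subset hF.1 hT (by rw [card_pair (by omega)])
    have b1 := card_le_choose y1
    have b2 := card_le_choose y2
    have b3 := card_le_choose y3
    have s1 : (2 * k + 3).choose (k + 3) = (2 * k + 3).choose k :=
      Nat.choose_symm_of_eq_add (by omega)
    have s2 : (2 * k + 2).choose (k + 2) = (2 * k + 2).choose k :=
      Nat.choose_symm_of_eq_add (by omega)
    have p1 : (2 * k + 4).choose (k + 1) = (2 * k + 3).choose k + (2 * k + 3).choose (k + 1) :=
      Nat.choose_succ_succ' _ _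
    have p2 : (2 * k + 3).choose (k + 1) = (2 * k + 2).choose k + (2 * k + 2).choose (k + 1) :=
      Nat.choose_succ_succ' _ _
    change _ = (fib (2 * k + 4) F ∅).card at c1
    change _ = (fib (2 * k + 3) F {2 * k + 3}).card at c2
    change _ ≤ (∂ (fib (2 * k + 4) F ∅)).card at d1
    change _ ≤ (∂ (fib (2 * k + 3) F {2 * k + 3})).card at d2
    have f1 := few hK (k := k) (by omega) (by omega) hl y1 (by omega)
    have f2 := few hK (k := k) (by omega) (by omega) hl y2 (by omega)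
    have f3 := mid hC hG (u := 2 * k + 4) (y := 2 * k + 3) hF hS hc0 hc1 hl hst (by omega) le_rfl
      le_rfl (by omega) (by omega)
    have q1 : ((2 * k + 4).choose (k + 2) : ℝ) = _ := pas (2 * k + 3) (k + 1)
    have q2 : ((2 * k + 3).choose (k + 1 + 1) : ℝ) = _ := pas (2 * k + 2) (k + 1)
    have e1 : ((fib (2 * k + 4) F ∅).card : ℝ) = (fib (2 * k + 3) F ∅).card +
        (fib (2 * k + 2) F {2 * k + 3}).card + (fib (2 * k + 2) F {2 * k + 2, 2 * k + 3}).card := by
      rw [← c1, ← c2]; push_cast; ring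
    have e2 : ((∂ (fib (2 * k + 3) F ∅)).card : ℝ) + (∂ (fib (2 * k + 2) F {2 * k + 3})).card +
        (∂ (fib (2 * k + 2) F {2 * k + 2, 2 * k + 3})).card ≤ (∂ (fib (2 * k + 4) F ∅)).card := by
      exact_mod_cast (by omega)
    rw [hsym, p1, p2, e1, q1, q2]
    push_cast
    linarith

theorem budB (hK : KN) (hC : CT) (hL : LY) (hG : GStmt) : BudBStmt := by
  intro K F lam c hK3 hF hc0 hc1 hl hst hS hx
  obtain ⟨k, rfl⟩ : ∃ k, K = k + 2 := ⟨K - 2, by omega⟩
  obtain ⟨j, ρ, hS⟩ := sd hS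
  change (2 * k + 3).choose (k + 2) ≤ (fib (2 * k + 4) F {2 * k + 4}).card at hx
  change Stop lam lam c (k + 1) at hst
  change c * ((catalan (k + 2) : ℝ) + catalan (k + 1)) + (2 * k + 4).choose (k + 3) -
      lam * (2 * k + 4).choose (k + 2) ≤
      ((∂ (fib (2 * k + 4) F {2 * k + 4})).card : ℝ) - lam * (fib (2 * k + 4) F {2 * k + 4}).card
  have c1 := card_fib_split (2 * k + 3) F {2 * k + 4}
  have c2 := card_fib_split (2 * k + 2) F {2 * k + 4}
  have d1 := shadow_fib_split (2 * k + 3) F {2 * k + 4}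
  have d2 := shadow_fib_split (2 * k + 2) F {2 * k + 4}
  change _ = (fib (2 * k + 4) F {2 * k + 4}).card at c1
  change _ = (fib (2 * k + 3) F {2 * k + 4}).card at c2
  change _ ≤ (∂ (fib (2 * k + 4) F {2 * k + 4})).card at d1
  change _ ≤ (∂ (fib (2 * k + 3) F {2 * k + 4})).card at d2
  have hT : Out (2 * k + 3) {2 * k + 3, 2 * k + 4} := (out_singleton (by omega)).insert le_rfl
  have x0 : fib (2 * k + 3 + 1) F {2 * k + 4} ⊆ powersetCard (k + 2) (range (2 * k + 3 + 1)) :=
    fib_subset hF.1 (out_singleton (by omega)) (by simp)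
  have x1 : fib (2 * k + 2 + 1) F {2 * k + 4} ⊆ powersetCard (k + 2) (range (2 * k + 2 + 1)) :=
    fib_subset hF.1 (out_singleton (by omega)) (by simp)
  have x2 : fib (2 * k + 2) F {2 * k + 4} ⊆ powersetCard (k + 2) (range (2 * k + 2)) :=
    fib_subset hF.1 (out_singleton (by omega)) (by simp)
  have t0 := hL.dens _ _ _ x0 (hF.2.2.fib (out_singleton (by omega))) (by omega)
  have t1 := hL.dens _ _ _ x1 (hF.2.2.fib (out_singleton (by omega))) (by omega)
  rw [nonMember_fib] at t0 t1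
  have n2 : (2 * k + 4).choose (k + 2) = 2 * (2 * k + 3).choose (k + 2) := hC.two (k + 2) (by omega)
  have w2 : (2 * k + 2).choose (k + 1) = 2 * (2 * k + 1).choose (k + 1) := hC.w2 (k + 2) (by omega)
  have w3 : (2 * k + 2).choose (k + 1) = (2 * k + 2).choose (k + 2) + catalan (k + 1) :=
    hC.c2 (k + 2) (by omega)
  have w4 : (2 * k + 3).choose (k + 2) = (2 * k + 3).choose (k + 3) + catalan (k + 2) :=
    hC.c1 (k + 2) (by omega)
  have s2 : (2 * k + 2).choose (k + 2) = (2 * k + 2).choose k :=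
    Nat.choose_symm_of_eq_add (by omega)
  have hsy2 : (2 * k + 1).choose (k + 1) = (2 * k + 1).choose k :=
    Nat.choose_symm_of_eq_add (by omega)
  change (fib (2 * k + 4) F {2 * k + 4}).card * _ ≤ _ * (2 * k + 4).choose (k + 2) at t0
  change (fib (2 * k + 3) F {2 * k + 4}).card * _ ≤ _ * (2 * k + 3).choose (k + 2) at t1
  have hN : 0 < (2 * k + 3).choose (k + 2) := Nat.choose_pos (by omega)
  have u0 : (2 * k + 3).choose (k + 2) ≤ 2 * (fib (2 * k + 3) F {2 * k + 4}).card := by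
    refine Nat.le_of_mul_le_mul_right ?_ hN
    rw [n2] at t0
    linarith [Nat.mul_le_mul_right ((2 * k + 3).choose (k + 2)) hx]
  have u1 : (2 * k + 2).choose (k + 2) ≤ 2 * (fib (2 * k + 2) F {2 * k + 4}).card := by
    refine Nat.le_of_mul_le_mul_right ?_ hN
    linarith [Nat.mul_le_mul_right ((2 * k + 2).choose (k + 2)) u0]
  have f1 := few hK (k := k) (by omega) (by omega) hl x2 (by omega)
  have f2 := mid hC hG (u := 2 * k + 3) (y := 2 * k + 4) hF hS hc0 hc1 hl hst le_rfl (by omega)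
    (by omega) le_rfl (by omega)
  have f3 := hG lam lam c (k + 1) (2 * k + 3) (k + 2) (k + 1) j _ ρ hc0 hc1 hl hst (by omega)
    (by omega) (hS.1.trans (by omega)) hS.1 (fib_subset hF.1 hT (by rw [card_pair (by omega)]))
    (hF.2.2.fib hT) (subset_range_mono hS.2.1 (by omega)) hS.2.2.1 hS.2.2.2.1 (cross_top hF hS)
  have h3 : ((2 * k + 3).choose (k + 2) : ℝ) - (2 * k + 3).choose (k + 2 + 1) =
      catalan (k + 2) := by
    rw [w4]; push_cast; ring
  rw [h3] at f3
  have q1 : ((2 * k + 4).choose (k + 3) : ℝ) = _ := pas (2 * k + 3) (k + 2)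
  have q2 : ((2 * k + 4).choose (k + 2) : ℝ) = _ := pas (2 * k + 3) (k + 1)
  have q3 : ((2 * k + 3).choose (k + 1) : ℝ) = _ := pas (2 * k + 2) k
  have q4 : ((2 * k + 3).choose (k + 2) : ℝ) = _ := pas (2 * k + 2) (k + 1)
  have e1 : ((fib (2 * k + 4) F {2 * k + 4}).card : ℝ) = (fib (2 * k + 2) F {2 * k + 4}).card +
      (fib (2 * k + 2) F {2 * k + 2, 2 * k + 4}).card +
      (fib (2 * k + 3) F {2 * k + 3, 2 * k + 4}).card := by
    rw [← c1, ← c2]; push_cast; ring
  have e2 : ((∂ (fib (2 * k + 2) F {2 * k + 4})).card : ℝ) +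
      (∂ (fib (2 * k + 2) F {2 * k + 2, 2 * k + 4})).card +
      (∂ (fib (2 * k + 3) F {2 * k + 3, 2 * k + 4})).card ≤
      (∂ (fib (2 * k + 4) F {2 * k + 4})).card := by
    exact_mod_cast (by omega)
  rw [e1, q1, q2, q3]
  linarith

end Pool.Agent.MP_d50107_co.H61
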