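import Pool.Agent.MP_d50107_co.H61.Basic

/-! The three candidates. -/

namespace Pool.Agent.MP_d50107_co.H61

open Finset
open scoped FinsetFamily

namespace CDa

/-- `C(k+t,k) + C(k-1+t,k-1) + ...` with `j+1` terms -/
def nn (t : ℕ) : ℕ → ℕ → ℕ
  | k, 0 => (k + t).choose k
  | k, j + 1 => (k + t).choose k + nn t (k - 1) j

/-- the weighted sum `0 C(k+t,k) + 1 C(k-1+t,k-1) + ...` with `j+1` terms -/
def pp (t : ℕ) : ℕ → ℕ → ℕ
  | _, 0 => 0
  | k, j + 1 => pp t (k - 1) j + nn t (k - 1) j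

theorem nn_zero (t k : ℕ) : nn t k 0 = (k + t).choose k := by rw [nn]

theorem nn_succ (t k j : ℕ) : nn t (k + 1) (j + 1) = (k + 1 + t).choose (k + 1) + nn t k j := by
  rw [nn, Nat.add_sub_cancel]

theorem pp_zero (t k : ℕ) : pp t k 0 = 0 := by rw [pp]

theorem pp_succ (t k j : ℕ) : pp t (k + 1) (j + 1) = pp t k j + nn t k j := by
  rw [pp, Nat.add_sub_cancel]

theorem w_pos (t k : ℕ) : 1 ≤ (k + t).choose k := Nat.choose_pos (by omega)

theorem w_mono (t k : ℕ) : (k + t).choose k ≤ (k + 1 + t).choose (k + 1) := by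
  rw [show k + 1 + t = k + t + 1 by ring, Nat.choose_succ_succ']
  omega

theorem nn_pos (t k j : ℕ) : 1 ≤ nn t k j := by
  have := w_pos t k
  cases j with
  | zero => rwa [nn_zero]
  | succ j => rw [nn]; omega

theorem nn_le (t : ℕ) : ∀ j k : ℕ, j ≤ k → nn t k j ≤ (k + 1 + t).choose k := by
  intro j
  induction j with
  | zero =>
    intro k _
    rw [nn_zero]
    exact Nat.choose_le_choose _ (by omega)
  | succ j ih =>
    intro k hk
    obtain ⟨k, rfl⟩ : ∃ k', k = k' + 1 := ⟨k - 1, by omega⟩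
    have := ih k (by omega)
    rw [nn_succ, show k + 1 + 1 + t = k + 1 + t + 1 by ring, Nat.choose_succ_succ']
    omega

theorem nn_self (t : ℕ) : ∀ k : ℕ, nn t k k = (k + 1 + t).choose k := by
  intro k
  induction k with
  | zero => simp [nn_zero]
  | succ k ih =>
    rw [nn_succ, ih, show k + 1 + 1 + t = k + 1 + t + 1 by ring,
      Nat.choose_succ_succ' (k + 1 + t) k, add_comm]

theorem nn_mono (t : ℕ) : ∀ j k : ℕ, j ≤ k → nn t k j ≤ nn t (k + 1) j := by
  intro j
  induction j with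
  | zero =>
    intro k _
    rw [nn_zero, nn_zero]
    exact w_mono t k
  | succ j ih =>
    intro k hk
    obtain ⟨k, rfl⟩ : ∃ k', k = k' + 1 := ⟨k - 1, by omega⟩
    have h1 := ih k (by omega)
    have h2 := w_mono t (k + 1)
    rw [nn_succ, nn_succ]
    omega

theorem id_down (t k : ℕ) :
    (t + 1) * (k + 1 + t).choose k = (k + 1) * (k + 1 + t).choose (k + 1) := by
  have := Nat.choose_succ_right_eq (k + 1 + t) k
  rw [show k + 1 + t - k = t + 1 by omega] at this
  linarith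

theorem id_up (t k : ℕ) : (k + 1) * (k + t).choose (k + 1) = t * (k + t).choose k := by
  have := Nat.choose_succ_right_eq (k + t) k
  rw [show k + t - k = t by omega] at this
  linarith

theorem kk_nn (t : ℕ) : ∀ j k : ℕ, j ≤ k →
    (t + 1) * kk k (nn t k j) + pp t k j = k * nn t k j := by
  intro j
  induction j with
  | zero =>
    intro k _
    rcases k with _ | k
    · simp [pp_zero]
    · rw [nn_zero, pp_zero, kk_choose (by omega), id_down, add_zero]
  | succ j ih =>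
    intro k hk
    obtain ⟨k, rfl⟩ : ∃ k', k = k' + 1 := ⟨k - 1, by omega⟩
    have h1 := ih k (by omega)
    have h2 := id_down t k
    rw [nn_succ, pp_succ, kk_block (by omega) (nn_le t j k (by omega))]
    linarith

theorem quad (t W : ℕ) : ∀ j k : ℕ, j ≤ k → (k + t).choose k ≤ W →
    nn t k j * nn t k j ≤ 2 * W * pp t k j + W * nn t k j := by
  intro j
  induction j with
  | zero =>
    intro k _ hW
    rw [nn_zero, pp_zero]
    have := Nat.mul_le_mul_right ((k + t).choose k) hW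
    linarith
  | succ j ih =>
    intro k hk hW
    obtain ⟨k, rfl⟩ : ∃ k', k = k' + 1 := ⟨k - 1, by omega⟩
    have h1 := ih k (by omega) ((w_mono t k).trans hW)
    rw [nn_succ, pp_succ]
    have h2 := Nat.mul_le_mul_right ((k + 1 + t).choose (k + 1)) hW
    have h3 := Nat.mul_le_mul_right (nn t k j) hW
    nlinarith

theorem kf_eq (t : ℕ) (i : ℝ) : kf i ((t : ℝ) + 2) = i / (t + 1) - t / (i + 1) := by
  rw [kf]
  congr 2 <;> ring

theorem kf_mono (t k : ℕ) : kf k ((t : ℝ) + 2) ≤ kf ((k : ℝ) + 1) ((t : ℝ) + 2) := by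
  rw [kf_eq, kf_eq]
  have h1 : (k : ℝ) / (t + 1) ≤ ((k : ℝ) + 1) / (t + 1) := by gcongr; linarith
  have h2 : (t : ℝ) / (k + 1 + 1) ≤ (t : ℝ) / (k + 1) := by gcongr; linarith
  linarith

theorem kf_nonneg {t k : ℕ} (h : t + 1 ≤ k) : 0 ≤ kf k ((t : ℝ) + 2) := by
  rw [kf_eq]
  have h0 : (t : ℝ) + 1 ≤ k := by exact_mod_cast h
  have h1 : (1 : ℝ) ≤ (k : ℝ) / (t + 1) := by
    rw [le_div_iff₀ (by positivity)]; linarith
  have h2 : (t : ℝ) / (k + 1) ≤ 1 := by
    rw [div_le_iff₀ (by positivity)]; linarith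
  linarith

theorem block_eq (t k : ℕ) :
    ((k + 1 + t).choose k : ℝ) - ((k + 1 + t).choose (k + 2) : ℝ) =
      ((k + 1 + t).choose (k + 1) : ℝ) * kf ((k : ℝ) + 1) ((t : ℝ) + 2) := by
  have h1 : ((t : ℝ) + 1) * ((k + 1 + t).choose k : ℝ) =
      ((k : ℝ) + 1) * ((k + 1 + t).choose (k + 1) : ℝ) := by exact_mod_cast id_down t k
  have h2 : ((k : ℝ) + 1 + 1) * ((k + 1 + t).choose (k + 2) : ℝ) =
      (t : ℝ) * ((k + 1 + t).choose (k + 1) : ℝ) := by exact_mod_cast id_up t (k + 1)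
  have h3 : ((k + 1 + t).choose k : ℝ) =
      ((k : ℝ) + 1) * ((k + 1 + t).choose (k + 1) : ℝ) / (t + 1) := by
    rw [eq_div_iff (by positivity)]; linarith
  have h4 : ((k + 1 + t).choose (k + 2) : ℝ) =
      (t : ℝ) * ((k + 1 + t).choose (k + 1) : ℝ) / (k + 1 + 1) := by
    rw [eq_div_iff (by positivity)]; linarith
  rw [kf_eq, h3, h4]
  ring

theorem step (t j k : ℕ) (hk : 1 ≤ k) (hj : j ≤ k) :
    (kk (k + 1) (nn t (k + 1) (j + 1)) : ℝ) - cl (k + 1) (nn t (k + 1) (j + 1)) =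
      ((k + 1 + t).choose (k + 1) : ℝ) * kf ((k : ℝ) + 1) ((t : ℝ) + 2) +
        ((kk k (nn t k j) : ℝ) - cl k (nn t k j)) := by
  rw [nn_succ, kk_block (by omega) (nn_le t j k hj), cl_block hk (nn_le t j k hj), ← block_eq]
  push_cast
  ring

theorem excess (t : ℕ) : ∀ j k : ℕ, j ≤ k + 1 →
    (kk (k + 1) (nn t (k + 1) j) : ℝ) - cl (k + 1) (nn t (k + 1) j) ≤
      (nn t (k + 1) j : ℝ) * kf ((k : ℝ) + 1) ((t : ℝ) + 2) := by
  intro j
  induction j with
  | zero =>
    intro k _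
    rw [nn_zero, kk_choose (by omega), cl_choose, block_eq]
  | succ j ih =>
    intro k hk
    rcases k with _ | k
    · obtain rfl : j = 0 := by omega
      have h1 : ((0 + 1 + (t + 1)).choose 0 : ℝ) - ((0 + 1 + (t + 1)).choose (0 + 2) : ℝ) = _ :=
        block_eq (t + 1) 0
      have h2 : nn t (0 + 1) (0 + 1) = (0 + 1 + (t + 1)).choose (0 + 1) := by
        rw [nn_self]; congr 1; ring
      rw [h2, kk_choose (by omega), cl_choose, h1]
      refine mul_le_mul_of_nonneg_left ?_ (by positivity)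
      rw [kf_eq, kf_eq]
      push_cast
      have h3 : ((0 : ℝ) + 1) / ((t : ℝ) + 1 + 1) ≤ ((0 : ℝ) + 1) / ((t : ℝ) + 1) := by
        gcongr; linarith
      have h4 : (t : ℝ) / (0 + 1 + 1) ≤ ((t : ℝ) + 1) / (0 + 1 + 1) := by
        gcongr; linarith
      linarith
    · have h1 := ih k (by omega)
      have h2 := kf_mono t (k + 1)
      rw [step t j (k + 1) (by omega) (by omega), nn_succ]
      have h3 : (0 : ℝ) ≤ (nn t (k + 1) j : ℝ) := by positivity
      have h4 := mul_le_mul_of_nonneg_left h2 h3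
      push_cast at h4 ⊢
      linarith

theorem nn_le_NN {t K j : ℕ} (h : t + 2 ≤ K) (hj : j ≤ K) : nn t K j ≤ NN K :=
  (nn_le t j K hj).trans (Nat.choose_le_choose _ (by omega))

theorem allowed_top {t K : ℕ} {lam : ℝ} (h : (K : ℝ) ≤ lam * ((t : ℝ) + 2)) :
    (kk K (nn (t + 1) K 0) : ℝ) ≤ lam * nn (t + 1) K 0 := by
  have h1 : ((t : ℝ) + 1 + 1) * (kk K (nn (t + 1) K 0) : ℝ) = K * (nn (t + 1) K 0 : ℝ) := by
    have := kk_nn (t + 1) 0 K (by omega)
    rw [pp_zero, add_zero] at this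
    exact_mod_cast this
  have h2 : (0 : ℝ) ≤ (nn (t + 1) K 0 : ℝ) := by positivity
  have h3 := mul_le_mul_of_nonneg_right h h2
  have h4 : (0 : ℝ) < (t : ℝ) + 1 + 1 := by positivity
  refine le_of_mul_le_mul_left ?_ h4
  linarith

theorem nn_top (t K : ℕ) : nn (t + 1) K 0 = nn t K K := by
  rw [nn_zero, nn_self]; congr 1; ring

/-- the excess of a candidate with at least two blocks -/
theorem excess_succ {t k j : ℕ} (hj : j ≤ k + 1) :
    (kk (k + 2) (nn t (k + 2) (j + 1)) : ℝ) - cl (k + 2) (nn t (k + 2) (j + 1)) ≤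
      ((k + 2 + t).choose (k + 2) : ℝ) * kf ((k : ℝ) + 2) ((t : ℝ) + 2) +
        (nn t (k + 1) j : ℝ) * kf ((k : ℝ) + 1) ((t : ℝ) + 2) := by
  have h1 := step t j (k + 1) (by omega) hj
  have h2 := excess t j k hj
  push_cast at h1
  rw [show (k : ℝ) + 1 + 1 = k + 2 by ring] at h1
  rw [show k + 2 = k + 1 + 1 from rfl, h1]
  linarith

theorem exists_jump {p : ℕ → Prop} : ∀ n : ℕ, ¬ p 0 → p n → ∃ i, i < n ∧ ¬ p i ∧ p (i + 1) := by
  intro n
  induction n with
  | zero => exact fun h1 h2 => absurd h2 h1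
  | succ n ih =>
    intro h1 h2
    by_cases h : p n
    · obtain ⟨i, hi, h3⟩ := ih h1 h
      exact ⟨i, by omega, h3⟩
    · exact ⟨n, by omega, h, h2⟩

end CDa

open CDa in
theorem cd : CD := by
  refine ⟨fun lam K T hT hK hW => ?_, fun lam K T hT hK hW hA => ?_, fun lam K T hT hK hW => ?_⟩
  all_goals
    obtain ⟨t, rfl⟩ : ∃ t, T = t + 2 := ⟨T - 2, by omega⟩
    obtain ⟨k, rfl⟩ : ∃ k, K = k + 2 := ⟨K - 2, by omega⟩
    obtain ⟨-, hlt, hle⟩ := hW
    rw [show k + 2 + (t + 2) - 2 = k + 2 + t by omega]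
    have hw : (0 : ℝ) < ((k + 2 + t).choose (k + 2) : ℝ) := by exact_mod_cast w_pos t (k + 2)
    have ht : (0 : ℝ) < (t : ℝ) + 1 := by positivity
    push_cast at hlt hle ⊢
  · refine ⟨nn (t + 1) (k + 2) 0, nn_pos _ _ _, ?_, allowed_top (by push_cast; exact hle), ?_⟩
    · rw [nn_top]
      exact nn_le_NN hK le_rfl
    · have h1 := excess (t + 1) 0 (k + 1) (by omega)
      have h2 : ((k + 2 + t).choose (k + 2) : ℝ) * ((k : ℝ) + 2 + t + 1) =
          (nn (t + 1) (k + 2) 0 : ℝ) * ((t : ℝ) + 1) := by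
        have := Nat.choose_mul_succ_eq (k + 2 + t) (k + 2)
        rw [show k + 2 + t + 1 - (k + 2) = t + 1 by omega] at this
        rw [nn_zero, ← add_assoc]
        exact_mod_cast this
      have h3 : (nn (t + 1) (k + 2) 0 : ℝ) =
          ((k + 2 + t).choose (k + 2) : ℝ) * (((k : ℝ) + 2 + (t + 2) - 1) / ((t : ℝ) + 2 - 1)) := by
        rw [show (t : ℝ) + 2 - 1 = t + 1 by ring, ← mul_div_assoc, eq_div_iff ht.ne']
        linarith
      push_cast at h1
      rw [show (k : ℝ) + 1 + 1 = k + 2 by ring, show (t : ℝ) + 1 + 2 = t + 2 + 1 by ring] at h1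
      rw [← mul_assoc, ← h3]
      exact h1
  · push_cast at hA
    have h2 : ((k : ℝ) + 2 + t) * (nn t (k + 1) 0 : ℝ) =
        ((k : ℝ) + 2) * ((k + 2 + t).choose (k + 2) : ℝ) := by
      have := Nat.add_one_mul_choose_eq (k + 1 + t) (k + 1)
      rw [show k + 1 + t + 1 = k + 2 + t by ring] at this
      rw [nn_zero, mul_comm ((k : ℝ) + 2)]
      exact_mod_cast this
    have hkt : (0 : ℝ) < (k : ℝ) + 2 + t := by positivity
    refine ⟨nn t (k + 2) 1, nn_pos _ _ _, nn_le_NN hK (by omega), ?_, ?_⟩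
    · have h1 : ((t : ℝ) + 1) * (kk (k + 2) (nn t (k + 2) 1) : ℝ) + (nn t (k + 1) 0 : ℝ) =
          ((k : ℝ) + 2) * (nn t (k + 2) 1 : ℝ) := by
        have := kk_nn t 1 (k + 2) (by omega)
        rw [show pp t (k + 2) 1 = nn t (k + 1) 0 by
          rw [show pp t (k + 2) 1 = pp t (k + 1 + 1) (0 + 1) from rfl, pp_succ, pp_zero,
            zero_add]] at this
        exact_mod_cast this
      have h3 : (nn t (k + 2) 1 : ℝ) =
          ((k + 2 + t).choose (k + 2) : ℝ) + (nn t (k + 1) 0 : ℝ) := by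
        exact_mod_cast nn_succ t (k + 1) 0
      have h4 := mul_le_mul_of_nonneg_right hA hw.le
      have h5 : (((k : ℝ) + 2) - lam * ((t : ℝ) + 1)) * (nn t (k + 2) 1 : ℝ) ≤
          (nn t (k + 1) 0 : ℝ) := by
        refine le_of_mul_le_mul_left ?_ hkt
        rw [h2, h3]
        have e : ((k : ℝ) + 2 + t) * ((((k : ℝ) + 2) - lam * ((t : ℝ) + 1)) *
            (((k + 2 + t).choose (k + 2) : ℝ) + (nn t (k + 1) 0 : ℝ))) =
            (((k : ℝ) + 2) - lam * ((t : ℝ) + 1)) *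
              (((k : ℝ) + 2 + t) * ((k + 2 + t).choose (k + 2) : ℝ) +
                ((k : ℝ) + 2 + t) * (nn t (k + 1) 0 : ℝ)) := by ring
        rw [e, h2]
        linarith
      refine le_of_mul_le_mul_left ?_ ht
      linarith
    · have h1 := excess_succ (t := t) (k := k) (j := 0) (by omega)
      have h3 : (nn t (k + 1) 0 : ℝ) = ((k + 2 + t).choose (k + 2) : ℝ) *
          (((k : ℝ) + 2) / ((k : ℝ) + 2 + (t + 2) - 2)) := by
        rw [show (k : ℝ) + 2 + (t + 2) - 2 = k + 2 + t by ring, ← mul_div_assoc,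
          eq_div_iff hkt.ne']
        linarith
      rw [show (k : ℝ) + 2 - 1 = k + 1 by ring, mul_add, ← mul_assoc, ← h3]
      exact h1
  · have hkk : ∀ j, j ≤ k + 2 →
        ((t : ℝ) + 1) * (kk (k + 2) (nn t (k + 2) j) : ℝ) + (pp t (k + 2) j : ℝ) =
          ((k : ℝ) + 2) * (nn t (k + 2) j : ℝ) := fun j hj => by
      exact_mod_cast kk_nn t j (k + 2) hj
    obtain ⟨i, hi, hno, hyes⟩ := exists_jump
      (p := fun j => (kk (k + 2) (nn t (k + 2) j) : ℝ) ≤ lam * nn t (k + 2) j) (k + 2) (by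
        intro h
        have h1 := hkk 0 (by omega)
        have h2 : (0 : ℝ) < (nn t (k + 2) 0 : ℝ) := by exact_mod_cast nn_pos t (k + 2) 0
        have h3 := mul_lt_mul_of_pos_right hlt h2
        have h4 := mul_le_mul_of_nonneg_left h ht.le
        rw [pp_zero] at h1
        push_cast at h1
        linarith) (by
        have := allowed_top (t := t) (K := k + 2) (lam := lam) (by push_cast; exact hle)
        rwa [nn_top] at this)
    refine ⟨nn t (k + 2) (i + 1), nn_pos _ _ _, nn_le_NN hK (by omega), hyes, ?_⟩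
    have h1 := excess_succ (t := t) (k := k) (j := i) (by omega)
    have h2 : (0 : ℝ) < (nn t (k + 2) i : ℝ) := by exact_mod_cast nn_pos t (k + 2) i
    have h3 : (nn t (k + 2) i : ℝ) * nn t (k + 2) i ≤
        2 * ((k + 2 + t).choose (k + 2) : ℝ) * pp t (k + 2) i +
          ((k + 2 + t).choose (k + 2) : ℝ) * nn t (k + 2) i := by
      exact_mod_cast quad t _ i (k + 2) (by omega) le_rfl
    have h4 := hkk i (by omega)
    have h5 := mul_lt_mul_of_pos_left (not_le.1 hno) ht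
    have h6 : (pp t (k + 2) i : ℝ) ≤
        (((k : ℝ) + 2) - lam * ((t : ℝ) + 1)) * (nn t (k + 2) i : ℝ) := by linarith
    have h7 := mul_le_mul_of_nonneg_left h6 hw.le
    have h8 : (nn t (k + 2) i : ℝ) ≤ ((k + 2 + t).choose (k + 2) : ℝ) *
        (2 * (((k : ℝ) + 2) - lam * ((t : ℝ) + 2 - 1)) + 1) := by
      refine le_of_mul_le_mul_right ?_ h2
      linarith
    have h9 : (nn t (k + 1) i : ℝ) ≤ (nn t (k + 2) i : ℝ) := by
      exact_mod_cast nn_mono t i (k + 1) (by omega)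
    have h10 := kf_nonneg (t := t) (k := k + 1) (by omega)
    push_cast at h10
    have h11 := mul_le_mul_of_nonneg_right (h9.trans h8) h10
    rw [show (k : ℝ) + 2 - 1 = k + 1 by ring]
    linarith

end Pool.Agent.MP_d50107_co.H61
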