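import Pool.Agent.MP_d50107_co.H61.Basic

/-! Binomial and Catalan facts. -/

namespace Pool.Agent.MP_d50107_co.H61

open Finset

namespace CTa

theorem mid (k : ℕ) : (2 * k).choose k = (k + 1) * catalan k :=
  (succ_mul_catalan_eq_centralBinom k).symm

theorem nxt (k : ℕ) : (2 * k).choose (k + 1) = k * catalan k := by
  have h := Nat.choose_succ_right_eq (2 * k) k
  rw [mid, show 2 * k - k = k by omega] at h
  exact Nat.eq_of_mul_eq_mul_right k.succ_pos (h.trans (by rw [Nat.succ_eq_add_one]; ring))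

theorem nb (k : ℕ) : (2 * k + 1).choose (k + 1) = (2 * k + 1) * catalan k := by
  rw [Nat.choose_succ_succ', mid, nxt]
  ring

theorem succ (i : ℕ) : (i + 2) * catalan (i + 1) = 2 * (2 * i + 1) * catalan i := by
  have h := Nat.succ_mul_centralBinom_succ i
  rw [← succ_mul_catalan_eq_centralBinom, ← succ_mul_catalan_eq_centralBinom] at h
  exact Nat.eq_of_mul_eq_mul_left i.succ_pos (h.trans (by rw [Nat.succ_eq_add_one]; ring))

theorem nn (k : ℕ) : NN (k + 1) = (2 * k + 1) * catalan k := nb k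

theorem ww (k : ℕ) : WW (k + 1) = (k + 1) * catalan k := mid k

theorem up (k : ℕ) : (2 * (k + 1)).choose (k + 1 + 1) =
    (2 * (k + 1) - 1).choose (k + 1 + 1) + NN (k + 1) :=
  (Nat.choose_succ_succ' (2 * k + 1) (k + 1)).trans (add_comm _ _)

theorem low (i t : ℕ) : ∀ w, w + t = 2 * i → w.choose i ≤ w.choose (i + 1) + catalan i := by
  induction t with
  | zero =>
    intro w h
    obtain rfl : w = 2 * i := h
    rw [mid, nxt]
    exact le_of_eq (by ring)
  | succ t ih =>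
    intro w h
    obtain ⟨j, rfl⟩ : ∃ j, i = j + 1 := ⟨i - 1, by omega⟩
    have h1 := ih (w + 1) (by omega)
    rw [Nat.choose_succ_succ', Nat.choose_succ_succ'] at h1
    have h2 : w.choose (j + 1) ≤ w.choose j := Nat.le_of_mul_le_mul_right
      ((Nat.choose_succ_right_eq w j).le.trans (Nat.mul_le_mul_left _ (by omega))) j.succ_pos
    omega

theorem hmax (w i : ℕ) : w.choose i ≤ w.choose (i + 1) + catalan i := by
  rcases le_or_gt w (2 * i) with h | h
  · exact low i (2 * i - w) w (by omega)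
  · exact (Nat.le_of_mul_le_mul_right ((Nat.mul_le_mul_left _ (by omega)).trans
      (Nat.choose_succ_right_eq w i).ge) i.succ_pos).trans (Nat.le_add_right _ _)

theorem ss (k : ℕ) : SS (k + 2) = SS (k + 1) + catalan (k + 1) :=
  sum_Ico_succ_top (by omega) _

theorem s1 : SS 1 = 0 := rfl

theorem s2 : SS 2 = 1 := by rw [ss 0, s1, catalan_one]

theorem s3 : SS 3 = 3 := by rw [ss 1, s2, catalan_two]

theorem s4 : SS 4 = 8 := by rw [ss 2, s3, catalan_three]

theorem inv1 : ∀ k : ℕ, 5 * SS (k + 2) ≤ 8 * catalan (k + 1)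
  | 0 => by rw [s2, catalan_one]; norm_num
  | 1 => by rw [s3, catalan_two]; norm_num
  | 2 => by rw [s4, catalan_three]
  | k + 3 => by
    have h1 := inv1 (k + 2)
    have h2 := succ (k + 3)
    have h3 : 8 * catalan (k + 3) ≤ 3 * catalan (k + 4) :=
      Nat.le_of_mul_le_mul_left (c := k + 5) (by nlinarith) (by omega)
    have h4 : SS (k + 5) = SS (k + 4) + catalan (k + 4) := ss (k + 3)
    change 5 * SS (k + 4) ≤ 8 * catalan (k + 3) at h1
    change 5 * SS (k + 5) ≤ 8 * catalan (k + 4)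
    omega

theorem inv2 : ∀ k : ℕ, (3 * k + 4) * SS (k + 2) ≤ (4 * k + 10) * catalan (k + 1)
  | 0 => by rw [s2, catalan_one]; norm_num
  | 1 => by rw [s3, catalan_two]; norm_num
  | k + 2 => by
    have h1 : (3 * k + 7) * SS (k + 3) ≤ (4 * k + 14) * catalan (k + 2) := inv2 (k + 1)
    have h2 : (k + 4) * catalan (k + 3) = 2 * (2 * k + 5) * catalan (k + 2) := succ (k + 2)
    have h4 : SS (k + 4) = SS (k + 3) + catalan (k + 3) := ss (k + 2)
    change (3 * k + 10) * SS (k + 4) ≤ (4 * k + 18) * catalan (k + 3)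
    have h3 : (3 * k + 10) * SS (k + 3) ≤ (k + 8) * catalan (k + 3) := by
      refine Nat.le_of_mul_le_mul_left (c := (3 * k + 7) * (2 * k + 5)) ?_ (by positivity)
      calc _ = (3 * k + 10) * (2 * k + 5) * ((3 * k + 7) * SS (k + 3)) := by ring
        _ ≤ (3 * k + 10) * (2 * k + 5) * ((4 * k + 14) * catalan (k + 2)) :=
          Nat.mul_le_mul_left _ h1
        _ = (3 * k + 10) * (2 * k + 7) * (2 * (2 * k + 5) * catalan (k + 2)) := by ring
        _ = (3 * k + 10) * (2 * k + 7) * (k + 4) * catalan (k + 3) := by rw [← h2]; ring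
        _ ≤ (3 * k + 7) * (2 * k + 5) * (k + 8) * catalan (k + 3) :=
          Nat.mul_le_mul_right _ (by nlinarith [Nat.zero_le (k * k), Nat.zero_le k])
        _ = _ := by ring
    rw [h4]
    linarith

end CTa

open CTa in
theorem ct : CT where
  hmax := CTa.hmax
  two K hK := by
    obtain ⟨k, rfl⟩ : ∃ k, K = k + 1 := ⟨K - 1, by omega⟩
    rw [mid, nn, CTa.succ, mul_assoc]
  nsym K hK := by
    obtain ⟨k, rfl⟩ : ∃ k, K = k + 1 := ⟨K - 1, by omega⟩
    exact (Nat.choose_symm_half k).symm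
  c0 K := by
    rw [mid, nxt]
    ring
  c1 K hK := by
    obtain ⟨k, rfl⟩ : ∃ k, K = k + 1 := ⟨K - 1, by omega⟩
    have h1 := CTa.up k
    have h2 := CTa.succ k
    rw [nxt, nn] at h1
    rw [nn]
    linarith
  c2 K hK := by
    obtain ⟨k, rfl⟩ : ∃ k, K = k + 1 := ⟨K - 1, by omega⟩
    change _ = (2 * k).choose (k + 1) + catalan k
    rw [ww, nxt]
    ring
  w2 K hK := by
    obtain ⟨k, rfl⟩ : ∃ k, K = k + 2 := ⟨K - 2, by omega⟩
    change WW (k + 1 + 1) = 2 * NN (k + 1)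
    rw [ww, nn, CTa.succ, mul_assoc]
  nw K hK := by
    obtain ⟨k, rfl⟩ : ∃ k, K = k + 1 := ⟨K - 1, by omega⟩
    exact Nat.choose_succ_succ' (2 * k) k
  up K hK := by
    obtain ⟨k, rfl⟩ : ∃ k, K = k + 1 := ⟨K - 1, by omega⟩
    exact CTa.up k
  nb K hK := by
    obtain ⟨k, rfl⟩ : ∃ k, K = k + 1 := ⟨K - 1, by omega⟩
    have h2 := CTa.succ k
    rw [NB, CTa.nb, nxt, nn]
    linarith
  wk K hK := by
    obtain ⟨k, rfl⟩ : ∃ k, K = k + 1 := ⟨K - 1, by omega⟩
    change _ = (2 * k + 1) * _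
    rw [nn, ww]
    ring
  wc K hK := by
    obtain ⟨k, rfl⟩ : ∃ k, K = k + 1 := ⟨K - 1, by omega⟩
    exact ww k
  succ := CTa.succ
  s2 K hK := by
    obtain ⟨k, rfl⟩ : ∃ k, K = k + 2 := ⟨K - 2, by omega⟩
    have h1 := inv1 k
    have h2 : (k + 3) * catalan (k + 2) = 2 * (2 * k + 3) * catalan (k + 1) := CTa.succ (k + 1)
    have h3 : catalan (k + 2) ≤ 4 * catalan (k + 1) :=
      Nat.le_of_mul_le_mul_left (c := k + 3) (by nlinarith) (by omega)
    change _ ≤ 12 * catalan (k + 1)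
    omega
  s3 K hK := by
    obtain ⟨k, rfl⟩ : ∃ k, K = k + 2 := ⟨K - 2, by omega⟩
    have h1 := inv1 k
    change _ ≤ 2 * catalan (k + 1)
    omega
  i1 K hK := by
    obtain ⟨k, rfl⟩ : ∃ k, K = k + 2 := ⟨K - 2, by omega⟩
    have h1 : (3 * k + 7) * SS (k + 3) ≤ (4 * k + 14) * catalan (k + 2) := inv2 (k + 1)
    have h4 : SS (k + 3) = SS (k + 2) + catalan (k + 2) := ss (k + 1)
    rw [NB, CTa.nb, add_comm (catalan _), ← h4, show 3 * (k + 2) - 2 = 3 * k + 4 by omega]
    refine Nat.le_of_mul_le_mul_left (c := 3 * k + 7) ?_ (by omega)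
    calc _ = (3 * k + 4) * ((3 * k + 7) * SS (k + 3)) := by ring
      _ ≤ (3 * k + 4) * ((4 * k + 14) * catalan (k + 2)) := Nat.mul_le_mul_left _ h1
      _ ≤ _ := by nlinarith [Nat.zero_le (catalan (k + 2))]
  i2 K hK := by
    obtain ⟨k, rfl⟩ : ∃ k, K = k + 2 := ⟨K - 2, by omega⟩
    rw [show 3 * (k + 2) - 2 = 3 * k + 4 by omega, ww (k + 1), mul_assoc]
    exact (Nat.mul_le_mul_left _ (inv2 k)).trans (le_of_eq (by ring))

end Pool.Agent.MP_d50107_co.H61
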