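import Pool.Agent.MP_d50107_co.H61.Basic

/-! The two cases that are closed by the global bound. -/

namespace Pool.Agent.MP_d50107_co.H61

open Finset
open scoped FinsetFamily

namespace CaseAM

theorem noStop_of {K : ℕ} {lam : ℝ} (hK : 2 ≤ K) (h : (lam - 1) * ((K : ℝ) - 2) < 1) :
    NoStop lam (K - 1) := by
  intro j h2 hj
  have h3 : (j : ℝ) + 1 ≤ K := by exact_mod_cast (show j + 1 ≤ K by omega)
  have h4 : (2 : ℝ) ≤ j := by exact_mod_cast h2
  rcases le_or_gt lam 1 with hl | hl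
  · nlinarith
  · linarith [mul_le_mul_of_nonneg_left (show (j : ℝ) - 1 ≤ (K : ℝ) - 2 by linarith)
      (show 0 ≤ lam - 1 by linarith)]

theorem two_points {T : Finset ℕ} (h : 2 ≤ T.card) : ∃ y z, y ∈ T ∧ z ∈ T ∧ y < z := by
  obtain ⟨a, ha, b, hb, hab⟩ := one_lt_card.1 (show 1 < T.card by omega)
  rcases lt_or_gt_of_ne hab with h1 | h1
  · exact ⟨a, b, ha, hb, h1⟩
  · exact ⟨b, a, hb, ha, h1⟩

/-- the ratio of a family with `p * shadow < q * size` -/
theorem ratio_of {p q : ℕ} {ρ : Finset (Finset ℕ)} (h : p * (∂ ρ).card < q * ρ.card) :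
    ρ.Nonempty ∧ ∃ lam : ℝ, ((∂ ρ).card : ℝ) ≤ lam * ρ.card ∧ (p : ℝ) * lam < q := by
  have h0 : 0 < ρ.card := by
    rcases Nat.eq_zero_or_pos ρ.card with e | e
    · rw [e] at h
      omega
    · exact e
  have h1 : (0 : ℝ) < ρ.card := by exact_mod_cast h0
  refine ⟨card_pos.1 h0, ((∂ ρ).card : ℝ) / ρ.card, (div_mul_cancel₀ _ h1.ne').ge, ?_⟩
  rw [← mul_div_assoc, div_lt_iff₀ h1]
  exact_mod_cast h

theorem choose_ratio (K : ℕ) : K * (2 * K).choose K = (K + 1) * (2 * K).choose (K + 1) := by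
  have := Nat.choose_succ_right_eq (2 * K) K
  rw [show 2 * K - K = K by omega] at this
  rw [mul_comm, ← this, mul_comm]

/-- a link of small ratio gives the global bound -/
theorem small (hK : KN) (hC : CT) (hT : TL) (hS : ST) (hR : SR) (hG : GlobStmt) {K y : ℕ}
    {F : Finset (Finset ℕ)} (h2 : 2 ≤ K) (hF : Good K F) (hm : NB K ≤ F.card)
    (hs : (fib (2 * K) F ∅).card + WW K < (2 * K).choose (K + 1)) (hy : 2 * K < y)
    (hr : (3 * K - 2) * (∂ (fib (2 * K) F {y})).card < 3 * K * (fib (2 * K) F {y}).card) :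
    Le K F.card (∂ F).card := by
  have e1 := card_fib_split (2 * K - 1) F {y}
  have e2 := shadow_fib_split (2 * K - 1) F {y}
  rw [show 2 * K - 1 + 1 = 2 * K by omega] at e1 e2
  have hout : Out (2 * K - 1) {y} := out_singleton (by omega)
  have e3 := hS.ratio K _ h2 (hR.thin K y F h2 hF (by omega) hs)
  have e4 := hK.thm K (fib (2 * K - 1) F {y})
    (card_eq_of_subset (fib_subset (l := K) hF.1 hout (by simp)))
  have e5 : (3 * K - 2) * (∂ (fib (2 * K - 1) F (insert (2 * K - 1) {y}))).card <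
      3 * K * (fib (2 * K - 1) F (insert (2 * K - 1) {y})).card := by
    have a1 := Nat.mul_le_mul_left (3 * K - 2) e2
    have a2 := Nat.mul_le_mul_left (3 * K - 2) e4
    rw [← e1, mul_add] at hr
    rw [mul_add] at a1
    omega
  obtain ⟨hne, lam, hl1, hl2⟩ := ratio_of e5
  have hc : ((3 * K - 2 : ℕ) : ℝ) = 3 * (K : ℝ) - 2 := by
    rw [Nat.cast_sub (by omega)]
    push_cast
    ring
  rw [hc] at hl2
  push_cast at hl2
  have hk : (2 : ℝ) ≤ K := by exact_mod_cast h2
  have hseed : Seed K F lam (2 * K - 1) (2 * K + 1) :=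
    hR.seed K (2 * K - 1) (2 * K - 1) (2 * K + 1) (2 * K - 1) y F lam _ h2 hF le_rfl
      (hout.insert le_rfl) (mem_insert_self _ _) (mem_insert_of_mem (mem_singleton_self _))
      (by omega) le_rfl (by omega) le_rfl (by omega) hne hl1
  have hno : NoStop lam (K - 1) := by
    refine noStop_of h2 ?_
    rcases le_or_gt lam 1 with hl | hl
    · nlinarith
    · linarith [mul_nonneg (show 0 ≤ lam - 1 by linarith) (show (0 : ℝ) ≤ K + 2 by linarith)]
  have e6 := (hG K F lam 1 h2 hF zero_le_one le_rfl (hS.one K lam h2 hl2) hno).1 hseed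
  have e7 : (SS K : ℝ) ≤ 2 * catalan (K - 1) := by exact_mod_cast hC.s3 K h2
  exact (hT.glob K _ (by omega) hm).mono (by linarith)

/-- all links have large ratio -/
theorem large (hK : KN) (hC : CT) (hT : TL) (hS : ST) (hB : FB) (hR : SR) {K : ℕ}
    {F : Finset (Finset ℕ)} (h2 : 2 ≤ K) (hF : Good K F) (hm : NB K ≤ F.card)
    (hs : (fib (2 * K) F ∅).card + WW K < (2 * K).choose (K + 1))
    (hr : ∀ T : Finset ℕ, Out (2 * K) T → T ≠ ∅ → T ≠ {2 * K} →
      3 * K * (fib (2 * K) F T).card ≤ (3 * K - 2) * (∂ (fib (2 * K) F T)).card) :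
    Le K F.card (∂ F).card := by
  classical
  obtain ⟨R, hRdef⟩ : ∃ R : Finset (Finset ℕ),
      R = (tails (2 * K) F).filter fun T => T ≠ ∅ ∧ T ≠ {2 * K} := ⟨_, rfl⟩
  have hRm : ∀ T ∈ R, T ∈ tails (2 * K) F ∧ T ≠ ∅ ∧ T ≠ {2 * K} := fun T hT' => by
    rw [hRdef] at hT'
    exact mem_filter.1 hT'
  have hn1 : ({2 * K} : Finset ℕ) ∉ R := fun h => (hRm _ h).2.2 rfl
  have hn0 : (∅ : Finset ℕ) ∉ insert ({2 * K} : Finset ℕ) R := fun h => by
    rcases mem_insert.1 h with e | e
    · exact singleton_ne_empty _ e.symm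
    · exact (hRm _ e).2.1 rfl
  have hout : ∀ T ∈ insert (∅ : Finset ℕ) (insert ({2 * K} : Finset ℕ) R), Out (2 * K) T := by
    intro T hT'
    rcases mem_insert.1 hT' with rfl | hT'
    · exact out_empty _
    rcases mem_insert.1 hT' with rfl | hT'
    · exact out_singleton le_rfl
    · exact out_of_mem_tails (hRm _ hT').1
  have hsub : tails (2 * K) F ⊆ insert (∅ : Finset ℕ) (insert ({2 * K} : Finset ℕ) R) := by
    intro T hT'
    by_cases a0 : T = ∅
    · exact mem_insert.2 (Or.inl a0)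
    by_cases a1 : T = {2 * K}
    · exact mem_insert_of_mem (mem_insert.2 (Or.inl a1))
    · refine mem_insert_of_mem (mem_insert_of_mem ?_)
      rw [hRdef]
      exact mem_filter.2 ⟨hT', a0, a1⟩
  have e1 := hB.card (2 * K) F _ hout hsub
  have e2 := hB.shadow (2 * K) F _ hout
  rw [sum_insert hn0, sum_insert hn1] at e1 e2
  have e3 : 3 * K * ∑ T ∈ R, (fib (2 * K) F T).card ≤
      (3 * K - 2) * ∑ T ∈ R, (∂ (fib (2 * K) F T)).card := by
    rw [mul_sum, mul_sum]
    exact sum_le_sum fun T hT' =>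
      hr T (out_of_mem_tails (hRm _ hT').1) (hRm _ hT').2.1 (hRm _ hT').2.2
  have s0 := fib_subset (l := K + 1) hF.1 (out_empty (2 * K)) (by simp)
  have s1 := fib_subset (l := K) hF.1 (out_singleton (le_refl (2 * K))) (by simp)
  have k0 := hK.thm _ _ (card_eq_of_subset s0)
  have k1 := hK.thm _ _ (card_eq_of_subset s1)
  have c0 := card_le_choose s0
  have c1 := card_le_choose s1
  have k2 := hR.inner K F (by omega) hF
  have k3 := hK.glue K (fib (2 * K) F ∅).card (fib (2 * K) F {2 * K}).card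
  have k4 := hR.dens K F hF
  have n1 := hC.nb K (by omega)
  have n2 := hC.two K (by omega)
  have n3 := choose_ratio K
  generalize (fib (2 * K) F ∅).card = f at *
  generalize (fib (2 * K) F {2 * K}).card = x at *
  generalize (∂ (fib (2 * K) F ∅)).card = df at *
  generalize (∂ (fib (2 * K) F {2 * K})).card = dx at *
  generalize ∑ T ∈ R, (fib (2 * K) F T).card = r at *
  generalize ∑ T ∈ R, (∂ (fib (2 * K) F T)).card = dr at *
  have k5 : kk (K + 1) (f + x) ≤ df + dx := k3.trans (Nat.add_le_add (max_le k0 k2) k1)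
  obtain ⟨s, hs'⟩ := Nat.exists_eq_add_of_le c0
  obtain ⟨c, hc'⟩ := Nat.exists_eq_add_of_le c1
  have hM : NB K = (f + x) + (s + c) := by omega
  have hKM : (2 * K + 1) * WW K ≤ K * (s + c) := by
    have a1 : (K + 1) * s ≤ K * c := by
      rw [hs', hc', mul_add, mul_add] at n3
      omega
    have a2 := Nat.mul_le_mul_left (2 * K + 1) (show WW K ≤ s by omega)
    linarith
  have e4 := hS.big K (s + c) h2 (by omega) hKM
  rw [show NB K - (s + c) = f + x by omega] at e4
  have hk : (2 : ℝ) ≤ K := by exact_mod_cast h2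
  have hp : (0 : ℝ) < 3 * (K : ℝ) - 2 := by linarith
  have hc : ((3 * K - 2 : ℕ) : ℝ) = 3 * (K : ℝ) - 2 := by
    rw [Nat.cast_sub (by omega)]
    push_cast
    ring
  have r3 : 3 * (K : ℝ) * r ≤ (3 * (K : ℝ) - 2) * dr := by
    rw [← hc]
    exact_mod_cast e3
  have r4 : ((s + c : ℕ) : ℝ) ≤ r := by exact_mod_cast (show s + c ≤ r by omega)
  have r5 : (r : ℝ) + 2 / (3 * (K : ℝ) - 2) * ((s + c : ℕ) : ℝ) ≤ dr := by
    have a1 : 2 / (3 * (K : ℝ) - 2) * ((s + c : ℕ) : ℝ) ≤ (dr : ℝ) - r := by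
      rw [div_mul_eq_mul_div, div_le_iff₀ hp]
      linarith
    linarith
  have r6 : (NB K : ℝ) = (f + x) + ((s + c : ℕ) : ℝ) := by exact_mod_cast hM
  have r7 : (kk (K + 1) (f + x) : ℝ) ≤ df + dx := by exact_mod_cast k5
  have r8 : (f : ℝ) + (x + r) = F.card := by exact_mod_cast e1
  have r9 : (df : ℝ) + (dx + dr) ≤ (∂ F).card := by exact_mod_cast e2
  exact (hT.glob K _ (by omega) hm).mono (by linarith)

end CaseAM

theorem caseA (hC : CT) (hT : TL) (hS : ST) (hR : SR) (hG : GlobStmt) : CaseAStmt := by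
  intro K F T h2 hF hm hout hT2 hr
  obtain ⟨hne, lam, hl1, hl2⟩ := CaseAM.ratio_of hr
  rw [Nat.cast_sub h2, Nat.cast_sub (by omega)] at hl2
  push_cast at hl2
  have hno : NoStop lam (K - 1) := CaseAM.noStop_of h2 (by linarith)
  obtain ⟨y, z, hy, hz, hyz⟩ := CaseAM.two_points hT2
  have hy' := hout y hy
  have hseed : Seed K F lam (2 * K) (2 * K + 1) :=
    hR.seed K (2 * K) (2 * K) (2 * K + 1) y z F lam T h2 hF (by omega) hout hy hz hyz (by omega)
      (by omega) hy' (by omega) hne hl1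
  have e6 := (hG K F lam (4 / 5) h2 hF (by norm_num) (by norm_num) (hS.two _ lam hno) hno).2 hseed
  have e7 : 5 * (SS K : ℝ) + catalan K ≤ 12 * catalan (K - 1) := by exact_mod_cast hC.s2 K h2
  exact (hT.glob K _ (by omega) hm).mono (by linarith)

theorem caseM (hK : KN) (hC : CT) (hT : TL) (hS : ST) (hF : FB) (hR : SR) (hG : GlobStmt) :
    CaseMStmt := by
  intro K F h2 hG' hm hr hs
  by_cases hy : ∃ y, 2 * K < y ∧
      (3 * K - 2) * (∂ (fib (2 * K) F {y})).card < 3 * K * (fib (2 * K) F {y}).card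
  · obtain ⟨y, hy, hy'⟩ := hy
    exact CaseAM.small hK hC hT hS hR hG h2 hG' hm hs hy hy'
  refine CaseAM.large hK hC hT hS hF hR h2 hG' hm hs fun T hout h0 h1 => ?_
  by_cases hc : 2 ≤ T.card
  · have a1 := hr T hout hc
    obtain ⟨k, rfl⟩ := Nat.exists_eq_add_of_le h2
    rw [show 2 + k - 1 = k + 1 by omega, show 2 + k - 2 = k by omega] at a1
    rw [show 3 * (2 + k) - 2 = 3 * k + 4 by omega]
    generalize (fib (2 * (2 + k)) F T).card = p at *
    generalize (∂ (fib (2 * (2 + k)) F T)).card = q at *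
    refine Nat.le_of_mul_le_mul_left ?_ (show 0 < k + 1 by omega)
    have a2 := Nat.mul_le_mul_left (3 * (2 + k)) a1
    linarith [Nat.zero_le (k * q), Nat.zero_le q]
  · have a1 : T.card = 1 := by
      have := card_pos.2 (nonempty_iff_ne_empty.2 h0)
      omega
    obtain ⟨y, rfl⟩ := card_eq_one.1 a1
    have a2 := hout y (mem_singleton_self _)
    have a3 : y ≠ 2 * K := fun e => h1 (by rw [e])
    by_contra hlt
    exact hy ⟨y, by omega, not_le.1 hlt⟩

end Pool.Agent.MP_d50107_co.H61
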