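import Pool.Agent.MP_d50107_co.H61.Basic

/-! The case of few deleted sets. -/

namespace Pool.Agent.MP_d50107_co.H61

open Finset
open scoped FinsetFamily

namespace CaseB

/-- the points above `w` that occur -/
def pts (w : ℕ) (F : Finset (Finset ℕ)) : Finset ℕ := (F.biUnion id).filter fun y => w < y

/-- the tails with at most one point -/
def low (w : ℕ) (F : Finset (Finset ℕ)) : Finset (Finset ℕ) :=
  insert ∅ (insert {w} ((pts w F).image fun y => {y}))

theorem sum_low (w : ℕ) (F : Finset (Finset ℕ)) (φ : Finset ℕ → ℕ) :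
    ∑ T ∈ low w F, φ T = φ ∅ + (φ {w} + ∑ y ∈ pts w F, φ {y}) := by
  rw [low, sum_insert, sum_insert, sum_image fun _ _ _ _ h => singleton_injective h]
  · simp [pts]
  · simp [eq_comm]

theorem out_low {w : ℕ} {F : Finset (Finset ℕ)} {T : Finset ℕ} (h : T ∈ low w F) :
    Out w T ∧ T.card ≤ 1 := by
  simp only [low, mem_insert, mem_image] at h
  rcases h with rfl | rfl | ⟨y, hy, rfl⟩
  exacts [⟨out_empty w, by simp⟩, ⟨out_singleton le_rfl, by simp⟩,
    ⟨out_singleton (mem_filter.1 hy).2.le, by simp⟩]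

theorem card_eq (hF : FB) (w : ℕ) (F : Finset (Finset ℕ)) :
    (fib w F ∅).card + ((fib w F {w}).card + ∑ y ∈ pts w F, (fib w F {y}).card) + del w F =
      F.card := by
  rw [← hF.card w F (low w F ∪ (tails w F).filter fun T => 2 ≤ T.card), sum_union, sum_low, hF.del]
  · exact disjoint_left.2 fun T h1 h2 => by
      have := (out_low h1).2
      have := (mem_filter.1 h2).2
      omega
  · exact fun T hT => (mem_union.1 hT).elim (fun h => (out_low h).1)
      fun h => out_of_mem_tails (mem_filter.1 h).1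
  · intro T hT
    by_cases h : 2 ≤ T.card
    · exact mem_union_right _ (mem_filter.2 ⟨hT, h⟩)
    refine mem_union_left _ ?_
    rcases card_le_one_iff_subset_singleton.1 (show T.card ≤ 1 by omega) with ⟨y, hy⟩
    rcases subset_singleton_iff.1 hy with rfl | rfl
    · exact mem_insert_self _ _
    obtain ⟨A, hA, e⟩ := mem_image.1 hT
    obtain ⟨h1, h2⟩ := mem_filter.1 (e ▸ mem_singleton_self y : y ∈ A.filter fun y => w ≤ y)
    rcases h2.eq_or_lt with rfl | h3
    · exact mem_insert_of_mem (mem_insert_self _ _)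
    · exact mem_insert_of_mem (mem_insert_of_mem (mem_image_of_mem _
        (mem_filter.2 ⟨mem_biUnion.2 ⟨A, hA, h1⟩, h3⟩)))

end CaseB

open CaseB in
theorem caseB (hK : KN) (hC : CT) (hT : TL) (hF : FB) (hR : SR) : CaseBStmt := by
  intro K F h2 hG hm h3 h4
  obtain ⟨l, rfl⟩ : ∃ l, K = l + 1 := ⟨K - 1, by omega⟩
  have e1 := card_eq hF (2 * (l + 1)) F
  have e2 := hF.rows (2 * (l + 1)) l F (low _ F) hG.1 fun T h => out_low h
  rw [sum_low _ _ fun T => (∂ (fib (2 * (l + 1)) F T)).card] at e2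
  have s0 := fib_subset (l := l + 1 + 1) hG.1 (out_empty (2 * (l + 1))) (by simp)
  have s1 : ∀ y, 2 * (l + 1) ≤ y →
      fib (2 * (l + 1)) F {y} ⊆ powersetCard (l + 1) (range (2 * (l + 1))) := fun y hy =>
    fib_subset hG.1 (out_singleton hy) (by simp)
  have t0 := hK.thm _ _ (card_eq_of_subset s0)
  have t1 := hK.thm _ _ (card_eq_of_subset (s1 _ le_rfl))
  have t2 : sk (l + 1) ((pts (2 * (l + 1)) F).toList.map fun y => (fib (2 * (l + 1)) F {y}).card) ≤
      ∑ y ∈ pts (2 * (l + 1)) F, (∂ (fib (2 * (l + 1)) F {y})).card := by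
    rw [sk_toList]
    exact sum_le_sum fun y hy => hK.thm _ _ (card_eq_of_subset (s1 y (mem_filter.1 hy).2.le))
  have t3 := sum_toList (pts (2 * (l + 1)) F) fun y => (fib (2 * (l + 1)) F {y}).card
  have t4 : ∀ z ∈ (pts (2 * (l + 1)) F).toList.map fun y => (fib (2 * (l + 1)) F {y}).card,
      z ≤ (fib (2 * (l + 1)) F {2 * (l + 1)}).card ∧
      z + (fib (2 * (l + 1)) F {2 * (l + 1)}).card ≤ (2 * (l + 1)).choose (l + 1) := by
    intro z hz
    obtain ⟨y, hy, rfl⟩ := List.mem_map.1 hz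
    have h5 := (mem_filter.1 (mem_toList.1 hy)).2
    exact ⟨card_le_card (hR.nest _ _ _ F hG.2.2 le_rfl h5.le), hR.compl _ y F hG h5⟩
  have t5 := hR.inner _ F (by omega) hG
  have t6 := card_le_choose (s1 _ le_rfl)
  have c1 := hC.two (l + 1) (by omega)
  have c2 := hC.nw (l + 1) (by omega)
  have c3 := hC.up (l + 1) (by omega)
  have c4 := hC.nb (l + 1) (by omega)
  have b1 : ∀ β ≤ NN (l + 1), kk (l + 1 + 1) ((2 * (l + 1) - 1).choose (l + 1 + 1) + β) =
      NN (l + 1) + kk (l + 1) β := fun β hβ => kk_block (by omega) hβ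
  have b2 : ∀ r ≤ WW (l + 1), kk (l + 1) ((2 * (l + 1) - 2).choose (l + 1) + r) =
      WW (l + 1) + kk l r := fun r hr => kk_block (by omega) hr
  generalize (pts (2 * (l + 1)) F).toList.map (fun y => (fib (2 * (l + 1)) F {y}).card) = g at *
  generalize (fib (2 * (l + 1)) F ∅).card = f at *
  generalize (fib (2 * (l + 1)) F {2 * (l + 1)}).card = x at *
  generalize del (2 * (l + 1)) F = D at *
  obtain ⟨r, rfl⟩ : ∃ r, f = (2 * (l + 1) - 1).choose (l + 1 + 1) +
      ((2 * (l + 1) - 2).choose (l + 1) + r) := ⟨f + WW (l + 1) - (2 * (l + 1)).choose (l + 1 + 1),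
    by omega⟩
  have k1 := b1 ((2 * (l + 1) - 2).choose (l + 1) + r) (by omega)
  have k2 := b1 ((2 * (l + 1) - 2).choose (l + 1) + (r + D)) (by omega)
  have k3 := b2 r (by omega)
  have k4 := b2 (r + D) (by omega)
  have k5 := hK.sub l r D
  by_cases hx : x ≤ NN (l + 1)
  · refine (hT.three (l + 1) F.card (((2 * (l + 1) - 2).choose (l + 1) + (r + D)) :: x :: g) h2 hm
      (fun z hz => ?_) (by simp only [List.sum_cons]; omega)).mono ?_
    · simp only [List.mem_cons] at hz
      rcases hz with rfl | rfl | hz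
      exacts [by omega, hx, (t4 z hz).1.trans hx]
    · rw [sk_cons, sk_cons]
      exact_mod_cast (by omega)
  · have k6 := hK.glue (l + 1) ((2 * (l + 1) - 1).choose (l + 1 + 1) +
      ((2 * (l + 1) - 2).choose (l + 1) + (r + D))) x
    refine (hT.relax (l + 1) F.card (NB (l + 1) - ((2 * (l + 1) - 1).choose (l + 1 + 1) +
      ((2 * (l + 1) - 2).choose (l + 1) + (r + D)) + x)) g h2 hm (by omega)
      (fun z hz => by have := (t4 z hz).2; omega) (by omega)).mono ?_
    rw [Nat.sub_sub_self (by omega)]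
    exact_mod_cast (by omega)

end Pool.Agent.MP_d50107_co.H61
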