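import Pool.Agent.MP_d50107_co.H61.Basic

/-! The case of many deleted sets. -/

namespace Pool.Agent.MP_d50107_co.H61

open Finset
open scoped FinsetFamily

namespace CaseC

/-- the one-point tails other than the first one -/
def S1 (w : ℕ) (F : Finset (Finset ℕ)) : Finset (Finset ℕ) :=
  (tails w F).filter fun T => T.card = 1 ∧ T ≠ {w}

/-- the tails with at least two points -/
def S2 (w : ℕ) (F : Finset (Finset ℕ)) : Finset (Finset ℕ) :=
  (tails w F).filter fun T => 2 ≤ T.card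

/-- all tails -/
def SA (w : ℕ) (F : Finset (Finset ℕ)) : Finset (Finset ℕ) :=
  insert ∅ (insert {w} (S1 w F ∪ S2 w F))

theorem sum_SA (w : ℕ) (F : Finset (Finset ℕ)) (φ : Finset ℕ → ℕ) :
    ∑ T ∈ SA w F, φ T = φ ∅ + φ {w} + ∑ T ∈ S1 w F, φ T + ∑ T ∈ S2 w F, φ T := by
  have h1 : Disjoint (S1 w F) (S2 w F) := disjoint_left.2 fun T h h' => by
    have := (mem_filter.1 h).2.1
    have := (mem_filter.1 h').2
    omega
  have h2 : ({w} : Finset ℕ) ∉ S1 w F ∪ S2 w F := by
    rw [mem_union, not_or]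
    exact ⟨fun h => (mem_filter.1 h).2.2 rfl, fun h => by simpa using (mem_filter.1 h).2⟩
  have h3 : (∅ : Finset ℕ) ∉ insert ({w} : Finset ℕ) (S1 w F ∪ S2 w F) := by
    rw [mem_insert, mem_union, not_or, not_or]
    exact ⟨(singleton_ne_empty w).symm, fun h => by simpa using (mem_filter.1 h).2.1,
      fun h => by simpa using (mem_filter.1 h).2⟩
  rw [SA, sum_insert h3, sum_insert h2, sum_union h1]
  ring

theorem out_SA (w : ℕ) (F : Finset (Finset ℕ)) : ∀ T ∈ SA w F, Out w T := by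
  intro T hT
  simp only [SA, mem_insert, mem_union] at hT
  rcases hT with rfl | rfl | h | h
  · exact out_empty w
  · exact out_singleton le_rfl
  · exact out_of_mem_tails (mem_filter.1 h).1
  · exact out_of_mem_tails (mem_filter.1 h).1

theorem tails_SA (w : ℕ) (F : Finset (Finset ℕ)) : tails w F ⊆ SA w F := by
  intro T hT
  simp only [SA, mem_insert, mem_union, S1, S2, mem_filter]
  by_cases h0 : T.card = 0
  · exact Or.inl (card_eq_zero.1 h0)
  by_cases h1 : T = {w}
  · exact Or.inr (Or.inl h1)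
  by_cases h2 : T.card = 1
  · exact Or.inr (Or.inr (Or.inl ⟨hT, h2, h1⟩))
  · exact Or.inr (Or.inr (Or.inr ⟨hT, by omega⟩))

theorem mem_S1 {w : ℕ} {F : Finset (Finset ℕ)} {T : Finset ℕ} (h : T ∈ S1 w F) :
    ∃ y, w < y ∧ T = {y} := by
  obtain ⟨h1, h2, h3⟩ := mem_filter.1 h
  obtain ⟨y, rfl⟩ := card_eq_one.1 h2
  have := out_of_mem_tails h1 y (mem_singleton_self y)
  exact ⟨y, lt_of_le_of_ne this fun e => h3 (e ▸ rfl), rfl⟩

end CaseC

open CaseC in
theorem caseC (hK : KN) (hC : CT) (hT : TL) (hF : FB) (hR : SR) (hN : NumStmt) (hA : BudAStmt)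
    (hB : BudBStmt) : CaseCStmt := by
  intro K F lam hK3 hG hm hW hD hl1 hl2 hrat hseed
  have hK3' : (3 : ℝ) ≤ K := by exact_mod_cast hK3
  have hlam : 1 ≤ lam := by
    by_contra hc
    have hc := not_le.1 hc
    nlinarith
  obtain ⟨c, O, B, hc0, hc1, hstop, hosc, ⟨n0, hn1, hn2, hn3, hn4⟩, hO, hBO⟩ := hN K lam hK3 hl1 hl2
  have bA := hA K F lam c hK3 hG hc0 hc1 hlam hstop hseed hW
  have bB := hB K F lam c hK3 hG hc0 hc1 hlam hstop hseed
  have e1 := hF.card (2 * K) F _ (out_SA _ _) (tails_SA _ _)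
  have e2 := hF.shadow (2 * K) F _ (out_SA _ F)
  have e3 : ∑ T ∈ S2 (2 * K) F, (fib (2 * K) F T).card = del (2 * K) F := hF.del (2 * K) F
  rw [sum_SA] at e1 e2
  rw [e3] at e1
  have e4 : lam * (del (2 * K) F : ℝ) ≤
      ((∑ T ∈ S2 (2 * K) F, (∂ (fib (2 * K) F T)).card : ℕ) : ℝ) := by
    rw [← e3]
    push_cast
    rw [mul_sum]
    exact sum_le_sum fun T h => hrat T (out_of_mem_tails (mem_filter.1 h).1) (mem_filter.1 h).2
  have two := hC.two K (by omega)
  have nb := hC.nb K (by omega)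
  have hf : (fib (2 * K) F ∅).card ≤ (2 * K).choose (K + 1) :=
    card_le_choose (fib_subset hG.1 (out_empty _) (by simp))
  have hone : ∀ y, 2 * K ≤ y → fib (2 * K) F {y} ⊆ powersetCard K (range (2 * K)) :=
    fun y hy => fib_subset hG.1 (out_singleton hy) (by simp)
  have hx : (fib (2 * K) F {2 * K}).card ≤ (2 * K).choose K := card_le_choose (hone _ le_rfl)
  have hkx : kk K (fib (2 * K) F {2 * K}).card ≤ (∂ (fib (2 * K) F {2 * K})).card :=
    hK.thm K _ (card_eq_of_subset (hone _ le_rfl))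
  have hh : ∀ T ∈ S1 (2 * K) F, (fib (2 * K) F T).card ≤ (fib (2 * K) F {2 * K}).card ∧
      (fib (2 * K) F T).card + (fib (2 * K) F {2 * K}).card ≤ (2 * K).choose K ∧
      kk K (fib (2 * K) F T).card ≤ (∂ (fib (2 * K) F T)).card := by
    intro T h
    obtain ⟨y, hy, rfl⟩ := mem_S1 h
    exact ⟨card_le_card (hR.nest _ _ _ F hG.2.2 le_rfl hy.le), hR.compl K y F hG hy,
      hK.thm K _ (card_eq_of_subset (hone _ hy.le))⟩
  have e5 : ∑ T ∈ S1 (2 * K) F, kk K (fib (2 * K) F T).card ≤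
      ∑ T ∈ S1 (2 * K) F, (∂ (fib (2 * K) F T)).card := sum_le_sum fun T h => (hh T h).2.2
  obtain ⟨s, hs⟩ := Nat.exists_eq_add_of_le hf
  obtain ⟨c0, hc⟩ := Nat.exists_eq_add_of_le hx
  have hsD : s ≤ del (2 * K) F := by omega
  obtain ⟨d, hd⟩ := Nat.exists_eq_add_of_le hsD
  have hs' : ((2 * K).choose (K + 1) : ℝ) = (fib (2 * K) F ∅).card + s := by exact_mod_cast hs
  have hc' : ((2 * K).choose K : ℝ) = (fib (2 * K) F {2 * K}).card + c0 := by exact_mod_cast hc
  have hd' : (del (2 * K) F : ℝ) = s + d := by exact_mod_cast hd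
  have e2' : ((∂ (fib (2 * K) F ∅)).card : ℝ) + (∂ (fib (2 * K) F {2 * K})).card +
      ((∑ T ∈ S1 (2 * K) F, kk K (fib (2 * K) F T).card : ℕ) : ℝ) +
      ((∑ T ∈ S2 (2 * K) F, (∂ (fib (2 * K) F T)).card : ℕ) : ℝ) ≤ (∂ F).card := by
    exact_mod_cast le_trans (by omega) e2
  by_cases hex : ∃ n, 1 ≤ n ∧ n ≤ c0 ∧ n ≤ NN K ∧ (kk K n : ℝ) ≤ lam * n
  · obtain ⟨n, h1, h2, h3, h4⟩ := hex
    obtain ⟨g, hg1, hg2, hg3⟩ := hT.pack K n d lam O h1 h4 hosc
    have hrel := hT.relax K F.card c0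
      ((S1 (2 * K) F).toList.map (fun T => (fib (2 * K) F T).card) ++ g) (by omega) hm (by omega)
      (by
        intro z hz
        rcases List.mem_append.1 hz with hz | hz
        · obtain ⟨T, hT1, rfl⟩ := List.mem_map.1 hz
          have := hh T (mem_toList.1 hT1)
          omega
        · have := hg1 z hz
          omega)
      (by
        rw [List.sum_append, sum_toList, hg2]
        omega)
    refine hrel.mono ?_
    have h5 : NB K - c0 = (2 * K).choose (K + 1) + (fib (2 * K) F {2 * K}).card := by omega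
    rw [h5, kk_block (by omega) hx, sk_append, sk_toList]
    have hkx' : (kk K (fib (2 * K) F {2 * K}).card : ℝ) ≤ (∂ (fib (2 * K) F {2 * K})).card := by
      exact_mod_cast hkx
    rw [Nat.cast_add, Nat.cast_add]
    rw [hs'] at bA
    rw [hd'] at e4
    linarith
  · have hno : ∀ n, 1 ≤ n → n ≤ c0 → n ≤ NN K → lam * n ≤ kk K n := fun n h1 h2 h3 => by
      by_contra h4
      exact hex ⟨n, h1, h2, h3, (not_le.1 h4).le⟩
    have hNc : c0 < NN K := by
      by_contra h2
      have hpos : 1 ≤ NN K := Nat.choose_pos (by omega)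
      have hk : kk K (NN K) = NN K := by
        obtain ⟨l, rfl⟩ : ∃ l, K = l + 1 := ⟨K - 1, by omega⟩
        have := hC.nsym (l + 1) (by omega)
        rw [Nat.add_sub_cancel] at this
        rw [NN, kk_choose (by omega), this, NN]
      refine hex ⟨NN K, hpos, not_lt.1 h2, le_rfl, ?_⟩
      rw [hk]
      have : (0 : ℝ) ≤ NN K := Nat.cast_nonneg _
      nlinarith
    have bB' := bB (by omega)
    have e6 : lam * ((∑ T ∈ S1 (2 * K) F, (fib (2 * K) F T).card : ℕ) : ℝ) ≤
        ((∑ T ∈ S1 (2 * K) F, kk K (fib (2 * K) F T).card : ℕ) : ℝ) := by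
      push_cast
      rw [mul_sum]
      refine sum_le_sum fun T h => ?_
      have := hh T h
      rcases Nat.eq_zero_or_pos (fib (2 * K) F T).card with h0 | h0
      · rw [h0]
        simp
      · exact hno _ h0 (by omega) (by omega)
    refine (hT.cand K F.card n0 lam O (by omega) hm hn1 hn2 hn3 hosc).mono ?_
    have e1' : (F.card : ℝ) = (fib (2 * K) F ∅).card + (fib (2 * K) F {2 * K}).card +
        ((∑ T ∈ S1 (2 * K) F, (fib (2 * K) F T).card : ℕ) : ℝ) + del (2 * K) F := by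
      exact_mod_cast e1.symm
    have nb' : (NB K : ℝ) = (2 * K).choose (K + 1) + (2 * K).choose K := by
      rw [two]
      exact_mod_cast nb
    rw [e1', nb']
    linarith

end Pool.Agent.MP_d50107_co.H61
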