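import Mathlib

/-! The Kruskal function, given by the cascade expansion. -/

namespace Pool.Agent.MP_d50107_co.H61

/-- the largest `a` with `a.choose j ≤ m` (for `j ≥ 1` such an `a` is at most `m + j`) -/
def top (j m : ℕ) : ℕ := Nat.findGreatest (fun a => a.choose j ≤ m) (m + j)

/-- Kruskal's bound: if `m = C(a_j, j) + C(a_(j-1), j-1) + ... + C(a_t, t)` is the cascade
expansion of `m`, then `kk j m = C(a_j, j-1) + C(a_(j-1), j-2) + ... + C(a_t, t-1)` -/
def kk : ℕ → ℕ → ℕ
  | 0, _ => 0
  | j + 1, m =>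
    if m = 0 then 0
    else (top (j + 1) m).choose j + kk j (m - (top (j + 1) m).choose (j + 1))

end Pool.Agent.MP_d50107_co.H61
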