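import Pool.Agent.MP_d50107_co.H61.Spec2

/-! A shifted intersecting family lies in a majority family or has a large excess. -/

namespace Pool.Agent.MP_d50107_co.H61

open Finset
open scoped FinsetFamily

namespace Dich

/-- all fibres over `range (2K+1)` are intersecting -/
theorem inter {K : ℕ} {F : Finset (Finset ℕ)} {T : Finset ℕ} (hF : Good K F)
    (hT : Out (2 * K + 1) T) : H54.Inter (fib (2 * K + 1) F T) := by
  intro g hg g' hg'
  by_contra hc
  have c1 := card_of_mem_fib hF.1 hT hg
  have c2 := card_of_mem_fib hF.1 hT hg'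
  rcases T.eq_empty_or_nonempty with rfl | hne
  · exact hc (hF.2.1 g (mem_fib_empty.1 hg).2 g' (mem_fib_empty.1 hg').2)
  have h2 := hne.card_pos
  rw [mem_fib] at hg hg'
  have c3 := le_card_sdiff (g ∪ g') (range (2 * K + 1))
  have c4 := card_union_le g g'
  rw [card_range] at c3
  have hd : ∀ x ∈ g', x ∉ g := fun x h h' => hc ⟨x, h', h⟩
  have hlt : ∀ x ∈ g', x < 2 * K + 1 := fun x h => mem_range.1 (hg'.1 h)
  obtain ⟨R, hR, c5⟩ := exists_subset_card_eq (s := range (2 * K + 1) \ (g ∪ g')) (n := T.card)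
    (by omega)
  have hR' : ∀ x ∈ R, x < 2 * K + 1 ∧ x ∉ g ∧ x ∉ g' := fun x hx => by simpa using hR hx
  refine hF.not_disjoint (hF.2.2.star (B := g' ∪ R) hg'.2 ?_ fun x h4 h5 y h6 h7 => ?_) hg.2
    (disjoint_left.2 fun x h4 h5 => ?_)
  · rw [card_union_of_disjoint (hT.disjoint hg'.1),
      card_union_of_disjoint (disjoint_right.2 fun x hx => (hR' x hx).2.2), c5]
  · simp only [mem_union, not_or] at h4 h5 h6 h7
    exact (hR' x (h4.resolve_left h5.1)).1.trans_le (hT y (h6.resolve_left h7.1))
  · rcases mem_union.1 h5 with h5 | h5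
    · exact (mem_union.1 h4).elim (fun h => hd x h h5) fun h => (hR' x h).2.1 h5
    · exact (hT x h5).not_gt ((mem_union.1 h4).elim (hlt x) fun h => (hR' x h).1)

/-- a shifted complete family contains all subsets of the initial interval -/
theorem range_sub {l : ℕ} {W : Finset ℕ} (hW : W.card + 1 = 2 * l)
    (hs : Shifted (powersetCard l W)) : range (2 * l - 1) ⊆ W := by
  intro x hx
  by_contra hc
  have hx' := mem_range.1 hx
  have h1 : W ⊆ range x := by
    intro y hy
    by_contra hy'
    have hxy : x < y := by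
      have h2 : ¬ y < x := fun h => hy' (mem_range.2 h)
      have h3 : x ≠ y := fun e => hc (e ▸ hy)
      omega
    obtain ⟨g, g1, g2, g3⟩ := exists_subsuperset_card_eq (n := l) (singleton_subset_iff.2 hy)
      (by rw [card_singleton]; omega) (by omega)
    have h4 := hs g (mem_powersetCard.2 ⟨g2, g3⟩) x y hxy (g1 (mem_singleton_self y))
      fun h => hc (g2 h)
    exact hc ((mem_powersetCard.1 h4).1 (mem_insert_self _ _))
  have := card_le_card h1
  rw [card_range] at this
  omega

/-- a complete fibre forces a majority family -/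
theorem maj {K l : ℕ} {F : Finset (Finset ℕ)} {T : Finset ℕ} (hF : Good K F)
    (hT : Out (2 * K + 1) T) (hl : l + T.card = K + 1)
    (hc : H54.Compl l (fib (2 * K + 1) F T)) {A : Finset ℕ} (hA : A ∈ F) :
    l ≤ (A.filter fun x => x < 2 * l - 1).card := by
  by_contra h0
  obtain ⟨W, hW, e⟩ := hc
  have hs := hF.2.2.fib hT
  rw [e] at hs
  have h1 := range_sub hW hs
  have h2 : 2 * l - 1 ≤ (range (2 * l - 1) \ A).card + (A.filter fun x => x < 2 * l - 1).card := by
    have h3 : range (2 * l - 1) ⊆ (range (2 * l - 1) \ A) ∪ A.filter fun x => x < 2 * l - 1 := by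
      intro x hx
      by_cases h : x ∈ A
      · exact mem_union_right _ (mem_filter.2 ⟨h, mem_range.1 hx⟩)
      · exact mem_union_left _ (mem_sdiff.2 ⟨hx, h⟩)
    have h4 := (card_le_card h3).trans (card_union_le _ _)
    rwa [card_range] at h4
  obtain ⟨g, g1, g2⟩ := exists_subset_card_eq (s := range (2 * l - 1) \ A) (n := l) (by omega)
  have g3 : g ∈ fib (2 * K + 1) F T := by
    rw [e]
    exact mem_powersetCard.2 ⟨(g1.trans sdiff_subset).trans h1, g2⟩
  rw [mem_fib] at g3
  have c1 := le_card_sdiff (A ∪ g) (range (2 * K + 2))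
  have c2 := card_union_le A g
  have c3 := hF.1 A hA
  rw [card_range] at c1
  obtain ⟨B, b1, b2⟩ := exists_subset_card_eq (s := range (2 * K + 2) \ (A ∪ g)) (n := T.card)
    (by omega)
  have b3 : ∀ x ∈ B, x < 2 * K + 2 ∧ x ∉ A ∧ x ∉ g := fun x hx => by simpa using b1 hx
  refine hF.not_disjoint (hF.2.2.star (B := g ∪ B) g3.2 ?_ fun x h4 h5 y h6 h7 => ?_) hA
    (disjoint_left.2 fun x h4 h5 => ?_)
  · rw [card_union_of_disjoint (hT.disjoint g3.1),
      card_union_of_disjoint (disjoint_right.2 fun x hx => (b3 x hx).2.2), b2]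
  · simp only [mem_union, not_or] at h4 h5 h6 h7
    have k1 := h6.resolve_left h7.1
    have k2 := hT y k1
    have k3 := (b3 x (h4.resolve_left h5.1)).1
    have k4 : x ≠ y := fun e => h5.2 (e ▸ k1)
    omega
  · rcases mem_union.1 h4 with h4 | h4
    · exact (mem_sdiff.1 (g1 h4)).2 h5
    · exact (b3 x h4).2.1 h5

theorem card_le (w : ℕ) (F : Finset (Finset ℕ)) (T : Finset ℕ) : (fib w F T).card ≤ 2 ^ w := by
  have h : fib w F T ⊆ powerset (range w) := fun g hg => mem_powerset.2 (mem_fib.1 hg).1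
  have := card_le_card h
  rwa [card_powerset, card_range] at this

end Dich

open Dich in
theorem dichStmt : DichStmt := by
  intro K F _ hF
  by_contra hc
  rw [not_or] at hc
  refine hc.2 ?_
  have hT : ∀ T ∈ tails (2 * K + 1) F, Out (2 * K + 1) T := fun T h => out_of_mem_tails h
  have key : ∀ T ∈ tails (2 * K + 1) F,
      (2 ^ (2 * K + 1) + 1) * (fib (2 * K + 1) F T).card ≤
        2 ^ (2 * K + 1) * (∂ (fib (2 * K + 1) F T)).card +
          if T = ∅ then 2 ^ (2 * K + 1) else 0 := by
    intro T h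
    have h1 := hT T h
    have h2 := card_le (2 * K + 1) F T
    rcases (fib (2 * K + 1) F T).eq_empty_or_nonempty with e | ⟨g, hg⟩
    · simp [e]
    have c1 := card_of_mem_fib hF.1 h1 hg
    have h3 := fib_subset hF.1 h1 c1
    split_ifs with e
    · have h4 := H54.katona h3 (inter hF h1)
      nlinarith [Nat.mul_le_mul_left (2 ^ (2 * K + 1)) h4]
    · have h5 := (nonempty_iff_ne_empty.2 e).card_pos
      have h4 := H54.katona_strict h3 (inter hF h1) ⟨g, hg⟩ fun hcp => by
        have h6 : 1 ≤ g.card := by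
          obtain ⟨W, hW, -⟩ := hcp
          omega
        refine hc.1 ⟨g.card - 1, by omega, fun A hA => ?_⟩
        have h7 := maj hF h1 c1 hcp hA
        rw [show 2 * (g.card - 1) + 1 = 2 * g.card - 1 by omega]
        omega
      nlinarith [Nat.mul_le_mul_left (2 ^ (2 * K + 1)) h4]
  have h1 := sum_le_sum key
  rw [← mul_sum, hFB.card _ F _ hT Subset.rfl, sum_add_distrib, ← mul_sum, sum_ite_eq'] at h1
  have h2 := Nat.mul_le_mul_left (2 ^ (2 * K + 1)) (hFB.shadow _ F _ hT)
  have h3 : (if ∅ ∈ tails (2 * K + 1) F then 2 ^ (2 * K + 1) else 0) ≤ 2 ^ (2 * K + 1) := by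
    split_ifs
    · exact le_rfl
    · exact Nat.zero_le _
  rw [mul_add, mul_one]
  omega

end Pool.Agent.MP_d50107_co.H61
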