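import Pool.Agent.MP_d50107_co.H61.Basic

/-! Decomposition of a family by tails. -/

namespace Pool.Agent.MP_d50107_co.H61

open Finset
open scoped FinsetFamily

namespace FBAux

theorem head_union_tail (w : ℕ) (A : Finset ℕ) :
    (A.filter fun y => y < w) ∪ (A.filter fun y => w ≤ y) = A := by
  ext y
  simp only [mem_union, mem_filter]
  constructor
  · rintro (h | h) <;> exact h.1
  · intro h
    rcases lt_or_ge y w with h1 | h1
    · exact Or.inl ⟨h, h1⟩
    · exact Or.inr ⟨h, h1⟩

theorem card_fib {w : ℕ} (B : Finset (Finset ℕ)) {T : Finset ℕ} (hT : Out w T) :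
    (fib w B T).card = (B.filter fun A => (A.filter fun y => w ≤ y) = T).card := by
  refine card_bij (fun g _ => g ∪ T) ?_ ?_ ?_
  · intro g hg
    rw [mem_fib] at hg
    exact mem_filter.2 ⟨hg.2, filter_union_tail hT hg.1⟩
  · intro g hg g' hg' h
    rw [mem_fib] at hg hg'
    have h1 := union_sdiff_cancel_right (hT.disjoint hg.1)
    have h2 := union_sdiff_cancel_right (hT.disjoint hg'.1)
    rw [← h1, ← h2]
    exact congrArg (fun s => s \ T) h
  · intro A hA
    obtain ⟨h1, h2⟩ := mem_filter.1 hA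
    have h3 : (A.filter fun y => y < w) ∪ T = A := by rw [← h2]; exact head_union_tail w A
    refine ⟨A.filter fun y => y < w, mem_fib.2 ⟨fun y hy => mem_range.2 (mem_filter.1 hy).2, ?_⟩,
      h3⟩
    rwa [h3]

theorem sum_fib {w : ℕ} (B 𝒯 : Finset (Finset ℕ)) (hT : ∀ T ∈ 𝒯, Out w T) :
    ∑ T ∈ 𝒯, (fib w B T).card = (B.filter fun A => (A.filter fun y => w ≤ y) ∈ 𝒯).card := by
  rw [card_eq_sum_card_fiberwise (f := fun A : Finset ℕ => A.filter fun y => w ≤ y) (t := 𝒯)
    (s := B.filter fun A => (A.filter fun y => w ≤ y) ∈ 𝒯)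
    (fun A hA => (mem_filter.1 (mem_coe.1 hA)).2)]
  refine sum_congr rfl fun T h => ?_
  rw [card_fib B (hT T h), filter_filter]
  congr 1
  refine filter_congr fun A _ => ⟨fun e => ⟨e ▸ h, e⟩, fun e => e.2⟩

theorem shadow_fib {w : ℕ} (B : Finset (Finset ℕ)) {T : Finset ℕ} (hT : Out w T) :
    ∂ (fib w B T) ⊆ fib w (∂ B) T := by
  intro g hg
  obtain ⟨s, hs, a, ha, rfl⟩ := mem_shadow_iff.1 hg
  rw [mem_fib] at hs ⊢
  refine ⟨(erase_subset _ _).trans hs.1, mem_shadow_iff.2 ⟨_, hs.2, a, mem_union_left _ ha, ?_⟩⟩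
  have haT : a ∉ T := disjoint_left.1 (hT.disjoint hs.1) ha
  rw [erase_union_distrib, erase_eq_of_notMem haT]

theorem sum_shadow {w : ℕ} (B 𝒯 : Finset (Finset ℕ)) (hT : ∀ T ∈ 𝒯, Out w T) :
    ∑ T ∈ 𝒯, (∂ (fib w B T)).card ≤
      ((∂ B).filter fun A => (A.filter fun y => w ≤ y) ∈ 𝒯).card := by
  rw [← sum_fib _ _ hT]
  exact sum_le_sum fun T h => card_le_card (shadow_fib B (hT T h))

theorem kk_sum (hK : KN) (l : ℕ) {ι : Type*} (s : Finset ι) (f : ι → ℕ) :
    kk l (∑ i ∈ s, f i) ≤ ∑ i ∈ s, kk l (f i) := by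
  classical
  induction s using Finset.induction_on with
  | empty => simp
  | insert a s ha ih =>
    rw [sum_insert ha, sum_insert ha]
    exact (hK.sub l _ _).trans (Nat.add_le_add_left ih _)

theorem tail_succ (w : ℕ) (A : Finset ℕ) :
    (A.filter fun y => w ≤ y).card =
      (A.filter fun y => w + 1 ≤ y).card + if w ∈ A then 1 else 0 := by
  have h1 : (A.filter fun y => w + 1 ≤ y) = (A.filter fun y => w ≤ y).erase w := by
    ext y
    simp only [mem_filter, mem_erase]
    constructor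
    · rintro ⟨h1, h2⟩
      exact ⟨by omega, h1, by omega⟩
    · rintro ⟨h1, h2, h3⟩
      exact ⟨h2, by omega⟩
  rw [h1]
  split_ifs with h
  · rw [card_erase_add_one (mem_filter.2 ⟨h, le_rfl⟩)]
  · rw [erase_eq_of_notMem fun h' => h (mem_filter.1 h').1, add_zero]

theorem del_succ (w : ℕ) (B : Finset (Finset ℕ)) :
    del w B = del (w + 1) B +
      (B.filter fun A => w ∈ A ∧ (A.filter fun y => w ≤ y).card = 2).card := by
  rw [del, del, ← card_union_of_disjoint, ← filter_or]
  · congr 1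
    refine filter_congr fun A _ => ?_
    have h := tail_succ w A
    by_cases hw : w ∈ A
    · simp only [hw, if_true, true_and] at h ⊢
      omega
    · simp only [hw, if_false, false_and, or_false] at h ⊢
      omega
  · refine disjoint_filter.2 fun A _ h1 h2 => ?_
    have h := tail_succ w A
    rw [if_pos h2.1] at h
    omega

theorem kk_pair (hK : KN) {w l : ℕ} {B : Finset (Finset ℕ)} (hB : ∀ A ∈ B, A.card = l + 2) :
    kk l (B.filter fun A => w ∈ A ∧ (A.filter fun y => w ≤ y).card = 2).card ≤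
      ((∂ B).filter fun A => w ∈ A ∧ (A.filter fun y => w ≤ y).card = 2).card := by
  have hT : ∀ T ∈ (tails w B).filter (fun T => w ∈ T ∧ T.card = 2), Out w T :=
    fun T h => out_of_mem_tails (mem_filter.1 h).1
  have h1 : (B.filter fun A => w ∈ A ∧ (A.filter fun y => w ≤ y).card = 2).card =
      ∑ T ∈ (tails w B).filter (fun T => w ∈ T ∧ T.card = 2), (fib w B T).card := by
    rw [sum_fib _ _ hT]
    congr 1
    refine filter_congr fun A hA => ?_
    rw [mem_filter]
    constructor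
    · rintro ⟨h1, h2⟩
      exact ⟨mem_image_of_mem _ hA, mem_filter.2 ⟨h1, le_rfl⟩, h2⟩
    · rintro ⟨-, h1, h2⟩
      exact ⟨(mem_filter.1 h1).1, h2⟩
  rw [h1]
  refine (kk_sum hK l _ _).trans ((sum_le_sum fun T h => hK.thm l _ fun g hg => ?_).trans
    ((sum_shadow B _ hT).trans (card_le_card fun A hA => ?_)))
  · have h2 := card_of_mem_fib hB (hT T h) hg
    have h3 := (mem_filter.1 h).2.2
    omega
  · obtain ⟨h2, h3⟩ := mem_filter.1 hA
    obtain ⟨-, h4, h5⟩ := mem_filter.1 h3
    exact mem_filter.2 ⟨h2, (mem_filter.1 h4).1, h5⟩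

theorem kk_del (hK : KN) {l : ℕ} {B : Finset (Finset ℕ)} (hB : ∀ A ∈ B, A.card = l + 2)
    (w : ℕ) : kk l (del w B) ≤ del w (∂ B) := by
  obtain ⟨N, hN⟩ : ∃ N : ℕ, ∀ A ∈ B, ∀ y ∈ A, y < N :=
    ⟨(B.biUnion id).sup id + 1, fun A hA y hy =>
      Nat.lt_succ_of_le (le_sup (f := id) (mem_biUnion.2 ⟨A, hA, hy⟩))⟩
  have key : ∀ n w : ℕ, N ≤ w + n → kk l (del w B) ≤ del w (∂ B) := by
    intro n
    induction n with
    | zero =>
      intro w hw
      have h0 : del w B = 0 := by
        rw [del, card_eq_zero, filter_eq_empty_iff]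
        intro A hA
        have : (A.filter fun y => w ≤ y) = ∅ := by
          rw [filter_eq_empty_iff]
          intro y hy
          have := hN A hA y hy
          omega
        rw [this]
        simp
      rw [h0, kk_zero]
      exact Nat.zero_le _
    | succ n ih =>
      intro w hw
      rw [del_succ w B, del_succ w (∂ B)]
      exact (hK.sub l _ _).trans (Nat.add_le_add (ih (w + 1) (by omega)) (kk_pair hK hB))
  exact key N w (by omega)

end FBAux

open FBAux in
theorem fb (hK : KN) : FB where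
  card w 𝒜 𝒯 hT hs := by
    rw [sum_fib _ _ hT, filter_true_of_mem fun A hA => hs (mem_image_of_mem _ hA)]
  shadow w 𝒜 𝒯 hT := (sum_shadow 𝒜 𝒯 hT).trans (card_filter_le _ _)
  del w 𝒜 := by
    rw [sum_fib _ _ fun T h => out_of_mem_tails (mem_filter.1 h).1, H61.del]
    congr 1
    refine filter_congr fun A hA => ?_
    rw [mem_filter]
    exact ⟨fun h => h.2, fun h => ⟨mem_image_of_mem _ hA, h⟩⟩
  rows w l 𝒜 𝒯 hA hT := by
    refine (Nat.add_le_add (sum_shadow 𝒜 𝒯 fun T h => (hT T h).1) (kk_del hK hA w)).trans ?_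
    rw [H61.del, ← card_union_of_disjoint]
    · exact card_le_card (union_subset (filter_subset _ _) (filter_subset _ _))
    · refine disjoint_filter.2 fun A _ h1 h2 => ?_
      have := (hT _ h1).2
      omega

end Pool.Agent.MP_d50107_co.H61
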