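import Pool.Agent.MP_d50107_co.H61.Main

/-! The two-level minimum exists, is a lower bound, and is attained when the pieces fit. -/

namespace Pool.Agent.MP_d50107_co.H61

open Finset
open scoped FinsetFamily

theorem exists_least {K m : ℕ} (hK : 1 ≤ K) (hm : NB K < m) :
    ∃ M g, Adm K m M g ∧ ∀ M' g', Adm K m M' g' → val K M g ≤ val K M' g' := by
  obtain ⟨M₀, g₀, h₀, -⟩ := hTL.glob K m hK hm.le
  have hex : ∃ v, ∃ M g, Adm K m M g ∧ val K M g = v := ⟨_, M₀, g₀, h₀, rfl⟩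
  classical
  obtain ⟨M, g, h1, h2⟩ := Nat.find_spec hex
  exact ⟨M, g, h1, fun M' g' h => h2 ▸ Nat.find_min' hex ⟨M', g', h, rfl⟩⟩

theorem final {K m : ℕ} (hK : 1 ≤ K) (hm : NB K < m) :
    ∃ M g, Adm K m M g ∧ (∀ M' g', Adm K m M' g' → val K M g ≤ val K M' g') ∧ ∀ n : ℕ,
      (∀ 𝒜 : Finset (Finset (Fin n)), (∀ A ∈ 𝒜, A.card = K + 1) → H54.Inter 𝒜 → 𝒜.card = m →
        val K M g ≤ (∂ 𝒜).card) ∧
      ((m < n ∨ (16 ^ (K + 1) ≤ n ∧ m + NN K * (2 * K + 2) ≤ NB K + NN K * n)) →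
        ∃ 𝒜 : Finset (Finset (Fin n)), (∀ A ∈ 𝒜, A.card = K + 1) ∧ H54.Inter 𝒜 ∧ 𝒜.card = m ∧
          (∂ 𝒜).card = val K M g) := by
  obtain ⟨M, g, h1, h2⟩ := exists_least hK hm
  have low : ∀ (n : ℕ) (𝒜 : Finset (Finset (Fin n))), (∀ A ∈ 𝒜, A.card = K + 1) → H54.Inter 𝒜 →
      𝒜.card = m → val K M g ≤ (∂ 𝒜).card := by
    rintro n 𝒜 a1 a2 rfl
    obtain ⟨M', g', b1, b2⟩ := lower hK a1 a2 hm
    exact (h2 M' g' b1).trans b2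
  refine ⟨M, g, h1, h2, fun n => ⟨low n, fun hn => ?_⟩⟩
  obtain ⟨M', g', b1, b2, b3⟩ := fitStmt hKN ct hOS n K m M g hK h1 hn hm
  obtain ⟨𝒜, a1, a2, a3, a4⟩ := upperStmt initStmt ct n K m M' g' hK b1 b2
  exact ⟨𝒜, a1, a2, a3, le_antisymm (a4.trans b3) (low n 𝒜 a1 a2 a3)⟩

theorem small {n K m : ℕ} (hm : m ≤ NB K) {𝒜₀ : Finset (Finset (Fin n))}
    (h1 : ∀ A ∈ 𝒜₀, A.card = K + 1) (h3 : 𝒜₀.card = m) :
    ∃ 𝒜 : Finset (Finset (Fin n)), (∀ A ∈ 𝒜, A.card = K + 1) ∧ H54.Inter 𝒜 ∧ 𝒜.card = m ∧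
      (∂ 𝒜).card = kk (K + 1) m := by
  have h4 : m ≤ n.choose (K + 1) := by
    have : 𝒜₀ ⊆ powersetCard (K + 1) univ := fun A hA =>
      mem_powersetCard.2 ⟨subset_univ _, h1 A hA⟩
    simpa [h3] using card_le_card this
  obtain ⟨𝒜, a1, a2, a3, a4⟩ := smallStmt initStmt n K m hm h4
  exact ⟨𝒜, a1, a2, a3, le_antisymm a4 (a3 ▸ lower_kk a1 a2)⟩

/-- the size of the family of sets with at least `K` of the first `2K-1` points -/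
theorem fit_iff {K n m : ℕ} (hK : 1 ≤ K) (hn : 2 * K - 1 ≤ n)
    (h : m ≤ (2 * K - 1).choose (K + 1) + NN K * (n - (2 * K - 1))) :
    m + NN K * (2 * K + 2) ≤ NB K + NN K * n := by
  have h1 := ct.nb K hK
  have h2 := ct.up K hK
  obtain ⟨e, rfl⟩ := Nat.exists_eq_add_of_le hn
  rw [Nat.add_sub_cancel_left] at h
  obtain ⟨j, rfl⟩ : ∃ j, K = j + 1 := ⟨K - 1, by omega⟩
  rw [show 2 * (j + 1) - 1 = 2 * j + 1 by omega] at *
  nlinarith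

end Pool.Agent.MP_d50107_co.H61
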