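import Pool.Agent.MP_d50107_co.H61.TL

/-! The number of pieces of a two-level family can be bounded. -/

namespace Pool.Agent.MP_d50107_co.H61

open Finset
open scoped FinsetFamily

namespace Fit

/-- a proper nonempty part of the middle level has a strictly larger shadow -/
theorem strict (hK : KN) (hC : CT) {K x : ℕ} (hK1 : 1 ≤ K) (h1 : 1 ≤ x) (hx : x < NN K) :
    x + 1 ≤ kk K x := by
  obtain rfl | h2 : K = 1 ∨ 2 ≤ K := by omega
  · have : NN 1 = 1 := by decide
    omega
  obtain ⟨l, rfl⟩ : ∃ l, K = l + 1 := ⟨K - 1, by omega⟩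
  have hnw := hC.nw (l + 1) hK1
  by_cases hc : x ≤ (2 * (l + 1) - 2).choose (l + 1)
  · have h3 := hK.lym (l + 1) (2 * (l + 1) - 2) x (by omega) hc
    rw [show 2 * (l + 1) - 2 - (l + 1) + 1 = l by omega, add_mul, one_mul] at h3
    by_contra hlt
    have h4 := Nat.mul_le_mul_left l (show kk (l + 1) x ≤ x by omega)
    omega
  · have e1 : (l + (l + 1)).choose (l + 1) = NN (l + 1) := by
      rw [NN]; congr 1; omega
    have e2 : (l + (l + 1)).choose l = NN (l + 1) := by
      rw [← e1]; exact Nat.choose_symm_add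
    obtain ⟨y, hy⟩ : ∃ y, NN (l + 1) = x + y := Nat.exists_eq_add_of_le hx.le
    have h3 := hK.dual l (l + 1) y (by omega) (by omega)
    rw [e1, e2, show NN (l + 1) - y = x by omega] at h3
    have h4 := hK.clym l (2 * (l + 1) - 2) y (by
      have : WW (l + 1) = (2 * (l + 1) - 2).choose l := by rw [WW, Nat.add_sub_cancel]
      omega)
    rw [show 2 * (l + 1) - 2 - l = l by omega] at h4
    by_contra hlt
    have h5 := Nat.mul_le_mul_left (l + 1) (show y ≤ cl l y by omega)
    rw [add_mul l 1 y, one_mul] at h5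
    omega

/-- drop the zero entries -/
theorem drop (K : ℕ) (g : List ℕ) : ∃ h : List ℕ, (∀ x ∈ h, x ∈ g) ∧ h.sum = g.sum ∧
    sk K h = sk K g ∧ h.length ≤ g.sum := by
  induction g with
  | nil => exact ⟨[], by simp, rfl, rfl, by simp⟩
  | cons x g ih =>
    obtain ⟨h, h1, h2, h3, h4⟩ := ih
    rcases Nat.eq_zero_or_pos x with rfl | hx
    · exact ⟨h, fun y hy => List.mem_cons_of_mem _ (h1 y hy), by rw [List.sum_cons]; omega,
        by rw [sk_cons, kk_zero]; omega, by rw [List.sum_cons]; omega⟩
    · refine ⟨x :: h, fun y hy => ?_, by rw [List.sum_cons, List.sum_cons, h2],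
        by rw [sk_cons, sk_cons, h3], by rw [List.sum_cons, List.length_cons]; omega⟩
      rcases List.mem_cons.1 hy with rfl | hy
      · exact List.mem_cons_self
      · exact List.mem_cons_of_mem _ (h1 y hy)

theorem room (hC : CT) {K : ℕ} (h : 1 ≤ K) : NN K + 2 * K ≤ NB K := by
  obtain ⟨l, rfl⟩ : ∃ l, K = l + 1 := ⟨K - 1, by omega⟩
  have h1 := hC.nb (l + 1) h
  have h2 := le_choose_add l l
  have h3 := le_choose_add (l + 1) l
  have e1 : (l + (l + 1)).choose (l + 1) = NN (l + 1) := by
    rw [NN]; congr 1; omega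
  rw [e1] at h2
  rw [show l + (l + 1 + 1) = 2 * (l + 1) by ring] at h3
  omega

/-- pieces below the full size lose a fixed share -/
theorem loss (hK : KN) (hC : CT) {K : ℕ} (h : 1 ≤ K) (g : List ℕ) (hg : ∀ x ∈ g, x < NN K) :
    (NN K + 1) * g.sum ≤ NN K * sk K g := by
  induction g with
  | nil => simp
  | cons x g ih =>
    have h1 := ih fun y hy => hg y (List.mem_cons_of_mem _ hy)
    have hx := hg x List.mem_cons_self
    have h2 : (NN K + 1) * x ≤ NN K * kk K x := by
      rcases Nat.eq_zero_or_pos x with rfl | h0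
      · simp
      · have h3 := Nat.mul_le_mul_left (NN K) (strict hK hC h h0 hx)
        rw [mul_add, mul_one] at h3
        rw [add_mul, one_mul]
        omega
    rw [List.sum_cons, sk_cons, mul_add, mul_add]
    omega

/-- the normal form, for all `K ≥ 1` -/
theorem normal (hK : KN) (hC : CT) {K : ℕ} (h1 : 1 ≤ K) (h : List ℕ) (hh : ∀ x ∈ h, x ≤ NN K) :
    ∃ u r, r < NN K ∧ h.sum = u * NN K + r ∧ u * NN K + kk K r ≤ sk K h := by
  obtain rfl | h2 : K = 1 ∨ 2 ≤ K := by omega
  · have e : NN 1 = 1 := by decide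
    rw [e] at hh ⊢
    refine ⟨h.sum, 0, one_pos, by simp, ?_⟩
    rw [kk_zero, mul_one, add_zero]
    induction h with
    | nil => simp
    | cons x h ih =>
      have h3 := ih fun y hy => hh y (List.mem_cons_of_mem _ hy)
      have hx := hh x List.mem_cons_self
      rw [List.sum_cons, sk_cons]
      obtain rfl | rfl : x = 0 ∨ x = 1 := by omega
      · omega
      · rw [kk_one]; omega
  · exact TLaux.normal hK hC h2 h hh

theorem big (hC : CT) {K : ℕ} (h : 1 ≤ K) :
    NB K + NN K * (catalan K + SS K) ≤ 16 ^ (K + 1) := by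
  have h1 : NB K ≤ 2 ^ (2 * K + 1) := Nat.choose_le_two_pow _ _
  have h2 : 2 * NN K ≤ 2 ^ (2 * K) := by
    rw [← hC.two K h]; exact Nat.choose_le_two_pow _ _
  have h3 := hC.c1 K h
  have h4 : SS K ≤ 2 * NN K := by
    obtain rfl | h2 : K = 1 ∨ 2 ≤ K := by omega
    · simp [SS]
    · have := hC.s3 K h2
      have := hC.c2 K h
      have := hC.nw K h
      omega
  have e : 16 ^ (K + 1) = 16 * (2 ^ (2 * K) * 2 ^ (2 * K)) := by
    rw [← pow_add, show 2 * K + 2 * K = 4 * K by ring, pow_mul, pow_succ]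
    norm_num [mul_comm]
  rw [pow_succ] at h1
  rw [e]
  obtain ⟨P, hP⟩ : ∃ P, P = 2 ^ (2 * K) := ⟨_, rfl⟩
  have hP1 : 1 ≤ P := hP ▸ Nat.one_le_two_pow
  rw [← hP] at h1 h2 ⊢
  have h5 : NN K * (catalan K + SS K) ≤ P * (2 * P) := Nat.mul_le_mul (by omega) (by omega)
  have h6 : P * 1 ≤ P * P := Nat.mul_le_mul_left _ hP1
  have h7 : P * (2 * P) = 2 * (P * P) := by ring
  omega

end Fit

open Fit in
theorem fitStmt (hK : KN) (hC : CT) (hO : OS) : FitStmt := by
  intro n K m M g h1 hA hn hm
  obtain ⟨hM, hg, hs⟩ := hA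
  by_cases hmn : m < n
  · obtain ⟨h, a1, a2, a3, a4⟩ := drop K g
    have := room hC h1
    exact ⟨M, h, ⟨hM, fun x hx => hg x (a1 x hx), by rw [a2, hs]⟩, by omega,
      by rw [val, val, a3]⟩
  obtain ⟨hn1, hn2⟩ := hn.resolve_left hmn
  have hN := TLaux.NN_pos h1
  obtain ⟨d, rfl⟩ : ∃ d, m = NB K + d := Nat.exists_eq_add_of_le hm.le
  obtain ⟨q, r, hr, hqr⟩ : ∃ q r, r < NN K ∧ d + NN K = q * NN K + r :=
    ⟨(d + NN K) / NN K, (d + NN K) % NN K, Nat.mod_lt _ hN, (Nat.div_add_mod' _ _).symm⟩
  have htop : kk (K + 1) (NB K - NN K) = 3 * NN K := by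
    rw [TLaux.kk_top hC h1 (by omega), show 2 * NN K - NN K = NN K by omega, TLaux.kk_NN hC h1]
    ring
  -- the value of the normal form is at most the given value
  have hval : 3 * NN K + (q * NN K + kk K r) ≤ val K M g := by
    rcases hM.lt_or_eq with hlt | rfl
    · have b1 := loss hK hC h1 g fun x hx => (hg x hx).trans_lt hlt
      have b2 : NB K - M ≤ kk (K + 1) (NB K - M) := by
        have b := hK.lym (K + 1) (2 * K + 1) (NB K - M) (by omega) (Nat.sub_le _ _)
        rw [show 2 * K + 1 - (K + 1) + 1 = K + 1 by omega] at b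
        exact Nat.le_of_mul_le_mul_left b (by omega)
      have b3 : kk K r ≤ r + SS K := by
        have b := hO.one K 1 le_rfl r
        have b' : (kk K r : ℝ) ≤ r + SS K := by linarith
        exact_mod_cast b'
      have b4 := big hC h1
      have b5 := hC.nb K h1
      have b6 := hC.up K h1
      have b7 := hC.c1 K h1
      have b8 : NN K * (g.sum + (catalan K + SS K)) ≤ NN K * sk K g := by
        rw [add_mul, one_mul] at b1
        rw [mul_add]
        omega
      have b9 := Nat.le_of_mul_le_mul_left b8 hN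
      rw [val]
      omega
    · obtain ⟨u, s, c1, c2, c3⟩ := normal hK hC h1 g hg
      have c4 : u * NN K + s = q * NN K + r := by omega
      have c5 : s = r := by
        have c := congrArg (· % NN K) c4
        simpa only [Nat.mul_add_mod_of_lt c1, Nat.mul_add_mod_of_lt hr] using c
      subst c5
      rw [val, htop]
      omega
  have hlen : q + (if r = 0 then 0 else 1) + (2 * K + 1) ≤ n := by
    have e1 : NN K * (q + (2 * K + 1)) + r ≤ NN K * n := by
      have e : NN K * (2 * K + 2) = NN K * (2 * K + 1) + NN K := by ring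
      rw [mul_add, mul_comm (NN K) q]
      omega
    split_ifs with h0
    · have := Nat.le_of_mul_le_mul_left (show NN K * (q + (2 * K + 1)) ≤ NN K * n by omega) hN
      omega
    · have := Nat.lt_of_mul_lt_mul_left (show NN K * (q + (2 * K + 1)) < NN K * n by omega)
      omega
  by_cases h0 : r = 0
  · subst h0
    refine ⟨NN K, List.replicate q (NN K), ⟨le_rfl, fun x hx => (List.eq_of_mem_replicate hx).le,
      ?_⟩, ?_, ?_⟩
    · rw [List.sum_replicate, smul_eq_mul]
      omega
    · rw [List.length_replicate]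
      simp only [if_true] at hlen
      omega
    · rw [val, htop, sk_replicate, TLaux.kk_NN hC h1]
      omega
  · rw [if_neg h0] at hlen
    refine ⟨NN K, r :: List.replicate q (NN K), ⟨le_rfl, fun x hx => ?_, ?_⟩, ?_, ?_⟩
    · rcases List.mem_cons.1 hx with rfl | hx
      · exact hr.le
      · exact (List.eq_of_mem_replicate hx).le
    · rw [List.sum_cons, List.sum_replicate, smul_eq_mul]
      omega
    · rw [List.length_cons, List.length_replicate]
      omega
    · rw [val, htop, sk_cons, sk_replicate, TLaux.kk_NN hC h1]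
      omega

end Pool.Agent.MP_d50107_co.H61
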