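import Pool.Agent.MP_d50107_co.H61.Basic

/-! The two peeling lemmas. -/

namespace Pool.Agent.MP_d50107_co.H61

open Finset
open scoped FinsetFamily

namespace GH

theorem not_top {w : ℕ} {B : Finset ℕ} (h : B ⊆ range w) : w ∉ B := fun e => by
  simpa using h e

theorem level_pos {y j w : ℕ} {ρ : Finset (Finset ℕ)} (h : ρ ⊆ powersetCard j (range w))
    (hne : (memberSubfamily y ρ).Nonempty) : ∃ j', j = j' + 1 := by
  obtain ⟨g, hg⟩ := hne
  rw [mem_memberSubfamily] at hg
  exact ⟨g.card, by rw [← card_eq_of_subset h _ hg.1, card_insert_of_notMem hg.2]⟩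

theorem down_le (hL : LY) {i : ℕ} {X : Finset (Finset ℕ)}
    (h : X ⊆ powersetCard (i + 1) (range (2 * i + 1))) : X.card ≤ (∂ X).card := by
  have := hL.down _ _ X h
  rw [show 2 * i + 1 - (i + 1) + 1 = i + 1 by omega] at this
  exact Nat.le_of_mul_le_mul_left this (Nat.succ_pos i)

theorem mid (i : ℕ) : (2 * i + 1).choose (i + 1) = (2 * i + 1).choose i :=
  Nat.choose_symm_half i

theorem compl_count {i a : ℕ} {X ρ : Finset (Finset ℕ)} (hX : X ⊆ powersetCard a (range (i + a)))
    (hρ : ρ ⊆ powersetCard i (range (i + a))) (hc : Cross X ρ) :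
    X.card + ρ.card ≤ (i + a).choose i := by
  have inj : Set.InjOn (fun g => range (i + a) \ g) ρ := fun g hg g' hg' e => by
    have h1 := (mem_powersetCard.1 (hρ hg)).1
    have h2 := (mem_powersetCard.1 (hρ hg')).1
    have e' : range (i + a) \ g = range (i + a) \ g' := e
    rw [← Finset.sdiff_sdiff_eq_self h1, e', Finset.sdiff_sdiff_eq_self h2]
  have hd : Disjoint X (ρ.image fun g => range (i + a) \ g) := by
    rw [disjoint_left]
    intro x hx hx'
    obtain ⟨g, hg, rfl⟩ := mem_image.1 hx'
    obtain ⟨y, h1, h2⟩ := hc _ hx g hg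
    exact (mem_sdiff.1 h1).2 h2
  have hs : X ∪ (ρ.image fun g => range (i + a) \ g) ⊆ powersetCard a (range (i + a)) := by
    refine union_subset hX fun x hx => ?_
    obtain ⟨g, hg, rfl⟩ := mem_image.1 hx
    have h1 := mem_powersetCard.1 (hρ hg)
    refine mem_powersetCard.2 ⟨sdiff_subset, ?_⟩
    rw [card_sdiff_of_subset h1.1, card_range, h1.2]
    omega
  have := card_le_choose hs
  rwa [card_union_of_disjoint hd, card_image_of_injOn inj, ← Nat.choose_symm_add] at this

theorem cross_member {w i a j : ℕ} {X ρ : Finset (Finset ℕ)} (hw : i + a = w) (hj : j < i)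
    (hX : X ⊆ powersetCard (a + 1) (range (w + 1))) (hS : Shifted X)
    (hρ : ρ ⊆ powersetCard (j + 1) (range (w + 1))) (hc : Cross X ρ) :
    Cross (memberSubfamily w X) (memberSubfamily w ρ) := by
  intro x hx g hg
  have h1 := mem_powersetCard.1 (member_range hX hx)
  have h2 := mem_powersetCard.1 (member_range hρ hg)
  rw [mem_memberSubfamily] at hx hg
  obtain ⟨q, hq, hq'⟩ : ∃ q ∈ range w, q ∉ x ∪ g := by
    refine exists_mem_notMem_of_card_lt_card ?_
    have := card_union_le x g
    rw [card_range]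
    omega
  rw [mem_union, not_or] at hq'
  have hqw := mem_range.1 hq
  obtain ⟨y, a1, a2⟩ := hc _ (hS.swap hx.1 hqw.le hx.2 hq'.1) _ hg.1
  rw [mem_insert] at a1 a2
  rcases a1 with rfl | a1
  · exact absurd (a2.resolve_left hqw.ne) hq'.2
  · exact ⟨y, a1, a2.resolve_left fun e => hx.2 (e ▸ a1)⟩

end GH

open GH

theorem gStmt (hK : KN) (hC : CT) (hL : LY) : GStmt := by
  intro mu lam c J w i a j X ρ hc0 hc1 hmu hst
  induction w generalizing i a j X ρ with
  | zero =>
    intro hw _ _ _ hX _ _ hne _ hc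
    obtain rfl : i = 0 := by omega
    obtain rfl : X = ∅ := eq_empty_of_forall_notMem fun x hx => by
      obtain ⟨g, hg⟩ := hne
      obtain ⟨y, h1, -⟩ := hc x hx g hg
      simpa using (mem_powersetCard.1 (hX hx)).1 h1
    simp
    linarith
  | succ w ih =>
    intro hw ha hj hJ hX hS hρ hne hr hc
    rcases a with _ | a
    · obtain rfl : i = w + 1 := by omega
      obtain rfl : X = ∅ := eq_empty_of_forall_notMem fun x hx => by
        obtain ⟨g, hg⟩ := hne
        obtain ⟨y, h1, -⟩ := hc x hx g hg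
        rw [card_eq_zero.1 (mem_powersetCard.1 (hX hx)).2] at h1
        exact notMem_empty _ h1
      simp
      linarith
    rcases (Nat.le_of_succ_le_succ ha).lt_or_eq with hai | rfl
    swap
    · rw [show w + 1 = 2 * a + 1 by omega] at hX ⊢
      have h1 : (X.card : ℝ) ≤ (∂ X).card := by exact_mod_cast down_le hL hX
      have h2 : (X.card : ℝ) ≤ (2 * a + 1).choose (a + 1) := by exact_mod_cast card_le_choose hX
      rw [mid] at h2 ⊢
      nlinarith
    rcases hj.lt_or_eq with hji | rfl
    swap
    · rw [← hw] at hX hρ ⊢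
      have h1 := compl_count hX hρ hc
      obtain ⟨mm, hm⟩ : ∃ mm, (j + (a + 1)).choose j = X.card + mm :=
        Nat.exists_eq_add_of_le (by omega)
      have h2 := hK.dual j (a + 1) mm (by omega) (by omega)
      rw [show (j + (a + 1)).choose j - mm = X.card by omega] at h2
      have h3 := hK.thm (a + 1) X (card_eq_of_subset hX)
      have h4 : (kk j ρ.card : ℝ) ≤ (∂ ρ).card := by
        exact_mod_cast hK.thm j ρ (card_eq_of_subset hρ)
      have h5 := Nat.choose_le_choose j (show j + (a + 1) ≤ 2 * j by omega)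
      have h6 := hst j ρ.card mm (by omega) hJ hne.card_pos (by omega) (by omega) (h4.trans hr)
      have h7 : (((j + (a + 1)).choose j : ℕ) : ℝ) ≤ (j + (a + 1)).choose (j + 1) + catalan j := by
        exact_mod_cast hC.hmax (j + (a + 1)) j
      have h8 : (((j + (a + 1)).choose (j + 1) : ℕ) : ℝ) ≤ (∂ X).card + cl j mm := by
        exact_mod_cast (by omega : (j + (a + 1)).choose (j + 1) ≤ (∂ X).card + cl j mm)
      have h9 : (((j + (a + 1)).choose j : ℕ) : ℝ) = X.card + mm := by exact_mod_cast hm
      have h10 := mul_le_mul_of_nonneg_left (sub_le_iff_le_add'.2 h7) hc0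
      have h11 : mu * (((j + (a + 1)).choose j : ℕ) : ℝ) = mu * X.card + mu * mm := by
        rw [h9, mul_add]
      linarith
    obtain ⟨i, rfl⟩ : ∃ i', i = i' + 1 := ⟨i - 1, by omega⟩
    obtain ⟨j', σ, b1, b2, b3, b4, b5, b6⟩ : ∃ (j' : ℕ) (σ : Finset (Finset ℕ)), j' ≤ j ∧
        σ ⊆ powersetCard j' (range w) ∧ σ.Nonempty ∧ ((∂ σ).card : ℝ) ≤ lam * σ.card ∧
        Cross (nonMemberSubfamily w X) σ ∧ Cross (memberSubfamily w X) σ := by
      rcases peel w hne hr with ⟨p1, p2⟩ | ⟨p1, p2⟩
      · refine ⟨j, _, le_rfl, nonMember_range hρ, p1, p2, fun x hx g hg => ?_, fun x hx g hg => ?_⟩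
        · exact hc x (mem_nonMemberSubfamily.1 hx).1 g (mem_nonMemberSubfamily.1 hg).1
        · rw [mem_memberSubfamily] at hx
          rw [mem_nonMemberSubfamily] at hg
          obtain ⟨y, a1, a2⟩ := hc _ hx.1 g hg.1
          exact ⟨y, (mem_insert.1 a1).resolve_left fun e => hg.2 (e ▸ a2), a2⟩
      · obtain ⟨j', rfl⟩ := level_pos hρ p1
        refine ⟨j', _, by omega, member_range hρ, p1, p2, fun x hx g hg => ?_,
          cross_member (i := i + 1) (by omega) (by omega) hX hS hρ hc⟩
        rw [mem_memberSubfamily] at hg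
        rw [mem_nonMemberSubfamily] at hx
        obtain ⟨y, a1, a2⟩ := hc x hx.1 _ hg.1
        exact ⟨y, a1, (mem_insert.1 a2).resolve_left fun e => hx.2 (e ▸ a1)⟩
    have h0 := ih i (a + 1) j' _ σ (by omega) (by omega) (by omega) (by omega) (nonMember_range hX)
      (hS.nonMember hX) b2 b3 b4 b5
    have h1 := ih (i + 1) a j' _ σ (by omega) (by omega) (by omega) (by omega) (member_range hX)
      (hS.member hX) b2 b3 b4 b6
    have h2 : ((nonMemberSubfamily w X).card : ℝ) + (memberSubfamily w X).card = X.card := by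
      exact_mod_cast card_split w X
    have h3 : ((∂ (nonMemberSubfamily w X)).card : ℝ) + (∂ (memberSubfamily w X)).card ≤
        (∂ X).card := by exact_mod_cast shadow_split w X
    rw [Nat.choose_succ_succ' w i, Nat.choose_succ_succ' w (i + 1), ← h2]
    push_cast
    linarith

theorem hStmt (hL : LY) : HStmt := by
  intro lam J w i j Y ρ hN
  induction w generalizing i j Y ρ with
  | zero => intro h; omega
  | succ w ih =>
    intro h1 h2 hj hJ hY hS hρ hne hr hB
    rcases (Nat.le_of_succ_le_succ h1).lt_or_eq with hiw | rfl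
    swap
    · obtain ⟨g, hg⟩ := hne
      have a1 : 0 < Y.card := card_pos.2 ⟨_, hB g hg _ (mem_powersetCard.1 (hρ hg)).1 Subset.rfl
        (card_range _)⟩
      have a2 := card_le_choose hY
      have a3 := hL.down _ _ Y hY
      rw [Nat.choose_self] at a2 ⊢
      rw [show Y.card = 1 by omega] at a3 ⊢
      rw [Nat.choose_succ_self_right]
      rw [Nat.sub_self, zero_add, one_mul, mul_one] at a3
      omega
    rcases h2.lt_or_eq with hw | hw
    swap
    · rw [hw] at hY ⊢
      have := down_le hL hY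
      rw [mid]
      omega
    rcases hj.lt_or_eq with hji | rfl
    swap
    · exfalso
      have a1 := hL.down _ _ ρ hρ
      have a2 : (i + 1) * ρ.card ≤ i * (∂ ρ).card :=
        a1.trans (Nat.mul_le_mul_right _ (by omega))
      have a3 : ((i : ℝ) + 1) * ρ.card ≤ i * (∂ ρ).card := by exact_mod_cast a2
      have a4 := hN (i + 1) (by omega) hJ
      have a5 : (0 : ℝ) < ρ.card := by exact_mod_cast hne.card_pos
      push_cast at a4
      have a6 := mul_le_mul_of_nonneg_left hr (Nat.cast_nonneg i : (0 : ℝ) ≤ i)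
      nlinarith [mul_lt_mul_of_pos_right a4 a5]
    obtain ⟨i, rfl⟩ : ∃ i', i = i' + 1 := ⟨i - 1, by omega⟩
    have sub : ∀ {B : Finset ℕ}, B ⊆ range w → insert w B ⊆ range (w + 1) := fun h => by
      rw [range_add_one]; exact insert_subset_insert _ h
    obtain ⟨j', σ, b1, b2, b3, b4, b5, b6⟩ : ∃ (j' : ℕ) (σ : Finset (Finset ℕ)), j' ≤ j ∧
        σ ⊆ powersetCard j' (range w) ∧ σ.Nonempty ∧ ((∂ σ).card : ℝ) ≤ lam * σ.card ∧
        (∀ g ∈ σ, ∀ B : Finset ℕ, g ⊆ B → B ⊆ range w → B.card = i + 1 + 1 →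
          B ∈ nonMemberSubfamily w Y) ∧
        (∀ g ∈ σ, ∀ B : Finset ℕ, g ⊆ B → B ⊆ range w → B.card = i + 1 →
          B ∈ memberSubfamily w Y) := by
      rcases peel w hne hr with ⟨p1, p2⟩ | ⟨p1, p2⟩
      · refine ⟨j, _, le_rfl, nonMember_range hρ, p1, p2, fun g hg B c1 c2 c3 => ?_,
          fun g hg B c1 c2 c3 => ?_⟩
        · exact mem_nonMemberSubfamily.2 ⟨hB g (mem_nonMemberSubfamily.1 hg).1 B c1
            (c2.trans (range_mono (Nat.le_succ w))) c3, not_top c2⟩
        · exact mem_memberSubfamily.2 ⟨hB g (mem_nonMemberSubfamily.1 hg).1 _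
            (c1.trans (subset_insert _ _)) (sub c2)
            (by rw [card_insert_of_notMem (not_top c2), c3]), not_top c2⟩
      · obtain ⟨j', rfl⟩ := level_pos hρ p1
        refine ⟨j', _, by omega, member_range hρ, p1, p2, fun g hg B c1 c2 c3 => ?_,
          fun g hg B c1 c2 c3 => ?_⟩
        · have d1 := (mem_powersetCard.1 (member_range hρ hg)).2
          obtain ⟨q, hq, hq'⟩ : ∃ q ∈ B, q ∉ g := exists_mem_notMem_of_card_lt_card (by omega)
          have c4 : B.erase q ⊆ range w := (erase_subset _ _).trans c2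
          have d2 := hB _ (mem_memberSubfamily.1 hg).1 (insert w (B.erase q))
            (insert_subset_insert _ (subset_erase.2 ⟨c1, hq'⟩)) (sub c4)
            (by rw [card_insert_of_notMem (not_top c4), card_erase_of_mem hq, c3]; rfl)
          have d3 := hS.swap d2 (mem_range.1 (c2 hq)).le (not_top c4) (notMem_erase q B)
          rw [insert_erase hq] at d3
          exact mem_nonMemberSubfamily.2 ⟨d3, not_top c2⟩
        · exact mem_memberSubfamily.2 ⟨hB _ (mem_memberSubfamily.1 hg).1 _
            (insert_subset_insert _ c1) (sub c2)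
            (by rw [card_insert_of_notMem (not_top c2), c3]), not_top c2⟩
    have h0 := ih (i + 1) j' _ σ (by omega) (by omega) (by omega) (by omega) (nonMember_range hY)
      (hS.nonMember hY) b2 b3 b4 b5
    have h1 := ih i j' _ σ (by omega) (by omega) (by omega) (by omega) (member_range hY)
      (hS.member hY) b2 b3 b4 b6
    have h2 := card_split w Y
    have h3 := shadow_split w Y
    rw [Nat.choose_succ_succ' w i, Nat.choose_succ_succ' w (i + 1)]
    omega

end Pool.Agent.MP_d50107_co.H61
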