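import Pool.Agent.MP_d50107_co.H61.Basic

/-! The global bound when a family of very small ratio exists. -/

namespace Pool.Agent.MP_d50107_co.H61

open Finset
open scoped FinsetFamily

namespace Glob

/-- the pair `p, q` can be joined to every `(n+1)`-set above a member of `ρ` -/
def Av (n : ℕ) (F ρ : Finset (Finset ℕ)) (p q : ℕ) : Prop :=
  ∀ g ∈ ρ, ∀ B : Finset ℕ, g ⊆ B → B ⊆ range (2 * n + 3) → B.card + 1 = n + 2 →
    insert p (insert q B) ∈ F

/-- shadow minus size -/
noncomputable def ex (X : Finset (Finset ℕ)) : ℝ := ((∂ X).card : ℝ) - X.card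

variable {n j p q y : ℕ} {F ρ : Finset (Finset ℕ)} {lam c : ℝ}

theorem Av.comm (h : Av n F ρ p q) : Av n F ρ q p := fun g hg B h1 h2 h3 => by
  rw [insert_comm]; exact h g hg B h1 h2 h3

theorem Av.swap (h : Av n F ρ p q) (hF : Shifted F) (h1 : y ≤ p) (h2 : 2 * n + 3 ≤ y)
    (h3 : p ≠ q) (h4 : y ≠ q) : Av n F ρ y q := fun g hg B a1 a2 a3 => by
  refine hF.swap (h g hg B a1 a2 a3) h1 ?_ ?_
  · rw [mem_insert, not_or]
    exact ⟨h3, fun hx => by have := mem_range.1 (a2 hx); omega⟩
  · rw [mem_insert, not_or]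
    exact ⟨h4, fun hx => by have := mem_range.1 (a2 hx); omega⟩

theorem Av.up (h : Av n F ρ y p) (hF : Good (n + 2) F) (hy : 2 * n + 3 ≤ y)
    (hp : 2 * n + 3 ≤ p) {g B : Finset ℕ} (hg : g ∈ ρ) (hc : g.card ≤ n + 1) (h1 : g ⊆ B)
    (h2 : B ⊆ range (2 * n + 3)) (h3 : B.card = n + 2) : insert y B ∈ F := by
  obtain ⟨B₀, a1, a2, a3⟩ := exists_subsuperset_card_eq (n := n + 1) h1 hc (by omega)
  have hA := h g hg B₀ a1 (a2.trans h2) (by omega)
  have hyB : y ∉ B := fun hx => by have := mem_range.1 (h2 hx); omega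
  refine hF.2.2.star hA (by rw [hF.1 _ hA, card_insert_of_notMem hyB, h3]) ?_
  intro x hx hx' z hz hz'
  simp only [mem_insert, not_or] at hx hx' hz hz'
  have b1 : x < 2 * n + 3 := mem_range.1 (h2 (hx.resolve_left hx'.1))
  rcases hz with rfl | rfl | hz
  · omega
  · omega
  · exact absurd (a2 hz) hz'.2

theorem e_empty (hH : HStmt) (hC : CT) (hF : Good (n + 2) F) (hN : NoStop lam (n + 1))
    (hj : j ≤ n + 1) (hρ : ρ ⊆ powersetCard j (range (2 * n + 2))) (hne : ρ.Nonempty)
    (hr : ((∂ ρ).card : ℝ) ≤ lam * ρ.card) (h : Av n F ρ y p) (hy : 2 * n + 3 ≤ y)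
    (hp : 2 * n + 3 ≤ p) : (catalan (n + 2) : ℝ) ≤ ex (fib (2 * n + 3) F ∅) := by
  have h1 := hH lam (n + 1) (2 * n + 3) (n + 2) j (fib (2 * n + 3) F ∅) ρ hN (by omega) (by omega)
    (by omega) hj (fib_subset hF.1 (out_empty _) (by simp)) (hF.2.2.fib (out_empty _))
    (subset_range_mono hρ (by omega)) hne hr fun g hg B a1 a2 a3 => by
      have hc := card_eq_of_subset hρ g hg
      obtain ⟨B₀, b1, b2, b3⟩ := exists_subsuperset_card_eq (n := n + 2) a1 (by omega) (by omega)
      have hA := h.up hF hy hp hg (by omega) b1 (b2.trans a2) b3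
      refine mem_fib_empty.2 ⟨a2, hF.2.2.star hA (by rw [hF.1 _ hA, a3]) ?_⟩
      intro x hx _ z hz hz'
      have := mem_range.1 (a2 hx)
      rcases mem_insert.1 hz with rfl | hz
      · omega
      · exact absurd (b2 hz) hz'
  have h2 := hC.c1 (n + 2) (by omega)
  rw [NN, show 2 * (n + 2) - 1 = 2 * n + 3 by omega] at h2
  have h3 : (fib (2 * n + 3) F ∅).card + catalan (n + 2) ≤ (∂ (fib (2 * n + 3) F ∅)).card := by
    omega
  have h4 : ((fib (2 * n + 3) F ∅).card : ℝ) + catalan (n + 2) ≤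
      (∂ (fib (2 * n + 3) F ∅)).card := by exact_mod_cast h3
  rw [ex]
  linarith

theorem e_pair (hG : GStmt) (hC : CT) (hF : Good (n + 2) F) (h0 : 0 ≤ c) (h1 : c ≤ 1)
    (hS : Stop 1 lam c (n + 1)) (hj : j ≤ n + 1) (hρ : ρ ⊆ powersetCard j (range (2 * n + 2)))
    (hne : ρ.Nonempty) (hr : ((∂ ρ).card : ℝ) ≤ lam * ρ.card) (h : Av n F ρ (2 * n + 5) p)
    (hp : 2 * n + 3 ≤ p) :
    (c - 1) * catalan (n + 2) ≤ ex (fib (2 * n + 3) F {2 * n + 3, 2 * n + 4}) := by
  have hT : Out (2 * n + 3) {2 * n + 3, 2 * n + 4} := (out_singleton (by omega)).insert le_rfl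
  have hX : fib (2 * n + 3) F {2 * n + 3, 2 * n + 4} ⊆ powersetCard (n + 1) (range (2 * n + 3)) :=
    fib_subset hF.1 hT (by rw [card_pair (by omega)])
  have h2 := hG 1 lam c (n + 1) (2 * n + 3) (n + 2) (n + 1) j _ ρ h0 h1 le_rfl hS (by omega)
    (by omega) (by omega) hj hX (hF.2.2.fib hT) (subset_range_mono hρ (by omega)) hne hr
    fun X hX' g hg => by
      by_contra hc
      have a1 := mem_powersetCard.1 (hX hX')
      have a2 := mem_powersetCard.1 (hρ hg)
      have hA := h.up hF (by omega) hp hg (by omega) (B := range (2 * n + 3) \ X)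
        (fun x hx => mem_sdiff.2 ⟨mem_range.2 (by have := mem_range.1 (a2.1 hx); omega),
          fun hx' => hc ⟨x, hx', hx⟩⟩) sdiff_subset
        (by rw [card_sdiff_of_subset a1.1, card_range, a1.2]; omega)
      refine hF.not_disjoint hA (mem_fib_two.1 hX').2 (disjoint_left.2 fun x b1 b2 => ?_)
      simp only [mem_insert, mem_sdiff, mem_range] at b1 b2
      rcases b2 with rfl | rfl | b2
      · omega
      · omega
      · have := mem_range.1 (a1.1 b2)
        rcases b1 with rfl | b1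
        · omega
        · exact b1.2 b2
  have h3 := hC.c1 (n + 2) (by omega)
  rw [NN, show 2 * (n + 2) - 1 = 2 * n + 3 by omega] at h3
  rw [h3] at h2
  push_cast at h2
  rw [ex]
  linarith

theorem e_one (hG : GStmt) (hH : HStmt) (hC : CT) (hF : Good (n + 2) F) (h0 : 0 ≤ c) (h1 : c ≤ 1)
    (hS : Stop 1 lam c (n + 1)) (hN : NoStop lam (n + 1)) (hj : j ≤ n + 1)
    (hρ : ρ ⊆ powersetCard j (range (2 * n + 2))) (hne : ρ.Nonempty)
    (hr : ((∂ ρ).card : ℝ) ≤ lam * ρ.card) {r : ℕ} (h : Av n F ρ y r) (h' : Av n F ρ p q)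
    (hy : 2 * n + 3 ≤ y) (hr' : 2 * n + 3 ≤ r) (hp : 2 * n + 3 ≤ p) (hq : 2 * n + 3 ≤ q)
    (hyp : y ≠ p) (hyq : y ≠ q) : c * catalan (n + 1) ≤ ex (fib (2 * n + 3) F {y}) := by
  have hT : Out (2 * n + 2) {y} := out_singleton (by omega)
  have hT' : Out (2 * n + 2) {2 * n + 2, y} := hT.insert le_rfl
  have h2 := hH lam (n + 1) (2 * n + 2) (n + 1) j (fib (2 * n + 2) F {y}) ρ hN (by omega)
    (by omega) (by omega) hj (fib_subset hF.1 hT (by simp)) (hF.2.2.fib hT) hρ hne hr
    fun g hg B a1 a2 a3 => mem_fib_one.2 ⟨a2, h.up hF hy hr' hg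
      (by have := card_eq_of_subset hρ g hg; omega) a1 (a2.trans (range_mono (by omega))) a3⟩
  have hX : fib (2 * n + 2) F {2 * n + 2, y} ⊆ powersetCard (n + 1) (range (2 * n + 2)) :=
    fib_subset hF.1 hT' (by rw [card_pair (by omega)])
  have h3 := hG 1 lam c (n + 1) (2 * n + 2) (n + 1) (n + 1) j _ ρ h0 h1 le_rfl hS (by omega)
    (by omega) hj hj hX (hF.2.2.fib hT') hρ hne hr fun X hX' g hg => by
      by_contra hc
      have a1 := mem_powersetCard.1 (hX hX')
      have a2 := mem_powersetCard.1 (hρ hg)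
      have hA := h' g hg (range (2 * n + 2) \ X)
        (fun x hx => mem_sdiff.2 ⟨a2.1 hx, fun hx' => hc ⟨x, hx', hx⟩⟩)
        (sdiff_subset.trans (range_mono (by omega)))
        (by rw [card_sdiff_of_subset a1.1, card_range, a1.2]; omega)
      refine hF.not_disjoint hA (mem_fib_two.1 hX').2 (disjoint_left.2 fun x b1 b2 => ?_)
      simp only [mem_insert, mem_sdiff, mem_range] at b1 b2
      rcases b2 with rfl | rfl | b2
      · omega
      · omega
      · have := mem_range.1 (a1.1 b2)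
        rcases b1 with rfl | rfl | b1
        · omega
        · omega
        · exact b1.2 b2
  have h4 := hC.c2 (n + 2) (by omega)
  rw [WW, show 2 * (n + 2) - 2 = 2 * n + 2 by omega, show n + 2 - 1 = n + 1 by omega] at h4
  have h5 : (fib (2 * n + 2) F {y}).card + catalan (n + 1) ≤ (∂ (fib (2 * n + 2) F {y})).card := by
    change _ ≤ _ + (2 * n + 2).choose (n + 2) at h2
    omega
  have h6 : ((fib (2 * n + 2) F {y}).card : ℝ) + catalan (n + 1) ≤
      (∂ (fib (2 * n + 2) F {y})).card := by exact_mod_cast h5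
  have h7 : ((fib (2 * n + 2) F {y}).card : ℝ) + (fib (2 * n + 2) F {2 * n + 2, y}).card =
      (fib (2 * n + 3) F {y}).card := by exact_mod_cast card_fib_split (2 * n + 2) F {y}
  have h8 : ((∂ (fib (2 * n + 2) F {y})).card : ℝ) + (∂ (fib (2 * n + 2) F {2 * n + 2, y})).card ≤
      (∂ (fib (2 * n + 3) F {y})).card := by exact_mod_cast shadow_fib_split (2 * n + 2) F {y}
  rw [h4] at h3
  push_cast at h3
  rw [ex]
  linarith

theorem total (hB : FB) (w : ℕ) (F : Finset (Finset ℕ))
    (kat : ∀ T : Finset ℕ, Out w T → T.Nonempty → T ≠ {w, w + 1} →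
      (fib w F T).card ≤ (∂ (fib w F T)).card) :
    ex (fib w F ∅) + (ex (fib w F {w}) + (ex (fib w F {w + 1}) + (ex (fib w F {w + 2}) +
      ex (fib w F {w, w + 1})))) ≤ ex F := by
  have hO : ∀ T ∈ tails w F ∪ {∅, {w}, {w + 1}, {w + 2}, {w, w + 1}}, Out w T := by
    intro T hT
    simp only [mem_union, mem_insert, mem_singleton] at hT
    rcases hT with hT | rfl | rfl | rfl | rfl | rfl
    · exact out_of_mem_tails hT
    · exact out_empty _
    · exact out_singleton le_rfl
    · exact out_singleton (by omega)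
    · exact out_singleton (by omega)
    · exact (out_singleton (by omega)).insert le_rfl
  have h1 := hB.card w F _ hO subset_union_left
  have h2 := hB.shadow w F _ hO
  have d : ∀ x : ℕ, ({x} : Finset ℕ) ≠ {w, w + 1} := fun x h => by
    have := congrArg card h
    rw [card_pair (by omega), card_singleton] at this
    omega
  have h3 : ∑ T ∈ ({∅, {w}, {w + 1}, {w + 2}, {w, w + 1}} : Finset (Finset ℕ)), ex (fib w F T) ≤
      ∑ T ∈ tails w F ∪ {∅, {w}, {w + 1}, {w + 2}, {w, w + 1}}, ex (fib w F T) := by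
    refine sum_le_sum_of_subset_of_nonneg subset_union_right fun T hT hT' => ?_
    simp only [mem_insert, mem_singleton, not_or] at hT'
    have := kat T (hO T hT) (nonempty_iff_ne_empty.2 hT'.1) hT'.2.2.2.2
    rw [ex, sub_nonneg]
    exact_mod_cast this
  rw [sum_insert (by
      simp only [mem_insert, mem_singleton, not_or]
      exact ⟨(singleton_ne_empty _).symm, (singleton_ne_empty _).symm, (singleton_ne_empty _).symm,
        (insert_ne_empty _ _).symm⟩),
    sum_insert (by simp [d]), sum_insert (by simp [d]), sum_pair (d _)] at h3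
  refine h3.trans ?_
  simp only [ex, sum_sub_distrib]
  rw [← Nat.cast_sum, ← Nat.cast_sum, h1]
  exact sub_le_sub_right (by exact_mod_cast h2) _

end Glob

open Glob in
theorem globStmt (hF : FB) (hS : SR) (hG : GStmt) (hH : HStmt) (hC : CT) : GlobStmt := by
  intro K F lam c hK hg h0 h1 hs hN
  obtain ⟨n, rfl⟩ : ∃ n, K = n + 2 := ⟨K - 2, by omega⟩
  have e1 : 2 * (n + 2) - 1 = 2 * n + 3 := by omega
  have e2 : 2 * (n + 2) - 2 = 2 * n + 2 := by omega
  have e3 : 2 * (n + 2) = 2 * n + 4 := by omega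
  have e4 : n + 2 - 1 = n + 1 := by omega
  have kat := fun T => hS.kat (n + 2) F T (by omega) hg
  rw [e1, e3] at kat
  rw [e4] at hs hN
  have ht := total hF (2 * n + 3) F kat
  have key : ∀ (j : ℕ) (ρ : Finset (Finset ℕ)), j ≤ n + 1 →
      ρ ⊆ powersetCard j (range (2 * n + 2)) → ρ.Nonempty →
      ((∂ ρ).card : ℝ) ≤ lam * ρ.card → Av n F ρ (2 * n + 3) (2 * n + 5) →
      (F.card : ℝ) + c * ((catalan (n + 2) : ℝ) + 2 * catalan (n + 1)) +
        ex (fib (2 * n + 3) F {2 * n + 3}) ≤ (∂ F).card := by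
    intro j ρ hj hρ hne hr h
    have h' : Av n F ρ (2 * n + 4) (2 * n + 3) :=
      h.comm.swap hg.2.2 (by omega) (by omega) (by omega) (by omega)
    have a1 := e_empty hH hC hg hN hj hρ hne hr h le_rfl (by omega)
    have a2 := e_pair hG hC hg h0 h1 hs hj hρ hne hr h.comm le_rfl
    have a3 := e_one hG hH hC hg h0 h1 hs hN hj hρ hne hr h' h (by omega) le_rfl le_rfl
      (by omega) (by omega) (by omega)
    have a4 := e_one hG hH hC hg h0 h1 hs hN hj hρ hne hr h.comm h' (by omega) le_rfl (by omega)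
      le_rfl (by omega) (by omega)
    change _ + (_ + (ex (fib (2 * n + 3) F {2 * n + 4}) + (ex (fib (2 * n + 3) F {2 * n + 5}) +
      ex (fib (2 * n + 3) F {2 * n + 3, 2 * n + 4})))) ≤ ((∂ F).card : ℝ) - F.card at ht
    linarith
  rw [Seed, Seed, e1, e2, e3, e4]
  refine ⟨?_, ?_⟩
  · rintro ⟨j, ρ, hj, hρ, hne, hr, h⟩
    have a1 := key j ρ (by omega) hρ hne hr h
    have a2 : 0 ≤ ex (fib (2 * n + 3) F {2 * n + 3}) := by
      have := kat {2 * n + 3} (out_singleton le_rfl) (singleton_nonempty _) fun h => by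
        have := congrArg card h
        rw [card_pair (by omega), card_singleton] at this
        omega
      rw [ex, sub_nonneg]
      exact_mod_cast this
    linarith
  · rintro ⟨j, ρ, hj, hρ, hne, hr, h⟩
    have h' : Av n F ρ (2 * n + 3) (2 * n + 5) :=
      Av.swap h hg.2.2 (by omega) le_rfl (by omega) (by omega)
    have a1 := key j ρ (by omega) hρ hne hr h'
    have a2 := e_one hG hH hC hg h0 h1 hs hN (by omega) hρ hne hr h' h le_rfl (by omega)
      (by omega) (by omega) (by omega) (by omega)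
    linarith

end Pool.Agent.MP_d50107_co.H61
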