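import Pool.Agent.MP_d50107_co.H61.Basic

/-! Initial segments realise `kk`; the inequalities for `kk` collected in `KN`. -/

namespace Pool.Agent.MP_d50107_co.H61

open Finset Finset.Colex
open scoped FinsetFamily
open Pool.Agent.MP_d50107_co.H54 (IsInit)

namespace KNx

theorem shadow_zero {X : Finset (Finset ℕ)} (h : ∀ A ∈ X, A.card = 0) : ∂ X = ∅ := by
  refine eq_empty_of_forall_notMem fun T hT => ?_
  obtain ⟨F, hF, x, hx, -⟩ := mem_shadow_iff.1 hT
  rw [card_eq_zero.1 (h F hF)] at hx
  exact notMem_empty _ hx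

theorem shadow_sub {w l : ℕ} {X : Finset (Finset ℕ)} (h : X ⊆ powersetCard (l + 1) (range w)) :
    ∂ X ⊆ powersetCard l (range w) := by
  intro T hT
  obtain ⟨F, hF, x, hx, rfl⟩ := mem_shadow_iff.1 hT
  have := mem_powersetCard.1 (h hF)
  exact mem_powersetCard.2 ⟨(erase_subset _ _).trans this.1, by
    rw [card_erase_of_mem hx, this.2]; rfl⟩

/-- the shadow of an initial segment is an initial segment -/
theorem init_shadow {w l : ℕ} {ℒ : Finset (Finset ℕ)}
    (h : IsInit (powersetCard (l + 1) (range w)) ℒ) : IsInit (powersetCard l (range w)) (∂ ℒ) := by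
  refine ⟨shadow_sub h.1, fun T hT G hG hlt => ?_⟩
  obtain ⟨x, hx, hF⟩ := mem_shadow_iff_insert_mem.1 hT
  have hF' := mem_powersetCard.1 (h.1 hF)
  have hG' := mem_powersetCard.1 hG
  obtain ⟨a, haT, haG, ha⟩ := toColex_lt_toColex_iff_exists_forall_lt.1 hlt
  obtain ⟨z, hz, hzmin⟩ := exists_min_image (range w \ G) id
    ⟨a, mem_sdiff.2 ⟨hF'.1 (mem_insert_of_mem haT), haG⟩⟩
  rw [mem_sdiff] at hz
  have hmin : ∀ v ∈ range w, v ∉ G → z ≤ v := fun v h1 h2 => hzmin v (mem_sdiff.2 ⟨h1, h2⟩)
  have hza := hmin a (hF'.1 (mem_insert_of_mem haT)) haG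
  have hmem : insert z G ∈ powersetCard (l + 1) (range w) :=
    mem_powersetCard.2 ⟨insert_subset hz.1 hG'.1, by rw [card_insert_of_notMem hz.2, hG'.2]⟩
  refine mem_shadow_iff_insert_mem.2 ⟨z, hz.2, ?_⟩
  by_cases he : insert z G = insert x T
  · exact he ▸ hF
  refine h.2 _ hF _ hmem (toColex_lt_toColex_iff_exists_forall_lt.2 ?_)
  rcases hza.lt_or_eq with hlt' | rfl
  · refine ⟨a, mem_insert_of_mem haT, by simp [haG, hlt'.ne'], fun b hb hb' => ?_⟩
    rcases mem_insert.1 hb with rfl | hb
    · exact hlt'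
    · exact ha b hb fun h' => hb' (mem_insert_of_mem h')
  · have hc : ¬ insert x T ⊆ insert z G := fun hs =>
      he (eq_of_subset_of_card_le hs (by rw [hF'.2, (mem_powersetCard.1 hmem).2])).symm
    obtain ⟨c, hc1, hc2⟩ := not_subset.1 hc
    refine ⟨c, hc1, hc2, fun b hb hb' => ?_⟩
    have h1 := hmin c (hF'.1 hc1) fun h' => hc2 (mem_insert_of_mem h')
    rcases mem_insert.1 hb with rfl | hb
    · exact (hb' (mem_insert_of_mem haT)).elim
    · exact (ha b hb fun h' => hb' (mem_insert_of_mem h')).trans_le h1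

theorem init_nonMember {w l : ℕ} {ℒ : Finset (Finset ℕ)}
    (h : IsInit (powersetCard l (range (w + 1))) ℒ) :
    IsInit (powersetCard l (range w)) (nonMemberSubfamily w ℒ) := by
  refine ⟨nonMember_range h.1, fun F hF G hG hlt => ?_⟩
  rw [mem_nonMemberSubfamily] at hF ⊢
  exact ⟨h.2 F hF.1 G (powersetCard_mono (range_mono w.le_succ) hG) hlt,
    fun h' => by simpa using (mem_powersetCard.1 hG).1 h'⟩

theorem init_member {w l : ℕ} {ℒ : Finset (Finset ℕ)}
    (h : IsInit (powersetCard (l + 1) (range (w + 1))) ℒ) :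
    IsInit (powersetCard l (range w)) (memberSubfamily w ℒ) := by
  refine ⟨member_range h.1, fun F hF G hG hlt => ?_⟩
  rw [mem_memberSubfamily] at hF ⊢
  have hG' := mem_powersetCard.1 hG
  have hw : w ∉ G := fun h' => by simpa using hG'.1 h'
  refine ⟨h.2 _ hF.1 _ (mem_powersetCard.2 ⟨?_, by rw [card_insert_of_notMem hw, hG'.2]⟩)
    (H54.colex_insert_lt hw hlt hF.2), hw⟩
  rw [range_add_one]
  exact insert_subset_insert _ hG'.1

theorem nonMember_full {w l : ℕ} {ℒ : Finset (Finset ℕ)}
    (h : IsInit (powersetCard l (range (w + 1))) ℒ) (hne : (memberSubfamily w ℒ).Nonempty) :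
    nonMemberSubfamily w ℒ = powersetCard l (range w) := by
  refine Subset.antisymm (nonMember_range h.1) fun G hG => ?_
  obtain ⟨F, hF⟩ := hne
  rw [mem_memberSubfamily] at hF
  have hG' := mem_powersetCard.1 hG
  have hw : w ∉ G := fun h' => by simpa using hG'.1 h'
  refine mem_nonMemberSubfamily.2 ⟨h.2 _ hF.1 G (powersetCard_mono (range_mono w.le_succ) hG)
    (toColex_lt_toColex_iff_exists_forall_lt.2 ⟨w, mem_insert_self _ _, hw, fun b hb _ => ?_⟩), hw⟩
  exact mem_range.1 (hG'.1 hb)

/-- the shadow of an initial segment has size `kk` -/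
theorem init_card (w : ℕ) : ∀ (l : ℕ) (ℒ : Finset (Finset ℕ)),
    IsInit (powersetCard l (range w)) ℒ → (∂ ℒ).card = kk l ℒ.card := by
  induction w with
  | zero =>
    intro l ℒ h
    rcases l with _ | l
    · rw [shadow_zero (card_eq_of_subset h.1), card_empty, kk_zero_left]
    · have := card_le_choose h.1
      rw [Nat.choose_zero_succ, Nat.le_zero, card_eq_zero] at this
      subst this
      simp
  | succ w ih =>
    intro l ℒ h
    rcases l with _ | l
    · rw [shadow_zero (card_eq_of_subset h.1), card_empty, kk_zero_left]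
    have h0 := ih _ _ (init_nonMember h)
    have h1 := ih _ _ (init_member h)
    have hc := card_split w ℒ
    rw [H54.card_shadow_eq w ℒ, h1, ← hc]
    rcases (memberSubfamily w ℒ).eq_empty_or_nonempty with e | e
    · rw [e, union_empty, h0]
      simp
    have hf := nonMember_full h e
    have hr := card_le_choose (init_member h).1
    have hpos := e.card_pos
    have hcf : (nonMemberSubfamily w ℒ).card = w.choose (l + 1) := by rw [hf]; simp
    by_cases hw : l + 1 ≤ w
    · rw [hcf, kk_choose hw] at h0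
      have h2 := card_le_choose
        (union_subset (shadow_sub (init_nonMember h).1) (init_member h).1)
      have h3 := card_le_card (subset_union_left (s₁ := ∂ (nonMemberSubfamily w ℒ))
        (s₂ := memberSubfamily w ℒ))
      rw [hcf, kk_block hw hr]
      omega
    · have h2 : w.choose (l + 1) = 0 := Nat.choose_eq_zero_of_lt (by omega)
      have h3 := Nat.choose_le_choose l (show w ≤ l by omega)
      rw [Nat.choose_self] at h3
      have h4 : (memberSubfamily w ℒ).card = 1 := by omega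
      have h5 : nonMemberSubfamily w ℒ = ∅ := card_eq_zero.1 (hcf.trans h2)
      rw [h5, shadow_empty, empty_union, h4, card_empty, zero_add, kk_one, kk_one]

theorem exists_init (l m : ℕ) {w : ℕ} (hw : m + (l + 1) ≤ w) :
    ∃ ℒ, IsInit (powersetCard (l + 1) (range w)) ℒ ∧ ℒ.card = m := by
  refine H54.exists_isInit _ _ ?_
  have h1 := le_choose_add l m
  have h2 := Nat.choose_le_choose (l + 1) hw
  rw [card_powersetCard, card_range]
  omega

theorem fam_eq (X : Finset ℕ) (k : ℕ) : H54.fam (fun _ => True) X k 0 = powersetCard k X := by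
  ext F
  simp [H54.mem_fam, mem_powersetCard]

theorem thm' {l m : ℕ} {𝒜 : Finset (Finset ℕ)} (h : ∀ A ∈ 𝒜, A.card = l) (hm : m ≤ 𝒜.card) :
    kk l m ≤ (∂ 𝒜).card := by
  obtain ⟨w, hw⟩ : ∃ w, ∀ A ∈ 𝒜, A ⊆ range w := by
    obtain ⟨w, hw⟩ := (𝒜.biUnion id).exists_nat_subset_range
    exact ⟨w, fun A hA x hx => hw (mem_biUnion.2 ⟨A, hA, hx⟩)⟩
  have hs : 𝒜 ⊆ powersetCard l (range w) := fun A hA => mem_powersetCard.2 ⟨hw A hA, h A hA⟩
  obtain ⟨ℒ, h1, rfl⟩ := H54.exists_isInit (powersetCard l (range w)) m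
    (hm.trans (card_le_card hs))
  rw [← init_card w l ℒ h1]
  exact H54.kk_fam (P := fun _ => True) (fun _ _ _ _ => trivial) (range w) l 0 𝒜 ℒ
    (by rwa [fam_eq]) (by rwa [fam_eq]) hm

theorem mono (l a b : ℕ) (h : a ≤ b) : kk l a ≤ kk l b := by
  rcases l with _ | l
  · simp
  obtain ⟨ℒ, h1, rfl⟩ := exists_init l b le_rfl
  rw [← init_card _ _ _ h1]
  exact thm' (card_eq_of_subset h1.1) h

theorem shadow_union (X Y : Finset (Finset ℕ)) : ∂ (X ∪ Y) = ∂ X ∪ ∂ Y := by
  ext T
  simp only [mem_shadow_iff_insert_mem, mem_union, and_or_left, exists_or]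

theorem sub (l a b : ℕ) : kk l (a + b) ≤ kk l a + kk l b := by
  rcases l with _ | l
  · simp
  obtain ⟨A, hA, rfl⟩ := exists_init l a le_rfl
  obtain ⟨B, hB, rfl⟩ := exists_init l b le_rfl
  set w := A.card + (l + 1)
  have hf : Function.Injective fun x : ℕ => x + w := add_left_injective w
  have hc : (B.image (image fun x => x + w)).card = B.card :=
    card_image_of_injective _ (image_injective hf)
  have hd : Disjoint A (B.image (image fun x => x + w)) := by
    refine disjoint_left.2 fun F hF hF' => ?_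
    obtain ⟨G, hG, rfl⟩ := mem_image.1 hF'
    obtain ⟨x, hx⟩ : G.Nonempty := card_pos.1 (by rw [card_eq_of_subset hB.1 G hG]; omega)
    have := mem_range.1 ((mem_powersetCard.1 (hA.1 hF)).1 (mem_image_of_mem _ hx))
    omega
  have hs : ∂ (B.image (image fun x => x + w)) ⊆ (∂ B).image (image fun x => x + w) := by
    intro T hT
    obtain ⟨F, hF, y, hy, rfl⟩ := mem_shadow_iff.1 hT
    obtain ⟨G, hG, rfl⟩ := mem_image.1 hF
    obtain ⟨x, hx, rfl⟩ := mem_image.1 hy
    exact mem_image.2 ⟨G.erase x, erase_mem_shadow hG hx, image_erase hf _ _⟩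
  have h1 := thm' (l := l + 1) (m := A.card + B.card) (𝒜 := A ∪ B.image (image fun x => x + w))
    (fun F hF => by
      rcases mem_union.1 hF with hF | hF
      · exact card_eq_of_subset hA.1 F hF
      · obtain ⟨G, hG, rfl⟩ := mem_image.1 hF
        rw [card_image_of_injective _ hf, card_eq_of_subset hB.1 G hG])
    (by rw [card_union_of_disjoint hd, hc])
  rw [shadow_union] at h1
  rw [← init_card _ _ _ hA, ← init_card _ _ _ hB]
  exact h1.trans ((card_union_le _ _).trans
    (Nat.add_le_add_left ((card_le_card hs).trans card_image_le) _))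

theorem init_total {𝒜 X Y : Finset (Finset ℕ)} (hX : IsInit 𝒜 X) (hY : IsInit 𝒜 Y) :
    X ⊆ Y ∨ Y ⊆ X := by
  by_contra hc
  rw [not_or, not_subset, not_subset] at hc
  obtain ⟨⟨F, hF, hF'⟩, G, hG, hG'⟩ := hc
  rcases lt_trichotomy (toColex F) (toColex G) with h | h | h
  · exact hF' (hY.2 G hG F (hX.1 hF) h)
  · exact hF' (toColex_inj.1 h ▸ hG)
  · exact hG' (hX.2 F hF G (hY.1 hG) h)

theorem kk_one_left {n : ℕ} (h : 1 ≤ n) : kk 1 n = 1 := by
  simpa using kk_choose (l := 0) (x := n) h

theorem glue (l a b : ℕ) : kk (l + 1) (a + b) ≤ max (kk (l + 1) a) b + kk l b := by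
  rcases l with _ | l
  · rcases a with _ | a
    · rcases b with _ | b
      · simp
      · rw [zero_add, kk_one_left (by omega)]
        omega
    · rw [zero_add, kk_one_left (by omega), kk_one_left (by omega)]
      omega
  obtain ⟨A, hA, hAc⟩ := exists_init (l + 1) a (w := a + b + (l + 2)) (by omega)
  obtain ⟨B, hB, hBc⟩ := exists_init l b (w := a + b + (l + 2)) (by omega)
  generalize a + b + (l + 2) = w at hA hB
  subst hAc hBc
  have hwA : ∀ F ∈ A, w ∉ F := fun F hF h' => by
    simpa using (mem_powersetCard.1 (hA.1 hF)).1 h'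
  have hwB : ∀ F ∈ B, w ∉ F := fun F hF h' => by
    simpa using (mem_powersetCard.1 (hB.1 hF)).1 h'
  have e0 : nonMemberSubfamily w (A ∪ B.image (insert w)) = A := by
    rw [nonMemberSubfamily_union, nonMemberSubfamily_image_insert, union_empty]
    ext F
    rw [mem_nonMemberSubfamily]
    exact ⟨fun h => h.1, fun h => ⟨h, hwA F h⟩⟩
  have e1 : memberSubfamily w (A ∪ B.image (insert w)) = B := by
    rw [memberSubfamily_union, memberSubfamily_image_insert hwB]
    refine union_eq_right.2 fun F hF => ?_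
    exact (hwA _ (mem_memberSubfamily.1 hF).1 (mem_insert_self _ _)).elim
  have hc := card_split w (A ∪ B.image (insert w))
  have h1 := thm' (l := l + 1 + 1) (m := A.card + B.card) (𝒜 := A ∪ B.image (insert w))
    (fun F hF => by
      rcases mem_union.1 hF with hF | hF
      · exact card_eq_of_subset hA.1 F hF
      · obtain ⟨G, hG, rfl⟩ := mem_image.1 hF
        rw [card_insert_of_notMem (hwB G hG), card_eq_of_subset hB.1 G hG])
    (by rw [← hc, e0, e1])
  rw [H54.card_shadow_eq w, e0, e1] at h1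
  rw [← init_card _ _ _ hA, ← init_card _ _ _ hB]
  rcases init_total (init_shadow hA) hB with h | h
  · rw [union_eq_right.2 h] at h1
    omega
  · rw [union_eq_left.2 h] at h1
    omega

theorem galois (hc : ∀ l x m : ℕ, m ≤ x.choose l → (l + 1) * cl l m ≤ (x - l) * m) (i : ℕ) :
    ∀ m, kk (i + 1) (cl i m) ≤ m ∧ ((i = 0 → m = 0) → m < kk (i + 1) (cl i m + 1)) := by
  induction i with
  | zero =>
    intro m
    refine ⟨by simp, fun h => ?_⟩
    rw [h rfl, cl_zero, zero_add 1, kk_one]
    omega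
  | succ i ih =>
    intro m
    rcases Nat.eq_zero_or_pos m with rfl | hm
    · refine ⟨by simp, fun _ => ?_⟩
      rw [cl_zero, zero_add 1, kk_one]
      omega
    obtain ⟨y, r, hy, hr, rfl, -, hcl⟩ := decomp i hm
    have h1 := hc i y r hr.le
    have h2 : (i + 1) * cl i r < (i + 1) * y.choose (i + 1) := by
      refine h1.trans_lt ?_
      rw [mul_comm (i + 1), Nat.choose_succ_right_eq, mul_comm (y.choose i)]
      exact Nat.mul_lt_mul_of_pos_left hr (by omega)
    have h3 := Nat.lt_of_mul_lt_mul_left h2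
    rw [hcl]
    rcases hy.lt_or_eq with hy | rfl
    · obtain ⟨g1, g2⟩ := ih r
      have g3 := g2 fun h => by
        subst h
        simpa using hr
      rw [add_assoc (y.choose (i + 2)), kk_block hy h3.le,
        kk_block (r := cl i r + 1) hy h3]
      exact ⟨by omega, fun _ => by omega⟩
    · rw [Nat.choose_self] at h3
      rw [Nat.choose_succ_self_right] at hr
      rw [Nat.choose_eq_zero_of_lt (show i + 1 < i + 2 by omega), show cl i r = 0 by omega,
        Nat.choose_self, add_zero, kk_zero, zero_add 1, kk_one]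
      exact ⟨by omega, fun _ => by omega⟩

theorem cl_super (hc : ∀ l x m : ℕ, m ≤ x.choose l → (l + 1) * cl l m ≤ (x - l) * m) {i : ℕ}
    (hi : 1 ≤ i) (a b : ℕ) : cl i a + cl i b ≤ cl i (a + b) := by
  by_contra h
  have h1 := mono (i + 1) (cl i (a + b) + 1) (cl i a + cl i b) (by omega)
  have h2 := sub (i + 1) (cl i a) (cl i b)
  have h3 := (galois hc i a).1
  have h4 := (galois hc i b).1
  have h5 := (galois hc i (a + b)).2 (by omega)
  omega

theorem clem (hL : LymStmt) (l x a b : ℕ) (hx : l + 2 ≤ x) (ha : a ≤ x.choose (l + 1))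
    (hb : b ≤ x.choose (l + 1)) (hab : x.choose (l + 1) ≤ a + b) :
    x.choose l + kk (l + 1) (a + b - x.choose (l + 1)) ≤ kk (l + 1) a + kk (l + 1) b := by
  obtain ⟨-, -, hc, hd, -⟩ := hL
  obtain ⟨i, hi, rfl⟩ : ∃ i, 1 ≤ i ∧ x = i + (l + 1) := ⟨x - (l + 1), by omega, by omega⟩
  have e1 : (i + (l + 1)).choose i = (i + (l + 1)).choose (l + 1) := Nat.choose_symm_add
  have e2 : (i + (l + 1)).choose (i + 1) = (i + (l + 1)).choose l :=
    Nat.choose_symm_of_eq_add (by omega)
  have hd' := fun m => hd i (l + 1) m hi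
  rw [e1, e2] at hd'
  generalize (i + (l + 1)).choose (l + 1) = N at *
  have h1 := hd' (N - a) (by omega)
  have h2 := hd' (N - b) (by omega)
  have h3 := hd' (N - a + (N - b)) (by omega)
  have h4 := cl_super hc hi (N - a) (N - b)
  rw [Nat.sub_sub_self ha] at h1
  rw [Nat.sub_sub_self hb] at h2
  rw [show N - (N - a + (N - b)) = a + b - N by omega] at h3
  omega

end KNx

theorem initStmt : InitStmt := fun w l ℒ h => ⟨KNx.init_card w (l + 1) ℒ h, KNx.init_shadow h⟩

theorem kn (hL : LymStmt) : KN where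
  thm := fun _ _ h => KNx.thm' h le_rfl
  mono := KNx.mono
  le_mul := hL.1
  lym := hL.2.1
  clym := hL.2.2.1
  dual := hL.2.2.2.1
  emono := hL.2.2.2.2
  sub := KNx.sub
  glue := KNx.glue
  clem := KNx.clem hL

end Pool.Agent.MP_d50107_co.H61
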