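import Pool.Agent.MP_d50107_co.H61.Basic

/-! Local counting inequalities and the reduction to shifted families. -/

namespace Pool.Agent.MP_d50107_co.H61

open Finset
open scoped FinsetFamily

namespace LYaux

theorem down (hK : KN) (w a : ℕ) (𝒴 : Finset (Finset ℕ)) (h : 𝒴 ⊆ powersetCard a (range w)) :
    a * 𝒴.card ≤ (w - a + 1) * (∂ 𝒴).card := by
  have h1 := card_le_choose h
  by_cases haw : a ≤ w
  · exact (hK.lym a w _ haw h1).trans
      (Nat.mul_le_mul_left _ (hK.thm a 𝒴 (card_eq_of_subset h)))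
  · rw [Nat.choose_eq_zero_of_lt (by omega)] at h1
    have h2 : 𝒴.card = 0 := by omega
    rw [h2]
    simp

theorem up (w a : ℕ) (𝒴 𝒵 : Finset (Finset ℕ)) (hY : 𝒴 ⊆ powersetCard a (range w))
    (hZ : 𝒵 ⊆ powersetCard (a + 1) (range w))
    (h : ∀ Y ∈ 𝒴, ∀ x, x < w → x ∉ Y → insert x Y ∈ 𝒵) :
    (w - a) * 𝒴.card ≤ (a + 1) * 𝒵.card := by
  classical
  rw [mul_comm (w - a), mul_comm (a + 1)]
  refine card_mul_le_card_mul (fun Y Z : Finset ℕ => Y ⊆ Z) (fun Y hY' => ?_) (fun Z hZ' => ?_)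
  · obtain ⟨h1, h2⟩ := mem_powersetCard.1 (hY hY')
    have h3 : (range w \ Y).card = w - a := by
      rw [card_sdiff_of_subset h1, card_range, h2]
    rw [← h3]
    refine card_le_card_of_injOn (fun x => insert x Y) (fun x hx => ?_) (fun x hx y hy hxy => ?_)
    · have hx' := mem_sdiff.1 (mem_coe.1 hx)
      exact mem_coe.2 ((mem_bipartiteAbove _).2
        ⟨h Y hY' x (mem_range.1 hx'.1) hx'.2, subset_insert _ _⟩)
    · have hx' := mem_sdiff.1 (mem_coe.1 hx)
      have h4 : x ∈ insert y Y := by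
        have h5 : insert x Y = insert y Y := hxy
        rw [← h5]
        exact mem_insert_self _ _
      rcases mem_insert.1 h4 with h4 | h4
      · exact h4
      · exact absurd h4 hx'.2
  · obtain ⟨-, h2⟩ := mem_powersetCard.1 (hZ hZ')
    have h3 : (powersetCard a Z).card = a + 1 := by
      rw [card_powersetCard, h2, Nat.choose_succ_self_right]
    rw [← h3]
    refine card_le_card fun Y hY' => ?_
    have h4 := (mem_bipartiteBelow _).1 hY'
    exact mem_powersetCard.2 ⟨h4.2, (mem_powersetCard.1 (hY h4.1)).2⟩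

theorem dens (w a : ℕ) (𝒳 : Finset (Finset ℕ)) (h : 𝒳 ⊆ powersetCard a (range (w + 1)))
    (hs : Shifted 𝒳) (haw : a ≤ w) :
    𝒳.card * w.choose a ≤ (nonMemberSubfamily w 𝒳).card * (w + 1).choose a := by
  have hsp := card_split w 𝒳
  rcases a with _ | a
  · have h0 : memberSubfamily w 𝒳 = ∅ := by
      refine eq_empty_of_forall_notMem fun A hA => ?_
      have h1 := (mem_powersetCard.1 (h (mem_memberSubfamily.1 hA).1)).2
      exact absurd (card_eq_zero.1 h1) (insert_ne_empty _ _)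
    rw [h0, card_empty] at hsp
    simp only [Nat.choose_zero_right, mul_one]
    omega
  · have h1 := up w a (memberSubfamily w 𝒳) (nonMemberSubfamily w 𝒳) (member_range h)
      (nonMember_range h) (fun Y hY x hx hxY => by
        rw [mem_memberSubfamily] at hY
        rw [mem_nonMemberSubfamily]
        refine ⟨hs.swap hY.1 hx.le hY.2 hxY, ?_⟩
        rw [mem_insert, not_or]
        exact ⟨hx.ne', hY.2⟩)
    have h2 : w.choose (a + 1) * (a + 1) = w.choose a * (w - a) := Nat.choose_succ_right_eq w a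
    have h3 : (memberSubfamily w 𝒳).card * w.choose (a + 1) ≤
        (nonMemberSubfamily w 𝒳).card * w.choose a := by
      refine Nat.le_of_mul_le_mul_right (c := a + 1) ?_ (Nat.succ_pos a)
      calc (memberSubfamily w 𝒳).card * w.choose (a + 1) * (a + 1)
          = w.choose a * ((w - a) * (memberSubfamily w 𝒳).card) := by
            rw [mul_assoc, h2]; ring
        _ ≤ w.choose a * ((a + 1) * (nonMemberSubfamily w 𝒳).card) :=
            Nat.mul_le_mul_left _ h1
        _ = (nonMemberSubfamily w 𝒳).card * w.choose a * (a + 1) := by ring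
    rw [← hsp, Nat.choose_succ_succ', add_mul, mul_add]
    omega

theorem ratio (a : ℕ) (𝒴 : Finset (Finset ℕ)) (h : ∀ Y ∈ 𝒴, Y.card = a) :
    (∂ 𝒴).card ≤ a * 𝒴.card := by
  have h1 : ∂ 𝒴 ⊆ 𝒴.biUnion fun Y => Y.image (erase Y) := fun T hT => by
    obtain ⟨Y, hY, x, hx, rfl⟩ := mem_shadow_iff.1 hT
    exact mem_biUnion.2 ⟨Y, hY, mem_image_of_mem _ hx⟩
  refine (card_le_card h1).trans (card_biUnion_le.trans ?_)
  rw [mul_comm, ← smul_eq_mul]
  exact sum_le_card_nsmul _ _ _ fun Y hY => card_image_le.trans (h Y hY).le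

/-- the sum of all points of all members -/
def wt (F : Finset (Finset ℕ)) : ℕ := ∑ A ∈ F, ∑ x ∈ A, x

theorem sum_swap_lt {A : Finset ℕ} {i j : ℕ} (hij : i < j) (hj : j ∈ A) (hi : i ∉ A) :
    ∑ x ∈ insert i (A.erase j), x < ∑ x ∈ A, x := by
  rw [sum_insert (by simp [hi]), ← add_sum_erase A (fun x => x) hj]
  omega

theorem wt_sh_lt {F : Finset (Finset ℕ)} {A : Finset ℕ} {i j : ℕ} (hA : A ∈ F) (hij : i < j)
    (hj : j ∈ A) (hi : i ∉ A) (hn : insert i (A.erase j) ∉ F) : wt (H54.sh i j F) < wt F := by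
  classical
  let φ : Finset ℕ → Finset ℕ := fun B =>
    if j ∈ B ∧ i ∉ B ∧ insert i (B.erase j) ∉ F then insert i (B.erase j) else B
  have hsub : H54.sh i j F ⊆ F.image φ := fun B hB => by
    rcases (H54.mem_sh hij.ne').1 hB with ⟨b1, b2⟩ | ⟨b0, b1, b2, b3⟩
    · refine mem_image.2 ⟨B, b1, ?_⟩
      simp only [φ]
      rw [if_neg]
      rintro ⟨c1, c2, c3⟩
      exact c3 (b2 c1 c2)
    · refine mem_image.2 ⟨_, b3, ?_⟩
      have e : insert i ((insert j (B.erase i)).erase j) = B := H54.swap_swap hij.ne b1 b2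
      simp only [φ]
      rw [if_pos, e]
      refine ⟨mem_insert_self _ _, by simp [hij.ne], ?_⟩
      rw [e]
      exact b0
  have h1 : wt (H54.sh i j F) ≤ ∑ B ∈ F.image φ, ∑ x ∈ B, x := sum_le_sum_of_subset hsub
  have h2 : ∑ B ∈ F.image φ, ∑ x ∈ B, x ≤ ∑ B ∈ F, ∑ x ∈ φ B, x :=
    sum_image_le_of_nonneg (f := fun B : Finset ℕ => ∑ x ∈ B, x) fun _ _ => Nat.zero_le _
  refine (h1.trans h2).trans_lt (sum_lt_sum (fun B _ => ?_) ⟨A, hA, ?_⟩)
  · simp only [φ]
    split_ifs with hc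
    · exact (sum_swap_lt hij hc.1 hc.2.1).le
    · exact le_rfl
  · simp only [φ]
    rw [if_pos ⟨hj, hi, hn⟩]
    exact sum_swap_lt hij hj hi

theorem card_of_mem_sh {F : Finset (Finset ℕ)} {k i j : ℕ} (hij : i < j)
    (h : ∀ A ∈ F, A.card = k) : ∀ A ∈ H54.sh i j F, A.card = k := fun A hA => by
  rcases (H54.mem_sh hij.ne').1 hA with ⟨b1, -⟩ | ⟨-, b1, b2, b3⟩
  · exact h A b1
  · rw [← H54.card_swap b1 b2]
    exact h _ b3

theorem exists_shifted (K : ℕ) (F : Finset (Finset ℕ)) (h1 : ∀ A ∈ F, A.card = K + 1)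
    (h2 : H54.Inter F) :
    ∃ G : Finset (Finset ℕ), Good K G ∧ G.card = F.card ∧ (∂ G).card ≤ (∂ F).card := by
  induction' hn : wt F using Nat.strong_induction_on with n ih generalizing F
  by_cases hs : Shifted F
  · exact ⟨F, ⟨h1, h2, hs⟩, rfl, le_rfl⟩
  · simp only [Shifted, not_forall] at hs
    obtain ⟨A, hA, i, j, hij, hj, hi, hn'⟩ := hs
    obtain ⟨G, hG, e1, e2⟩ := ih _ (hn ▸ wt_sh_lt hA hij hj hi hn') (H54.sh i j F)
      (card_of_mem_sh hij h1) (h2.sh hij.ne') rfl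
    exact ⟨G, hG, e1.trans (H54.card_sh _ _ _), e2.trans (H54.card_shadow_sh_le _ _ _)⟩

end LYaux

theorem ly (hK : KN) : LY where
  down := LYaux.down hK
  up := LYaux.up
  dens := LYaux.dens
  ratio := LYaux.ratio

theorem reduceStmt : ReduceStmt := by
  intro n K 𝒜 h1 h2
  obtain ⟨G, hG, e1, e2⟩ := LYaux.exists_shifted K (𝒜.image fun A => A.map Fin.valEmbedding)
    (fun B hB => by
      obtain ⟨A, hA, rfl⟩ := mem_image.1 hB
      rw [card_map, h1 A hA])
    (fun B hB C hC => by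
      obtain ⟨A, hA, rfl⟩ := mem_image.1 hB
      obtain ⟨D, hD, rfl⟩ := mem_image.1 hC
      obtain ⟨x, hx1, hx2⟩ := h2 A hA D hD
      exact ⟨_, mem_map_of_mem _ hx1, mem_map_of_mem _ hx2⟩)
  refine ⟨G, hG, e1.trans (card_image_of_injective _ (map_injective _)), e2.trans ?_⟩
  refine le_trans (card_le_card (t := (∂ 𝒜).image fun A => A.map Fin.valEmbedding) fun T hT => ?_)
    card_image_le
  obtain ⟨B, hB, y, hy, rfl⟩ := mem_shadow_iff.1 hT
  obtain ⟨A, hA, rfl⟩ := mem_image.1 hB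
  obtain ⟨x, hx, rfl⟩ := mem_map.1 hy
  exact mem_image.2 ⟨A.erase x, erase_mem_shadow hA hx, map_erase _ _ _⟩

end Pool.Agent.MP_d50107_co.H61
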