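import Pool.Agent.MP_d50107_co.H61.Spec2

/-! Passing between `Fin n` and the natural numbers. -/

namespace Pool.Agent.MP_d50107_co.H61

open Finset
open scoped FinsetFamily

namespace Lift

theorem exists_shifted (n K : ℕ) (F : Finset (Finset ℕ))
    (h1 : F ⊆ powersetCard (K + 1) (range n)) (h2 : H54.Inter F) :
    ∃ G : Finset (Finset ℕ), Good K G ∧ (∀ A ∈ G, A ⊆ range n) ∧ G.card = F.card ∧
      (∂ G).card ≤ (∂ F).card := by
  induction' hn : LYaux.wt F using Nat.strong_induction_on with m ih generalizing F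
  by_cases hs : Shifted F
  · exact ⟨F, ⟨fun A hA => (mem_powersetCard.1 (h1 hA)).2, h2, hs⟩,
      fun A hA => (mem_powersetCard.1 (h1 hA)).1, rfl, le_rfl⟩
  · simp only [Shifted, not_forall] at hs
    obtain ⟨A, hA, i, j, hij, hj, hi, hn'⟩ := hs
    have hi' : i ∈ range n :=
      mem_range.2 (hij.trans (mem_range.1 ((mem_powersetCard.1 (h1 hA)).1 hj)))
    obtain ⟨G, hG, e0, e1, e2⟩ := ih _ (hn ▸ LYaux.wt_sh_lt hA hij hj hi hn') (H54.sh i j F)
      (H54.sh_subset_powersetCard hij.ne' hi' h1) (h2.sh hij.ne') rfl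
    exact ⟨G, hG, e0, e1.trans (H54.card_sh _ _ _), e2.trans (H54.card_shadow_sh_le _ _ _)⟩

theorem map_sub {n : ℕ} (A : Finset (Fin n)) : A.map Fin.valEmbedding ⊆ range n := fun x hx => by
  obtain ⟨y, -, rfl⟩ := mem_map.1 hx
  exact mem_range.2 y.2

theorem reduce (n K : ℕ) (𝒜 : Finset (Finset (Fin n))) (h1 : ∀ A ∈ 𝒜, A.card = K + 1)
    (h2 : H54.Inter 𝒜) :
    ∃ F : Finset (Finset ℕ), Good K F ∧ (∀ A ∈ F, A ⊆ range n) ∧ F.card = 𝒜.card ∧
      (∂ F).card ≤ (∂ 𝒜).card := by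
  obtain ⟨G, hG, e0, e1, e2⟩ := exists_shifted n K (𝒜.image fun A => A.map Fin.valEmbedding)
    (fun B hB => by
      obtain ⟨A, hA, rfl⟩ := mem_image.1 hB
      exact mem_powersetCard.2 ⟨map_sub A, by rw [card_map, h1 A hA]⟩)
    (fun B hB C hC => by
      obtain ⟨A, hA, rfl⟩ := mem_image.1 hB
      obtain ⟨D, hD, rfl⟩ := mem_image.1 hC
      obtain ⟨x, hx1, hx2⟩ := h2 A hA D hD
      exact ⟨_, mem_map_of_mem _ hx1, mem_map_of_mem _ hx2⟩)
  refine ⟨G, hG, e0, e1.trans (card_image_of_injective _ (map_injective _)), e2.trans ?_⟩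
  refine le_trans (card_le_card (t := (∂ 𝒜).image fun A => A.map Fin.valEmbedding) fun T hT => ?_)
    card_image_le
  obtain ⟨B, hB, y, hy, rfl⟩ := mem_shadow_iff.1 hT
  obtain ⟨A, hA, rfl⟩ := mem_image.1 hB
  obtain ⟨x, hx, rfl⟩ := mem_map.1 hy
  exact mem_image.2 ⟨A.erase x, erase_mem_shadow hA hx, map_erase _ _ _⟩

theorem mem_AF {n K j : ℕ} {A : Finset ℕ} : A ∈ AF n K j ↔
    A ⊆ range n ∧ A.card = K + 1 ∧ j + 1 ≤ (A.filter fun x => x < 2 * j + 1).card := H54.mem_fam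

theorem mem_maj {n K j : ℕ} (A : Finset (Fin n)) :
    A ∈ H54.maj n (K + 1) j ↔ A.map Fin.valEmbedding ∈ AF n K j := by
  rw [mem_AF, H54.mem_fam, card_map, filter_map, card_map]
  exact ⟨fun h => ⟨map_sub A, h.2⟩, fun h => ⟨subset_univ _, h.2⟩⟩

theorem card_lift {n : ℕ} {F : Finset (Finset ℕ)} (h : ∀ A ∈ F, A ⊆ range n) :
    (univ.filter fun A : Finset (Fin n) => A.map Fin.valEmbedding ∈ F).card = F.card := by
  refine card_nbij (fun A => A.map Fin.valEmbedding) (fun A hA => (mem_filter.1 hA).2)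
    (map_injective _).injOn (fun B hB => ?_)
  have h1 : ∀ m ∈ B, m < n := fun m hm => mem_range.1 (h B hB hm)
  exact ⟨B.attachFin h1, by simpa using hB, map_valEmbedding_attachFin h1⟩

theorem lift (n K j : ℕ) (X : Finset (Finset ℕ)) (h : X ⊆ AF n K j) :
    ∃ 𝒢 : Finset (Finset (Fin n)), 𝒢 ⊆ H54.maj n (K + 1) j ∧ 𝒢.card = X.card ∧
      (∂ 𝒢).card ≤ (∂ X).card := by
  refine ⟨univ.filter fun A => A.map Fin.valEmbedding ∈ X,
    fun A hA => (mem_maj A).2 (h (mem_filter.1 hA).2),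
    card_lift fun A hA => (mem_AF.1 (h hA)).1, ?_⟩
  refine card_le_card_of_injOn (fun A => A.map Fin.valEmbedding) (fun T hT => ?_)
    (map_injective _).injOn
  obtain ⟨A, hA, x, hx, rfl⟩ := mem_shadow_iff.1 hT
  exact mem_shadow_iff.2 ⟨_, (mem_filter.1 hA).2, _, mem_map_of_mem _ hx, (map_erase ..).symm⟩

theorem card_eq (n K j : ℕ) : (H54.maj n (K + 1) j).card = (AF n K j).card := by
  rw [← card_lift (n := n) (F := AF n K j) fun A hA => (mem_AF.1 hA).1]
  refine congrArg card (Finset.ext fun A => ?_)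
  rw [mem_maj, mem_filter]
  exact ⟨fun h => ⟨mem_univ _, h⟩, fun h => h.2⟩

theorem inter_range (A : Finset ℕ) (w : ℕ) : A ∩ range w = A.filter fun x => x < w := by
  ext x
  rw [mem_inter, mem_range, mem_filter]

theorem low (n K j : ℕ) (hj : j ≤ K) (hn : 2 * j + 1 ≤ n) :
    CC j * (n - (2 * j + 1)).choose (K - j) ≤ (AF n K j).card := by
  have h := H54.card_lower (W := range (2 * j + 1)) (X := range n) (a := j + 1) (r := K - j)
    (𝒜 := AF n K j) (range_mono hn) fun F h1 h2 h3 =>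
      mem_AF.2 ⟨h1, by omega, by rwa [← inter_range]⟩
  rwa [card_sdiff_of_subset (range_mono hn), card_range, card_range, mul_comm] at h

theorem top (n K : ℕ) (hK : 1 ≤ K) :
    (AF n K (K - 1)).card ≤ (2 * K - 1).choose (K + 1) + NN K * (n - (2 * K - 1)) := by
  have e : 2 * (K - 1) + 1 = 2 * K - 1 := by omega
  have hs : AF n K (K - 1) ⊆ powersetCard (K + 1) (range (2 * K - 1)) ∪
      (powersetCard K (range (2 * K - 1)) ×ˢ Ico (2 * K - 1) n).image fun p => insert p.2 p.1 := by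
    intro A hA
    obtain ⟨h1, h2, h3⟩ := mem_AF.1 hA
    rw [e, Nat.sub_add_cancel hK] at h3
    by_cases h : A ⊆ range (2 * K - 1)
    · exact mem_union_left _ (mem_powersetCard.2 ⟨h, h2⟩)
    · obtain ⟨y, hy, hy'⟩ := not_subset.1 h
      rw [mem_range] at hy'
      have hsub : (A.filter fun x => x < 2 * K - 1) ⊆ A.erase y := fun x hx =>
        mem_erase.2 ⟨fun g => hy' (g ▸ (mem_filter.1 hx).2), (mem_filter.1 hx).1⟩
      have hc : (A.erase y).card = K := by rw [card_erase_of_mem hy, h2, Nat.add_sub_cancel]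
      have heq := eq_of_subset_of_card_le hsub (hc.trans_le h3)
      refine mem_union_right _ (mem_image.2 ⟨(A.erase y, y), mem_product.2 ⟨mem_powersetCard.2
        ⟨fun x hx => ?_, hc⟩, mem_Ico.2 ⟨not_lt.1 hy', mem_range.1 (h1 hy)⟩⟩, insert_erase hy⟩)
      rw [← heq] at hx
      exact mem_range.2 (mem_filter.1 hx).2
  refine (card_le_card hs).trans ((card_union_le _ _).trans (add_le_add ?_ (card_image_le.trans ?_)))
  · rw [card_powersetCard, card_range]
  · rw [card_product, card_powersetCard, card_range, Nat.card_Ico, NN]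

end Lift

theorem lf : LF where
  reduce := Lift.reduce
  lift := Lift.lift
  card := Lift.card_eq
  low := Lift.low
  top := Lift.top

end Pool.Agent.MP_d50107_co.H61
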