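import Pool.Agent.MP_d50107_co.H61.Basic

/-! Row Low: a quadratic bound for `kk` and the lower bound at a stop. -/

namespace Pool.Agent.MP_d50107_co.H61

namespace Low

theorem quad (hK : KN) (s l : ℕ) : ∀ g : ℕ, (l + s + 1).choose (l + 1) ≤ g →
    g ≤ (l + s + 2).choose (l + 1) →
    ((s : ℝ) + 2) * ((l + s + 1).choose (l + 1) : ℝ) *
        (((l : ℝ) + 1) * g - ((s : ℝ) + 1) * kk (l + 1) g) ≤
      ((s : ℝ) + 1) * (g : ℝ) ^ 2 - ((s : ℝ) + 3 / 4) * ((l + s + 1).choose (l + 1) : ℝ) * g := by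
  induction l with
  | zero =>
    intro g h1 h2
    obtain ⟨r, rfl⟩ := Nat.exists_eq_add_of_le h1
    have hr : r ≤ (0 + s + 1).choose 0 := by
      simp only [zero_add, Nat.choose_one_right, Nat.choose_zero_right] at h2 ⊢
      omega
    rw [kk_block (by omega) hr]
    simp only [zero_add, Nat.choose_one_right, Nat.choose_zero_right, kk] at hr ⊢
    have hs : (0 : ℝ) ≤ s := Nat.cast_nonneg s
    have hr0 : (0 : ℝ) ≤ r := Nat.cast_nonneg r
    push_cast
    nlinarith [sq_nonneg (((s : ℝ) + 1) / 2 - 3 * r / 4), mul_nonneg hs (sq_nonneg (r : ℝ))]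
  | succ l ih =>
    intro g h1 h2
    obtain ⟨r, rfl⟩ := Nat.exists_eq_add_of_le h1
    have hr : r ≤ (l + 1 + s + 1).choose (l + 1) := by
      rw [show l + 1 + s + 2 = l + 1 + s + 1 + 1 from rfl,
        Nat.choose_succ_succ' (l + 1 + s + 1)] at h2
      omega
    rw [kk_block (by omega) hr]
    have e1 : (((l + 1 + s + 1).choose (l + 1 + 1) : ℕ) : ℝ) * (l + 2) =
        ((l + 1 + s + 1).choose (l + 1) : ℕ) * (s + 1) := by
      have := Nat.choose_succ_right_eq (l + 1 + s + 1) (l + 1)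
      rw [show l + 1 + s + 1 - (l + 1) = s + 1 by omega] at this
      exact_mod_cast this
    have e2 : ((l : ℝ) + s + 2) * ((l + s + 1).choose (l + 1) : ℕ) =
        ((l + 1 + s + 1).choose (l + 1 + 1) : ℕ) * (l + 2) := by
      have := Nat.add_one_mul_choose_eq (l + s + 1) (l + 1)
      rw [show l + 1 + s + 1 = l + s + 1 + 1 by omega]
      exact_mod_cast this
    have hs : (0 : ℝ) ≤ s := Nat.cast_nonneg s
    have hl : (0 : ℝ) ≤ l := Nat.cast_nonneg l
    have hr0 : (0 : ℝ) ≤ r := Nat.cast_nonneg r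
    have hr' : (r : ℝ) ≤ ((l + 1 + s + 1).choose (l + 1) : ℕ) := by exact_mod_cast hr
    have hw' : (0 : ℝ) < ((l + s + 1).choose (l + 1) : ℕ) := by
      exact_mod_cast Nat.choose_pos (by omega)
    have hw : (0 : ℝ) ≤ ((l + 1 + s + 1).choose (l + 1 + 1) : ℕ) := Nat.cast_nonneg _
    rcases le_total r ((l + s + 1).choose (l + 1)) with h3 | h3
    · have h4 := hK.lym (l + 1) (l + s + 1) r (by omega) h3
      rw [show l + s + 1 - (l + 1) + 1 = s + 1 by omega] at h4
      have h5 : ((l : ℝ) + 1) * r ≤ (s + 1) * (kk (l + 1) r : ℕ) := by exact_mod_cast h4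
      push_cast
      generalize (((l + 1 + s + 1).choose (l + 1 + 1) : ℕ) : ℝ) = w at *
      generalize (((l + 1 + s + 1).choose (l + 1) : ℕ) : ℝ) = W at *
      generalize ((kk (l + 1) r : ℕ) : ℝ) = k at *
      have h6 : ((l : ℝ) + 1 + 1) * (w + r) - (s + 1) * (W + k) ≤ r := by linarith
      have h7 := mul_le_mul_of_nonneg_left h6 (by positivity : (0 : ℝ) ≤ (s + 2) * w)
      nlinarith [sq_nonneg (w / 2 - 3 * r / 4), mul_nonneg hs (sq_nonneg (r : ℝ))]
    · have h4 := ih r h3 (by rwa [show l + s + 2 = l + 1 + s + 1 by omega])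
      push_cast
      generalize (((l + 1 + s + 1).choose (l + 1 + 1) : ℕ) : ℝ) = w at *
      generalize (((l + 1 + s + 1).choose (l + 1) : ℕ) : ℝ) = W at *
      generalize (((l + s + 1).choose (l + 1) : ℕ) : ℝ) = w' at *
      generalize ((kk (l + 1) r : ℕ) : ℝ) = k at *
      have h5 : ((l : ℝ) + 2) * (w - w') = s * w' := by linarith
      have h6 : 0 ≤ w - w' :=
        nonneg_of_mul_nonneg_right (by rw [h5]; positivity) (by positivity : (0 : ℝ) < l + 2)
      have h7 : ((s : ℝ) + 1) * r ≤ w * (l + 2) := by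
        rw [e1]; nlinarith
      have h8 : ((s : ℝ) + 1) * r * (w - w') ≤ s * w * w' := by
        calc _ ≤ w * (l + 2) * (w - w') := mul_le_mul_of_nonneg_right h7 h6
          _ = _ := by rw [mul_assoc, h5]; ring
      have h9 : ((l : ℝ) + 1 + 1) * (w + r) - (s + 1) * (W + k) =
          r + ((l + 1) * r - (s + 1) * k) := by linarith
      rw [h9]
      generalize ((l : ℝ) + 1) * r - (s + 1) * k = T at *
      refine le_of_mul_le_mul_left ?_ hw'
      have a1 := mul_le_mul_of_nonneg_left h4 hw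
      have a2 := mul_le_mul_of_nonneg_left h8 hr0
      have a3 : 0 ≤ w' * w ^ 2 := by positivity
      nlinarith

theorem fin {s l r d w W U k c q lam : ℝ} (hs : 0 ≤ s) (hl : 0 ≤ l) (hd : 0 ≤ d) (hw : 0 ≤ w)
    (hg : 1 ≤ w + r) (hq : 0 ≤ q) (hq' : q * ((s + 1 + 1) * (l + 1)) = l - (s + 1))
    (hw2 : l + 1 ≤ lam * (s + 1 + 1)) (e2 : w * (l + s + 2) = (W + w) * (s + 1))
    (hk : W + k ≤ lam * (w + r))
    (h3 : (s + 2) * w * ((l + 1) * (w + r) - (s + 1) * (W + k)) ≤
      (s + 1) * (w + r) ^ 2 - (s + 3 / 4) * w * (w + r))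
    (h4 : l * r ≤ (s + 2) * k) (h5 : (l + 1) * c ≤ (s + 1) * (r + d)) :
    W + w - (w + U) + (W + w) * ((s + 1 + 1) * (l + 1 - lam * (s + 1)) - 1 / 4) * q ≤
      lam * (w + (r + d)) - (U + c) := by
  have a1 : (l + 1 - lam * (s + 1)) * (w + r) ≤ (l + 1) * (w + r) - (s + 1) * (W + k) := by
    have := mul_le_mul_of_nonneg_left hk (by positivity : 0 ≤ s + 1)
    linarith
  have a2 := (mul_le_mul_of_nonneg_left a1 (by positivity : 0 ≤ (s + 2) * w)).trans h3
  have a3 : w * ((s + 1 + 1) * (l + 1 - lam * (s + 1)) - 1 / 4) ≤ (s + 1) * r :=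
    le_of_mul_le_mul_right (by linarith) (by linarith : 0 < w + r)
  generalize (s + 1 + 1) * (l + 1 - lam * (s + 1)) - 1 / 4 = E at a3 ⊢
  have a4 : (W + w) * E ≤ (l + s + 2) * (r + d) := by
    refine le_of_mul_le_mul_left ?_ (by positivity : 0 < s + 1)
    have b1 := mul_le_mul_of_nonneg_left a3 (by positivity : 0 ≤ l + s + 2)
    have b2 : 0 ≤ (s + 1) * (l + s + 2) * d := by positivity
    have b3 : (s + 1) * ((W + w) * E) = (l + s + 2) * (w * E) := by
      linear_combination -E * e2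
    linarith
  have a5 := mul_le_mul_of_nonneg_right a4 hq
  have a6 : (s + 2) * W + l * (r + d) ≤ (s + 2) * (lam * (w + (r + d))) := by
    have b1 := mul_le_mul_of_nonneg_left hk (by positivity : 0 ≤ s + 2)
    have b2 := mul_le_mul_of_nonneg_right hw2 hd
    linarith
  have a7 : (l + s + 2) * (r + d) * q ≤ lam * (w + (r + d)) - W - c := by
    refine le_of_mul_le_mul_left ?_ (by positivity : 0 < (s + 1 + 1) * (l + 1))
    have b1 := mul_le_mul_of_nonneg_left a6 (by positivity : 0 ≤ l + 1)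
    have b2 := mul_le_mul_of_nonneg_left h5 (by positivity : 0 ≤ s + 2)
    have b3 : (s + 1 + 1) * (l + 1) * ((l + s + 2) * (r + d) * q) =
        (l + s + 2) * (r + d) * (l - (s + 1)) := by
      linear_combination (l + s + 2) * (r + d) * hq'
    rw [b3]
    linarith
  linarith

end Low

theorem quadStmt (hK : KN) : QuadStmt := by
  intro t i g ht hi h1 h2
  obtain ⟨s, rfl⟩ : ∃ s, t = s + 2 := ⟨t - 2, by omega⟩
  obtain ⟨l, rfl⟩ : ∃ l, i = l + 1 := ⟨i - 1, by omega⟩
  rw [show l + 1 + (s + 2) - 2 = l + s + 1 by omega] at h1 ⊢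
  rw [show l + 1 + (s + 2) - 1 = l + s + 2 by omega] at h2
  have := Low.quad hK s l g h1 h2
  push_cast
  linarith

theorem lowStmt (hK : KN) : LowStmt := by
  intro lam i t g m hlam hi ⟨ht, hw1, hw2⟩ hg hgm hm hk
  obtain ⟨s, rfl⟩ : ∃ s, t = s + 1 := ⟨t - 1, by omega⟩
  obtain ⟨l, rfl⟩ : ∃ l, i = l + 1 := ⟨i - 1, by omega⟩
  have hs : (0 : ℝ) ≤ s := Nat.cast_nonneg s
  have hl : (0 : ℝ) ≤ l := Nat.cast_nonneg l
  push_cast at hw1 hw2
  rw [add_sub_cancel_right] at hw1
  have hsl : (s : ℝ) ≤ l := by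
    have : (s : ℝ) < l + 1 := by nlinarith
    exact_mod_cast Nat.lt_succ_iff.1 (by exact_mod_cast this)
  have e1 : (((l + s + 1).choose (l + 1 + 1) : ℕ) : ℝ) * (l + 2) =
      ((l + s + 1).choose (l + 1) : ℕ) * s := by
    have := Nat.choose_succ_right_eq (l + s + 1) (l + 1)
    rw [show l + s + 1 - (l + 1) = s by omega] at this
    exact_mod_cast this
  have hV : Vf (l + 1) (s + 1) lam = ((l + s + 1).choose (l + 1) : ℕ) -
      ((l + s + 1).choose (l + 1 + 1) : ℕ) + ((l + s + 1).choose (l + 1) : ℕ) *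
        (((s : ℝ) + 1) * (l + 1 - lam * s) - 1 / 4) * (((l : ℝ) - s) / ((s + 1) * (l + 1))) := by
    rw [Vf, show l + 1 + (s + 1) - 1 = l + s + 1 by omega, eq_div_of_mul_eq (by positivity) e1]
    push_cast
    field_simp
    ring
  rw [hV]
  have hq : 0 ≤ ((l : ℝ) - s) / ((s + 1) * (l + 1)) := div_nonneg (by linarith) (by positivity)
  have hq' : ((l : ℝ) - s) / ((s + 1) * (l + 1)) * ((s + 1) * (l + 1)) = l - s :=
    div_mul_cancel₀ _ (by positivity)
  generalize ((l : ℝ) - s) / ((s + 1) * (l + 1)) = q at hq hq' ⊢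
  rcases le_or_gt ((l + s + 1).choose (l + 1)) m with h1 | h1
  · have h2 : (((l + s + 1).choose (l + 1) : ℕ) : ℝ) + (cl (l + 1) m : ℕ) ≤
        m + ((l + s + 1).choose (l + 1 + 1) : ℕ) := by
      exact_mod_cast hK.emono (l + 1) (l + s + 1) m h1 hm
    have h3 : (((l + s + 1).choose (l + 1) : ℕ) : ℝ) ≤ m := by exact_mod_cast h1
    have h4 : (0 : ℝ) ≤ ((l + s + 1).choose (l + 1) : ℕ) := Nat.cast_nonneg _
    generalize (((l + s + 1).choose (l + 1) : ℕ) : ℝ) = W at *
    have h5 : ((s : ℝ) + 1) * (l + 1 - lam * s) - 1 / 4 ≤ l + 1 := by nlinarith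
    have h6 : ((l : ℝ) + 1) * q ≤ lam - 1 :=
      le_of_mul_le_mul_left (by nlinarith) (by positivity : (0 : ℝ) < s + 1)
    have h7 := (mul_le_mul_of_nonneg_right h5 hq).trans h6
    have h8 := mul_le_mul_of_nonneg_left h7 h4
    have h9 := mul_le_mul_of_nonneg_left h3 (sub_nonneg.2 hlam)
    nlinarith
  · obtain _ | s := s
    · simp at h1
      omega
    have hs' : (0 : ℝ) ≤ s := Nat.cast_nonneg s
    have hg' : (1 : ℝ) ≤ g := by exact_mod_cast hg
    rw [show l + (s + 1) + 1 = l + s + 1 + 1 from rfl] at h1 e1 ⊢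
    push_cast at hw1 hw2 hsl hq' ⊢
    have h2 : (l + s + 1).choose (l + 1) ≤ g := by
      by_contra hc
      have h3 := hK.lym (l + 1) (l + s + 1) g (by omega) (not_le.1 hc).le
      rw [show l + s + 1 - (l + 1) + 1 = s + 1 by omega] at h3
      have h4 : ((l : ℝ) + 1) * g ≤ (s + 1) * (kk (l + 1) g : ℕ) := by exact_mod_cast h3
      nlinarith
    have h3 := Low.quad hK s l g h2 (hgm.trans h1.le)
    have e2 : (((l + s + 1).choose (l + 1) : ℕ) : ℝ) * (l + s + 2) =
        ((l + s + 1 + 1).choose (l + 1) : ℕ) * (s + 1) := by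
      have := Nat.choose_mul_succ_eq (l + s + 1) (l + 1)
      rw [show l + s + 1 + 1 - (l + 1) = s + 1 by omega] at this
      exact_mod_cast this
    have p1 := Nat.choose_succ_succ' (l + s + 1) l
    have p2 := Nat.choose_succ_succ' (l + s + 1) (l + 1)
    obtain ⟨r, rfl⟩ := Nat.exists_eq_add_of_le h2
    obtain ⟨d, rfl⟩ := Nat.exists_eq_add_of_le hgm
    have h4 := hK.lym l (l + s + 1) r (by omega) (by omega)
    have h5 := hK.clym l (l + s + 1) (r + d) (by omega)
    rw [show l + s + 1 - l + 1 = s + 2 by omega] at h4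
    rw [show l + s + 1 - l = s + 1 by omega] at h5
    rw [kk_lt_block (by omega) (by omega)] at hk h3
    rw [add_assoc _ r d, cl_lt_block (by omega) (by omega), p2]
    rw [p1] at e2 ⊢
    have h4' : (l : ℝ) * r ≤ (s + 2) * (kk l r : ℕ) := by exact_mod_cast h4
    have h5' : ((l : ℝ) + 1) * (cl l (r + d) : ℕ) ≤ (s + 1) * (r + d) := by exact_mod_cast h5
    have hw : (0 : ℝ) ≤ ((l + s + 1).choose (l + 1) : ℕ) := Nat.cast_nonneg _
    have hd : (0 : ℝ) ≤ d := Nat.cast_nonneg d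
    push_cast at hk h3 e2 hg' ⊢
    rw [show l + 1 + 1 = l + 2 from rfl]
    exact Low.fin hs' hl hd hw hg' hq hq' hw2 e2 hk h3 h4' h5'

end Pool.Agent.MP_d50107_co.H61
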