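import Pool.Agent.MP_d50107_co.H61.Basic

/-! The numerical inequalities for `kk` and `cl`. -/

namespace Pool.Agent.MP_d50107_co.H61

namespace Lym

theorem top_le {l x y r : ℕ} (hy : l + 1 ≤ y) (h : y.choose (l + 1) + r ≤ x.choose (l + 1)) :
    y ≤ x ∧ (0 < r → y < x) := by
  have h1 : y ≤ x := by
    by_contra hc
    obtain ⟨z, rfl⟩ : ∃ z, y = z + 1 := ⟨y - 1, by omega⟩
    have h2 := Nat.choose_le_choose (l + 1) (show x ≤ z by omega)
    have h3 : 0 < z.choose l := Nat.choose_pos (by omega)
    rw [Nat.choose_succ_succ'] at h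
    omega
  refine ⟨h1, fun hr => lt_of_le_of_ne h1 ?_⟩
  rintro rfl
  omega

theorem le_mul (l m : ℕ) : kk l m ≤ l * m := by
  induction l generalizing m with
  | zero => simp
  | succ l ih =>
    rcases Nat.eq_zero_or_pos m with rfl | hm
    · simp
    obtain ⟨y, r, hy, -, rfl, hk, -⟩ := decomp l hm
    obtain ⟨a, rfl⟩ := Nat.exists_eq_add_of_le hy
    have h1 := Nat.choose_succ_right_eq (l + 1 + a) l
    rw [show l + 1 + a - l = a + 1 by omega] at h1
    have h2 := ih r
    rw [hk]
    nlinarith [Nat.zero_le (a * (l + 1 + a).choose l)]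

theorem lym (l x m : ℕ) (hx : l ≤ x) (hm : m ≤ x.choose l) : l * m ≤ (x - l + 1) * kk l m := by
  induction l generalizing x m with
  | zero => simp
  | succ l ih =>
    rcases Nat.eq_zero_or_pos m with rfl | hm0
    · simp
    obtain ⟨y, r, hy, hr, rfl, hk, -⟩ := decomp l hm0
    obtain ⟨h1, h2⟩ := top_le hy hm
    have h3 := ih y r (by omega) hr.le
    have h4 := Nat.choose_succ_right_eq y l
    obtain ⟨a, ha⟩ : ∃ a, y - l = a := ⟨_, rfl⟩
    obtain ⟨d, hd⟩ : ∃ d, x - (l + 1) + 1 = a + d := ⟨x - y, by omega⟩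
    rw [ha] at h3 h4
    rw [hk, hd]
    rcases Nat.eq_zero_or_pos r with rfl | hr0
    · nlinarith [Nat.zero_le (d * y.choose l), Nat.zero_le ((a + d) * kk l 0)]
    · obtain ⟨e, rfl⟩ : ∃ e, d = e + 1 := ⟨d - 1, by have := h2 hr0; omega⟩
      nlinarith [Nat.zero_le (e * y.choose l), Nat.zero_le (e * kk l r)]

theorem clym (l x m : ℕ) (hm : m ≤ x.choose l) : (l + 1) * cl l m ≤ (x - l) * m := by
  induction l generalizing x m with
  | zero => simp
  | succ l ih =>
    rcases Nat.eq_zero_or_pos m with rfl | hm0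
    · simp
    obtain ⟨y, r, hy, hr, rfl, -, hk⟩ := decomp l hm0
    obtain ⟨h1, h2⟩ := top_le hy hm
    have h3 := ih y r hr.le
    have h4 := Nat.choose_succ_right_eq y l
    have h5 := Nat.choose_succ_right_eq y (l + 1)
    obtain ⟨a, ha⟩ : ∃ a, y - (l + 1) = a := ⟨_, rfl⟩
    obtain ⟨d, hd⟩ : ∃ d, x - (l + 1) = a + d := ⟨x - y, by omega⟩
    rw [show y - l = a + 1 by omega] at h3 h4
    rw [ha] at h5
    rw [hk, hd]
    rcases Nat.eq_zero_or_pos r with rfl | hr0
    · rw [cl_zero]
      nlinarith [Nat.zero_le (d * y.choose (l + 1))]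
    · obtain ⟨e, rfl⟩ : ∃ e, d = e + 1 := ⟨d - 1, by have := h2 hr0; omega⟩
      have h6 : cl l r ≤ y.choose (l + 1) := by
        refine Nat.le_of_mul_le_mul_left (c := l + 1) ?_ (by omega)
        have := Nat.mul_le_mul_left (a + 1) hr.le
        nlinarith
      nlinarith [Nat.zero_le (e * y.choose (l + 1)), Nat.zero_le (e * r)]

theorem dual (i a m : ℕ) (hi : 1 ≤ i) (hm : m ≤ (i + a).choose i) :
    kk a ((i + a).choose i - m) + cl i m = (i + a).choose (i + 1) := by
  induction' h : i + a with w ih generalizing i a m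
  · omega
  rw [h] at hm
  rcases a with _ | a
  · obtain rfl : i = w + 1 := by omega
    rw [Nat.choose_self] at hm
    have : cl (w + 1) m = 0 := by
      rcases m with _ | m
      · simp
      · obtain rfl : m = 0 := by omega
        exact cl_one _
    rw [this, Nat.choose_succ_self]
    rfl
  obtain ⟨i, rfl⟩ : ∃ j, i = j + 1 := ⟨i - 1, by omega⟩
  have e1 : (w + 1).choose (i + 1) = w.choose i + w.choose (i + 1) := Nat.choose_succ_succ' _ _
  have e2 : (w + 1).choose (i + 1 + 1) = w.choose (i + 1) + w.choose (i + 1 + 1) :=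
    Nat.choose_succ_succ' _ _
  rcases le_or_gt m (w.choose (i + 1)) with hle | hlt
  · have hw : i + 1 + a = w := by omega
    have h1 := ih (i + 1) a m hi (by rwa [hw]) hw
    have s1 : w.choose i = w.choose (a + 1) := Nat.choose_symm_of_eq_add (by omega)
    have s2 : w.choose (i + 1) = w.choose a := Nat.choose_symm_of_eq_add (by omega)
    have h2 := kk_block (l := a) (x := w) (r := w.choose (i + 1) - m) (by omega) (by omega)
    rw [show (w + 1).choose (i + 1) - m = w.choose (a + 1) + (w.choose (i + 1) - m) by omega, h2]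
    omega
  · obtain ⟨r, rfl⟩ := Nat.exists_eq_add_of_le hlt.le
    rcases Nat.eq_zero_or_pos i with rfl | hi0
    · have hr : w.choose (0 + 1) + r = (w + 1).choose (0 + 1) := by
        rw [Nat.choose_zero_right] at e1
        omega
      rw [hr, cl_choose, Nat.sub_self, kk_zero, zero_add]
    · have hw : i + (a + 1) = w := by omega
      have h1 := ih i (a + 1) r hi0 (by rw [hw]; omega) hw
      have h2 : cl (i + 1) (w.choose (i + 1) + r) = w.choose (i + 1 + 1) + cl i r :=
        cl_block hi0 (by omega)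
      rw [show (w + 1).choose (i + 1) - (w.choose (i + 1) + r) = w.choose i - r by omega, h2]
      omega

theorem emono_choose (l x y : ℕ) (hxy : x ≤ y) (hy : y ≤ 2 * (l + 1)) :
    x.choose (l + 1) + y.choose (l + 2) ≤ y.choose (l + 1) + x.choose (l + 2) := by
  induction y, hxy using Nat.le_induction with
  | base => omega
  | succ z hz ih =>
    have h1 := ih (by omega)
    have e1 : (z + 1).choose (l + 1) = z.choose l + z.choose (l + 1) := Nat.choose_succ_succ' _ _
    have e2 : (z + 1).choose (l + 2) = z.choose (l + 1) + z.choose (l + 2) :=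
      Nat.choose_succ_succ' _ _
    have h2 : z.choose (l + 1) ≤ z.choose l := by
      refine Nat.le_of_mul_le_mul_right (c := l + 1) ?_ (by omega)
      rw [Nat.choose_succ_right_eq]
      exact Nat.mul_le_mul_left _ (by omega)
    omega

theorem emono (i x m : ℕ) (h1 : x.choose i ≤ m) (h2 : m ≤ (2 * i).choose i) :
    x.choose i + cl i m ≤ m + x.choose (i + 1) := by
  rcases i with _ | l
  · rw [cl_zero_left]
    omega
  rcases Nat.eq_zero_or_pos m with rfl | hm0
  · rw [cl_zero]
    omega
  obtain ⟨y, r, hy, hr, rfl, -, hk⟩ := decomp l hm0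
  obtain ⟨h3, h4⟩ := top_le hy h2
  have h5 : cl l r ≤ r := by
    rcases Nat.eq_zero_or_pos r with rfl | hr0
    · simp
    · refine Nat.le_of_mul_le_mul_left (c := l + 1) ((clym l y r hr.le).trans ?_) (by omega)
      exact Nat.mul_le_mul_right _ (by have := h4 hr0; omega)
  have h6 : x ≤ y := by
    by_contra hc
    have h7 := Nat.choose_le_choose (l + 1) (show y + 1 ≤ x by omega)
    rw [Nat.choose_succ_succ'] at h7
    omega
  have h7 := emono_choose l x y h6 h3
  rw [hk, show l + 1 + 1 = l + 2 from rfl]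
  omega

end Lym

theorem lymStmt : LymStmt :=
  ⟨Lym.le_mul, Lym.lym, Lym.clym, Lym.dual, Lym.emono⟩

end Pool.Agent.MP_d50107_co.H61
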