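import Pool.Agent.MP_d50107_co.H61.Basic

/-! `Vf i / catalan i` decreases along the windows. -/

namespace Pool.Agent.MP_d50107_co.H61

open Finset
open scoped FinsetFamily

namespace Mono

theorem p1 (a b s : ℝ) (ha : 0 ≤ a) (hb : 0 ≤ b) (h0 : 0 ≤ s) (h1 : s ≤ a + 1) :
    (2 + 2 * b + a) * ((a + 3) * 4 * (1 + b) * (1 + b + a) * (2 + b + a) +
      (3 + b + a) * (4 * s + 4 * (1 + b) - 1) * (a + 1) * (1 + b + a)) ≤
    2 * (2 * (1 + b + a) + 1) * ((a + 2) * 4 * (1 + b) * (1 + b + a) * (2 + b + a) +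
      (4 * s - 1) * a * (2 + b + a) ^ 2) := by
  have hP0 : 0 ≤ 30 + 70 * b + 50 * b ^ 2 + 10 * b ^ 3 + 69 * a + 142 * a * b +
      85 * a * b ^ 2 + 14 * a * b ^ 3 + 65 * a ^ 2 + 124 * a ^ 2 * b + 61 * a ^ 2 * b ^ 2 +
      8 * a ^ 2 * b ^ 3 + 29 * a ^ 3 + 52 * a ^ 3 * b + 16 * a ^ 3 * b ^ 2 + 5 * a ^ 4 +
      8 * a ^ 4 * b := by positivity
  have hPr : 0 ≤ 6 + 14 * b + 10 * b ^ 2 + 2 * b ^ 3 + 73 * a + 126 * a * b +
      73 * a * b ^ 2 + 14 * a * b ^ 3 + 185 * a ^ 2 + 260 * a ^ 2 * b + 117 * a ^ 2 * b ^ 2 +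
      16 * a ^ 2 * b ^ 3 + 181 * a ^ 3 + 180 * a ^ 3 * b + 44 * a ^ 3 * b ^ 2 + 77 * a ^ 4 +
      40 * a ^ 4 * b + 12 * a ^ 5 := by positivity
  have h2 := add_nonneg (mul_nonneg (sub_nonneg.2 h1) hP0) (mul_nonneg h0 hPr)
  have h3 : (0 : ℝ) < a + 1 := by positivity
  refine le_of_mul_le_mul_left ?_ h3
  linarith

theorem p2 (a b A : ℝ) (ha : 0 ≤ a) (ha2 : a ≤ a ^ 2) (hb : 0 ≤ b) (h0 : 0 ≤ A) (h1 : A ≤ 1) :
    (3 + 2 * b + a) * (2 + 2 * b + a) * (1 + b + a) * ((a + 2) * 4 * (2 + b) * (2 + b + a) +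
      (3 + b + a) * (4 * ((2 + b) * A) - 1) * a) ≤
    2 * (2 * (1 + b + a) + 1) * (2 + b) * ((a + 2) * 4 * (1 + b) * (1 + b + a) * (2 + b + a) +
      (4 * (a + 1 + b * A) - 1) * a * (2 + b + a) ^ 2) := by
  have hP0 : 0 ≤ 130 * a + 302 * a * b + 270 * a * b ^ 2 + 108 * a * b ^ 3 + 16 * a * b ^ 4 +
      375 * a ^ 2 + 732 * a ^ 2 * b + 521 * a ^ 2 * b ^ 2 + 156 * a ^ 2 * b ^ 3 +
      16 * a ^ 2 * b ^ 4 + 377 * a ^ 3 + 566 * a ^ 3 * b + 277 * a ^ 3 * b ^ 2 +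
      44 * a ^ 3 * b ^ 3 + 161 * a ^ 4 + 162 * a ^ 4 * b + 40 * a ^ 4 * b ^ 2 + 25 * a ^ 5 +
      12 * a ^ 5 * b := by positivity
  have hQ : 0 ≤ 6 * a * b ^ 2 + 4 * a * b ^ 3 + 49 * a ^ 2 + 214 * a ^ 2 * b +
      241 * a ^ 2 * b ^ 2 + 104 * a ^ 2 * b ^ 3 + 16 * a ^ 2 * b ^ 4 + 145 * a ^ 3 +
      306 * a ^ 3 * b + 197 * a ^ 3 * b ^ 2 + 40 * a ^ 3 * b ^ 3 + 89 * a ^ 4 +
      110 * a ^ 4 * b + 32 * a ^ 4 * b ^ 2 + 17 * a ^ 5 + 8 * a ^ 5 * b := by positivity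
  have hR : 0 ≤ (14 + 10 * b) * (a ^ 2 - a) := mul_nonneg (by positivity) (sub_nonneg.2 ha2)
  have h2 := add_nonneg (mul_nonneg (sub_nonneg.2 h1) hP0) (mul_nonneg h0 (add_nonneg hQ hR))
  linarith

theorem ch1 (a b : ℕ) :
    ((1 + b + a + 1 + (1 + b) - 1).choose (1 + b + a + 1) : ℝ) =
      ((1 + b + a + (1 + b) - 1).choose (1 + b + a) : ℝ) * (2 + 2 * b + a) / (2 + b + a) := by
  have h := Nat.add_one_mul_choose_eq (1 + 2 * b + a) (1 + b + a)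
  rw [show 1 + b + a + 1 + (1 + b) - 1 = 1 + 2 * b + a + 1 by omega,
    show 1 + b + a + (1 + b) - 1 = 1 + 2 * b + a by omega, eq_div_iff (by positivity)]
  have h' : ((1 + 2 * b + a + 1 : ℕ) : ℝ) * ((1 + 2 * b + a).choose (1 + b + a) : ℝ) =
      ((1 + 2 * b + a + 1).choose (1 + b + a + 1) : ℝ) * ((1 + b + a + 1 : ℕ) : ℝ) := by
    exact_mod_cast h
  push_cast at h'
  linarith

theorem ch2 (a b : ℕ) :
    ((1 + b + a + 1 + (1 + b + 1) - 1).choose (1 + b + a + 1) : ℝ) =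
      ((1 + b + a + (1 + b) - 1).choose (1 + b + a) : ℝ) * ((3 + 2 * b + a) * (2 + 2 * b + a)) /
        ((2 + b + a) * (1 + b)) := by
  have h := Nat.choose_mul_succ_eq (1 + 2 * b + a + 1) (1 + b + a + 1)
  rw [show 1 + 2 * b + a + 1 + 1 - (1 + b + a + 1) = 1 + b by omega] at h
  have h1 := ch1 a b
  rw [show 1 + b + a + 1 + (1 + b) - 1 = 1 + 2 * b + a + 1 by omega,
    eq_div_iff (by positivity)] at h1
  rw [show 1 + b + a + 1 + (1 + b + 1) - 1 = 1 + 2 * b + a + 1 + 1 by omega,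
    eq_div_iff (by positivity)]
  have h' : ((1 + 2 * b + a + 1).choose (1 + b + a + 1) : ℝ) * ((1 + 2 * b + a + 1 + 1 : ℕ) : ℝ) =
      ((1 + 2 * b + a + 1 + 1).choose (1 + b + a + 1) : ℝ) * ((1 + b : ℕ) : ℝ) := by
    exact_mod_cast h
  push_cast at h'
  linear_combination (-(2 + (b : ℝ) + a)) * h' + (3 + 2 * (b : ℝ) + a) * h1

theorem step1 (lam : ℝ) (a b : ℕ) (h0 : lam * (((1 + b : ℕ) : ℝ) - 1) < (1 + b + a : ℕ))
    (h1 : ((1 + b + a + 1 : ℕ) : ℝ) ≤ lam * (1 + b : ℕ)) :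
    (3 + b + a) * Vf (1 + b + a + 1) (1 + b) lam ≤
      2 * (2 * (1 + b + a) + 1) * Vf (1 + b + a) (1 + b) lam := by
  have ha : (0 : ℝ) ≤ a := Nat.cast_nonneg a
  have hb : (0 : ℝ) ≤ b := Nat.cast_nonneg b
  push_cast at h0 h1
  have hs0 : (0 : ℝ) ≤ (1 + b) * (1 + b + a - lam * b) :=
    mul_nonneg (by positivity) (by linarith)
  have hs1 : (1 + b) * (1 + b + a - lam * b) ≤ (a : ℝ) + 1 := by
    nlinarith [mul_le_mul_of_nonneg_left h1 hb]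
  have hp := p1 a b _ ha hb hs0 hs1
  have hC : (0 : ℝ) ≤ ((1 + b + a + (1 + b) - 1).choose (1 + b + a) : ℝ) := Nat.cast_nonneg _
  unfold Vf
  rw [ch1]
  generalize ((1 + b + a + (1 + b) - 1).choose (1 + b + a) : ℝ) = C at hC ⊢
  push_cast
  have hD : (0 : ℝ) < 4 * (1 + b) * (1 + b + a) * (2 + b + a) ^ 2 := by positivity
  have h := div_le_div_of_nonneg_right (mul_le_mul_of_nonneg_left hp hC) hD.le
  refine le_of_eq_of_le ?_ (h.trans_eq (Eq.symm ?_))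
  · rw [show (1 + b + a + 1 + 1 : ℝ) = 3 + b + a by ring,
      show (1 + b + a + 1 : ℝ) = 2 + b + a by ring]
    field_simp
    ring
  · rw [show (1 + b + a + 1 : ℝ) = 2 + b + a by ring]
    field_simp
    ring

theorem step2 (lam : ℝ) (a b : ℕ) (h0 : lam * (((1 + b + 1 : ℕ) : ℝ) - 1) < (1 + b + a + 1 : ℕ))
    (h1 : ((1 + b + a : ℕ) : ℝ) ≤ lam * (1 + b : ℕ)) :
    (3 + b + a) * Vf (1 + b + a + 1) (1 + b + 1) lam ≤
      2 * (2 * (1 + b + a) + 1) * Vf (1 + b + a) (1 + b) lam := by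
  have ha : (0 : ℝ) ≤ a := Nat.cast_nonneg a
  have hb : (0 : ℝ) ≤ b := Nat.cast_nonneg b
  have ha2 : (a : ℝ) ≤ (a : ℝ) ^ 2 := by exact_mod_cast Nat.le_self_pow (by norm_num) a
  push_cast at h0 h1
  have hp := p2 a b (2 + b + a - lam * (1 + b)) ha ha2 hb (by linarith) (by linarith)
  have hC : (0 : ℝ) ≤ ((1 + b + a + (1 + b) - 1).choose (1 + b + a) : ℝ) := Nat.cast_nonneg _
  unfold Vf
  rw [ch2]
  generalize ((1 + b + a + (1 + b) - 1).choose (1 + b + a) : ℝ) = C at hC ⊢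
  push_cast
  have hD : (0 : ℝ) < 4 * (1 + b) * (2 + b) * (1 + b + a) * (2 + b + a) ^ 2 := by positivity
  have h := div_le_div_of_nonneg_right (mul_le_mul_of_nonneg_left hp hC) hD.le
  refine le_of_eq_of_le ?_ (h.trans_eq (Eq.symm ?_))
  · rw [show (1 + b + a + 1 + 1 : ℝ) = 3 + b + a by ring,
      show (1 + b + a + 1 : ℝ) = 2 + b + a by ring, show (1 + b + 1 : ℝ) = 2 + b by ring]
    field_simp
    ring
  · rw [show (1 + b + a + 1 : ℝ) = 2 + b + a by ring]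
    field_simp
    ring

end Mono

theorem monoStmt (hC : CT) : MonoStmt := by
  intro lam i t t' hlam hi ⟨ht, hw1, hw2⟩ ⟨ht', hw3, hw4⟩
  have hl : 0 < lam := by linarith
  have ht1 : (1 : ℝ) ≤ t := by exact_mod_cast ht
  have hti : t ≤ i := by
    have h : (t : ℝ) < i + 1 := by nlinarith
    exact Nat.lt_succ_iff.1 (by exact_mod_cast h)
  have hlo : t ≤ t' := by
    have h : lam * ((t : ℝ) - 1) < lam * t' := by push_cast at hw4; linarith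
    have h2 : (t : ℝ) < t' + 1 := by linarith [lt_of_mul_lt_mul_left h hl.le]
    exact Nat.lt_succ_iff.1 (by exact_mod_cast h2)
  have hhi : t' ≤ t + 1 := by
    have h : lam * ((t' : ℝ) - 1) < lam * (t + 1) := by push_cast at hw3; linarith
    have h2 : (t' : ℝ) < t + 1 + 1 := by linarith [lt_of_mul_lt_mul_left h hl.le]
    exact Nat.lt_succ_iff.1 (by exact_mod_cast h2)
  obtain ⟨b, rfl⟩ := Nat.exists_eq_add_of_le ht
  obtain ⟨a, rfl⟩ := Nat.exists_eq_add_of_le hti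
  have key : (3 + b + a) * Vf (1 + b + a + 1) t' lam ≤
      2 * (2 * (1 + b + a) + 1) * Vf (1 + b + a) (1 + b) lam := by
    rcases hlo.eq_or_lt with h | h
    · subst h
      exact Mono.step1 lam a b hw1 hw4
    · obtain rfl : t' = 1 + b + 1 := by omega
      exact Mono.step2 lam a b hw3 hw2
  have hs : (((1 + b + a : ℕ) : ℝ) + 2) * catalan (1 + b + a + 1) =
      2 * (2 * ((1 + b + a : ℕ) : ℝ) + 1) * catalan (1 + b + a) := by
    exact_mod_cast hC.succ (1 + b + a)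
  push_cast at hs
  have hc : (0 : ℝ) ≤ catalan (1 + b + a) := Nat.cast_nonneg _
  have h3 : (0 : ℝ) < 3 + b + a := by positivity
  refine le_of_mul_le_mul_left ?_ h3
  have h4 := mul_le_mul_of_nonneg_right key hc
  have h5 : (3 + b + a) * (Vf (1 + b + a) (1 + b) lam * catalan (1 + b + a + 1)) =
      2 * (2 * (1 + b + a) + 1) * Vf (1 + b + a) (1 + b) lam * catalan (1 + b + a) := by
    linear_combination Vf (1 + b + a) (1 + b) lam * hs
  rw [h5]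
  linarith

end Pool.Agent.MP_d50107_co.H61
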