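import Mathlib

/-! Rational inequalities at the end points of the windows. -/

namespace Pool.Agent.MP_d50107_co.H61.Poly

set_option linter.unusedVariables false
set_option linter.unusedSimpArgs false

noncomputable section

/-- the budget factor -/
def rho (k : ℝ) : ℝ := 6 * k / (k + 1)

/-- the lower bound in the first window -/
def vI (k t A : ℝ) : ℝ :=
  k / (t - 1) * ((k - t + 1) / k + (t * (A - 1) - 1 / 4) * (k - 1 - t) / (t * (k - 1)))

/-- the lower bound in the second window -/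
def vII (k t A : ℝ) : ℝ :=
  k / (k + t - 2) *
    ((k - t + 2) / k + ((t - 2) * A + (k - t + 1) - 1 / 4) * (k - t) / ((t - 1) * (k - 1)))

/-- the majorant -/
def ob (k t A : ℝ) : ℝ :=
  ((A + 1 / 2) ^ 2 / 2 + ((k - A) / (t - 1) / 2 + 1 / 12 + 5 / (2 * t))) / (t - 1)

/-- the majorant for `t = 2` -/
def ob2 (A : ℝ) : ℝ := (A + 1 / 2) ^ 2 / 2

/-- first candidate -/
def bC (k t : ℝ) : ℝ := (k + t - 1) / (t - 1) * (k / t - (t - 1) / (k + 1))

/-- second candidate -/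
def bT (k t : ℝ) : ℝ :=
  k / (t - 1) - (t - 2) / (k + 1) + k / (k + t - 2) * ((k - 1) / (t - 1) - (t - 2) / k)

/-- third candidate -/
def bG (k t A : ℝ) : ℝ :=
  k / (t - 1) - (t - 2) / (k + 1) + (2 * A + 1) * ((k - 1) / (t - 1) - (t - 2) / k)

/-- the majorant after one exact step -/
def o1 (k t : ℝ) : ℝ :=
  1 / (t - 1) + k / (k + t - 2) * (((k - 1) / (t - 1) / 2 + 1 / 8 + 1 / 12 + 5 / (2 * t)) / (t - 1))

theorem pT0 (k t a b : ℝ) (ha : 0 ≤ a) (hb : 0 ≤ b) (h2 : 2 ≤ t) (h3 : t + 1 ≤ k)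
    (hk : k = a + b + 4) (ht : t = b + 3) :
    ob k t 0 + bT k t ≤ rho k * vII k t 0 := by
  have d0 : 0 < t - 1 := by linarith
  have d1 : 0 < k + 1 := by linarith
  have d2 : 0 < k + t - 2 := by linarith
  have d3 : 0 < k := by linarith
  have d4 : 0 < k - 1 := by linarith
  have d5 : 0 < t := by linarith
  have e : rho k * vII k t 0 - (ob k t 0 + bT k t) =
      (
        120 * a ^ 2 * b ^ 4 + 216 * a ^ 3 * b ^ 3 + 96 * a ^ 4 * b ^ 2 + 311 * a * b ^ 4 + 1984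
        * a ^ 2 * b ^ 3 + 2083 * a ^ 3 * b ^ 2 + 468 * a ^ 4 * b + 14 * b ^ 5 + 3665 * a * b ^ 3
        + 10935 * a ^ 2 * b ^ 2 + 6167 * a ^ 3 * b + 540 * a ^ 4 + 229 * b ^ 4 + 16053 * a * b ^
        2 + 24515 * a ^ 2 * b + 5646 * a ^ 3 + 1357 * b ^ 3 + 30761 * a * b + 19038 * a ^ 2 +
        4025 * b ^ 2 + 21450 * a + 6201 * b + 3870) /
      (24 * (t - 1) * (k + 1) * (k + t - 2) * (k - 1) * (t) * (t - 1)) := by
    simp only [rho, vI, vII, ob, ob2, bC, bT, bG, o1]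
    field_simp
    subst hk ht
    ring
  rw [← sub_nonneg, e]
  positivity

theorem pT2 (k t a b : ℝ) (ha : 0 ≤ a) (hb : 0 ≤ b) (h2 : 2 ≤ t) (h3 : t + 1 ≤ k)
    (hk : k = a + b + 4) (ht : t = b + 3) :
    ob k t (k / (2 * k + t - 2)) + bT k t ≤ rho k * vII k t (k / (2 * k + t - 2)) := by
  have d0 : 0 < t - 1 := by linarith
  have d1 : 0 < 2 * k + t - 2 := by linarith
  have d2 : 0 < k + 1 := by linarith
  have d3 : 0 < k + t - 2 := by linarith
  have d4 : 0 < k := by linarith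
  have d5 : 0 < k - 1 := by linarith
  have d6 : 0 < t := by linarith
  have e : rho k * vII k t (k / (2 * k + t - 2)) - (ob k t (k / (2 * k + t - 2)) + bT k t) =
      (
        432 * a * b ^ 7 + 2664 * a ^ 2 * b ^ 6 + 5544 * a ^ 3 * b ^ 5 + 5232 * a ^ 4 * b ^ 4 +
        2304 * a ^ 5 * b ^ 3 + 384 * a ^ 6 * b ^ 2 + 13215 * a * b ^ 6 + 56816 * a ^ 2 * b ^ 5 +
        89459 * a ^ 3 * b ^ 4 + 62692 * a ^ 4 * b ^ 3 + 19096 * a ^ 5 * b ^ 2 + 1872 * a ^ 6 * b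
        + 462 * b ^ 7 + 152691 * a * b ^ 5 + 479611 * a ^ 2 * b ^ 4 + 558065 * a ^ 3 * b ^ 3 +
        273384 * a ^ 4 * b ^ 2 + 51008 * a ^ 5 * b + 2160 * a ^ 6 + 9777 * b ^ 6 + 907074 * a *
        b ^ 4 + 2072245 * a ^ 2 * b ^ 3 + 1687059 * a ^ 3 * b ^ 2 + 513884 * a ^ 4 * b + 43608 *
        a ^ 5 + 86097 * b ^ 5 + 3059532 * a * b ^ 3 + 4861643 * a ^ 2 * b ^ 2 + 2474231 * a ^ 3
        * b + 350328 * a ^ 4 + 411096 * b ^ 4 + 5927145 * a * b ^ 2 + 5890107 * a ^ 2 * b +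
        1407450 * a ^ 3 + 1152048 * b ^ 3 + 6143169 * a * b + 2881890 * a ^ 2 + 1894809 * b ^ 2
        + 2634534 * a + 1689921 * b + 627534) /
      (24 * (t - 1) * (2 * k + t - 2) * (k + 1) * (k + t - 2) * (k - 1) * (2 * k + t - 2) * (t) * (t - 1)) := by
    simp only [rho, vI, vII, ob, ob2, bC, bT, bG, o1]
    generalize hD : 2 * k + t - 2 = D at d1 ⊢
    field_simp
    subst hD hk ht
    ring
  rw [← sub_nonneg, e]
  positivity

theorem pCI1_0 (k t a b : ℝ) (ha : 0 ≤ a) (hb : 0 ≤ b) (h2 : 2 ≤ t) (h3 : t + 1 ≤ k)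
    (hk : k = (3 * a + b + 8) / 2) (ht : t = (a + b + 4) / 2) :
    ob k t 1 + bC k t ≤ rho k * vI k t 1 := by
  have d0 : 0 < t - 1 := by linarith
  have d1 : 0 < t := by linarith
  have d2 : 0 < k + 1 := by linarith
  have d3 : 0 < k := by linarith
  have d4 : 0 < k - 1 := by linarith
  have e : rho k * vI k t 1 - (ob k t 1 + bC k t) =
      (
        48 * a * b ^ 4 + 384 * a ^ 2 * b ^ 3 + 960 * a ^ 3 * b ^ 2 + 768 * a ^ 4 * b + 144 * a ^
        5 + 1784 * a * b ^ 3 + 6874 * a ^ 2 * b ^ 2 + 7656 * a ^ 3 * b + 2079 * a ^ 4 + 103 * b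
        ^ 4 + 15926 * a * b ^ 2 + 27286 * a ^ 2 * b + 10506 * a ^ 3 + 2026 * b ^ 3 + 40824 * a *
        b + 23388 * a ^ 2 + 11900 * b ^ 2 + 22776 * a + 21752 * b + 7392) /
      (384 * (t - 1) * (t) * (k + 1) * (k - 1) * (t - 1)) := by
    simp only [rho, vI, vII, ob, ob2, bC, bT, bG, o1]
    field_simp
    subst hk ht
    ring
  rw [← sub_nonneg, e]
  positivity

theorem pCI1_1 (k t a b : ℝ) (ha : 0 ≤ a) (hb : 0 ≤ b) (h2 : 2 ≤ t) (h3 : t + 1 ≤ k)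
    (hk : k = (3 * a + b + 16) / 2) (ht : t = (a + b + 6) / 2) :
    ob k t 1 + bC k t ≤ rho k * vI k t 1 := by
  have d0 : 0 < t - 1 := by linarith
  have d1 : 0 < t := by linarith
  have d2 : 0 < k + 1 := by linarith
  have d3 : 0 < k := by linarith
  have d4 : 0 < k - 1 := by linarith
  have e : rho k * vI k t 1 - (ob k t 1 + bC k t) =
      (
        48 * a * b ^ 4 + 384 * a ^ 2 * b ^ 3 + 960 * a ^ 3 * b ^ 2 + 768 * a ^ 4 * b + 144 * a ^
        5 + 3896 * a * b ^ 3 + 14362 * a ^ 2 * b ^ 2 + 14952 * a ^ 3 * b + 3471 * a ^ 4 + 247 *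
        b ^ 4 + 71114 * a * b ^ 2 + 107786 * a ^ 2 * b + 32502 * a ^ 3 + 9846 * b ^ 3 + 340088 *
        a * b + 146556 * a ^ 2 + 116444 * b ^ 2 + 314472 * a + 395304 * b + 251424) /
      (384 * (t - 1) * (t) * (k + 1) * (k - 1) * (t - 1)) := by
    simp only [rho, vI, vII, ob, ob2, bC, bT, bG, o1]
    field_simp
    subst hk ht
    ring
  rw [← sub_nonneg, e]
  positivity

theorem pCI1_2 (k t a b : ℝ) (ha : 0 ≤ a) (hb : 0 ≤ b) (h2 : 2 ≤ t) (h3 : t + 1 ≤ k)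
    (hk : k = (3 * a + b + 18) / 2) (ht : t = (a + b + 6) / 2) :
    ob k t 1 + bC k t ≤ rho k * vI k t 1 := by
  have d0 : 0 < t - 1 := by linarith
  have d1 : 0 < t := by linarith
  have d2 : 0 < k + 1 := by linarith
  have d3 : 0 < k := by linarith
  have d4 : 0 < k - 1 := by linarith
  have e : rho k * vI k t 1 - (ob k t 1 + bC k t) =
      (
        48 * a * b ^ 4 + 384 * a ^ 2 * b ^ 3 + 960 * a ^ 3 * b ^ 2 + 768 * a ^ 4 * b + 144 * a ^
        5 + 4472 * a * b ^ 3 + 16090 * a ^ 2 * b ^ 2 + 16104 * a ^ 3 * b + 3423 * a ^ 4 + 295 *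
        b ^ 4 + 89014 * a * b ^ 2 + 123918 * a ^ 2 * b + 30762 * a ^ 3 + 12946 * b ^ 3 + 411952
        * a * b + 125936 * a ^ 2 + 162272 * b ^ 2 + 214208 * a + 494336 * b + 78720) /
      (384 * (t - 1) * (t) * (k + 1) * (k - 1) * (t - 1)) := by
    simp only [rho, vI, vII, ob, ob2, bC, bT, bG, o1]
    field_simp
    subst hk ht
    ring
  rw [← sub_nonneg, e]
  positivity

theorem pCIm (k t a b : ℝ) (ha : 0 ≤ a) (hb : 0 ≤ b) (h2 : 2 ≤ t) (h3 : t + 1 ≤ k)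
    (hk : k = (3 * a + b + 6) / 2) (ht : t = (a + b + 2) / 2) :
    ob k t (k / t) + bC k t ≤ rho k * vI k t (k / t) := by
  have d0 : 0 < t - 1 := by linarith
  have d1 : 0 < t := by linarith
  have d2 : 0 < k + 1 := by linarith
  have d3 : 0 < k := by linarith
  have d4 : 0 < k - 1 := by linarith
  have e : rho k * vI k t (k / t) - (ob k t (k / t) + bC k t) =
      (
        48 * a * b ^ 4 + 672 * a ^ 2 * b ^ 3 + 2976 * a ^ 3 * b ^ 2 + 5088 * a ^ 4 * b + 2736 *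
        a ^ 5 + 2288 * a * b ^ 3 + 14770 * a ^ 2 * b ^ 2 + 33936 * a ^ 3 * b + 23079 * a ^ 4 +
        103 * b ^ 4 + 22936 * a * b ^ 2 + 80784 * a ^ 2 * b + 74856 * a ^ 3 + 1840 * b ^ 3 +
        78856 * a * b + 114476 * a ^ 2 + 10572 * b ^ 2 + 79760 * a + 25136 * b + 18752) /
      (384 * (t) * (t) * (k + 1) * (k - 1) * (t - 1)) := by
    simp only [rho, vI, vII, ob, ob2, bC, bT, bG, o1]
    field_simp
    subst hk ht
    ring
  rw [← sub_nonneg, e]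
  positivity

theorem pGI1 (k t a b : ℝ) (ha : 0 ≤ a) (hb : 0 ≤ b) (h2 : 2 ≤ t) (h3 : t + 1 ≤ k)
    (hk : k = a + 3 * b + 10) (ht : t = b + 3) :
    ob k t 1 + bG k t 1 ≤ rho k * vI k t 1 := by
  have d0 : 0 < t - 1 := by linarith
  have d1 : 0 < t := by linarith
  have d2 : 0 < k + 1 := by linarith
  have d3 : 0 < k := by linarith
  have d4 : 0 < k - 1 := by linarith
  have e : rho k * vI k t 1 - (ob k t 1 + bG k t 1) =
      (
        1872 * a * b ^ 5 + 1392 * a ^ 2 * b ^ 4 + 432 * a ^ 3 * b ^ 3 + 48 * a ^ 4 * b ^ 2 + 864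
        * b ^ 6 + 25053 * a * b ^ 4 + 14583 * a ^ 2 * b ^ 3 + 3151 * a ^ 3 * b ^ 2 + 192 * a ^ 4
        * b + 13437 * b ^ 5 + 129873 * a * b ^ 3 + 54993 * a ^ 2 * b ^ 2 + 7199 * a ^ 3 * b +
        180 * a ^ 4 + 83763 * b ^ 4 + 321359 * a * b ^ 2 + 87084 * a ^ 2 * b + 5070 * a ^ 3 +
        261915 * b ^ 3 + 370093 * a * b + 47592 * a ^ 2 + 412545 * b ^ 2 + 150378 * a + 268128 *
        b + 13716) /
      (24 * (t - 1) * (t) * (k + 1) * (k) * (k - 1) * (t - 1)) := by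
    simp only [rho, vI, vII, ob, ob2, bC, bT, bG, o1]
    field_simp
    subst hk ht
    ring
  rw [← sub_nonneg, e]
  positivity

theorem pGIm (k t a b : ℝ) (ha : 0 ≤ a) (hb : 0 ≤ b) (h2 : 2 ≤ t) (h3 : t + 1 ≤ k)
    (hk : k = a + 3 * b + 10) (ht : t = b + 3) :
    ob k t (k / t) + bG k t (k / t) ≤ rho k * vI k t (k / t) := by
  have d0 : 0 < t - 1 := by linarith
  have d1 : 0 < t := by linarith
  have d2 : 0 < k + 1 := by linarith
  have d3 : 0 < k := by linarith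
  have d4 : 0 < k - 1 := by linarith
  have e : rho k * vI k t (k / t) - (ob k t (k / t) + bG k t (k / t)) =
      (
        19728 * a * b ^ 5 + 16032 * a ^ 2 * b ^ 4 + 6384 * a ^ 3 * b ^ 3 + 1248 * a ^ 4 * b ^ 2
        + 96 * a ^ 5 * b + 9504 * b ^ 6 + 307737 * a * b ^ 4 + 200367 * a ^ 2 * b ^ 3 + 59551 *
        a ^ 3 * b ^ 2 + 7632 * a ^ 4 * b + 276 * a ^ 5 + 176661 * b ^ 5 + 1917402 * a * b ^ 3 +
        937452 * a ^ 2 * b ^ 2 + 184674 * a ^ 3 * b + 11604 * a ^ 4 + 1365948 * b ^ 4 + 5964098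
        * a * b ^ 2 + 1945647 * a ^ 2 * b + 190323 * a ^ 3 + 5622936 * b ^ 3 + 9260118 * a * b +
        1511106 * a ^ 2 + 12995874 * b ^ 2 + 5740509 * a + 15987411 * b + 8177058) /
      (24 * (t) * (t) * (k + 1) * (k) * (k - 1) * (t - 1)) := by
    simp only [rho, vI, vII, ob, ob2, bC, bT, bG, o1]
    field_simp
    subst hk ht
    ring
  rw [← sub_nonneg, e]
  positivity

theorem pGI1two (k t a b : ℝ) (ha : 0 ≤ a) (hb : 0 ≤ b) (h2 : 2 ≤ t) (h3 : t + 1 ≤ k)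
    (hk : k = a + 7) (ht : t = 2) :
    ob2 1 + bG k t 1 ≤ rho k * vI k t 1 := by
  have d0 : 0 < k + 1 := by linarith
  have d1 : 0 < t - 1 := by linarith
  have d2 : 0 < k := by linarith
  have d3 : 0 < t := by linarith
  have d4 : 0 < k - 1 := by linarith
  have e : rho k * vI k t 1 - (ob2 1 + bG k t 1) =
      (
        10 * a ^ 4 + 217 * a ^ 3 + 1697 * a ^ 2 + 5564 * a + 6216) /
      (4 * (k + 1) * (t - 1) * (k) * (t) * (k - 1)) := by
    simp only [rho, vI, vII, ob, ob2, bC, bT, bG, o1]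
    field_simp
    subst hk ht
    ring
  rw [← sub_nonneg, e]
  positivity

theorem pGImtwo (k t a b : ℝ) (ha : 0 ≤ a) (hb : 0 ≤ b) (h2 : 2 ≤ t) (h3 : t + 1 ≤ k)
    (hk : k = a + 7) (ht : t = 2) :
    ob2 (k / t) + bG k t (k / t) ≤ rho k * vI k t (k / t) := by
  have d0 : 0 < t := by linarith
  have d1 : 0 < k + 1 := by linarith
  have d2 : 0 < t - 1 := by linarith
  have d3 : 0 < k := by linarith
  have d4 : 0 < k - 1 := by linarith
  have e : rho k * vI k t (k / t) - (ob2 (k / t) + bG k t (k / t)) =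
      (
        15 * a ^ 5 + 437 * a ^ 4 + 4968 * a ^ 3 + 27358 * a ^ 2 + 72198 * a + 71736) /
      (2 * (t) * (t) * (k + 1) * (t - 1) * (k) * (k - 1)) := by
    simp only [rho, vI, vII, ob, ob2, bC, bT, bG, o1]
    field_simp
    subst hk ht
    ring
  rw [← sub_nonneg, e]
  positivity

theorem pCII1_0 (k t a b : ℝ) (ha : 0 ≤ a) (hb : 0 ≤ b) (h2 : 2 ≤ t) (h3 : t + 1 ≤ k)
    (hk : k = (5 * a + b + 19) / 3) (ht : t = (2 * a + b + 7) / 3) :
    ob k t 1 + bC k t ≤ rho k * vII k t 1 := by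
  have d0 : 0 < t - 1 := by linarith
  have d1 : 0 < t := by linarith
  have d2 : 0 < k + 1 := by linarith
  have d3 : 0 < k + t - 2 := by linarith
  have d4 : 0 < k := by linarith
  have d5 : 0 < k - 1 := by linarith
  have e : rho k * vII k t 1 - (ob k t 1 + bC k t) =
      (
        96 * a * b ^ 5 + 1680 * a ^ 2 * b ^ 4 + 10896 * a ^ 3 * b ^ 3 + 32088 * a ^ 4 * b ^ 2 +
        41736 * a ^ 5 * b + 18480 * a ^ 6 + 12449 * a * b ^ 4 + 114560 * a ^ 2 * b ^ 3 + 431305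
        * a ^ 3 * b ^ 2 + 675880 * a ^ 4 * b + 348796 * a ^ 5 + 398 * b ^ 5 + 390629 * a * b ^ 3
        + 2110740 * a ^ 2 * b ^ 2 + 4229411 * a ^ 3 * b + 2625322 * a ^ 4 + 22402 * b ^ 4 +
        4441374 * a * b ^ 2 + 12708066 * a ^ 2 * b + 9983344 * a ^ 3 + 430976 * b ^ 3 + 18171836
        * a * b + 19873088 * a ^ 2 + 3374120 * b ^ 2 + 18925808 * a + 9739216 * b + 6106304) /
      (5832 * (t - 1) * (t) * (k + 1) * (k + t - 2) * (k - 1) * (t - 1)) := by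
    simp only [rho, vI, vII, ob, ob2, bC, bT, bG, o1]
    field_simp
    subst hk ht
    ring
  rw [← sub_nonneg, e]
  positivity

theorem pCII2_0 (k t a b : ℝ) (ha : 0 ≤ a) (hb : 0 ≤ b) (h2 : 2 ≤ t) (h3 : t + 1 ≤ k)
    (hk : k = (5 * a + b + 19) / 3) (ht : t = (2 * a + b + 7) / 3) :
    ob k t (k / (2 * k + t - 2)) + bC k t ≤ rho k * vII k t (k / (2 * k + t - 2)) := by
  have d0 : 0 < t - 1 := by linarith
  have d1 : 0 < 2 * k + t - 2 := by linarith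
  have d2 : 0 < t := by linarith
  have d3 : 0 < k + 1 := by linarith
  have d4 : 0 < k + t - 2 := by linarith
  have d5 : 0 < k := by linarith
  have d6 : 0 < k - 1 := by linarith
  have e : rho k * vII k t (k / (2 * k + t - 2)) - (ob k t (k / (2 * k + t - 2)) + bC k t) =
      (
        576 * a ^ 2 * b ^ 6 + 11088 * a ^ 3 * b ^ 5 + 84312 * a ^ 4 * b ^ 4 + 317304 * a ^ 5 * b
        ^ 3 + 598032 * a ^ 6 * b ^ 2 + 482688 * a ^ 7 * b + 80640 * a ^ 8 + 9107 * a * b ^ 6 +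
        178884 * a ^ 2 * b ^ 5 + 1568743 * a ^ 3 * b ^ 4 + 6903812 * a ^ 4 * b ^ 3 + 15273864 *
        a ^ 5 * b ^ 2 + 14927968 * a ^ 6 * b + 3958928 * a ^ 7 + 154 * b ^ 7 + 800733 * a * b ^
        5 + 9793944 * a ^ 2 * b ^ 4 + 55148779 * a ^ 3 * b ^ 3 + 149671266 * a ^ 4 * b ^ 2 +
        177652044 * a ^ 5 * b + 62140312 * a ^ 6 + 23290 * b ^ 6 + 25423707 * a * b ^ 4 +
        208349370 * a ^ 2 * b ^ 3 + 740398101 * a ^ 3 * b ^ 2 + 1097268864 * a ^ 4 * b +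
        485803908 * a ^ 5 + 1087590 * b ^ 5 + 378017071 * a * b ^ 3 + 1977439860 * a ^ 2 * b ^ 2
        + 3867933025 * a ^ 3 * b + 2179174034 * a ^ 4 + 23646878 * b ^ 4 + 2724152322 * a * b ^
        2 + 7849862622 * a ^ 2 * b + 5856591688 * a ^ 3 + 265796864 * b ^ 3 + 8522707764 * a * b
        + 9256909824 * a ^ 2 + 1518435480 * b ^ 2 + 7822878416 * a + 3817398256 * b + 2650512448) /
      (17496 * (t - 1) * (2 * k + t - 2) * (t) * (k + 1) * (k + t - 2) * (k - 1) * (2 * k + t - 2) * (t - 1)) := by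
    simp only [rho, vI, vII, ob, ob2, bC, bT, bG, o1]
    generalize hD : 2 * k + t - 2 = D at d1 ⊢
    field_simp
    subst hD hk ht
    ring
  rw [← sub_nonneg, e]
  positivity

theorem pCII1_1 (k t a b : ℝ) (ha : 0 ≤ a) (hb : 0 ≤ b) (h2 : 2 ≤ t) (h3 : t + 1 ≤ k)
    (hk : k = (5 * a + b + 15) / 3) (ht : t = (2 * a + b + 6) / 3) :
    ob k t 1 + bC k t ≤ rho k * vII k t 1 := by
  have d0 : 0 < t - 1 := by linarith
  have d1 : 0 < t := by linarith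
  have d2 : 0 < k + 1 := by linarith
  have d3 : 0 < k + t - 2 := by linarith
  have d4 : 0 < k := by linarith
  have d5 : 0 < k - 1 := by linarith
  have e : rho k * vII k t 1 - (ob k t 1 + bC k t) =
      (
        96 * a * b ^ 5 + 1680 * a ^ 2 * b ^ 4 + 10896 * a ^ 3 * b ^ 3 + 32088 * a ^ 4 * b ^ 2 +
        41736 * a ^ 5 * b + 18480 * a ^ 6 + 9569 * a * b ^ 4 + 88592 * a ^ 2 * b ^ 3 + 335641 *
        a ^ 3 * b ^ 2 + 531376 * a ^ 4 * b + 279652 * a ^ 5 + 302 * b ^ 5 + 231513 * a * b ^ 3 +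
        1265049 * a ^ 2 * b ^ 2 + 2581845 * a ^ 3 * b + 1657830 * a ^ 4 + 13143 * b ^ 4 +
        2023542 * a * b ^ 2 + 5928795 * a ^ 2 * b + 4857516 * a ^ 3 + 193563 * b ^ 3 + 6339438 *
        a * b + 7214886 * a ^ 2 + 1149120 * b ^ 2 + 4799412 * a + 2448792 * b + 845640) /
      (5832 * (t - 1) * (t) * (k + 1) * (k + t - 2) * (k - 1) * (t - 1)) := by
    simp only [rho, vI, vII, ob, ob2, bC, bT, bG, o1]
    field_simp
    subst hk ht
    ring
  rw [← sub_nonneg, e]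
  positivity

theorem pCII2_1 (k t a b : ℝ) (ha : 0 ≤ a) (hb : 0 ≤ b) (h2 : 2 ≤ t) (h3 : t + 1 ≤ k)
    (hk : k = (5 * a + b + 15) / 3) (ht : t = (2 * a + b + 6) / 3) :
    ob k t (k / (2 * k + t - 2)) + bC k t ≤ rho k * vII k t (k / (2 * k + t - 2)) := by
  have d0 : 0 < t - 1 := by linarith
  have d1 : 0 < 2 * k + t - 2 := by linarith
  have d2 : 0 < t := by linarith
  have d3 : 0 < k + 1 := by linarith
  have d4 : 0 < k + t - 2 := by linarith
  have d5 : 0 < k := by linarith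
  have d6 : 0 < k - 1 := by linarith
  have e : rho k * vII k t (k / (2 * k + t - 2)) - (ob k t (k / (2 * k + t - 2)) + bC k t) =
      (
        576 * a ^ 2 * b ^ 6 + 11088 * a ^ 3 * b ^ 5 + 84312 * a ^ 4 * b ^ 4 + 317304 * a ^ 5 * b
        ^ 3 + 598032 * a ^ 6 * b ^ 2 + 482688 * a ^ 7 * b + 80640 * a ^ 8 + 7955 * a * b ^ 6 +
        149076 * a ^ 2 * b ^ 5 + 1286935 * a ^ 3 * b ^ 4 + 5654540 * a ^ 4 * b ^ 3 + 12637584 *
        a ^ 5 * b ^ 2 + 12745216 * a ^ 6 * b + 3796496 * a ^ 7 + 154 * b ^ 7 + 523959 * a * b ^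
        5 + 6330327 * a ^ 2 * b ^ 4 + 35743431 * a ^ 3 * b ^ 3 + 98730174 * a ^ 4 * b ^ 2 +
        122543940 * a ^ 5 * b + 48832920 * a ^ 6 + 15837 * b ^ 6 + 12705270 * a * b ^ 4 +
        104994933 * a ^ 2 * b ^ 3 + 382110600 * a ^ 3 * b ^ 2 + 596868060 * a ^ 4 * b +
        301807344 * a ^ 5 + 546441 * b ^ 5 + 146476530 * a * b ^ 3 + 788989950 * a ^ 2 * b ^ 2 +
        1635795936 * a ^ 3 * b + 1053049608 * a ^ 4 + 9032724 * b ^ 4 + 832881204 * a * b ^ 2 +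
        2554513848 * a ^ 2 * b + 2177327952 * a ^ 3 + 78544728 * b ^ 3 + 2114359200 * a * b +
        2619702000 * a ^ 2 + 352988280 * b ^ 2 + 1661148000 * a + 714517200 * b + 411156000) /
      (17496 * (t - 1) * (2 * k + t - 2) * (t) * (k + 1) * (k + t - 2) * (k - 1) * (2 * k + t - 2) * (t - 1)) := by
    simp only [rho, vI, vII, ob, ob2, bC, bT, bG, o1]
    generalize hD : 2 * k + t - 2 = D at d1 ⊢
    field_simp
    subst hD hk ht
    ring
  rw [← sub_nonneg, e]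
  positivity

theorem pCII1_2 (k t a b : ℝ) (ha : 0 ≤ a) (hb : 0 ≤ b) (h2 : 2 ≤ t) (h3 : t + 1 ≤ k)
    (hk : k = (5 * a + b + 10) / 3) (ht : t = (2 * a + b + 7) / 3) :
    ob k t 1 + bC k t ≤ rho k * vII k t 1 := by
  have d0 : 0 < t - 1 := by linarith
  have d1 : 0 < t := by linarith
  have d2 : 0 < k + 1 := by linarith
  have d3 : 0 < k + t - 2 := by linarith
  have d4 : 0 < k := by linarith
  have d5 : 0 < k - 1 := by linarith
  have e : rho k * vII k t 1 - (ob k t 1 + bC k t) =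
      (
        96 * a * b ^ 5 + 1680 * a ^ 2 * b ^ 4 + 10896 * a ^ 3 * b ^ 3 + 32088 * a ^ 4 * b ^ 2 +
        41736 * a ^ 5 * b + 18480 * a ^ 6 + 5249 * a * b ^ 4 + 56816 * a ^ 2 * b ^ 3 + 242377 *
        a ^ 3 * b ^ 2 + 434896 * a ^ 4 * b + 266572 * a ^ 5 + 110 * b ^ 5 + 88877 * a * b ^ 3 +
        621555 * a ^ 2 * b ^ 2 + 1606847 * a ^ 3 * b + 1342390 * a ^ 4 + 3475 * b ^ 4 + 630027 *
        a * b ^ 2 + 2646219 * a ^ 2 * b + 3160966 * a ^ 3 + 39737 * b ^ 3 + 1900241 * a * b +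
        3664970 * a ^ 2 + 202817 * b ^ 2 + 1883030 * a + 438445 * b + 266168) /
      (5832 * (t - 1) * (t) * (k + 1) * (k + t - 2) * (k - 1) * (t - 1)) := by
    simp only [rho, vI, vII, ob, ob2, bC, bT, bG, o1]
    field_simp
    subst hk ht
    ring
  rw [← sub_nonneg, e]
  positivity

theorem pCII2_2 (k t a b : ℝ) (ha : 0 ≤ a) (hb : 0 ≤ b) (h2 : 2 ≤ t) (h3 : t + 1 ≤ k)
    (hk : k = (5 * a + b + 10) / 3) (ht : t = (2 * a + b + 7) / 3) :
    ob k t (k / (2 * k + t - 2)) + bC k t ≤ rho k * vII k t (k / (2 * k + t - 2)) := by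
  have d0 : 0 < t - 1 := by linarith
  have d1 : 0 < 2 * k + t - 2 := by linarith
  have d2 : 0 < t := by linarith
  have d3 : 0 < k + 1 := by linarith
  have d4 : 0 < k + t - 2 := by linarith
  have d5 : 0 < k := by linarith
  have d6 : 0 < k - 1 := by linarith
  have e : rho k * vII k t (k / (2 * k + t - 2)) - (ob k t (k / (2 * k + t - 2)) + bC k t) =
      (
        576 * a ^ 2 * b ^ 6 + 11088 * a ^ 3 * b ^ 5 + 84312 * a ^ 4 * b ^ 4 + 317304 * a ^ 5 * b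
        ^ 3 + 598032 * a ^ 6 * b ^ 2 + 482688 * a ^ 7 * b + 80640 * a ^ 8 + 5651 * a * b ^ 6 +
        99828 * a ^ 2 * b ^ 5 + 889639 * a ^ 3 * b ^ 4 + 4167740 * a ^ 4 * b ^ 3 + 10220760 * a
        ^ 5 * b ^ 2 + 11967904 * a ^ 6 * b + 4919696 * a ^ 7 + 154 * b ^ 7 + 230241 * a * b ^ 5
        + 2911905 * a ^ 2 * b ^ 4 + 18220051 * a ^ 3 * b ^ 3 + 58105554 * a ^ 4 * b ^ 2 +
        88556940 * a ^ 5 * b + 49602376 * a ^ 6 + 7621 * b ^ 6 + 3766098 * a * b ^ 4 + 35580087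
        * a ^ 2 * b ^ 3 + 155802363 * a ^ 3 * b ^ 2 + 311620020 * a ^ 4 * b + 225519948 * a ^ 5
        + 153903 * b ^ 5 + 31746220 * a * b ^ 3 + 214672041 * a ^ 2 * b ^ 2 + 595369081 * a ^ 3
        * b + 565983038 * a ^ 4 + 1660454 * b ^ 4 + 145169337 * a * b ^ 2 + 628545861 * a ^ 2 *
        b + 831406858 * a ^ 3 + 10359944 * b ^ 3 + 338984067 * a * b + 703960758 * a ^ 2 +
        37224201 * b ^ 2 + 310969106 * a + 70455679 * b + 52784956) /
      (17496 * (t - 1) * (2 * k + t - 2) * (t) * (k + 1) * (k + t - 2) * (k - 1) * (2 * k + t - 2) * (t - 1)) := by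
    simp only [rho, vI, vII, ob, ob2, bC, bT, bG, o1]
    generalize hD : 2 * k + t - 2 = D at d1 ⊢
    field_simp
    subst hD hk ht
    ring
  rw [← sub_nonneg, e]
  positivity

theorem pGII1 (k t a b : ℝ) (ha : 0 ≤ a) (hb : 0 ≤ b) (h2 : 2 ≤ t) (h3 : t + 1 ≤ k)
    (hk : k = (a + 5 * b + 17) / 2) (ht : t = b + 3) :
    ob k t 1 + bG k t 1 ≤ rho k * vII k t 1 := by
  have d0 : 0 < t - 1 := by linarith
  have d1 : 0 < k + 1 := by linarith
  have d2 : 0 < k := by linarith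
  have d3 : 0 < k + t - 2 := by linarith
  have d4 : 0 < k - 1 := by linarith
  have d5 : 0 < t := by linarith
  have e : rho k * vII k t 1 - (ob k t 1 + bG k t 1) =
      (
        23640 * a * b ^ 6 + 14544 * a ^ 2 * b ^ 5 + 3984 * a ^ 3 * b ^ 4 + 504 * a ^ 4 * b ^ 3 +
        24 * a ^ 5 * b ^ 2 + 12600 * b ^ 7 + 409664 * a * b ^ 5 + 210120 * a ^ 2 * b ^ 4 + 44782
        * a ^ 3 * b ^ 3 + 4021 * a ^ 4 * b ^ 2 + 114 * a ^ 5 * b + 236195 * b ^ 6 + 2909278 * a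
        * b ^ 4 + 1189044 * a ^ 2 * b ^ 3 + 183696 * a ^ 3 * b ^ 2 + 10283 * a ^ 4 * b + 126 * a
        ^ 5 + 1855725 * b ^ 5 + 10776996 * a * b ^ 3 + 3279656 * a ^ 2 * b ^ 2 + 324074 * a ^ 3
        * b + 8328 * a ^ 4 + 7814150 * b ^ 4 + 21801104 * a * b ^ 2 + 4382080 * a ^ 2 * b +
        205608 * a ^ 3 + 18579486 * b ^ 3 + 22587772 * a * b + 2247756 * a ^ 2 + 23646827 * b ^
        2 + 9194586 * a + 12664701 * b + 183852) /
      (384 * (t - 1) * (k + 1) * (k) * (k + t - 2) * (k - 1) * (t) * (t - 1)) := by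
    simp only [rho, vI, vII, ob, ob2, bC, bT, bG, o1]
    field_simp
    subst hk ht
    ring
  rw [← sub_nonneg, e]
  positivity

theorem pGII2 (k t a b : ℝ) (ha : 0 ≤ a) (hb : 0 ≤ b) (h2 : 2 ≤ t) (h3 : t + 1 ≤ k)
    (hk : k = (a + 5 * b + 17) / 2) (ht : t = b + 3) :
    ob k t (k / (2 * k + t - 2)) + bG k t (k / (2 * k + t - 2)) ≤ rho k * vII k t (k / (2 * k + t - 2)) := by
  have d0 : 0 < 2 * k + t - 2 := by linarith
  have d1 : 0 < t - 1 := by linarith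
  have d2 : 0 < k + 1 := by linarith
  have d3 : 0 < k := by linarith
  have d4 : 0 < k + t - 2 := by linarith
  have d5 : 0 < k - 1 := by linarith
  have d6 : 0 < t := by linarith
  have e : rho k * vII k t (k / (2 * k + t - 2)) - (ob k t (k / (2 * k + t - 2)) + bG k t (k / (2 * k + t - 2))) =
      (
        2053620 * a * b ^ 8 + 1477632 * a ^ 2 * b ^ 7 + 569916 * a ^ 3 * b ^ 6 + 127992 * a ^ 4
        * b ^ 5 + 16812 * a ^ 5 * b ^ 4 + 1200 * a ^ 6 * b ^ 3 + 36 * a ^ 7 * b ^ 2 + 1171800 *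
        b ^ 9 + 51203826 * a * b ^ 7 + 31744964 * a ^ 2 * b ^ 6 + 10298552 * a ^ 3 * b ^ 5 +
        1881441 * a ^ 4 * b ^ 4 + 191176 * a ^ 5 * b ^ 3 + 9700 * a ^ 6 * b ^ 2 + 174 * a ^ 7 *
        b + 33269655 * b ^ 8 + 554093478 * a * b ^ 6 + 289660632 * a ^ 2 * b ^ 5 + 76728178 * a
        ^ 3 * b ^ 4 + 10918059 * a ^ 4 * b ^ 3 + 800526 * a ^ 5 * b ^ 2 + 25376 * a ^ 6 * b +
        198 * a ^ 7 + 416851305 * b ^ 7 + 3398011026 * a * b ^ 5 + 1454491172 * a ^ 2 * b ^ 4 +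
        301433172 * a ^ 3 * b ^ 3 + 31214525 * a ^ 4 * b ^ 2 + 1457888 * a ^ 5 * b + 21288 * a ^
        6 + 3024524229 * b ^ 6 + 12911459814 * a * b ^ 4 + 4337924580 * a ^ 2 * b ^ 3 +
        657814772 * a ^ 3 * b ^ 2 + 43866181 * a ^ 4 * b + 969150 * a ^ 5 + 14000630613 * b ^ 5
        + 31110121302 * a * b ^ 3 + 7677458288 * a ^ 2 * b ^ 2 + 754863124 * a ^ 3 * b +
        24160506 * a ^ 4 + 42862833159 * b ^ 4 + 46386280962 * a * b ^ 2 + 7457070180 * a ^ 2 *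
        b + 355048062 * a ^ 3 + 86743986171 * b ^ 3 + 39092911782 * a * b + 3061300680 * a ^ 2 +
        111826408071 * b ^ 2 + 14238737406 * a + 83257786863 * b + 27245041686) /
      (384 * (2 * k + t - 2) * (t - 1) * (k + 1) * (k) * (k + t - 2) * (k - 1) * (2 * k + t - 2) * (t) * (t - 1)) := by
    simp only [rho, vI, vII, ob, ob2, bC, bT, bG, o1]
    generalize hD : 2 * k + t - 2 = D at d0 ⊢
    field_simp
    subst hD hk ht
    ring
  rw [← sub_nonneg, e]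
  positivity

theorem pGII1two (k t a b : ℝ) (ha : 0 ≤ a) (hb : 0 ≤ b) (h2 : 2 ≤ t) (h3 : t + 1 ≤ k)
    (hk : k = a + 6) (ht : t = 2) :
    ob2 1 + bG k t 1 ≤ rho k * vII k t 1 := by
  have d0 : 0 < k + 1 := by linarith
  have d1 : 0 < k := by linarith
  have d2 : 0 < t - 1 := by linarith
  have d3 : 0 < k + t - 2 := by linarith
  have d4 : 0 < k - 1 := by linarith
  have e : rho k * vII k t 1 - (ob2 1 + bG k t 1) =
      (
        16 * a ^ 5 + 387 * a ^ 4 + 3632 * a ^ 3 + 16329 * a ^ 2 + 34380 * a + 25812) /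
      (8 * (k + 1) * (k) * (t - 1) * (k + t - 2) * (k - 1)) := by
    simp only [rho, vI, vII, ob, ob2, bC, bT, bG, o1]
    field_simp
    subst hk ht
    ring
  rw [← sub_nonneg, e]
  positivity

theorem pNI (k t a b : ℝ) (ha : 0 ≤ a) (hb : 0 ≤ b) (h2 : 2 ≤ t) (h3 : t + 1 ≤ k)
    (hk : k = a + b + 5) (ht : t = b + 3) :
    o1 k t ≤ vI k t 1 := by
  have d0 : 0 < t - 1 := by linarith
  have d1 : 0 < t := by linarith
  have d2 : 0 < k := by linarith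
  have d3 : 0 < k - 1 := by linarith
  have d4 : 0 < k + t - 2 := by linarith
  have e : vI k t 1 - (o1 k t) =
      (
        48 * a * b ^ 4 + 72 * a ^ 2 * b ^ 3 + 24 * a ^ 3 * b ^ 2 + 662 * a * b ^ 3 + 589 * a ^ 2
        * b ^ 2 + 102 * a ^ 3 * b + 79 * b ^ 4 + 2971 * a * b ^ 2 + 1415 * a ^ 2 * b + 96 * a ^
        3 + 818 * b ^ 3 + 5013 * a * b + 966 * a ^ 2 + 2813 * b ^ 2 + 2478 * a + 3394 * b + 672) /
      (24 * (t - 1) * (t) * (k - 1) * (k + t - 2) * (t - 1)) := by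
    simp only [rho, vI, vII, ob, ob2, bC, bT, bG, o1]
    field_simp
    subst hk ht
    ring
  rw [← sub_nonneg, e]
  positivity

theorem pNII_0 (k t a b : ℝ) (ha : 0 ≤ a) (hb : 0 ≤ b) (h2 : 2 ≤ t) (h3 : t + 1 ≤ k)
    (hk : k = a + b + 5) (ht : t = b + 3) :
    o1 k t ≤ vII k t 1 := by
  have d0 : 0 < k + t - 2 := by linarith
  have d1 : 0 < t - 1 := by linarith
  have d2 : 0 < k := by linarith
  have d3 : 0 < k - 1 := by linarith
  have d4 : 0 < t := by linarith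
  have e : vII k t 1 - (o1 k t) =
      (
        48 * a * b ^ 4 + 72 * a ^ 2 * b ^ 3 + 24 * a ^ 3 * b ^ 2 + 668 * a * b ^ 3 + 601 * a ^ 2
        * b ^ 2 + 108 * a ^ 3 * b + 79 * b ^ 4 + 3037 * a * b ^ 2 + 1493 * a ^ 2 * b + 108 * a ^
        3 + 818 * b ^ 3 + 5241 * a * b + 1074 * a ^ 2 + 2813 * b ^ 2 + 2718 * a + 3394 * b + 672) /
      (24 * (k + t - 2) * (t - 1) * (k - 1) * (t) * (t - 1)) := by
    simp only [rho, vI, vII, ob, ob2, bC, bT, bG, o1]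
    field_simp
    subst hk ht
    ring
  rw [← sub_nonneg, e]
  positivity

theorem pNII_1 (k t a b : ℝ) (ha : 0 ≤ a) (hb : 0 ≤ b) (h2 : 2 ≤ t) (h3 : t + 1 ≤ k)
    (hk : k = a + b + 6) (ht : t = b + 5) :
    o1 k t ≤ vII k t 1 := by
  have d0 : 0 < k + t - 2 := by linarith
  have d1 : 0 < t - 1 := by linarith
  have d2 : 0 < k := by linarith
  have d3 : 0 < k - 1 := by linarith
  have d4 : 0 < t := by linarith
  have e : vII k t 1 - (o1 k t) =
      (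
        48 * a * b ^ 4 + 72 * a ^ 2 * b ^ 3 + 24 * a ^ 3 * b ^ 2 + 908 * a * b ^ 3 + 961 * a ^ 2
        * b ^ 2 + 204 * a ^ 3 * b + 31 * b ^ 4 + 6203 * a * b ^ 2 + 4149 * a ^ 2 * b + 420 * a ^
        3 + 470 * b ^ 3 + 18031 * a * b + 5780 * a ^ 2 + 2429 * b ^ 2 + 18640 * a + 4606 * b +
        1680) /
      (24 * (k + t - 2) * (t - 1) * (k - 1) * (t) * (t - 1)) := by
    simp only [rho, vI, vII, ob, ob2, bC, bT, bG, o1]
    field_simp
    subst hk ht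
    ring
  rw [← sub_nonneg, e]
  positivity

theorem pNItwo (k t a b : ℝ) (ha : 0 ≤ a) (hb : 0 ≤ b) (h2 : 2 ≤ t) (h3 : t + 1 ≤ k)
    (hk : k = a + 4) (ht : t = 2) :
    1 ≤ vI k t 1 := by
  have d0 : 0 < t - 1 := by linarith
  have d1 : 0 < k := by linarith
  have d2 : 0 < t := by linarith
  have d3 : 0 < k - 1 := by linarith
  have e : vI k t 1 - (1) =
      (
        7 * a ^ 2 + 35 * a + 44) /
      (4 * (t - 1) * (t) * (k - 1)) := by
    simp only [rho, vI, vII, ob, ob2, bC, bT, bG, o1]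
    field_simp
    subst hk ht
    ring
  rw [← sub_nonneg, e]
  positivity

theorem pNIItwo (k t a b : ℝ) (ha : 0 ≤ a) (hb : 0 ≤ b) (h2 : 2 ≤ t) (h3 : t + 1 ≤ k)
    (hk : k = a + 3) (ht : t = 2) :
    1 ≤ vII k t 1 := by
  have d0 : 0 < k + t - 2 := by linarith
  have d1 : 0 < k := by linarith
  have d2 : 0 < t - 1 := by linarith
  have d3 : 0 < k - 1 := by linarith
  have e : vII k t 1 - (1) =
      (
        4 * a ^ 3 + 23 * a ^ 2 + 40 * a + 21) /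
      (4 * (k + t - 2) * (t - 1) * (k - 1)) := by
    simp only [rho, vI, vII, ob, ob2, bC, bT, bG, o1]
    field_simp
    subst hk ht
    ring
  rw [← sub_nonneg, e]
  positivity

end

end Pool.Agent.MP_d50107_co.H61.Poly
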