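import Pool.Agent.MP_d50107_co.H61.Basic
import Pool.Agent.MP_d50107_co.H61.Poly

/-! The numerical heart: the budget covers the loss. -/

namespace Pool.Agent.MP_d50107_co.H61

open Pool.Agent.MP_d50107_co.H61.Poly

namespace Num

/-! ### Windows -/

theorem exists_win {lam : ℝ} (hl : 1 ≤ lam) {i : ℕ} (hi : 1 ≤ i) : ∃ t, Win lam i t := by
  have h0 : (0 : ℝ) < lam := by linarith
  have hi' : (1 : ℝ) ≤ i := by exact_mod_cast hi
  have h1 : (0 : ℝ) < i / lam := by positivity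
  refine ⟨⌈(i : ℝ) / lam⌉₊, Nat.ceil_pos.2 h1, ?_, ?_⟩
  · have := Nat.ceil_lt_add_one h1.le
    rw [← lt_div_iff₀' h0]
    linarith
  · have := Nat.le_ceil ((i : ℝ) / lam)
    rwa [div_le_iff₀' h0] at this

theorem win_unique {lam : ℝ} (hl : 1 ≤ lam) {i t u : ℕ} (h : Win lam i t) (h' : Win lam i u) :
    t = u := by
  have h0 : (0 : ℝ) < lam := by linarith
  have a1 : (t : ℝ) - 1 < u := lt_of_mul_lt_mul_left (h.2.1.trans_le h'.2.2) h0.le
  have a2 : (u : ℝ) - 1 < t := lt_of_mul_lt_mul_left (h'.2.1.trans_le h.2.2) h0.le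
  have b1 : t < u + 1 := by exact_mod_cast (show (t : ℝ) < u + 1 by linarith)
  have b2 : u < t + 1 := by exact_mod_cast (show (u : ℝ) < t + 1 by linarith)
  omega

theorem cat_pos (i : ℕ) : (0 : ℝ) < catalan i := by
  have h1 := succ_mul_catalan_eq_centralBinom i
  have h2 := Nat.centralBinom_pos i
  have : 0 < catalan i := Nat.pos_of_mul_pos_left (h1 ▸ h2)
  exact_mod_cast this

theorem chain (hM : MonoStmt) {lam : ℝ} (hl : 1 ≤ lam) {i t : ℕ} (hi : 1 ≤ i) (h : Win lam i t)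
    (d : ℕ) : ∀ u, Win lam (i + d) u →
      Vf (i + d) u lam / catalan (i + d) ≤ Vf i t lam / catalan i := by
  induction d with
  | zero =>
    intro u hu
    rw [win_unique hl hu h]
    exact le_rfl
  | succ d ih =>
    intro u hu
    obtain ⟨v, hv⟩ := exists_win hl (show 1 ≤ i + d by omega)
    refine le_trans ?_ (ih v hv)
    rw [div_le_div_iff₀ (cat_pos _) (cat_pos _)]
    exact hM lam (i + d) v u hl (by omega) hv hu

theorem stop (hL : LowStmt) (hM : MonoStmt) {lam : ℝ} (hl : 1 ≤ lam) {J t : ℕ}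
    (h : Win lam J t) : Stop lam lam (Vf J t lam / catalan J) J := by
  intro i g m hi hJ h1 h2 h3 h4
  obtain ⟨u, hu⟩ := exists_win hl hi
  obtain ⟨d, rfl⟩ := Nat.exists_eq_add_of_le hJ
  have h5 := chain hM hl hi hu d t h
  rw [le_div_iff₀ (cat_pos _)] at h5
  exact h5.trans (hL lam i u g m hl hi hu h1 h2 h3 h4)

theorem c_le_one (hM : MonoStmt) {lam : ℝ} (hl : 1 ≤ lam) {J t : ℕ} (hJ : 1 ≤ J)
    (h : Win lam J t) : Vf J t lam / catalan J ≤ 1 := by
  obtain ⟨d, rfl⟩ := Nat.exists_eq_add_of_le hJ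
  have h1 : Win lam 1 1 := ⟨le_rfl, by simp, by simpa using hl⟩
  refine (chain hM hl le_rfl h1 d t h).trans (le_of_eq ?_)
  simp [Vf, catalan_one]
  norm_num

/-! ### Interpolation -/

theorem interp' {K : ℕ} (F : ℝ → ℝ) (hF : ∀ x, F x = F 0 + (F 1 - F 0) * x) {x₁ x₂ x : ℝ}
    (h1 : Osc K x₁ (F x₁)) (h2 : Osc K x₂ (F x₂)) (l1 : x₁ ≤ x) (l2 : x ≤ x₂) :
    Osc K x (F x) := by
  intro r
  have a1 := h1 r
  have a2 := h2 r
  rw [hF] at a1 a2 ⊢
  rcases le_total 0 (F 1 - F 0 + r) with h | h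
  · linarith [mul_le_mul_of_nonneg_left l1 h]
  · linarith [mul_le_mul_of_nonpos_left l2 h]

theorem interp {K : ℕ} {k t lam : ℝ} (ht : 2 ≤ t) (F : ℝ → ℝ)
    (hF : ∀ x, F x = F 0 + (F 1 - F 0) * x) {A₁ A₂ : ℝ}
    (h1 : Osc K ((k - A₁) / (t - 1)) (F A₁)) (h2 : Osc K ((k - A₂) / (t - 1)) (F A₂))
    (l1 : A₁ ≤ k - lam * (t - 1)) (l2 : k - lam * (t - 1) ≤ A₂) :
    Osc K lam (F (k - lam * (t - 1))) := by
  have h0 : 0 < t - 1 := by linarith
  have e : ∀ A, k - (k - A) / (t - 1) * (t - 1) = A := fun A => by field_simp; ring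
  refine interp' (fun x => F (k - x * (t - 1))) (fun x => ?_) (x₁ := (k - A₂) / (t - 1))
    (x₂ := (k - A₁) / (t - 1)) (by simpa only [e] using h2) (by simpa only [e] using h1) ?_ ?_
  · rw [hF (k - x * (t - 1)), hF (k - 0 * (t - 1)), hF (k - 1 * (t - 1))]
    ring
  · rw [div_le_iff₀ h0]
    linarith
  · rw [le_div_iff₀ h0]
    linarith

/-! ### Closed forms -/

/-- the scale `C(K+T-2, K)` -/
def w0 (K T : ℕ) : ℝ := ((K + T - 2).choose K : ℝ)

theorem w0_nonneg (K T : ℕ) : 0 ≤ w0 K T := Nat.cast_nonneg _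

theorem w0_two (K : ℕ) : w0 K 2 = 1 := by simp [w0]

theorem choose_I {K T : ℕ} (hK : 1 ≤ K) (hT : 2 ≤ T) :
    ((K - 1 + T - 1).choose (K - 1) : ℝ) = w0 K T * (K / ((T : ℝ) - 1)) := by
  obtain ⟨l, rfl⟩ : ∃ l, K = l + 1 := ⟨K - 1, by omega⟩
  obtain ⟨u, rfl⟩ : ∃ u, T = u + 2 := ⟨T - 2, by omega⟩
  have h := Nat.choose_succ_right_eq (l + u + 1) l
  rw [show l + u + 1 - l = u + 1 by omega] at h
  have h' : (((l + u + 1).choose (l + 1) : ℕ) : ℝ) * (l + 1) =
      ((l + u + 1).choose l : ℕ) * (u + 1) := by exact_mod_cast h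
  rw [w0, show l + 1 - 1 + (u + 2) - 1 = l + u + 1 by omega,
    show l + 1 + (u + 2) - 2 = l + u + 1 by omega, Nat.add_sub_cancel]
  push_cast
  rw [show (u : ℝ) + 2 - 1 = u + 1 by ring]
  field_simp
  linarith

theorem choose_II {K T : ℕ} (hK : 1 ≤ K) (hT : 2 ≤ T) :
    ((K - 1 + T - 2).choose (K - 1) : ℝ) = w0 K T * (K / ((K : ℝ) + T - 2)) := by
  obtain ⟨l, rfl⟩ : ∃ l, K = l + 1 := ⟨K - 1, by omega⟩
  obtain ⟨u, rfl⟩ : ∃ u, T = u + 2 := ⟨T - 2, by omega⟩
  have h := Nat.add_one_mul_choose_eq (l + u) l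
  have h' : ((l : ℝ) + u + 1) * ((l + u).choose l : ℕ) =
      ((l + u + 1).choose (l + 1) : ℕ) * (l + 1) := by exact_mod_cast h
  rw [w0, show l + 1 - 1 + (u + 2) - 2 = l + u by omega,
    show l + 1 + (u + 2) - 2 = l + u + 1 by omega, Nat.add_sub_cancel]
  push_cast
  rw [show (l : ℝ) + 1 + (u + 2) - 2 = l + u + 1 by ring]
  field_simp
  linarith

theorem vf_I {K T : ℕ} (hK : 1 ≤ K) (hT : 2 ≤ T) (lam : ℝ) :
    Vf (K - 1) T lam = w0 K T * vI K T (K - lam * ((T : ℝ) - 1)) := by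
  rw [Vf, choose_I hK hT, vI, Nat.cast_sub hK]
  push_cast
  ring

theorem vf_II {K T : ℕ} (hK : 1 ≤ K) (hT : 2 ≤ T) (lam : ℝ) :
    Vf (K - 1) (T - 1) lam = w0 K T * vII K T (K - lam * ((T : ℝ) - 1)) := by
  rw [Vf, show K - 1 + (T - 1) - 1 = K - 1 + T - 2 by omega, choose_II hK hT, vII,
    Nat.cast_sub hK, Nat.cast_sub (show 1 ≤ T by omega)]
  push_cast
  ring

theorem winC {K T : ℕ} (hT : 2 ≤ T) (hK : T ≤ K) {A : ℝ} (h0 : 0 ≤ A) (h1 : A * T ≤ K) :
    1 ≤ (K - A) / ((T : ℝ) - 1) ∧ WinC ((K - A) / ((T : ℝ) - 1)) K T ∧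
      (K : ℝ) - (K - A) / ((T : ℝ) - 1) * ((T : ℝ) - 1) = A := by
  have hT' : (2 : ℝ) ≤ T := by exact_mod_cast hT
  have hK' : (T : ℝ) ≤ K := by exact_mod_cast hK
  have hp : 0 < (T : ℝ) - 1 := by linarith
  have e : (K - A) / ((T : ℝ) - 1) * ((T : ℝ) - 1) = K - A := by field_simp
  refine ⟨?_, ⟨by omega, by linarith, ?_⟩, by linarith⟩
  · rw [le_div_iff₀ hp]
    by_contra hc
    rw [not_le] at hc
    nlinarith
  · rw [div_mul_eq_mul_div, le_div_iff₀ hp]
    linarith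

theorem oscOb (hM : MajStmt) {K T : ℕ} (hT : 3 ≤ T) (hK : T ≤ K) {A : ℝ} (h0 : 0 ≤ A)
    (h1 : A * T ≤ K) {B V : ℝ} (hc : ob K T A + B ≤ V) :
    Osc K ((K - A) / ((T : ℝ) - 1)) (w0 K T * V - w0 K T * B) := by
  obtain ⟨a1, a2, a3⟩ := winC (by omega) hK h0 h1
  refine (hM _ K T a1 a2).mono ?_
  rw [Ob, if_neg (by omega), a3, om, if_neg (by omega), ← mul_sub]
  refine mul_le_mul_of_nonneg_left ?_ (w0_nonneg K T)
  rw [ob] at hc
  linarith

theorem oscOb2 (hM : MajStmt) {K T : ℕ} (hT : T = 2) (hK : T ≤ K) {A : ℝ} (h0 : 0 ≤ A)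
    (h1 : A * T ≤ K) {B V : ℝ} (hc : ob2 A + B ≤ V) :
    Osc K ((K - A) / ((T : ℝ) - 1)) (w0 K T * V - w0 K T * B) := by
  obtain ⟨a1, a2, a3⟩ := winC (by omega) hK h0 h1
  refine (hM _ K T a1 a2).mono ?_
  rw [Ob, if_neg (by omega), a3, om, if_pos (by omega), ← mul_sub]
  refine mul_le_mul_of_nonneg_left ?_ (w0_nonneg K T)
  rw [ob2] at hc
  subst hT
  norm_num
  linarith

theorem candC (hD : CD) {K T : ℕ} {lam : ℝ} (hT : 2 ≤ T) (hK : T ≤ K) (h : Win lam K T) :
    Cand K lam (w0 K T * bC K T) := by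
  have e : bC K T = ((K : ℝ) + T - 1) / ((T : ℝ) - 1) * kf K ((T : ℝ) + 1) := by
    simp only [bC, kf]
    ring
  rw [e]
  exact hD.full lam K T hT hK h

theorem candT (hD : CD) {K T : ℕ} {lam : ℝ} (hT : 2 ≤ T) (hK : T ≤ K) (h : Win lam K T)
    (hA : ((K : ℝ) - lam * ((T : ℝ) - 1)) * (2 * K + T - 2) ≤ K) :
    Cand K lam (w0 K T * bT K T) := by
  have e : bT K T = kf K T + (K : ℝ) / ((K : ℝ) + T - 2) * kf ((K : ℝ) - 1) T := by
    simp only [bT, kf]
    ring
  rw [e]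
  exact hD.two lam K T hT hK h hA

theorem candG (hD : CD) {K T : ℕ} {lam : ℝ} (hT : 2 ≤ T) (hK : T ≤ K) (h : Win lam K T) :
    Cand K lam (w0 K T * bG K T (K - lam * ((T : ℝ) - 1))) := by
  have e : ∀ A : ℝ, bG K T A = kf K T + (2 * A + 1) * kf ((K : ℝ) - 1) T := fun A => by
    simp only [bG, kf]
    ring
  rw [e]
  exact hD.gen lam K T hT hK h

/-! ### The first inequality -/

theorem n1_I (hM : MajStmt) (hD : CD) {K T : ℕ} {lam : ℝ} (hT : 2 ≤ T) (hK : T + 2 ≤ K)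
    (h : Win lam K T) (hA : 1 ≤ (K : ℝ) - lam * ((T : ℝ) - 1)) :
    ∃ B, Cand K lam B ∧
      Osc K lam (w0 K T * (rho K * vI K T (K - lam * ((T : ℝ) - 1))) - B) := by
  have hT' : (2 : ℝ) ≤ T := by exact_mod_cast hT
  have hK' : (T : ℝ) + 2 ≤ K := by exact_mod_cast hK
  have h3 : (T : ℝ) + 1 ≤ K := by linarith
  have hm : (K : ℝ) - lam * ((T : ℝ) - 1) ≤ K / T := by
    rw [le_div_iff₀ (by linarith)]
    linarith [mul_le_mul_of_nonneg_left h.2.2 (show 0 ≤ (T : ℝ) - 1 by linarith)]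
  have m0 : (0 : ℝ) ≤ K / T := by positivity
  have m1 : (K : ℝ) / T * T ≤ K := le_of_eq (by field_simp)
  have o1 : (1 : ℝ) * T ≤ K := by linarith
  have fC : ∀ x : ℝ, (fun A => w0 K T * (rho K * vI K T A) - w0 K T * bC K T) x =
      (fun A => w0 K T * (rho K * vI K T A) - w0 K T * bC K T) 0 +
      ((fun A => w0 K T * (rho K * vI K T A) - w0 K T * bC K T) 1 -
      (fun A => w0 K T * (rho K * vI K T A) - w0 K T * bC K T) 0) * x := fun x => by
    simp only [vI]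
    ring
  have fG : ∀ x : ℝ, (fun A => w0 K T * (rho K * vI K T A) - w0 K T * bG K T A) x =
      (fun A => w0 K T * (rho K * vI K T A) - w0 K T * bG K T A) 0 +
      ((fun A => w0 K T * (rho K * vI K T A) - w0 K T * bG K T A) 1 -
      (fun A => w0 K T * (rho K * vI K T A) - w0 K T * bG K T A) 0) * x := fun x => by
    simp only [vI, bG]
    ring
  rcases hT.eq_or_lt with h2 | h2
  · by_cases h7 : 7 ≤ K
    · have h7' : (7 : ℝ) ≤ K := by exact_mod_cast h7
      have ht : (T : ℝ) = 2 := by exact_mod_cast h2.symm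
      exact ⟨_, candG hD hT (by omega) h, interp hT' _ fG
        (oscOb2 hM h2.symm (by omega) zero_le_one o1
          (pGI1two K T (K - 7) 0 (by linarith) le_rfl hT' h3 (by ring) ht))
        (oscOb2 hM h2.symm (by omega) m0 m1
          (pGImtwo K T (K - 7) 0 (by linarith) le_rfl hT' h3 (by ring) ht)) hA hm⟩
    · refine ⟨_, candC hD hT (by omega) h, interp hT' _ fC
        (oscOb2 hM h2.symm (by omega) zero_le_one o1 ?_)
        (oscOb2 hM h2.symm (by omega) m0 m1 ?_) hA hm⟩ <;>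
      · subst h2
        have : K < 7 := by omega
        interval_cases K <;> norm_num [ob2, bC, rho, vI]
  · have h3' : (3 : ℝ) ≤ T := by exact_mod_cast h2
    by_cases hc : K ≤ 3 * T
    · have hc' : (K : ℝ) ≤ 3 * T := by exact_mod_cast hc
      refine ⟨_, candC hD hT (by omega) h, interp hT' _ fC
        (oscOb hM h2 (by omega) zero_le_one o1 ?_)
        (oscOb hM h2 (by omega) m0 m1
          (pCIm K T (K - T - 2) (3 * T - K) (by linarith) (by linarith) hT' h3 (by ring)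
            (by ring))) hA hm⟩
      rcases (show K + 2 ≤ 3 * T ∨ K + 1 = 3 * T ∨ K = 3 * T by omega) with e | e | e
      · have e' : (K : ℝ) + 2 ≤ 3 * T := by exact_mod_cast e
        exact pCI1_0 K T (K - T - 2) (3 * T - K - 2) (by linarith) (by linarith) hT' h3 (by ring)
          (by ring)
      · have e' : (K : ℝ) + 1 = 3 * T := by exact_mod_cast e
        exact pCI1_1 K T (K - T - 5) (3 * T - K - 1) (by linarith) (by linarith) hT' h3 (by ring)
          (by ring)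
      · have e' : (K : ℝ) = 3 * T := by exact_mod_cast e
        exact pCI1_2 K T (K - T - 6) (3 * T - K) (by linarith) (by linarith) hT' h3 (by ring)
          (by ring)
    · have hc' : 3 * (T : ℝ) + 1 ≤ K := by exact_mod_cast (show 3 * T + 1 ≤ K by omega)
      exact ⟨_, candG hD hT (by omega) h, interp hT' _ fG
        (oscOb hM h2 (by omega) zero_le_one o1
          (pGI1 K T (K - 3 * T - 1) (T - 3) (by linarith) (by linarith) hT' h3 (by ring)
            (by ring)))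
        (oscOb hM h2 (by omega) m0 m1
          (pGIm K T (K - 3 * T - 1) (T - 3) (by linarith) (by linarith) hT' h3 (by ring)
            (by ring))) hA hm⟩

theorem n1_II (hM : MajStmt) (hD : CD) {K T : ℕ} {lam : ℝ} (hT : 2 ≤ T) (hK : T + 1 ≤ K)
    (h : Win lam K T) (hA : (K : ℝ) - lam * ((T : ℝ) - 1) ≤ 1) (hl : lam ≤ (K : ℝ) - 1) :
    ∃ B, Cand K lam B ∧
      Osc K lam (w0 K T * (rho K * vII K T (K - lam * ((T : ℝ) - 1))) - B) := by
  have hT' : (2 : ℝ) ≤ T := by exact_mod_cast hT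
  have h3 : (T : ℝ) + 1 ≤ K := by exact_mod_cast hK
  have hz : (0 : ℝ) ≤ (K : ℝ) - lam * ((T : ℝ) - 1) := by linarith [h.2.1]
  have hd : (0 : ℝ) < 2 * K + T - 2 := by linarith
  have m0 : (0 : ℝ) ≤ K / (2 * K + T - 2) := by positivity
  have m1 : (K : ℝ) / (2 * K + T - 2) * T ≤ K := by
    rw [div_mul_eq_mul_div, div_le_iff₀ hd]
    nlinarith
  have o0 : (0 : ℝ) * T ≤ K := by linarith
  have o1 : (1 : ℝ) * T ≤ K := by linarith
  have fC : ∀ B x : ℝ, (fun A => w0 K T * (rho K * vII K T A) - w0 K T * B) x =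
      (fun A => w0 K T * (rho K * vII K T A) - w0 K T * B) 0 +
      ((fun A => w0 K T * (rho K * vII K T A) - w0 K T * B) 1 -
      (fun A => w0 K T * (rho K * vII K T A) - w0 K T * B) 0) * x := fun B x => by
    simp only [vII]
    ring
  have fG : ∀ x : ℝ, (fun A => w0 K T * (rho K * vII K T A) - w0 K T * bG K T A) x =
      (fun A => w0 K T * (rho K * vII K T A) - w0 K T * bG K T A) 0 +
      ((fun A => w0 K T * (rho K * vII K T A) - w0 K T * bG K T A) 1 -
      (fun A => w0 K T * (rho K * vII K T A) - w0 K T * bG K T A) 0) * x := fun x => by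
    simp only [vII, bG]
    ring
  rcases hT.eq_or_lt with h2 | h2
  · have ht : (T : ℝ) = 2 := by exact_mod_cast h2.symm
    have hA1 : 1 ≤ (K : ℝ) - lam * ((T : ℝ) - 1) := by
      rw [ht]
      linarith
    by_cases h6 : 6 ≤ K
    · have h6' : (6 : ℝ) ≤ K := by exact_mod_cast h6
      have := oscOb2 hM h2.symm (by omega) zero_le_one o1
        (pGII1two K T (K - 6) 0 (by linarith) le_rfl hT' h3 (by ring) ht)
      exact ⟨_, candG hD hT (by omega) h, interp hT' _ fG this this hA1 hA⟩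
    · have : ob2 1 + bC K T ≤ rho K * vII K T 1 := by
        subst h2
        have : K < 6 := by omega
        interval_cases K <;> norm_num [ob2, bC, rho, vII]
      have := oscOb2 hM h2.symm (by omega) zero_le_one o1 this
      exact ⟨_, candC hD hT (by omega) h, interp hT' _ (fC _) this this hA1 hA⟩
  · have h3' : (3 : ℝ) ≤ T := by exact_mod_cast h2
    rcases le_total ((K : ℝ) - lam * ((T : ℝ) - 1)) (K / (2 * K + T - 2)) with hs | hs
    · exact ⟨_, candT hD hT (by omega) h ((le_div_iff₀ hd).1 hs), interp hT' _ (fC _)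
        (oscOb hM h2 (by omega) le_rfl o0
          (pT0 K T (K - T - 1) (T - 3) (by linarith) (by linarith) hT' h3 (by ring) (by ring)))
        (oscOb hM h2 (by omega) m0 m1
          (pT2 K T (K - T - 1) (T - 3) (by linarith) (by linarith) hT' h3 (by ring) (by ring)))
        hz hs⟩
    by_cases hc : 2 * K ≤ 5 * T + 1
    · have hc' : 2 * (K : ℝ) ≤ 5 * T + 1 := by exact_mod_cast hc
      have key : ob K T (K / (2 * K + T - 2)) + bC K T ≤
          rho K * vII K T (K / (2 * K + T - 2)) ∧ ob K T 1 + bC K T ≤ rho K * vII K T 1 := by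
        rcases (show T + 4 ≤ K ∨ T + 3 = K ∨ K ≤ T + 2 by omega) with e | e | e
        · have e' : (T : ℝ) + 4 ≤ K := by exact_mod_cast e
          exact ⟨pCII2_0 K T (K - T - 4) (5 * T + 1 - 2 * K) (by linarith) (by linarith) hT' h3
            (by ring) (by ring), pCII1_0 K T (K - T - 4) (5 * T + 1 - 2 * K) (by linarith)
            (by linarith) hT' h3 (by ring) (by ring)⟩
        · have e' : (T : ℝ) + 3 = K := by exact_mod_cast e
          exact ⟨pCII2_1 K T (K - T - 3) (5 * T - 2 * K) (by linarith) (by linarith) hT' h3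
            (by ring) (by ring), pCII1_1 K T (K - T - 3) (5 * T - 2 * K) (by linarith)
            (by linarith) hT' h3 (by ring) (by ring)⟩
        · have e' : (K : ℝ) ≤ T + 2 := by exact_mod_cast e
          exact ⟨pCII2_2 K T (K - T - 1) (5 * T - 5 - 2 * K) (by linarith) (by linarith) hT' h3
            (by ring) (by ring), pCII1_2 K T (K - T - 1) (5 * T - 5 - 2 * K) (by linarith)
            (by linarith) hT' h3 (by ring) (by ring)⟩
      exact ⟨_, candC hD hT (by omega) h, interp hT' _ (fC _)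
        (oscOb hM h2 (by omega) m0 m1 key.1) (oscOb hM h2 (by omega) zero_le_one o1 key.2) hs hA⟩
    · have hc' : 5 * (T : ℝ) + 2 ≤ 2 * K := by exact_mod_cast (show 5 * T + 2 ≤ 2 * K by omega)
      exact ⟨_, candG hD hT (by omega) h, interp hT' _ fG
        (oscOb hM h2 (by omega) m0 m1
          (pGII2 K T (2 * K - 5 * T - 2) (T - 3) (by linarith) (by linarith) hT' h3 (by ring)
            (by ring)))
        (oscOb hM h2 (by omega) zero_le_one o1
          (pGII1 K T (2 * K - 5 * T - 2) (T - 3) (by linarith) (by linarith) hT' h3 (by ring)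
            (by ring))) hs hA⟩

/-! ### The second inequality -/

theorem step1 (hO : OS) {lam B : ℝ} {l t : ℕ} (hl : 1 ≤ lam) (ht : 2 ≤ t)
    (hw : WinC lam (l + 1) t) (hc : t = 2 ∨ lam * ((t : ℝ) - 1) ≤ l) (h : Osc l lam B) :
    Osc (l + 1) lam (w0 (l + 1) t * (((l : ℝ) + 1 - lam * ((t : ℝ) - 1)) / ((t : ℝ) - 1)) + B) := by
  have ht' : (2 : ℝ) ≤ t := by exact_mod_cast ht
  have h1 := hw.2.1
  push_cast at h1
  refine hO.step l lam B _ h (fun x hx => hO.p1 lam l t x hl ht hw hc hx) (add_nonneg ?_ h.nonneg)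
  exact mul_nonneg (w0_nonneg _ _) (div_nonneg (by linarith) (by linarith))

theorem oscO1 (hO : OS) (hM : MajStmt) {K T : ℕ} (hT : 3 ≤ T) (hK : T + 1 ≤ K) {V : ℝ}
    (hV : o1 K T ≤ V) : Osc K (((K : ℝ) - 1) / ((T : ℝ) - 1)) (w0 K T * V) := by
  have hT' : (3 : ℝ) ≤ T := by exact_mod_cast hT
  have hK' : (T : ℝ) + 1 ≤ K := by exact_mod_cast hK
  obtain ⟨a1, a2, a3⟩ := winC (A := 1) (show 2 ≤ T by omega) (show T ≤ K by omega) zero_le_one
    (by linarith)
  have hc := choose_II (show 1 ≤ K by omega) (show 2 ≤ T by omega)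
  obtain ⟨l, rfl⟩ : ∃ l, K = l + 1 := ⟨K - 1, by omega⟩
  set lam := (((l + 1 : ℕ) : ℝ) - 1) / ((T : ℝ) - 1) with hlam
  push_cast at a3 hK'
  have b1 : WinC lam l T := ⟨by omega, by linarith, by linarith⟩
  refine (step1 hO a1 (by omega) a2 (Or.inr (by linarith)) (hM lam l T a1 b1)).mono ?_
  refine le_trans (le_of_eq ?_) (mul_le_mul_of_nonneg_left hV (w0_nonneg _ _))
  rw [Nat.add_sub_cancel] at hc
  rw [Ob, if_neg (by omega), hc, a3, show (l : ℝ) - lam * ((T : ℝ) - 1) = 0 by linarith, om,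
    if_neg (by omega), o1, ← hlam]
  ring

theorem oscO2 (hO : OS) (hM : MajStmt) {K T : ℕ} (hT : T = 2) (hK : T + 1 ≤ K) {V : ℝ}
    (hV : 1 ≤ V) : Osc K (((K : ℝ) - 1) / ((T : ℝ) - 1)) (w0 K T * V) := by
  have hK' : (T : ℝ) + 1 ≤ K := by exact_mod_cast hK
  obtain ⟨a1, a2, a3⟩ := winC (A := 1) (show 2 ≤ T by omega) (show T ≤ K by omega) zero_le_one
    (by linarith)
  obtain ⟨l, rfl⟩ : ∃ l, K = l + 1 := ⟨K - 1, by omega⟩
  set lam := (((l + 1 : ℕ) : ℝ) - 1) / ((T : ℝ) - 1) with hlam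
  subst hT
  push_cast at a3 hK'
  have b1 : WinC lam l 1 := ⟨le_rfl, by simp, by push_cast; linarith⟩
  refine (step1 hO a1 le_rfl a2 (Or.inl rfl) (hM lam l 1 a1 b1)).mono ?_
  rw [Ob, if_pos le_rfl, w0_two]
  push_cast
  rw [a3]
  linarith

theorem n2_I (hO : OS) (hM : MajStmt) {K T : ℕ} (hT : 2 ≤ T) (hK : T + 2 ≤ K) :
    Osc K (((K : ℝ) - 1) / ((T : ℝ) - 1)) (Vf (K - 1) T (((K : ℝ) - 1) / ((T : ℝ) - 1))) := by
  have hT' : (2 : ℝ) ≤ T := by exact_mod_cast hT
  have hK' : (T : ℝ) + 2 ≤ K := by exact_mod_cast hK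
  have h3 : (T : ℝ) + 1 ≤ K := by linarith
  rw [vf_I (by omega) hT, (winC (A := 1) hT (show T ≤ K by omega) zero_le_one (by linarith)).2.2]
  rcases hT.eq_or_lt with h2 | h2
  · have ht : (T : ℝ) = 2 := by exact_mod_cast h2.symm
    exact oscO2 hO hM h2.symm (by omega)
      (pNItwo K T (K - 4) 0 (by linarith) le_rfl hT' h3 (by ring) ht)
  · have h3' : (3 : ℝ) ≤ T := by exact_mod_cast h2
    exact oscO1 hO hM h2 (by omega)
      (pNI K T (K - T - 2) (T - 3) (by linarith) (by linarith) hT' h3 (by ring) (by ring))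

theorem n2_II (hO : OS) (hM : MajStmt) {K T : ℕ} (hT : 2 ≤ T) (hK : T + 1 ≤ K) :
    Osc K (((K : ℝ) - 1) / ((T : ℝ) - 1))
      (Vf (K - 1) (T - 1) (((K : ℝ) - 1) / ((T : ℝ) - 1))) := by
  have hT' : (2 : ℝ) ≤ T := by exact_mod_cast hT
  have h3 : (T : ℝ) + 1 ≤ K := by exact_mod_cast hK
  rw [vf_II (by omega) hT, (winC (A := 1) hT (show T ≤ K by omega) zero_le_one (by linarith)).2.2]
  rcases hT.eq_or_lt with h2 | h2
  · have ht : (T : ℝ) = 2 := by exact_mod_cast h2.symm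
    exact oscO2 hO hM h2.symm (by omega)
      (pNIItwo K T (K - 3) 0 (by linarith) le_rfl hT' h3 (by ring) ht)
  have h3' : (3 : ℝ) ≤ T := by exact_mod_cast h2
  rcases (show T + 2 ≤ K ∨ 5 ≤ T ∨ (K = 4 ∧ T = 3) ∨ (K = 5 ∧ T = 4) by omega) with
    e | e | ⟨rfl, rfl⟩ | ⟨rfl, rfl⟩
  · have e' : (T : ℝ) + 2 ≤ K := by exact_mod_cast e
    exact oscO1 hO hM h2 (by omega)
      (pNII_0 K T (K - T - 2) (T - 3) (by linarith) (by linarith) hT' h3 (by ring) (by ring))
  · have e' : (5 : ℝ) ≤ T := by exact_mod_cast e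
    exact oscO1 hO hM h2 (by omega)
      (pNII_1 K T (K - T - 1) (T - 5) (by linarith) (by linarith) hT' h3 (by ring) (by ring))
  · rw [show (((4 : ℕ) : ℝ) - 1) / (((3 : ℕ) : ℝ) - 1) = 3 / 2 by norm_num]
    have a0 : (1 : ℝ) ≤ 3 / 2 := by norm_num
    have a1 := hM (3 / 2) 3 2 a0 ⟨by norm_num, by norm_num, by norm_num⟩
    refine (step1 hO (l := 3) (t := 3) a0 (by norm_num) ⟨by norm_num, by norm_num, by norm_num⟩
      (Or.inr (by norm_num)) a1).mono ?_
    norm_num [w0, Ob, om, vII, Nat.choose]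
  · rw [show (((5 : ℕ) : ℝ) - 1) / (((4 : ℕ) : ℝ) - 1) = 4 / 3 by norm_num]
    have a0 : (1 : ℝ) ≤ 4 / 3 := by norm_num
    have a1 := hO.one 3 (4 / 3) a0
    have a2 := step1 hO (l := 3) (t := 3) a0 (by norm_num) ⟨by norm_num, by norm_num, by norm_num⟩
      (Or.inr (by norm_num)) a1
    refine (step1 hO (l := 4) (t := 4) a0 (by norm_num) ⟨by norm_num, by norm_num, by norm_num⟩
      (Or.inr (by norm_num)) a2).mono ?_
    have : SS 3 = 3 := by simp [SS, Finset.sum_Ico_eq_sum_range, Finset.sum_range_succ, catalan_two]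
    norm_num [this, w0, vII, Nat.choose]

theorem n2 (hO : OS) (hM : MajStmt) {K t : ℕ} {lam : ℝ} (hK : 3 ≤ K)
    (h1 : (K : ℝ) - 1 ≤ lam * ((K : ℝ) - 2)) (h2 : lam ≤ (K : ℝ) - 1) (hl : 1 ≤ lam)
    (h : Win lam (K - 1) t) : Osc K lam (Vf (K - 1) t lam) := by
  obtain ⟨a1, a2, a3⟩ := h
  rw [Nat.cast_sub (by omega), Nat.cast_one] at a2 a3
  have ht : t + 2 ≤ K := by
    have : (t : ℝ) - 1 < K - 2 := lt_of_mul_lt_mul_left (a2.trans_le h1) (by linarith)
    have : t + 1 < K := by exact_mod_cast (show (t : ℝ) + 1 < K by linarith)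
    omega
  have ht' : (1 : ℝ) ≤ t := by exact_mod_cast a1
  have hF : ∀ x, Vf (K - 1) t x = Vf (K - 1) t 0 + (Vf (K - 1) t 1 - Vf (K - 1) t 0) * x :=
    fun x => by
      simp only [Vf]
      ring
  have b1 := n2_II hO hM (K := K) (T := t + 1) (by omega) (by omega)
  rw [Nat.add_sub_cancel, Nat.cast_add, Nat.cast_one, add_sub_cancel_right] at b1
  have b2 : ((K : ℝ) - 1) / t ≤ lam := by rwa [div_le_iff₀ (by linarith)]
  rcases a1.eq_or_lt with e | e
  · refine interp' _ hF b1 b1 b2 ?_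
    subst e
    simpa using h2
  · have e' : (2 : ℝ) ≤ t := by exact_mod_cast e
    refine interp' _ hF b1 (n2_I hO hM e ht) b2 ?_
    rw [le_div_iff₀ (by linarith)]
    exact a2.le

end Num

open Pool.Agent.MP_d50107_co.H61.Num in
theorem numStmt (hC : CT) (hL : LowStmt) (hN : MonoStmt) (hO : OS) (hM : MajStmt) (hD : CD) :
    NumStmt := by
  intro K lam hK h1 h2
  have hK' : (3 : ℝ) ≤ K := by exact_mod_cast hK
  have hl : 1 ≤ lam := by
    by_contra hc
    rw [not_le] at hc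
    nlinarith
  obtain ⟨T, hT⟩ := exists_win hl (show 1 ≤ K by omega)
  have hT2 : 2 ≤ T := by
    by_contra hc
    obtain rfl : T = 1 := by have := hT.1; omega
    have := hT.2.2
    simp only [Nat.cast_one, mul_one] at this
    linarith
  have hT2' : (2 : ℝ) ≤ T := by exact_mod_cast hT2
  have hTK : T + 1 ≤ K := by
    have : (T : ℝ) - 1 < K - 1 := lt_of_mul_lt_mul_left (a := lam) (by linarith [hT.2.1]) (by linarith)
    have : T < K := by exact_mod_cast (show (T : ℝ) < K by linarith)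
    omega
  have hc1 : ((K - 1 : ℕ) : ℝ) = K - 1 := by rw [Nat.cast_sub (by omega), Nat.cast_one]
  obtain ⟨t, B, ht, hB, hO1⟩ : ∃ t B, Win lam (K - 1) t ∧ Cand K lam B ∧
      Osc K lam (rho K * Vf (K - 1) t lam - B) := by
    rcases lt_or_ge 1 ((K : ℝ) - lam * ((T : ℝ) - 1)) with hA | hA
    · have hTK2 : T + 2 ≤ K := by
        have : (T : ℝ) - 1 < K - 2 :=
          lt_of_mul_lt_mul_left (a := lam) (by linarith) (by linarith)
        have : T + 1 < K := by exact_mod_cast (show (T : ℝ) + 1 < K by linarith)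
        omega
      obtain ⟨B, b1, b2⟩ := n1_I hM hD hT2 hTK2 hT hA.le
      refine ⟨T, B, ⟨hT.1, by rw [hc1]; linarith, by rw [hc1]; linarith [hT.2.2]⟩, b1, ?_⟩
      rwa [vf_I (by omega) hT2, mul_left_comm]
    · obtain ⟨B, b1, b2⟩ := n1_II hM hD hT2 hTK hT hA h2
      have hc2 : ((T - 1 : ℕ) : ℝ) = T - 1 := by rw [Nat.cast_sub (by omega), Nat.cast_one]
      refine ⟨T - 1, B, ⟨by omega, by rw [hc1, hc2]; linarith [hT.2.1],
        by rw [hc1, hc2]; linarith⟩, b1, ?_⟩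
      rwa [vf_II (by omega) hT2, mul_left_comm]
  have hO2 := n2 hO hM hK h1 h2 hl ht
  have hp := cat_pos (K - 1)
  have e1 : Vf (K - 1) t lam / catalan (K - 1) * catalan (K - 1) = Vf (K - 1) t lam := by
    field_simp
  have e2 : Vf (K - 1) t lam / catalan (K - 1) * ((catalan K : ℝ) + 2 * catalan (K - 1)) =
      rho K * Vf (K - 1) t lam := by
    have h3 := hC.succ (K - 1)
    rw [show K - 1 + 1 = K by omega] at h3
    have h4 : (((K - 1 : ℕ) : ℝ) + 2) * catalan K =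
        2 * (2 * ((K - 1 : ℕ) : ℝ) + 1) * catalan (K - 1) := by exact_mod_cast h3
    rw [hc1] at h4
    have h5 : (catalan K : ℝ) = 2 * (2 * (K - 1) + 1) * catalan (K - 1) / (K + 1) := by
      rw [eq_div_iff (by positivity)]
      linarith
    rw [h5, rho]
    field_simp
    ring
  refine ⟨Vf (K - 1) t lam / catalan (K - 1),
    min (Vf (K - 1) t lam) (rho K * Vf (K - 1) t lam - B), B, div_nonneg hO2.nonneg hp.le,
    c_le_one hN hl (by omega) ht, stop hL hN hl ht, fun r => le_min (hO2 r) (hO1 r), hB, ?_, ?_⟩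
  · rw [e1]
    exact min_le_left _ _
  · rw [e2]
    linarith [min_le_right (Vf (K - 1) t lam) (rho K * Vf (K - 1) t lam - B)]

end Pool.Agent.MP_d50107_co.H61
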