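import Pool.Agent.MP_d50107_co.H61.Basic

/-! Bounds for the loss of one incomplete piece. -/

namespace Pool.Agent.MP_d50107_co.H61

open Finset

namespace OSr

/-- the function to be maximised -/
noncomputable def ph (lam : ℝ) (l u : ℕ) : ℝ :=
  ((l + u).choose l : ℝ) - lam * (l + u).choose (l + 1)

theorem rel (l u : ℕ) :
    ((l + u).choose (l + 1) : ℝ) * (l + 1) = ((l + u).choose l : ℝ) * u := by
  have h := Nat.choose_succ_right_eq (l + u) l
  rw [Nat.add_sub_cancel_left] at h
  exact_mod_cast h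

theorem ph_mul (lam : ℝ) (l u : ℕ) :
    ph lam l u * u = ((l + u).choose (l + 1) : ℝ) * (l + 1 - lam * u) := by
  have := rel l u
  unfold ph
  linear_combination -this

theorem ph_nonpos {lam : ℝ} {l u : ℕ} (h : (l : ℝ) + 1 ≤ lam * u) (hu : 1 ≤ u) :
    ph lam l u ≤ 0 := by
  have h1 : (0 : ℝ) < u := by exact_mod_cast hu
  have h2 : ph lam l u * u ≤ 0 := by
    rw [ph_mul]
    exact mul_nonpos_of_nonneg_of_nonpos (Nat.cast_nonneg _) (by linarith)
  by_contra hc
  have := mul_pos (not_le.1 hc) h1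
  linarith

theorem ph_diff (lam : ℝ) (k u : ℕ) :
    (ph lam (k + 1) (u + 1) - ph lam (k + 1) u) * (k + 1) =
      ((k + 1 + u).choose k : ℝ) * (k + 1 - lam * (u + 1)) := by
  have h := rel k (u + 1)
  rw [show k + (u + 1) = k + 1 + u by ring] at h
  unfold ph
  rw [← add_assoc (k + 1) u 1, Nat.choose_succ_succ' (k + 1 + u) k,
    Nat.choose_succ_succ' (k + 1 + u) (k + 1)]
  push_cast at h ⊢
  linear_combination -lam * h

theorem ph_inc {lam : ℝ} (hl : 1 ≤ lam) {l u : ℕ} (h : lam * (u + 1) ≤ l) :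
    ph lam l u ≤ ph lam l (u + 1) := by
  rcases l with _ | k
  · have : (0 : ℝ) ≤ u := Nat.cast_nonneg _
    simp only [Nat.cast_zero] at h
    nlinarith
  · have h1 := ph_diff lam k u
    have h2 : (0 : ℝ) < k + 1 := by positivity
    push_cast at h
    have h3 : 0 ≤ (ph lam (k + 1) (u + 1) - ph lam (k + 1) u) * (k + 1) := by
      rw [h1]
      exact mul_nonneg (Nat.cast_nonneg _) (by linarith)
    have := nonneg_of_mul_nonneg_left h3 h2
    linarith

theorem ph_dec {lam : ℝ} {k u : ℕ} (h : (k : ℝ) + 1 ≤ lam * (u + 1)) :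
    ph lam (k + 1) (u + 1) ≤ ph lam (k + 1) u := by
  have h1 := ph_diff lam k u
  have h2 : (0 : ℝ) < k + 1 := by positivity
  have h3 : (ph lam (k + 1) (u + 1) - ph lam (k + 1) u) * (k + 1) ≤ 0 := by
    rw [h1]
    exact mul_nonpos_of_nonneg_of_nonpos (Nat.cast_nonneg _) (by linarith)
  by_contra hc
  have := mul_pos (sub_pos.2 (not_le.1 hc)) h2
  linarith

theorem ph_mono {lam : ℝ} (hl : 1 ≤ lam) {l u v : ℕ} (huv : u ≤ v) (h : lam * v ≤ l) :
    ph lam l u ≤ ph lam l v := by
  induction v, huv using Nat.le_induction with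
  | base => exact le_rfl
  | succ v _ ih =>
    push_cast at h
    exact (ih (by nlinarith)).trans (ph_inc hl h)

theorem step (l : ℕ) (lam B p : ℝ) (hB : Osc l lam B)
    (hp : ∀ x : ℕ, l + 1 ≤ x → (x.choose l : ℝ) - lam * x.choose (l + 1) ≤ p) (h0 : 0 ≤ p + B) :
    Osc (l + 1) lam (p + B) := by
  intro m
  rcases Nat.eq_zero_or_pos m with rfl | hm
  · simpa using h0
  obtain ⟨x, r, hx, -, e1, e2, -⟩ := decomp l hm
  have h1 := hp x hx
  have h2 := hB r
  rw [e2, e1]
  push_cast
  linarith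

theorem om_nonneg (t : ℕ) (A : ℝ) {lam : ℝ} (hl : 1 ≤ lam) : 0 ≤ om t A lam := by
  have : 0 ≤ lam := by linarith
  unfold om
  split_ifs <;> positivity

end OSr

open OSr in
theorem os (hK : KN) (hC : CT) : OS where
  step := step
  p1 := by
    intro lam l t x hl ht ⟨_, hw1, hw2⟩ hc hx
    obtain ⟨s, rfl⟩ : ∃ s, t = s + 2 := ⟨t - 2, by omega⟩
    obtain ⟨u, rfl⟩ : ∃ u, x = l + u := ⟨x - l, by omega⟩
    rw [show l + 1 + (s + 2) - 2 = l + (s + 1) by omega]
    push_cast at hw1 hw2 hc ⊢
    have hs : (0 : ℝ) < (s : ℝ) + 2 - 1 := by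
      have : (0 : ℝ) ≤ s := Nat.cast_nonneg _
      linarith
    change ph lam l u ≤ _
    by_cases hu : s + 2 ≤ u
    · have hu' : (s : ℝ) + 2 ≤ u := by exact_mod_cast hu
      exact (ph_nonpos (by nlinarith) (by omega)).trans
        (mul_nonneg (Nat.cast_nonneg _) (div_nonneg (by linarith) hs.le))
    have h1 : ph lam l u ≤ ph lam l (s + 1) := by
      rcases hc with hc | hc
      · rw [show u = s + 1 by omega]
      · exact ph_mono hl (by omega) (by push_cast; linarith)
    refine h1.trans (le_of_eq ?_)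
    have h2 := ph_mul lam l (s + 1)
    push_cast at h2
    rw [← mul_div_assoc, eq_div_iff hs.ne']
    linear_combination h2
  p2 := by
    intro lam l t x hl ht ⟨_, hw1, hw2⟩ hc hx
    obtain ⟨s, rfl⟩ : ∃ s, t = s + 3 := ⟨t - 3, by omega⟩
    obtain ⟨u, rfl⟩ : ∃ u, x = l + u := ⟨x - l, by omega⟩
    rw [show l + 1 + (s + 3) - 2 = l + (s + 1) + 1 by omega]
    push_cast at hw1 hw2 hc ⊢
    have hs0 : (0 : ℝ) ≤ s := Nat.cast_nonneg _
    have hl0 : (0 : ℝ) ≤ l := Nat.cast_nonneg _
    have hs : (0 : ℝ) < (l : ℝ) + 1 + (s + 3) - 2 := by linarith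
    change ph lam l u ≤ _
    by_cases hu : s + 3 ≤ u
    · have hu' : (s : ℝ) + 3 ≤ u := by exact_mod_cast hu
      exact (ph_nonpos (by nlinarith) (by omega)).trans
        (mul_nonneg (Nat.cast_nonneg _) (div_nonneg (by linarith) hs.le))
    have h1 : ph lam l u ≤ ph lam l (s + 1) := by
      by_cases hu2 : u ≤ s + 1
      · exact ph_mono hl hu2 (by push_cast; linarith)
      · rw [show u = s + 1 + 1 by omega]
        rcases l with _ | k
        · simp only [Nat.cast_zero] at hw1
          nlinarith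
        · exact ph_dec (by push_cast at hc ⊢; linarith)
    refine h1.trans (le_of_eq ?_)
    have h2 := ph_mul lam l (s + 1)
    have h3 := Nat.choose_mul_succ_eq (l + (s + 1)) (l + 1)
    rw [show l + (s + 1) + 1 - (l + 1) = s + 1 by omega] at h3
    have h4 : ((l + (s + 1)).choose (l + 1) : ℝ) * (l + (s + 1) + 1) =
        ((l + (s + 1) + 1).choose (l + 1) : ℝ) * (s + 1) := by exact_mod_cast h3
    push_cast at h2
    rw [← mul_div_assoc, eq_div_iff hs.ne']
    refine mul_right_cancel₀ (b := (s : ℝ) + 1) (by positivity) ?_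
    linear_combination (l + s + 2) * h2 + (l + 1 - lam * (s + 1)) * h4
  one := by
    intro K lam hl
    have h1 : Osc K 1 (SS K) := by
      rcases K with _ | K
      · intro r
        simp [SS]
      induction K with
      | zero =>
        intro r
        have : (kk 1 r : ℝ) ≤ r := by exact_mod_cast (hK.le_mul 1 r).trans (one_mul r).le
        simpa [SS] using this
      | succ K ih =>
        have e : (SS (K + 1 + 1) : ℝ) = catalan (K + 1) + SS (K + 1) := by
          rw [SS, sum_Ico_succ_top (by omega), ← SS]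
          push_cast
          ring
        rw [e]
        refine step _ _ _ _ ih (fun x _ => ?_) (by positivity)
        have : (x.choose (K + 1) : ℝ) ≤ x.choose (K + 1 + 1) + catalan (K + 1) := by
          exact_mod_cast hC.hmax x (K + 1)
        linarith
    intro r
    have h2 := h1 r
    have : (0 : ℝ) ≤ r := Nat.cast_nonneg _
    nlinarith

open OSr in
theorem majStmt (hK : KN) (hO : OS) (hP : PolyTStmt) : MajStmt := by
  intro lam l t hl
  have hone : ∀ l : ℕ, WinC lam l 1 → Osc l lam 0 := by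
    intro l h r
    have h1 : (kk l r : ℝ) ≤ l * r := by exact_mod_cast hK.le_mul l r
    have h2 := h.2.2
    have : (0 : ℝ) ≤ r := Nat.cast_nonneg _
    simp only [Nat.cast_one, mul_one] at h2
    nlinarith
  induction l generalizing t with
  | zero =>
    intro h
    have ht : t = 1 := by
      by_contra hc
      have h1 : 2 ≤ t := by have := h.1; omega
      have h2 : (2 : ℝ) ≤ t := by exact_mod_cast h1
      have h3 := h.2.1
      simp only [Nat.cast_zero] at h3
      nlinarith
    subst ht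
    simpa [Ob] using hone 0 h
  | succ l ih =>
    intro h
    by_cases ht : t ≤ 1
    · obtain rfl : t = 1 := le_antisymm ht h.1
      simpa [Ob] using hone _ h
    have ht2 : 2 ≤ t := by omega
    have htr : (2 : ℝ) ≤ t := by exact_mod_cast ht2
    have ht1 : (0 : ℝ) < (t : ℝ) - 1 := by linarith
    obtain ⟨-, hw1, hw2⟩ := id h
    push_cast at hw1 hw2
    have hw0 : (0 : ℝ) ≤ ((l + 1 + t - 2).choose (l + 1) : ℝ) := Nat.cast_nonneg _
    by_cases hA : lam * ((t : ℝ) - 1) ≤ l
    · have h1 := ih t ⟨h.1, hA, by linarith⟩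
      refine (hO.step l lam _ _ h1 (fun x hx => hO.p1 lam l t x hl ht2 h (Or.inr hA) hx)
        (add_nonneg (mul_nonneg hw0 (div_nonneg (by linarith) ht1.le)) h1.nonneg)).mono ?_
      have h2 : ((l + t - 2).choose l : ℝ) ≤ ((l + 1 + t - 2).choose (l + 1) : ℝ) := by
        rw [show l + 1 + t - 2 = l + t - 2 + 1 by omega, Nat.choose_succ_succ']
        exact_mod_cast Nat.le_add_right _ _
      have h3 := mul_le_mul_of_nonneg_right h2
        (div_nonneg (om_nonneg t ((l : ℝ) - lam * ((t : ℝ) - 1)) hl) ht1.le)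
      have h4 : om t (((l + 1 : ℕ) : ℝ) - lam * ((t : ℝ) - 1)) lam =
          ((l : ℝ) + 1 - lam * ((t : ℝ) - 1)) + om t ((l : ℝ) - lam * ((t : ℝ) - 1)) lam := by
        unfold om
        push_cast
        ring
      rw [Ob, Ob, if_neg ht, if_neg ht, h4, add_div, mul_add]
      linarith
    have hA' := (not_le.1 hA).le
    rcases ht2.eq_or_lt with rfl | ht3
    · have h1 := hone l ⟨le_rfl, by simp, by push_cast at hA' ⊢; linarith⟩
      refine (hO.step l lam _ _ h1 (fun x hx => hO.p1 lam l 2 x hl le_rfl h (Or.inl rfl) hx)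
        (add_nonneg (mul_nonneg hw0 (div_nonneg (by linarith) ht1.le)) le_rfl)).mono ?_
      rw [Ob, if_neg ht, add_zero]
      refine mul_le_mul_of_nonneg_left (div_le_div_of_nonneg_right ?_ ht1.le) hw0
      rw [om, if_pos le_rfl]
      push_cast
      nlinarith [sq_nonneg ((l : ℝ) + 1 - lam * (2 - 1) - 1 / 2)]
    obtain ⟨s, rfl⟩ : ∃ s, t = s + 3 := ⟨t - 3, by omega⟩
    have hs0 : (0 : ℝ) ≤ s := Nat.cast_nonneg _
    have hl0 : (0 : ℝ) ≤ l := Nat.cast_nonneg _
    have h1 := ih (s + 2) ⟨by omega, by push_cast at hw1 ⊢; linarith,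
      by push_cast at hA' ⊢; linarith⟩
    refine (hO.step l lam _ _ h1 (fun x hx => hO.p2 lam l (s + 3) x hl (by omega) h hA' hx)
      (add_nonneg (mul_nonneg hw0 (div_nonneg (by linarith) (by push_cast; linarith)))
        h1.nonneg)).mono ?_
    have h2 := hP (s + 3) lam ((l : ℝ) + 1 - lam * (((s + 3 : ℕ) : ℝ) - 1)) (l + 1) (by omega) hl
      (by linarith) (by linarith) (by ring)
    have h3 := mul_le_mul_of_nonneg_left h2 hw0
    rw [Ob, Ob, if_neg (by omega), if_neg ht]
    rw [show ((l + 1 : ℕ) : ℝ) = (l : ℝ) + 1 by push_cast; rfl]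
    refine le_trans (le_of_eq ?_) h3
    rw [mul_add, show s + 3 - 1 = s + 2 by omega,
      show (l : ℝ) + 1 - lam * (((s + 3 : ℕ) : ℝ) - 1) + lam - 1 =
        (l : ℝ) - lam * (((s + 2 : ℕ) : ℝ) - 1) by push_cast; ring]
    congr 1
    rw [show l + (s + 2) - 2 = l + s by omega, show l + 1 + (s + 3) - 2 = l + s + 1 + 1 by omega]
    have a1 : ((l + s + 1 : ℝ)) * ((l + s).choose l : ℝ) =
        ((l + s + 1).choose (l + 1) : ℝ) * (l + 1) := by
      exact_mod_cast Nat.add_one_mul_choose_eq (l + s) l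
    have a2 := Nat.choose_mul_succ_eq (l + s + 1) (l + 1)
    rw [show l + s + 1 + 1 - (l + 1) = s + 1 by omega] at a2
    have a3 : ((l + s + 1).choose (l + 1) : ℝ) * (l + s + 1 + 1) =
        ((l + s + 1 + 1).choose (l + 1) : ℝ) * (s + 1) := by exact_mod_cast a2
    generalize om (s + 2) _ lam = o
    push_cast
    have b1 : (s : ℝ) + 2 - 1 ≠ 0 := by linarith
    have b2 : (l : ℝ) + 1 + (s + 3) - 2 ≠ 0 := by linarith
    have b3 : (l : ℝ) + 1 + (s + 3) - 3 ≠ 0 := by linarith
    field_simp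
    linear_combination o * (l + s + 2) * a1 + o * (l + 1) * a3

end Pool.Agent.MP_d50107_co.H61
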