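import Pool.Agent.MP_d50107_co.H61.Basic

/-! The polynomial inequality behind the majorant. -/

namespace Pool.Agent.MP_d50107_co.H61

namespace PolyT

/-- clearing the denominators -/
theorem clear {t l a o o' : ℝ} (ht : 3 ≤ t) (hl : 0 < l)
    (h : 24 * t * (t - 1) * a * (l + t - 3) + t * l * (24 * (t - 1) * o') ≤
      24 * t * o * ((l + t - 2) * (l + t - 3))) :
    a / (l + t - 2) + l / ((l + t - 2) * (l + t - 3)) * o' ≤ o / (t - 1) := by
  have h1 : 0 < l + t - 2 := by linarith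
  have h2 : 0 < l + t - 3 := by linarith
  have h3 : 0 < t - 1 := by linarith
  have h4 : 0 < 24 * t := by linarith
  have e : a / (l + t - 2) + l / ((l + t - 2) * (l + t - 3)) * o' =
      (a * (l + t - 3) + l * o') / ((l + t - 2) * (l + t - 3)) := by
    field_simp
  rw [e, div_le_div_iff₀ (mul_pos h1 h2) h3]
  refine le_of_mul_le_mul_left ?_ h4
  linarith

theorem three {v A B : ℝ} (hv : 0 ≤ v) (hA : 0 ≤ A) (hB : 0 ≤ B) :
    0 ≤ (342 + 570 * v + 228 * v ^ 2) * B ^ 4 + (1545 + 2328 * v + 840 * v ^ 2) * A * B ^ 3 +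
      (2730 + 3816 * v + 1296 * v ^ 2) * A ^ 2 * B ^ 2 +
      (2337 + 3072 * v + 984 * v ^ 2) * A ^ 3 * B + (846 + 1014 * v + 300 * v ^ 2) * A ^ 4 := by
  positivity

theorem four {u v A B : ℝ} (hu : 0 ≤ u) (hv : 0 ≤ v) (hA : 0 ≤ A) (hB : 0 ≤ B) :
    0 ≤ (76 + 204 * v + 288 * v ^ 2 + 415 * u + 438 * u * v + 273 * u * v ^ 2 + 156 * u ^ 2 +
        135 * u ^ 2 * v + 74 * u ^ 2 * v ^ 2 + 3 * u ^ 3 + 3 * u ^ 3 * v + 5 * u ^ 3 * v ^ 2) *
        B ^ 4 +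
      (100 + 576 * v + 864 * v ^ 2 + 1438 * u + 1426 * u * v + 780 * u * v ^ 2 + 507 * u ^ 2 +
        418 * u ^ 2 * v + 188 * u ^ 2 * v ^ 2 + 8 * u ^ 3 * v ^ 2) * A * B ^ 3 +
      (500 + 1416 * v + 1296 * v ^ 2 + 2597 * u + 2598 * u * v + 1098 * u * v ^ 2 + 885 * u ^ 2 +
        768 * u ^ 2 * v + 240 * u ^ 2 * v ^ 2 + 18 * u ^ 3 + 18 * u ^ 3 * v + 6 * u ^ 3 * v ^ 2) *
        A ^ 2 * B ^ 2 +
      (1340 + 2208 * v + 1152 * v ^ 2 + 2768 * u + 2838 * u * v + 948 * u * v ^ 2 + 909 * u ^ 2 +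
        846 * u ^ 2 * v + 212 * u ^ 2 * v ^ 2 + 48 * u ^ 3 + 48 * u ^ 3 * v + 8 * u ^ 3 * v ^ 2) *
        A ^ 3 * B +
      (912 + 1164 * v + 432 * v ^ 2 + 1206 * u + 1228 * u * v + 357 * u * v ^ 2 + 375 * u ^ 2 +
        361 * u ^ 2 * v + 86 * u ^ 2 * v ^ 2 + 27 * u ^ 3 + 27 * u ^ 3 * v + 5 * u ^ 3 * v ^ 2) *
        A ^ 4 := by
  positivity

end PolyT

theorem polyTStmt : PolyTStmt := by
  intro t lam A l ht hlam hA hA1 hl
  have ht' : (3 : ℝ) ≤ t := by exact_mod_cast ht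
  have hl0 : 0 < l := by nlinarith
  have hv : 0 ≤ lam - 1 := by linarith
  have hB : 0 ≤ 1 - A := by linarith
  refine PolyT.clear ht' hl0 ?_
  rcases ht.eq_or_lt with rfl | ht4
  · have h := PolyT.three hv hA hB
    simp only [om, if_pos (show 3 - 1 ≤ 2 by norm_num), if_neg (show ¬ 3 ≤ 2 by norm_num)]
    subst hl
    push_cast
    linarith
  · have ht4' : (4 : ℝ) ≤ t := by exact_mod_cast ht4
    have h := PolyT.four (u := (t : ℝ) - 4) (by linarith) hv hA hB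
    have e1 : 24 * ((t : ℝ) - 1) * om (t - 1) (A + lam - 1) lam =
        12 * ((t : ℝ) - 1) * (A + lam - 1 + 1 / 2) ^ 2 + ((t : ℝ) - 1) * (12 * lam + 2) + 60 := by
      have h0 : (t : ℝ) - 1 ≠ 0 := by linarith
      rw [om, if_neg (by omega), Nat.cast_sub (by omega), Nat.cast_one]
      field_simp
      ring
    have e2 : 24 * (t : ℝ) * om t A lam =
        12 * (t : ℝ) * (A + 1 / 2) ^ 2 + (t : ℝ) * (12 * lam + 2) + 60 := by
      have h0 : (t : ℝ) ≠ 0 := by linarith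
      rw [om, if_neg (by omega)]
      field_simp
      ring
    rw [e1, e2]
    subst hl
    linarith

end Pool.Agent.MP_d50107_co.H61
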