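import Pool.Agent.MP_d50107_co.H61.Basic

/-! Structure of a shifted intersecting family. -/

namespace Pool.Agent.MP_d50107_co.H61

open Finset
open scoped FinsetFamily

namespace SRA

theorem nm {w y : ℕ} {g : Finset ℕ} (hg : g ⊆ range w) (h : w ≤ y) : y ∉ g := fun h' => by
  have := mem_range.1 (hg h')
  omega

theorem nm2 {w y z : ℕ} {g : Finset ℕ} (hg : g ⊆ range w) (h : w ≤ y) (h' : y ≠ z) :
    y ∉ insert z g := fun e => (mem_insert.1 e).elim h' (nm hg h)

theorem peelTo (w : ℕ) (F : Finset (Finset ℕ)) (lam : ℝ) : ∀ (d : ℕ) (T : Finset ℕ),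
    Out (w + d) T → (fib (w + d) F T).Nonempty →
    ((∂ (fib (w + d) F T)).card : ℝ) ≤ lam * (fib (w + d) F T).card → ∃ T', T ⊆ T' ∧ Out w T' ∧
      (fib w F T').Nonempty ∧ ((∂ (fib w F T')).card : ℝ) ≤ lam * (fib w F T').card := by
  intro d
  induction d with
  | zero => exact fun T h1 h2 h3 => ⟨T, Subset.rfl, h1, h2, h3⟩
  | succ d ih =>
    intro T h1 h2 h3
    have h4 := peel (w + d) h2 h3
    rw [← add_assoc, nonMember_fib, member_fib] at h4
    rcases h4 with h4 | h4
    · exact ih T (h1.mono (by omega)) h4.1 h4.2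
    · obtain ⟨T', k1, k2⟩ := ih _ ((h1.mono (by omega)).insert le_rfl) h4.1 h4.2
      exact ⟨T', (subset_insert _ _).trans k1, k2⟩

theorem nest {w y z : ℕ} {F : Finset (Finset ℕ)} (hF : Shifted F) (h1 : w ≤ y) (h2 : y ≤ z) :
    fib w F {z} ⊆ fib w F {y} := fun g hg => by
  rw [mem_fib_one] at hg ⊢
  exact ⟨hg.1, hF.swap hg.2 h2 (nm hg.1 (h1.trans h2)) (nm hg.1 h1)⟩

theorem one_sub {K w y : ℕ} {F : Finset (Finset ℕ)} (hF : Good K F) (h : w ≤ y) :
    fib w F {y} ⊆ powersetCard K (range w) := fib_subset hF.1 (out_singleton h) (by simp)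

theorem zero_sub {K w : ℕ} {F : Finset (Finset ℕ)} (hF : Good K F) :
    fib w F ∅ ⊆ powersetCard (K + 1) (range w) := fib_subset hF.1 (out_empty w) (by simp)

theorem ins {w x : ℕ} {F : Finset (Finset ℕ)} (hF : Shifted F) {g : Finset ℕ}
    (hg : g ∈ fib w F {w}) (hx : x < w) (hx' : x ∉ g) : insert x g ∈ fib w F ∅ := by
  rw [mem_fib_one] at hg
  exact mem_fib_empty.2 ⟨insert_subset (mem_range.2 hx) hg.1,
    hF.swap hg.2 hx.le (nm hg.1 le_rfl) hx'⟩

theorem up (hL : LY) {K w : ℕ} {F : Finset (Finset ℕ)} (hF : Good K F) :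
    (w - K) * (fib w F {w}).card ≤ (K + 1) * (fib w F ∅).card :=
  hL.up w K _ _ (one_sub hF le_rfl) (zero_sub hF) fun _ hg _ hx hx' => ins hF.2.2 hg hx hx'

theorem inter {K : ℕ} {F : Finset (Finset ℕ)} {T : Finset ℕ} (hF : Good K F)
    (hT : Out (2 * K - 1) T) (h2 : 2 ≤ T.card) (hne : T ≠ {2 * K - 1, 2 * K}) :
    H54.Inter (fib (2 * K - 1) F T) := by
  intro g hg g' hg'
  by_contra hc
  have c1 := card_of_mem_fib hF.1 hT hg
  have c2 := card_of_mem_fib hF.1 hT hg'
  rw [mem_fib] at hg hg'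
  have c3 := le_card_sdiff (g ∪ g') (range (2 * K - 1))
  have c4 := card_union_le g g'
  rw [card_range] at c3
  have hd : ∀ x ∈ g', x ∉ g := fun x h h' => hc ⟨x, h', h⟩
  have hlt : ∀ x ∈ g', x < 2 * K - 1 := fun x h => mem_range.1 (hg'.1 h)
  rcases h2.lt_or_eq with h3 | h3
  · obtain ⟨R, hR, c5⟩ := exists_subset_card_eq (s := range (2 * K - 1) \ (g ∪ g')) (n := T.card)
      (by omega)
    have hR' : ∀ x ∈ R, x < 2 * K - 1 ∧ x ∉ g ∧ x ∉ g' := fun x hx => by simpa using hR hx
    refine hF.not_disjoint (hF.2.2.star (B := g' ∪ R) hg'.2 ?_ fun x h4 h5 y h6 h7 => ?_) hg.2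
      (disjoint_left.2 fun x h4 h5 => ?_)
    · rw [card_union_of_disjoint (hT.disjoint hg'.1),
        card_union_of_disjoint (disjoint_right.2 fun x hx => (hR' x hx).2.2), c5]
    · simp only [mem_union, not_or] at h4 h5 h6 h7
      exact (hR' x (h4.resolve_left h5.1)).1.trans_le (hT y (h6.resolve_left h7.1))
    · rcases mem_union.1 h5 with h5 | h5
      · exact (mem_union.1 h4).elim (fun h => hd x h h5) fun h => (hR' x h).2.1 h5
      · exact (hT x h5).not_gt ((mem_union.1 h4).elim (hlt x) fun h => (hR' x h).1)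
  obtain ⟨y, z, hyz, rfl⟩ : ∃ y z, y < z ∧ T = {y, z} := by
    obtain ⟨y, z, h, rfl⟩ := card_eq_two.1 h3.symm
    rcases lt_or_gt_of_ne h with h | h
    exacts [⟨y, z, h, rfl⟩, ⟨z, y, h, pair_comm _ _⟩]
  have hy := hT y (by simp)
  obtain ⟨x, hx⟩ : (range (2 * K - 1) \ (g ∪ g')).Nonempty := card_pos.1 (by omega)
  simp only [mem_sdiff, mem_range, mem_union, not_or] at hx
  obtain ⟨p, p1, p2, p3⟩ : ∃ p, 2 * K - 1 ≤ p ∧ p < z ∧ p ≠ y := by
    rcases hy.lt_or_eq with h | h
    · exact ⟨_, le_rfl, h.trans hyz, h.ne⟩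
    · have : z ≠ 2 * K := fun e => hne (by rw [← h, e])
      exact ⟨2 * K, by omega, by omega, by omega⟩
  have k1 := (mem_fib_two.1 (mem_fib.2 hg')).2
  have k2 := hF.2.2.swap k1 (i := x) (by omega) (nm2 hg'.1 hy hyz.ne) (by
    rw [mem_insert, not_or]
    exact ⟨by omega, hx.2.2⟩)
  rw [insert_comm] at k2
  have k3 := hF.2.2.swap k2 p2.le (nm2 hg'.1 (by omega) (by omega)) (nm2 hg'.1 p1 (by omega))
  refine hF.not_disjoint k3 hg.2 (disjoint_left.2 fun a h4 h5 => ?_)
  simp only [mem_insert, mem_union, mem_singleton] at h4 h5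
  rcases h5 with h5 | h5
  · rcases h4 with rfl | rfl | h4
    exacts [nm hg.1 p1 h5, hx.2.1 h5, hd a h4 h5]
  · rcases h4 with rfl | rfl | h4
    · omega
    · omega
    · have := hlt a h4
      omega

end SRA

open SRA in
theorem sr (_hF : FB) (hL : LY) (hC : CT) : SR where
  seed K w u v y z F lam T hK hF hw hT hy hz hyz hu huv huy hvz hne hr := by
    obtain ⟨d, rfl⟩ := Nat.exists_eq_add_of_le (show 2 * K - 2 ≤ w by omega)
    obtain ⟨T', k1, k2, k3, k4⟩ := peelTo _ F lam d T hT hne hr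
    obtain ⟨g₀, hg₀⟩ := k3
    have c1 := card_of_mem_fib hF.1 k2 hg₀
    have c2 : 1 < T'.card := one_lt_card.2 ⟨y, k1 hy, z, k1 hz, hyz.ne⟩
    refine ⟨g₀.card, _, by omega, fib_subset hF.1 k2 c1, ⟨g₀, hg₀⟩, k4, fun g hg B h1 h2 h3 => ?_⟩
    rw [mem_fib] at hg
    have n1 := nm2 h2 (hu.trans huy) hyz.ne
    have h4 : insert y (insert z B) ∈ F := by
      refine hF.2.2.star hg.2 ?_ fun a a1 a2 b b1 b2 => ?_
      · rw [hF.1 _ hg.2, card_insert_of_notMem n1, card_insert_of_notMem (nm h2 (by omega)), h3]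
      · simp only [mem_union, mem_insert, not_or] at a1 a2 b1 b2
        have b3 := b1.resolve_left fun h => b2.2.2 (h1 h)
        have b4 := k2 b b3
        have b5 : a ≠ b := fun e => a2.2 (e ▸ b3)
        rcases a1 with rfl | rfl | a1
        · exact absurd (k1 hy) a2.2
        · exact absurd (k1 hz) a2.2
        · have := mem_range.1 (h2 a1)
          omega
    have h5 := hF.2.2.swap h4 huy n1 (nm2 h2 hu (by omega))
    rw [insert_comm] at h5 ⊢
    exact hF.2.2.swap h5 hvz (nm2 h2 (by omega) (by omega)) (nm2 h2 (by omega) huv.ne')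
  nest _ _ _ _ := nest
  compl K y F hF hy := by
    have h1 := one_sub hF hy.le
    rw [← card_image_of_injOn (f := fun g => range (2 * K) \ g) (s := fib (2 * K) F {y})
      (fun g hg g' hg' e => by
        have := congrArg (range (2 * K) \ ·) e
        simpa only [Finset.sdiff_sdiff_eq_self (mem_fib.1 hg).1,
          Finset.sdiff_sdiff_eq_self (mem_fib.1 hg').1] using this), ← card_union_of_disjoint]
    · refine card_le_choose (union_subset (fun B hB => ?_) (one_sub hF le_rfl))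
      obtain ⟨g, hg, rfl⟩ := mem_image.1 hB
      have := mem_powersetCard.1 (h1 hg)
      refine mem_powersetCard.2 ⟨sdiff_subset, ?_⟩
      rw [card_sdiff_of_subset this.1, card_range]
      omega
    · refine disjoint_left.2 fun B hB hB' => ?_
      obtain ⟨g, hg, rfl⟩ := mem_image.1 hB
      rw [mem_fib_one] at hg hB'
      refine hF.not_disjoint hg.2 hB'.2 (disjoint_left.2 fun a h2 h3 => ?_)
      simp only [mem_insert, mem_sdiff, mem_range] at h2 h3
      rcases h2 with rfl | h2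
      · omega
      · exact h3.elim (fun e => nm hg.1 e.ge h2) fun e => e.2 h2
  inner K F hK hF := by
    refine card_le_card fun g hg => ?_
    have h1 := mem_powersetCard.1 (one_sub hF le_rfl hg)
    obtain ⟨x, h2, h3⟩ := exists_mem_notMem_of_card_lt_card (s := g) (t := range (2 * K))
      (by rw [card_range]; omega)
    exact mem_shadow_iff_insert_mem.2 ⟨x, h3, ins hF.2.2 hg (mem_range.1 h2) h3⟩
  dens K F hF := by
    have := up hL (w := 2 * K) hF
    rwa [show 2 * K - K = K by omega] at this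
  thin K y F hK hF hy h := by
    have h1 := card_le_card (nest hF.2.2 le_rfl hy)
    have h2 := card_fib_split (2 * K - 1) F ∅
    have h3 := up hL (w := 2 * K - 1) hF
    have h4 := Nat.choose_succ_right_eq (2 * K - 1) K
    rw [hC.up K (by omega), hC.w2 K hK] at h
    rw [show 2 * K - 1 + 1 = 2 * K by omega, insert_empty_eq] at h2
    change _ = NN K * _ at h4
    obtain ⟨k, rfl⟩ : ∃ k, K = k + 1 := ⟨K - 1, by omega⟩
    rw [show 2 * (k + 1) - 1 - (k + 1) = k by omega] at h3 h4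
    by_contra hc
    nlinarith
  kat K F T hK hF hT hne h := by
    rcases (fib (2 * K - 1) F T).eq_empty_or_nonempty with e | ⟨g, hg⟩
    · simp [e]
    have c1 := card_of_mem_fib hF.1 hT hg
    have h1 := fib_subset hF.1 hT c1
    rcases (Nat.succ_le_of_lt hne.card_pos).lt_or_eq with h2 | h2
    · exact H54.katona h1 (inter hF hT h2 h)
    · have h3 := hL.down _ _ _ h1
      rw [show g.card = K by omega, show 2 * K - 1 - K + 1 = K by omega] at h3
      exact Nat.le_of_mul_le_mul_left h3 hK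

end Pool.Agent.MP_d50107_co.H61
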