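import Pool.Agent.MP_d50107_co.H61.Basic

/-! Row ST: small ratios. -/

namespace Pool.Agent.MP_d50107_co.H61

open Finset
open scoped FinsetFamily

namespace STRow

theorem nn_eq (n : ℕ) : NN (n + 1) = (2 * n + 1).choose (n + 1) := by
  unfold NN
  congr 1

theorem ww_eq (n : ℕ) : WW (n + 1) = (2 * n).choose n := by
  unfold WW
  congr 1

/-- the facts at level `n + 2`, with `W = C(2n+2, n+1)`, `u = C(2n+2, n+2)` -/
theorem facts (hC : CT) (n : ℕ) :
    NN (n + 2) = (2 * n + 2).choose (n + 1) + (2 * n + 2).choose (n + 2) ∧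
    (2 * n + 2).choose (n + 1) = 2 * NN (n + 1) ∧
    (n + 2) * (2 * n + 2).choose (n + 2) = (n + 1) * (2 * n + 2).choose (n + 1) ∧
    (2 * n + 2).choose (n + 2) + catalan (n + 1) =
      (2 * n + 2).choose (n + 3) + catalan (n + 2) := by
  have hw : WW (n + 2) = (2 * n + 2).choose (n + 1) := ww_eq (n + 1)
  have h1 := hC.nw (n + 2) (by omega)
  have h2 := hC.w2 (n + 2) (by omega)
  have h3 := hC.wk (n + 2) (by omega)
  have h4 := hC.c1 (n + 2) (by omega)
  have h5 := hC.c2 (n + 2) (by omega)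
  rw [show 2 * (n + 2) - 2 = 2 * n + 2 by omega] at h1 h5
  rw [show 2 * (n + 2) - 1 = 2 * n + 3 by omega] at h3 h4
  rw [show n + 2 - 1 = n + 1 by omega] at h2 h5
  rw [hw] at h1 h2 h3 h5
  have h6 : (2 * n + 3).choose (n + 2 + 1) =
      (2 * n + 2).choose (n + 2) + (2 * n + 2).choose (n + 3) := Nat.choose_succ_succ' _ _
  refine ⟨h1, h2, ?_, by omega⟩
  rw [h1] at h3
  linarith

/-- past `NN i` the excess is at least the Catalan number -/
theorem past (hK : KN) (hC : CT) {i m : ℕ} (hi : 1 ≤ i) (h1 : NN i ≤ m)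
    (h2 : m ≤ (2 * i).choose i) : catalan i + cl i m ≤ m := by
  have h3 := hK.emono i (2 * i - 1) m h1 h2
  have h4 := hC.c1 i hi
  unfold NN at h4
  omega

theorem level_one (hK : KN) (hC : CT) {m : ℕ} (h1 : 1 ≤ m) (h2 : m ≤ (2 * 1).choose 1) :
    catalan 1 + cl 1 m ≤ m :=
  past hK hC le_rfl (by simpa [NN] using h1) h2

theorem ratio (hK : KN) (hC : CT) (i p : ℕ) (hi : 2 ≤ i) (hp : p + NN (i - 1) ≤ NN i) :
    3 * i * p ≤ (3 * i - 2) * kk i p := by
  obtain ⟨n, rfl⟩ : ∃ n, i = n + 2 := ⟨i - 2, by omega⟩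
  obtain ⟨f1, f2, f3, -⟩ := facts hC n
  rw [show n + 2 - 1 = n + 1 by omega] at hp
  rw [show 3 * (n + 2) - 2 = 3 * n + 4 by omega]
  by_cases h : p ≤ (2 * n + 2).choose (n + 2)
  · have h1 := hK.lym (n + 2) (2 * n + 2) p (by omega) h
    rw [show 2 * n + 2 - (n + 2) + 1 = n + 1 by omega] at h1
    linarith [Nat.zero_le (kk (n + 2) p)]
  · obtain ⟨r, rfl⟩ := Nat.exists_eq_add_of_le (not_le.1 h).le
    have hr : r ≤ NN (n + 1) := by omega
    have h1 : kk (n + 2) ((2 * n + 2).choose (n + 2) + r) =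
        (2 * n + 2).choose (n + 1) + kk (n + 1) r := kk_block (by omega) (by omega)
    have h2 := hK.lym (n + 1) (2 * n + 1) r (by omega) (by rwa [← nn_eq])
    rw [show 2 * n + 1 - (n + 1) + 1 = n + 1 by omega] at h2
    have h3 : r ≤ kk (n + 1) r := Nat.le_of_mul_le_mul_left h2 (by omega)
    rw [h1]
    have h4 : 2 * r ≤ (2 * n + 2).choose (n + 1) := by omega
    linarith [Nat.mul_le_mul_left (3 * n + 4) h3]

theorem one (hK : KN) (hC : CT) (K : ℕ) (lam : ℝ) (hK2 : 2 ≤ K)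
    (hlam : (3 * (K : ℝ) - 2) * lam < 3 * K) : Stop 1 lam 1 (K - 1) := by
  intro i g m hi hiK hg hgm hm hk
  suffices h : catalan i + cl i m ≤ m by
    have : (catalan i : ℝ) + cl i m ≤ m := by exact_mod_cast h
    linarith
  rcases Nat.lt_or_ge i 2 with hi2 | hi2
  · obtain rfl : i = 1 := by omega
    exact level_one hK hC (by omega) hm
  have hbig : ¬ g + NN (i - 1) ≤ NN i := by
    intro h
    have h1 := ratio hK hC i g hi2 h
    have h2 : 3 * (i : ℝ) * g ≤ (3 * (i : ℝ) - 2) * kk i g := by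
      have : ((3 * i - 2 : ℕ) : ℝ) = 3 * (i : ℝ) - 2 := by
        rw [Nat.cast_sub (by omega)]
        push_cast
        ring
      rw [← this]
      exact_mod_cast h1
    have hi' : (2 : ℝ) ≤ i := by exact_mod_cast hi2
    have hg' : (1 : ℝ) ≤ g := by exact_mod_cast hg
    have hiK' : (i : ℝ) ≤ K := by exact_mod_cast (show i ≤ K by omega)
    have h3 : 3 * (i : ℝ) * g ≤ (3 * (i : ℝ) - 2) * lam * g := by
      have := mul_le_mul_of_nonneg_left hk (show (0 : ℝ) ≤ 3 * (i : ℝ) - 2 by linarith)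
      linarith
    have h4 : 3 * (i : ℝ) ≤ (3 * (i : ℝ) - 2) * lam := le_of_mul_le_mul_right h3 (by linarith)
    have h5 : 1 ≤ lam := by
      by_contra hc
      have := mul_le_mul_of_nonneg_left (not_le.1 hc).le
        (show (0 : ℝ) ≤ 3 * (i : ℝ) - 2 by linarith)
      linarith
    linarith [mul_nonneg (sub_nonneg.2 hiK') (sub_nonneg.2 h5)]
  by_cases hN : NN i ≤ m
  · exact past hK hC hi hN hm
  obtain ⟨n, rfl⟩ : ∃ n, i = n + 2 := ⟨i - 2, by omega⟩
  obtain ⟨f1, f2, f3, f4⟩ := facts hC n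
  rw [show n + 2 - 1 = n + 1 by omega] at hbig
  obtain ⟨r, rfl⟩ := Nat.exists_eq_add_of_le (show (2 * n + 2).choose (n + 2) ≤ m by omega)
  have h1 : cl (n + 2) ((2 * n + 2).choose (n + 2) + r) =
      (2 * n + 2).choose (n + 3) + cl (n + 1) r := cl_block (by omega) (by omega)
  have h2 := past hK hC (i := n + 1) (m := r) (by omega) (by omega)
    (by rw [show 2 * (n + 1) = 2 * n + 2 by ring]; omega)
  omega

theorem cat_five (hC : CT) (n : ℕ) : 5 * catalan (n + 1) ≤ catalan (n + 3) := by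
  have h1 := hC.succ (n + 1)
  have h2 := hC.succ (n + 2)
  have h3 : (n + 4) * (n + 3) * catalan (n + 3) =
      4 * (2 * n + 5) * (2 * n + 3) * catalan (n + 1) := by
    calc (n + 4) * (n + 3) * catalan (n + 3)
        = (n + 3) * ((n + 2 + 2) * catalan (n + 2 + 1)) := by ring
      _ = 2 * (2 * n + 5) * ((n + 1 + 2) * catalan (n + 1 + 1)) := by rw [h2]; ring
      _ = _ := by rw [h1]; ring
  refine Nat.le_of_mul_le_mul_left (c := (n + 4) * (n + 3)) ?_ (by positivity)
  rw [h3, ← mul_assoc]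
  exact Nat.mul_le_mul_right _ (by nlinarith)

theorem two (hK : KN) (hC : CT) (J : ℕ) (lam : ℝ) (hN : NoStop lam J) :
    Stop 1 lam (4 / 5) J := by
  intro i g m hi hiJ hg hgm hm hk
  suffices h : 4 * catalan i + 5 * cl i m ≤ 5 * m by
    have : 4 * (catalan i : ℝ) + 5 * cl i m ≤ 5 * m := by exact_mod_cast h
    linarith
  rcases Nat.lt_or_ge i 2 with hi2 | hi2
  · obtain rfl : i = 1 := by omega
    have := level_one hK hC (m := m) (by omega) hm
    omega
  by_cases hNm : NN i ≤ m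
  · have := past hK hC hi hNm hm
    omega
  have hl := hN i hi2 hiJ
  obtain ⟨n, rfl⟩ : ∃ n, i = n + 2 := ⟨i - 2, by omega⟩
  obtain ⟨f1, f2, f3, f4⟩ := facts hC n
  have hkg : (n + 1) * kk (n + 2) g < (n + 2) * g := by
    have hg' : (0 : ℝ) < g := by exact_mod_cast hg
    have h1 := mul_le_mul_of_nonneg_left hk (show (0 : ℝ) ≤ (n : ℝ) + 1 by positivity)
    have h2 := mul_lt_mul_of_pos_right hl hg'
    push_cast at h2
    have h3 : ((n : ℝ) + 1) * kk (n + 2) g < ((n : ℝ) + 2) * g := by linarith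
    exact_mod_cast h3
  have hgu : ¬ g ≤ (2 * n + 2).choose (n + 2) := by
    intro h
    have h1 := hK.lym (n + 2) (2 * n + 2) g (by omega) h
    rw [show 2 * n + 2 - (n + 2) + 1 = n + 1 by omega] at h1
    omega
  obtain ⟨r', rfl⟩ := Nat.exists_eq_add_of_le (not_le.1 hgu).le
  obtain ⟨r, rfl⟩ := Nat.exists_eq_add_of_le (show (2 * n + 2).choose (n + 2) ≤ m by omega)
  have h1 : cl (n + 2) ((2 * n + 2).choose (n + 2) + r) =
      (2 * n + 2).choose (n + 3) + cl (n + 1) r := cl_block (by omega) (by omega)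
  have h2 : kk (n + 2) ((2 * n + 2).choose (n + 2) + r') =
      (2 * n + 2).choose (n + 1) + kk (n + 1) r' := kk_block (by omega) (by omega)
  rw [h2] at hkg
  have h3 : (n + 1) * kk (n + 1) r' < (n + 2) * r' := by linarith
  rw [h1]
  rcases n with _ | n
  · have e1 : (2 * 0 + 2).choose (0 + 1) = 2 := by decide
    have e2 : (2 * 0 + 2).choose (0 + 2) = 1 := by decide
    have e3 : (2 * 0 + 2).choose (0 + 3) = 0 := by decide
    obtain rfl : r = 1 := by omega
    rw [cl_one, e2, e3, show 0 + 2 = 2 from rfl, catalan_two]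
    omega
  · obtain ⟨-, -, -, g4⟩ := facts hC n
    have h4 : ¬ r' ≤ (2 * n + 2).choose (n + 2) := by
      intro h
      have h5 := hK.lym (n + 2) (2 * n + 2) r' (by omega) h
      rw [show 2 * n + 2 - (n + 2) + 1 = n + 1 by omega] at h5
      have h6 : (n + 1 + 1) * kk (n + 2) r' < (n + 1 + 2) * r' := h3
      linarith [Nat.mul_le_mul_left (n + 2) h5, Nat.mul_le_mul_left (n + 1) h6.le]
    have hrW : r ≤ (2 * (n + 1) + 2).choose (n + 1 + 1) := by omega
    have h5 := hK.emono (n + 2) (2 * n + 2) r (by omega) hrW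
    have h6 := cat_five hC n
    have e1 : n + 1 + 1 = n + 2 := rfl
    have e2 : n + 1 + 2 = n + 3 := rfl
    have e3 : n + 2 + 1 = n + 3 := rfl
    rw [e1, e2] at f4
    rw [e3] at h5
    rw [e1, e2]
    omega

theorem big (hK : KN) (hC : CT) (K M : ℕ) (hK2 : 2 ≤ K) (hM : M ≤ NB K)
    (hW : (2 * K + 1) * WW K ≤ K * M) :
    (catalan K : ℝ) + SS K ≤
      (kk (K + 1) (NB K - M) : ℝ) - ((NB K : ℝ) - M) + 2 / (3 * (K : ℝ) - 2) * M := by
  have hs : (K + (K + 1)).choose K = NB K := by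
    unfold NB
    rw [show K + (K + 1) = 2 * K + 1 by ring]
    exact Nat.choose_symm_of_eq_add (by ring)
  have hs' : (K + (K + 1)).choose (K + 1) = NB K := by
    unfold NB
    rw [show K + (K + 1) = 2 * K + 1 by ring]
  have hd := hK.dual K (K + 1) M (by omega) (by rwa [hs])
  rw [hs, hs'] at hd
  have hd' : (kk (K + 1) (NB K - M) : ℝ) + cl K M = NB K := by exact_mod_cast hd
  have hK' : (2 : ℝ) ≤ K := by exact_mod_cast hK2
  have hpos : (0 : ℝ) < 3 * (K : ℝ) - 2 := by linarith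
  have hc : ((3 * K - 2 : ℕ) : ℝ) = 3 * (K : ℝ) - 2 := by
    rw [Nat.cast_sub (by omega)]
    push_cast
    ring
  suffices h : (3 * (K : ℝ) - 2) * ((catalan K : ℝ) + SS K) ≤
      (3 * (K : ℝ) - 2) * ((M : ℝ) - cl K M) + 2 * M by
    have h1 : (catalan K : ℝ) + SS K ≤ (M : ℝ) - cl K M + 2 / (3 * (K : ℝ) - 2) * M := by
      refine le_of_mul_le_mul_left ?_ hpos
      have : (3 * (K : ℝ) - 2) * ((M : ℝ) - cl K M + 2 / (3 * (K : ℝ) - 2) * M) =
          (3 * (K : ℝ) - 2) * ((M : ℝ) - cl K M) + 2 * M := by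
        field_simp
      rwa [this]
    linarith
  by_cases h : M ≤ (2 * K).choose K
  · have h1 := hC.wk K (by omega)
    have h2 : NN K ≤ M := by
      refine Nat.le_of_mul_le_mul_left (c := K) ?_ (by omega)
      rw [h1]
      exact (Nat.mul_le_mul_right _ (by omega)).trans hW
    have h3 := past hK hC (by omega) h2 h
    have h4 := hC.i2 K hK2
    have h5 : (3 * K - 2) * SS K ≤ 2 * M := by
      refine Nat.le_of_mul_le_mul_left (c := K) ?_ (by omega)
      calc K * ((3 * K - 2) * SS K) = K * (3 * K - 2) * SS K := by ring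
        _ ≤ 2 * ((2 * K + 1) * WW K) := by rw [← mul_assoc]; exact h4
        _ ≤ 2 * (K * M) := Nat.mul_le_mul_left _ hW
        _ = K * (2 * M) := by ring
    have h3' : (catalan K : ℝ) + cl K M ≤ M := by exact_mod_cast h3
    have h5' : (3 * (K : ℝ) - 2) * SS K ≤ 2 * M := by
      rw [← hc]
      exact_mod_cast h5
    have := mul_le_mul_of_nonneg_left (show (catalan K : ℝ) ≤ M - cl K M by linarith) hpos.le
    linarith
  · obtain ⟨r, rfl⟩ := Nat.exists_eq_add_of_le (not_le.1 h).le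
    have h1 := hC.nb K (by omega)
    have h2 := hC.two K (by omega)
    have h3 := hC.c0 K
    have h4 := hC.wc (K + 1) (by omega)
    rw [ww_eq, Nat.add_sub_cancel] at h4
    have h5 := hC.i1 K hK2
    obtain ⟨n, rfl⟩ : ∃ n, K = n + 1 := ⟨K - 1, by omega⟩
    have h6 : (2 * (n + 1)).choose n = (2 * (n + 1)).choose (n + 1 + 1) :=
      Nat.choose_symm_of_eq_add (by ring)
    have hr : r ≤ (2 * (n + 1)).choose (n + 1 + 1) := by omega
    have h7 : cl (n + 1) ((2 * (n + 1)).choose (n + 1) + r) =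
        (2 * (n + 1)).choose (n + 2) + cl n r := cl_block (by omega) (by omega)
    have h8 := hK.clym n (2 * (n + 1)) r (by omega)
    rw [show 2 * (n + 1) - n = n + 2 by omega] at h8
    rw [h7]
    have h5' : (3 * ((n + 1 : ℕ) : ℝ) - 2) * ((catalan (n + 1) : ℝ) + SS (n + 1)) ≤
        2 * NB (n + 1) := by
      rw [← hc]
      exact_mod_cast h5
    have h9 : (NB (n + 1) : ℝ) =
        (2 * (n + 1)).choose (n + 2) + (2 * (n + 1)).choose (n + 1) := by
      exact_mod_cast (show NB (n + 1) =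
        (2 * (n + 1)).choose (n + 1 + 1) + (2 * (n + 1)).choose (n + 1) by omega)
    have h3' : ((2 * (n + 1)).choose (n + 1) : ℝ) =
        (2 * (n + 1)).choose (n + 2) + catalan (n + 1) := by exact_mod_cast h3
    have h4' : ((2 * (n + 1)).choose (n + 1) : ℝ) = ((n : ℝ) + 2) * catalan (n + 1) := by
      exact_mod_cast h4
    have h8' : ((n : ℝ) + 1) * cl n r ≤ ((n : ℝ) + 2) * r := by exact_mod_cast h8
    have hr' : (r : ℝ) ≤ (2 * (n + 1)).choose (n + 2) := by exact_mod_cast hr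
    push_cast at h5' hK' hpos ⊢
    refine h5'.trans ?_
    rw [h9]
    set C : ℝ := (catalan (n + 1) : ℝ)
    set A : ℝ := ((2 * (n + 1)).choose (n + 1) : ℝ)
    set B : ℝ := ((2 * (n + 1)).choose (n + 2) : ℝ)
    set c : ℝ := (cl n r : ℝ)
    have hB : B = ((n : ℝ) + 1) * C := by linarith
    have hn : (0 : ℝ) < (n : ℝ) + 1 := by positivity
    refine le_of_mul_le_mul_left ?_ hn
    have h10 := mul_le_mul_of_nonneg_left h8' hpos.le
    have h11 := mul_nonneg (sub_nonneg.2 hr') (show (0 : ℝ) ≤ (n : ℝ) - 1 by linarith)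
    rw [hB] at h11
    rw [h4', hB]
    linarith

end STRow

theorem st (hK : KN) (hC : CT) : ST :=
  ⟨STRow.ratio hK hC, STRow.one hK hC, STRow.two hK hC, STRow.big hK hC⟩

end Pool.Agent.MP_d50107_co.H61
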