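import Pool.Agent.MP_d50107_co.H61.Basic

/-! Two-level families: normal forms and candidates. -/

namespace Pool.Agent.MP_d50107_co.H61

open Finset
open scoped FinsetFamily

namespace TLaux

theorem NN_pos {K : ℕ} (h : 1 ≤ K) : 0 < NN K := Nat.choose_pos (by omega)

theorem kk_NN (hC : CT) {K : ℕ} (h : 1 ≤ K) : kk K (NN K) = NN K := by
  obtain ⟨l, rfl⟩ : ∃ l, K = l + 1 := ⟨K - 1, by omega⟩
  have h1 := hC.nsym (l + 1) h
  rw [Nat.add_sub_cancel] at h1
  rw [← h1]
  exact (congrArg _ h1).trans (kk_choose (by omega))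

theorem cl_NN {K : ℕ} (h : 1 ≤ K) : cl K (NN K) = (2 * K - 1).choose (K + 1) := by
  obtain ⟨l, rfl⟩ : ∃ l, K = l + 1 := ⟨K - 1, by omega⟩
  exact cl_choose l _

theorem normal (hK : KN) (hC : CT) {K : ℕ} (h2 : 2 ≤ K) (h : List ℕ) (hh : ∀ x ∈ h, x ≤ NN K) :
    ∃ u r, r < NN K ∧ h.sum = u * NN K + r ∧ u * NN K + kk K r ≤ sk K h := by
  induction h with
  | nil => exact ⟨0, 0, NN_pos (by omega), by simp, by simp⟩
  | cons x h ih =>
    obtain ⟨u, r, h3, h4, h5⟩ := ih fun y hy => hh y (List.mem_cons_of_mem _ hy)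
    have hx := hh x List.mem_cons_self
    rw [List.sum_cons, sk_cons]
    by_cases hc : r + x < NN K
    · have := hK.sub K r x
      exact ⟨u, r + x, hc, by omega, by omega⟩
    · obtain ⟨l, rfl⟩ : ∃ l, K = l + 1 := ⟨K - 1, by omega⟩
      have h6 := hK.clem l (2 * (l + 1) - 1) r x (by omega) h3.le hx (not_lt.1 hc)
      have h7 := hC.nsym (l + 1) (by omega)
      rw [Nat.add_sub_cancel] at h7
      rw [h7] at h6
      change NN (l + 1) + kk (l + 1) (r + x - NN (l + 1)) ≤ _ at h6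
      refine ⟨u + 1, r + x - NN (l + 1), by omega, ?_, ?_⟩
      · rw [add_mul]; omega
      · rw [add_mul]; omega

theorem kk_top (hC : CT) {K c : ℕ} (h : 1 ≤ K) (hc : c ≤ 2 * NN K) :
    kk (K + 1) (NB K - c) = 2 * NN K + kk K (2 * NN K - c) := by
  have h1 := hC.nb K h
  have h2 := hC.two K h
  rw [show NB K - c = (2 * K).choose (K + 1) + (2 * NN K - c) by omega,
    kk_block (by omega) (by omega), h2]

theorem three (hK : KN) (hC : CT) (K m : ℕ) (h : List ℕ) (h2 : 2 ≤ K) (hm : NB K ≤ m)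
    (hh : ∀ x ∈ h, x ≤ NN K) (hs : h.sum + (2 * K - 1).choose (K + 1) = m) :
    Le K m ((NN K : ℝ) + sk K h) := by
  obtain ⟨u, r, h3, h4, h5⟩ := normal hK hC h2 h hh
  have h6 := hC.nb K (by omega)
  have h7 := hC.up K (by omega)
  have h8 : 2 ≤ u := by
    by_contra hc
    have : u * NN K ≤ 1 * NN K := Nat.mul_le_mul_right _ (by omega)
    omega
  obtain ⟨v, rfl⟩ := Nat.exists_eq_add_of_le h8
  rw [add_mul] at h4 h5
  refine ⟨NN K, List.replicate v (NN K) ++ [r], ⟨le_rfl, fun x hx => ?_, ?_⟩, ?_⟩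
  · rcases List.mem_append.1 hx with hx | hx
    · exact (List.eq_of_mem_replicate hx).le
    · rw [List.mem_singleton.1 hx]; exact h3.le
  · rw [List.sum_append, List.sum_replicate, List.sum_singleton, smul_eq_mul]
    omega
  · have h9 : val K (NN K) (List.replicate v (NN K) ++ [r]) ≤ NN K + sk K h := by
      rw [val, kk_top hC (by omega) (by omega), show 2 * NN K - NN K = NN K by omega, sk_append,
        sk_replicate, sk_cons, sk_nil, kk_NN hC (by omega)]
      omega
    exact_mod_cast h9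

theorem pack (K n D : ℕ) (lam O : ℝ) (hn : 1 ≤ n) (h : (kk K n : ℝ) ≤ lam * n)
    (hO : Osc K lam O) :
    ∃ g : List ℕ, (∀ x ∈ g, x ≤ n) ∧ g.sum = D ∧ (sk K g : ℝ) ≤ lam * D + O := by
  refine ⟨List.replicate (D / n) n ++ [D % n], fun x hx => ?_, ?_, ?_⟩
  · rcases List.mem_append.1 hx with hx | hx
    · exact (List.eq_of_mem_replicate hx).le
    · rw [List.mem_singleton.1 hx]; exact (Nat.mod_lt _ hn).le
  · rw [List.sum_append, List.sum_replicate, List.sum_singleton, smul_eq_mul, Nat.div_add_mod']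
  · have h1 : (D : ℝ) = (D / n : ℕ) * (n : ℝ) + (D % n : ℕ) := by
      exact_mod_cast (Nat.div_add_mod' D n).symm
    have h2 := hO (D % n)
    have h3 := mul_le_mul_of_nonneg_left h (Nat.cast_nonneg (α := ℝ) (D / n))
    have h4 : lam * D = lam * ((D / n : ℕ) * (n : ℝ) + (D % n : ℕ)) := congrArg _ h1
    rw [sk_append, sk_replicate, sk_cons, sk_nil, add_zero, Nat.cast_add, Nat.cast_mul]
    linarith

theorem cand (hK : KN) (hC : CT) (K m n : ℕ) (lam O : ℝ) (h1 : 1 ≤ K) (hm : NB K ≤ m)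
    (hn : 1 ≤ n) (hN : n ≤ NN K) (h : (kk K n : ℝ) ≤ lam * n) (hO : Osc K lam O) :
    Le K m ((NB K : ℝ) + ((kk K n : ℝ) - cl K n) + lam * ((m : ℝ) - NB K) + O) := by
  obtain ⟨g, h2, h3, h4⟩ := pack K n (m - NB K) lam O hn h hO
  have e1 : (K + (K + 1)).choose (K + 1) = NB K := by rw [NB]; congr 1; ring
  have e2 : (K + (K + 1)).choose K = NB K := by rw [← e1]; exact Nat.choose_symm_add
  have h5 := hC.nb K h1
  have h6 := hK.dual K (K + 1) n h1 (by omega)
  rw [e1, e2] at h6
  refine ⟨n, n :: g, ⟨hN, fun x hx => ?_, ?_⟩, ?_⟩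
  · rcases List.mem_cons.1 hx with rfl | hx
    · exact le_rfl
    · exact h2 x hx
  · rw [List.sum_cons, h3]
    omega
  · have h7 : (kk (K + 1) (NB K - n) : ℝ) + cl K n = NB K := by exact_mod_cast h6
    rw [Nat.cast_sub hm] at h4
    rw [val, sk_cons, Nat.cast_add, Nat.cast_add]
    linarith

end TLaux

open TLaux in
theorem tl (hK : KN) (hC : CT) (hO : OS) : TL where
  three := three hK hC
  relax := by
    intro K m c g h2 hm hc hg hs
    rcases le_total c (NN K) with h | h
    · exact ⟨c, g, ⟨h, fun x hx => (hg x hx).1, hs⟩, by rw [val, Nat.cast_add]⟩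
    · have h6 := hC.nb K (by omega)
      have h7 := hC.up K (by omega)
      refine (three hK hC K m (NN K :: (2 * NN K - c) :: g) h2 hm (fun x hx => ?_) ?_).mono ?_
      · rcases List.mem_cons.1 hx with rfl | hx
        · exact le_rfl
        rcases List.mem_cons.1 hx with rfl | hx
        · omega
        · exact (hg x hx).2
      · rw [List.sum_cons, List.sum_cons]
        omega
      · rw [sk_cons, sk_cons, kk_top hC (by omega) hc, kk_NN hC (by omega)]
        push_cast
        linarith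
  pack := pack
  cand := cand hK hC
  glob := by
    intro K m h1 hm
    refine (cand hK hC K m (NN K) 1 (SS K) h1 hm (NN_pos h1) le_rfl
      (by rw [kk_NN hC h1, one_mul]) (hO.one K 1 le_rfl)).mono ?_
    have h2 : (NN K : ℝ) = (2 * K - 1).choose (K + 1) + catalan K := by exact_mod_cast hC.c1 K h1
    rw [kk_NN hC h1, cl_NN h1]
    linarith

end Pool.Agent.MP_d50107_co.H61
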