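import Pool.Agent.MP_d50107_co.H61.Basic

/-! The constructions. -/

namespace Pool.Agent.MP_d50107_co.H61

open Finset Finset.Colex
open scoped FinsetFamily
open Pool.Agent.MP_d50107_co.H54 (IsInit)

namespace Upper

/-- from the naturals to `Fin n` -/
theorem lift {n k : ℕ} {F : Finset (Finset ℕ)} (h : ∀ A ∈ F, A ⊆ range n)
    (hk : ∀ A ∈ F, A.card = k) (hi : H54.Inter F) :
    ∃ 𝒜 : Finset (Finset (Fin n)), (∀ A ∈ 𝒜, A.card = k) ∧ H54.Inter 𝒜 ∧ 𝒜.card = F.card ∧
      (∂ 𝒜).card ≤ (∂ F).card := by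
  refine ⟨univ.filter fun A => A.map Fin.valEmbedding ∈ F, fun A hA => ?_, fun A hA B hB => ?_,
    ?_, ?_⟩
  · rw [← card_map Fin.valEmbedding, hk _ (mem_filter.1 hA).2]
  · obtain ⟨x, h1, h2⟩ := hi _ (mem_filter.1 hA).2 _ (mem_filter.1 hB).2
    obtain ⟨y, h3, rfl⟩ := mem_map.1 h1
    exact ⟨y, h3, (mem_map' _).1 h2⟩
  · refine card_nbij (fun A => A.map Fin.valEmbedding) (fun A hA => (mem_filter.1 hA).2)
      (map_injective _).injOn (fun B hB => ?_)
    have h1 : ∀ m ∈ B, m < n := fun m hm => mem_range.1 (h B hB hm)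
    exact ⟨B.attachFin h1, by simpa using hB, map_valEmbedding_attachFin h1⟩
  · refine card_le_card_of_injOn (fun A => A.map Fin.valEmbedding) (fun T hT => ?_)
      (map_injective _).injOn
    obtain ⟨A, hA, x, hx, rfl⟩ := mem_shadow_iff.1 hT
    exact mem_shadow_iff.2 ⟨_, (mem_filter.1 hA).2, _, mem_map_of_mem _ hx, (map_erase ..).symm⟩

theorem meet {w : ℕ} {A B : Finset ℕ} (hA : A ⊆ range w) (hB : B ⊆ range w)
    (h : w < A.card + B.card) : ∃ x, x ∈ A ∧ x ∈ B := by
  by_contra hc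
  have h1 := card_le_card (union_subset hA hB)
  rw [card_union_of_disjoint (disjoint_left.2 fun x h1 h2 => hc ⟨x, h1, h2⟩), card_range] at h1
  omega

/-- initial segments are nested -/
theorem nest {𝒜 L L' : Finset (Finset ℕ)} (h : IsInit 𝒜 L) (h' : IsInit 𝒜 L')
    (hc : L.card ≤ L'.card) : L ⊆ L' := by
  intro F hF
  by_contra hn
  have h1 : insert F L' ⊆ L := insert_subset hF fun G hG => by
    rcases lt_trichotomy (toColex G) (toColex F) with h2 | h2 | h2
    · exact h.2 F hF G (h'.1 hG) h2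
    · exact absurd (toColex_inj.1 h2 ▸ hG) hn
    · exact absurd (h'.2 G hG F (h.1 hF) h2) hn
  have := card_le_card h1
  rw [card_insert_of_notMem hn] at this
  omega

theorem init_range {l v w : ℕ} (h : v ≤ w) :
    IsInit (powersetCard l (range w)) (powersetCard l (range v)) := by
  refine ⟨powersetCard_mono (range_mono h), fun F hF G hG hlt => ?_⟩
  rw [mem_powersetCard] at hF hG ⊢
  obtain ⟨a, h1, -, h2⟩ := toColex_lt_toColex_iff_exists_forall_lt.1 hlt
  refine ⟨fun b hb => ?_, hG.2⟩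
  by_cases h3 : b ∈ F
  · exact hF.1 h3
  · exact mem_range.2 ((h2 b hb h3).trans (mem_range.1 (hF.1 h1)))

theorem compl_lt {W A G : Finset ℕ} (hA : A ⊆ W) (h : toColex G < toColex A) :
    toColex (W \ A) < toColex (W \ G) := by
  rw [toColex_lt_toColex_iff_exists_forall_lt] at h ⊢
  obtain ⟨a, h1, h2, h3⟩ := h
  refine ⟨a, mem_sdiff.2 ⟨hA h1, h2⟩, fun h4 => (mem_sdiff.1 h4).2 h1, fun b hb hb' => ?_⟩
  rw [mem_sdiff] at hb hb'
  exact h3 b (by_contra fun h4 => hb' ⟨hb.1, h4⟩) hb.2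

/-- the sets whose complement is not in `I` -/
def dual (K : ℕ) (I : Finset (Finset ℕ)) : Finset (Finset ℕ) :=
  (powersetCard (K + 1) (range (2 * K + 1))).filter fun A => range (2 * K + 1) \ A ∉ I

variable {K : ℕ} {I : Finset (Finset ℕ)}

theorem compl_mem {A : Finset ℕ} {a b : ℕ} (hab : a + b = 2 * K + 1)
    (hA : A ∈ powersetCard a (range (2 * K + 1))) :
    range (2 * K + 1) \ A ∈ powersetCard b (range (2 * K + 1)) := by
  rw [mem_powersetCard] at hA ⊢
  refine ⟨sdiff_subset, ?_⟩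
  rw [card_sdiff_of_subset hA.1, card_range]
  omega

theorem dual_init (h : IsInit (powersetCard K (range (2 * K + 1))) I) :
    IsInit (powersetCard (K + 1) (range (2 * K + 1))) (dual K I) :=
  ⟨filter_subset _ _, fun A hA G hG hlt => mem_filter.2 ⟨hG, fun h1 => by
    rw [dual, mem_filter] at hA
    exact hA.2 (h.2 _ h1 _ (compl_mem (by omega) hA.1)
      (compl_lt (mem_powersetCard.1 hA.1).1 hlt))⟩⟩

theorem dual_card (h : I ⊆ powersetCard K (range (2 * K + 1))) :
    (dual K I).card + I.card = NB K := by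
  have h1 := card_filter_add_card_filter_not (s := powersetCard (K + 1) (range (2 * K + 1)))
    (fun A => range (2 * K + 1) \ A ∈ I)
  rw [card_powersetCard, card_range] at h1
  rw [NB, ← h1, add_comm]
  congr 1
  refine card_nbij' (fun A => range (2 * K + 1) \ A) (fun A => range (2 * K + 1) \ A)
    (fun A hA => ?_) (fun A hA => (mem_filter.1 hA).2) (fun A hA => ?_) (fun A hA => ?_)
  · refine mem_filter.2 ⟨compl_mem (by omega) (h hA), ?_⟩
    rwa [Finset.sdiff_sdiff_eq_self (mem_powersetCard.1 (h hA)).1]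
  · exact Finset.sdiff_sdiff_eq_self (mem_powersetCard.1 (h hA)).1
  · exact Finset.sdiff_sdiff_eq_self (mem_powersetCard.1 (mem_filter.1 hA).1).1

theorem sub_shadow (hK : 1 ≤ K) (h : I ⊆ powersetCard K (range (2 * K - 1))) :
    I ⊆ ∂ (dual K I) := by
  intro g hg
  obtain ⟨h1, h2⟩ := mem_powersetCard.1 (h hg)
  have h3 : ∀ x ∈ g, x < 2 * K - 1 := fun x hx => mem_range.1 (h1 hx)
  have h4 : 2 * K - 1 ∉ g := fun h4 => lt_irrefl _ (h3 _ h4)
  refine mem_shadow_iff_insert_mem.2 ⟨2 * K - 1, h4, mem_filter.2 ⟨mem_powersetCard.2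
    ⟨insert_subset (mem_range.2 (by omega)) (h1.trans (range_mono (by omega))),
      by rw [card_insert_of_notMem h4, h2]⟩, fun h5 => ?_⟩⟩
  have h6 : 2 * K ∈ range (2 * K + 1) \ insert (2 * K - 1) g :=
    mem_sdiff.2 ⟨mem_range.2 (by omega), fun h6 => (mem_insert.1 h6).elim (by omega)
      fun h7 => by have := h3 _ h7; omega⟩
  have := mem_range.1 ((mem_powersetCard.1 (h h5)).1 h6)
  omega

theorem cross (h : I ⊆ powersetCard K (range (2 * K + 1))) {A g : Finset ℕ} (hA : A ∈ dual K I)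
    (hg : g ∈ I) : ∃ x, x ∈ A ∧ x ∈ g := by
  by_contra hc
  rw [dual, mem_filter, mem_powersetCard] at hA
  have h1 : A = range (2 * K + 1) \ g := eq_of_subset_of_card_le
    (fun x hx => mem_sdiff.2 ⟨hA.1.1 hx, fun h1 => hc ⟨x, hx, h1⟩⟩)
    (by rw [(mem_powersetCard.1 (compl_mem (b := K + 1) (by omega) (h hg))).2, hA.1.2])
  refine hA.2 ?_
  rwa [h1, Finset.sdiff_sdiff_eq_self (mem_powersetCard.1 (h hg)).1]

theorem build (hI : InitStmt) (hK : 1 ≤ K) (h : IsInit (powersetCard K (range (2 * K + 1))) I)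
    {L : Finset (Finset ℕ)} (hL : ∀ A ∈ L, A ⊆ range (2 * K + 1)) (hs : I ⊆ ∂ L) (g : List ℕ)
    (hg : ∀ x ∈ g, x ≤ I.card) :
    ∃ F : Finset (Finset ℕ), L ⊆ F ∧ (∀ A ∈ F, A ⊆ range (2 * K + 1 + g.length)) ∧
      (∀ A ∈ F, A ∈ L ∨ ∃ B ∈ I, ∃ y, y ∉ B ∧ A = insert y B) ∧ F.card = L.card + g.sum ∧
      (∂ F).card ≤ (∂ L).card + sk K g := by
  induction g with
  | nil => exact ⟨L, subset_rfl, hL, fun _ => Or.inl, rfl, le_rfl⟩
  | cons x g ih =>
    obtain ⟨F, h1, h2, h3, h4, h5⟩ := ih fun z hz => hg z (List.mem_cons_of_mem _ hz)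
    have h6 := hg x List.mem_cons_self
    obtain ⟨H, h7, h8⟩ := H54.exists_isInit _ x (h6.trans (card_le_card h.1))
    have h9 : H ⊆ I := nest h7 h (h8 ▸ h6)
    have h10 : (∂ H).card = kk K x := by
      obtain ⟨l, rfl⟩ : ∃ l, K = l + 1 := ⟨K - 1, by omega⟩
      rw [(hI _ l H h7).1, h8]
    obtain ⟨y, hy⟩ : ∃ y, y = 2 * K + 1 + g.length := ⟨_, rfl⟩
    have h11 : ∀ B ∈ H, B ⊆ range y := fun B hB =>
      (mem_powersetCard.1 (h7.1 hB)).1.trans (range_mono (by omega))
    have h12 : ∀ B ∈ H, y ∉ B := fun B hB h0 => notMem_range_self (h11 B hB h0)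
    rw [← hy] at h2
    rw [List.length_cons, ← add_assoc, ← hy, range_add_one]
    refine ⟨F ∪ H.image (insert y), h1.trans subset_union_left, fun A hA => ?_, fun A hA => ?_,
      ?_, ?_⟩
    · rcases mem_union.1 hA with hA | hA
      · exact (h2 A hA).trans (subset_insert _ _)
      · obtain ⟨B, hB, rfl⟩ := mem_image.1 hA
        exact insert_subset_insert _ (h11 B hB)
    · rcases mem_union.1 hA with hA | hA
      · exact h3 A hA
      · obtain ⟨B, hB, rfl⟩ := mem_image.1 hA
        exact Or.inr ⟨B, h9 hB, y, h12 B hB, rfl⟩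
    · rw [card_union_of_disjoint, card_image_of_injOn, h4, h8, List.sum_cons]
      · ring
      · intro B hB C hC e
        rw [← erase_insert (h12 B hB), e, erase_insert (h12 C hC)]
      · refine disjoint_left.2 fun A hA hA' => ?_
        obtain ⟨B, -, rfl⟩ := mem_image.1 hA'
        exact notMem_range_self (h2 _ hA (mem_insert_self _ _))
    · have h13 : ∂ (F ∪ H.image (insert y)) ⊆ ∂ F ∪ (∂ H).image (insert y) := by
        intro T hT
        obtain ⟨A, hA, z, hz, rfl⟩ := mem_shadow_iff.1 hT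
        rcases mem_union.1 hA with hA | hA
        · exact mem_union_left _ (erase_mem_shadow hA hz)
        · obtain ⟨B, hB, rfl⟩ := mem_image.1 hA
          by_cases h0 : z = y
          · rw [h0, erase_insert (h12 B hB)]
            exact mem_union_left _ (shadow_mono h1 (hs (h9 hB)))
          · rw [erase_insert_of_ne (Ne.symm h0)]
            exact mem_union_right _ (mem_image_of_mem _
              (erase_mem_shadow hB ((mem_insert.1 hz).resolve_left h0)))
      have h14 := (card_le_card h13).trans (card_union_le _ _)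
      have h15 := card_image_le (s := ∂ H) (f := insert y)
      rw [sk_cons]
      omega

end Upper

open Upper in
theorem upperStmt (hI : InitStmt) (_hC : CT) : UpperStmt := by
  intro n K m M g hK ⟨h1, h2, h3⟩ hn
  obtain ⟨I, h4, h5⟩ := H54.exists_isInit (powersetCard K (range (2 * K + 1))) M (by
    rw [card_powersetCard, card_range]
    exact h1.trans (Nat.choose_le_choose _ (by omega)))
  have h6 : I ⊆ powersetCard K (range (2 * K - 1)) := nest h4 (init_range (by omega)) (by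
    rw [card_powersetCard, card_range, h5]
    exact h1)
  have h7 := dual_init h4
  have h8 := dual_card h4.1
  obtain ⟨F, -, h9, h10, h11, h12⟩ := build hI hK h4
    (fun A hA => (mem_powersetCard.1 (h7.1 hA)).1) (sub_shadow hK h6) g (h5 ▸ h2)
  obtain ⟨𝒜, h13, h14, h15, h16⟩ := lift (n := n) (k := K + 1) (F := F)
    (fun A hA => (h9 A hA).trans (range_mono hn)) (fun A hA => by
      rcases h10 A hA with h | ⟨B, hB, y, hy, rfl⟩
      · exact card_eq_of_subset h7.1 A h
      · rw [card_insert_of_notMem hy, card_eq_of_subset h6 B hB]) (fun A hA B hB => by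
      rcases h10 A hA with h | ⟨A', hA', y, -, rfl⟩ <;>
        rcases h10 B hB with h' | ⟨B', hB', z, -, rfl⟩
      · obtain ⟨a1, a2⟩ := mem_powersetCard.1 (h7.1 h)
        obtain ⟨b1, b2⟩ := mem_powersetCard.1 (h7.1 h')
        exact meet a1 b1 (by omega)
      · obtain ⟨x, a1, a2⟩ := cross h4.1 h hB'
        exact ⟨x, a1, mem_insert_of_mem a2⟩
      · obtain ⟨x, a1, a2⟩ := cross h4.1 h' hA'
        exact ⟨x, mem_insert_of_mem a2, a1⟩
      · obtain ⟨a1, a2⟩ := mem_powersetCard.1 (h6 hA')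
        obtain ⟨b1, b2⟩ := mem_powersetCard.1 (h6 hB')
        obtain ⟨x, c1, c2⟩ := meet a1 b1 (by omega)
        exact ⟨x, mem_insert_of_mem c1, mem_insert_of_mem c2⟩)
  refine ⟨𝒜, h13, h14, by omega, h16.trans ?_⟩
  rwa [(hI _ K _ h7).1, show (dual K I).card = NB K - M by omega] at h12

open Upper in
theorem smallStmt (hI : InitStmt) : SmallStmt := by
  intro n K m h1 h2
  obtain ⟨L, h3, h4⟩ := H54.exists_isInit (powersetCard (K + 1) (range (min n (2 * K + 1)))) m (by
    rw [card_powersetCard, card_range]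
    rcases le_total n (2 * K + 1) with h | h
    · rwa [min_eq_left h]
    · rwa [min_eq_right h])
  obtain ⟨𝒜, h5, h6, h7, h8⟩ := lift (n := n) (k := K + 1) (F := L)
    (fun A hA => (mem_powersetCard.1 (h3.1 hA)).1.trans (range_mono (min_le_left _ _)))
    (card_eq_of_subset h3.1) (fun A hA B hB => by
      obtain ⟨a1, a2⟩ := mem_powersetCard.1 (h3.1 hA)
      obtain ⟨b1, b2⟩ := mem_powersetCard.1 (h3.1 hB)
      exact meet a1 b1 (by omega))
  refine ⟨𝒜, h5, h6, h7.trans h4, h8.trans ?_⟩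
  rw [(hI _ K _ h3).1, h4]

end Pool.Agent.MP_d50107_co.H61
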