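import Pool.Agent.MP_d50107_co.H61.Lym
import Pool.Agent.MP_d50107_co.H61.KN
import Pool.Agent.MP_d50107_co.H61.CT
import Pool.Agent.MP_d50107_co.H61.TL
import Pool.Agent.MP_d50107_co.H61.ST
import Pool.Agent.MP_d50107_co.H61.Low
import Pool.Agent.MP_d50107_co.H61.Mono
import Pool.Agent.MP_d50107_co.H61.PolyT
import Pool.Agent.MP_d50107_co.H61.OS
import Pool.Agent.MP_d50107_co.H61.CD
import Pool.Agent.MP_d50107_co.H61.FB
import Pool.Agent.MP_d50107_co.H61.LY
import Pool.Agent.MP_d50107_co.H61.GH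
import Pool.Agent.MP_d50107_co.H61.SR
import Pool.Agent.MP_d50107_co.H61.Glob
import Pool.Agent.MP_d50107_co.H61.Bud
import Pool.Agent.MP_d50107_co.H61.CaseAM
import Pool.Agent.MP_d50107_co.H61.CaseB
import Pool.Agent.MP_d50107_co.H61.CaseC
import Pool.Agent.MP_d50107_co.H61.Upper
import Pool.Agent.MP_d50107_co.H61.Fit
import Pool.Agent.MP_d50107_co.H61.Num

/-! The lower bound for shifted families, all rows joined. -/

namespace Pool.Agent.MP_d50107_co.H61

open Finset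
open scoped FinsetFamily

theorem hKN : KN := kn lymStmt

theorem hOS : OS := os hKN ct

theorem hTL : TL := tl hKN ct hOS

theorem hLY : LY := ly hKN

theorem hFB : FB := fb hKN

theorem hSR : SR := sr hFB hLY ct

theorem hG : GStmt := gStmt hKN ct hLY

theorem hGlob : GlobStmt := globStmt hFB hSR hG (hStmt hLY) ct

theorem hNum : NumStmt :=
  numStmt ct (lowStmt hKN) (monoStmt ct) hOS (majStmt hKN hOS polyTStmt) cd

theorem main_one (F : Finset (Finset ℕ)) (hF : Good 1 F) (hm : NB 1 < F.card) :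
    Le 1 F.card (∂ F).card := by
  have h3 : NB 1 = 3 := by decide
  have hs : F ⊆ powersetCard 2 (F.biUnion id) := fun A hA =>
    mem_powersetCard.2 ⟨subset_biUnion_of_mem id hA, hF.1 A hA⟩
  have h := H54.katona_strict hs hF.2.1 (card_pos.1 (by omega)) (by
    rintro ⟨W, hW, e⟩
    rw [e, card_powersetCard, show W.card = 3 by omega, h3] at hm
    simp at hm)
  refine (hTL.glob 1 F.card le_rfl hm.le).mono ?_
  have : SS 1 = 0 := by simp [SS]
  rw [this, catalan_one]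
  exact_mod_cast h

theorem mainStmt : MainStmt := by
  intro K F hK hF hm
  rcases hK.eq_or_lt with rfl | hK
  · exact main_one F hF hm
  by_cases hA : ∃ T, Out (2 * K) T ∧ 2 ≤ T.card ∧
      (K - 2) * (∂ (fib (2 * K) F T)).card < (K - 1) * (fib (2 * K) F T).card
  · obtain ⟨T, h1, h2, h3⟩ := hA
    exact caseA ct hTL (st hKN ct) hSR hGlob K F T hK hF hm.le h1 h2 h3
  have hA' : ∀ T : Finset ℕ, Out (2 * K) T → 2 ≤ T.card →
      (K - 1) * (fib (2 * K) F T).card ≤ (K - 2) * (∂ (fib (2 * K) F T)).card :=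
    fun T h1 h2 => not_lt.1 fun h3 => hA ⟨T, h1, h2, h3⟩
  rcases lt_or_ge ((fib (2 * K) F ∅).card + WW K) ((2 * K).choose (K + 1)) with hM | hM
  · exact caseM hKN ct hTL (st hKN ct) hFB hSR hGlob K F hK hF hm.le hA' hM
  rcases le_or_gt ((fib (2 * K) F ∅).card + del (2 * K) F) ((2 * K).choose (K + 1)) with hB | hB
  · exact caseB hKN ct hTL hFB hSR K F hK hF hm.le hM hB
  have hf : (fib (2 * K) F ∅).card ≤ (2 * K).choose (K + 1) :=
    card_le_choose (fib_subset hF.1 (out_empty _) (by simp))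
  have hne : ((tails (2 * K) F).filter fun T => 2 ≤ T.card ∧ (fib (2 * K) F T).Nonempty).Nonempty := by
    by_contra hc
    rw [not_nonempty_iff_eq_empty, filter_eq_empty_iff] at hc
    have : del (2 * K) F = 0 := by
      rw [← hFB.del]
      refine sum_eq_zero fun T hT => ?_
      rw [mem_filter] at hT
      exact card_eq_zero.2 (not_nonempty_iff_eq_empty.1 fun h => hc hT.1 ⟨hT.2, h⟩)
    omega
  obtain ⟨T, hT, hmin⟩ := exists_min_image _
    (fun T => ((∂ (fib (2 * K) F T)).card : ℝ) / (fib (2 * K) F T).card) hne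
  rw [mem_filter] at hT
  obtain ⟨t1, t2, t3⟩ := hT
  have t0 := out_of_mem_tails t1
  have hp : (0 : ℝ) < (fib (2 * K) F T).card := by exact_mod_cast t3.card_pos
  have h1 := hA' T t0 t2
  have hK3 : 3 ≤ K := by
    by_contra hc
    obtain rfl : K = 2 := by omega
    have := t3.card_pos
    omega
  have c1 : ((K - 1 : ℕ) : ℝ) = K - 1 := by rw [Nat.cast_sub (by omega), Nat.cast_one]
  have c2 : ((K - 2 : ℕ) : ℝ) = K - 2 := by rw [Nat.cast_sub (by omega), Nat.cast_two]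
  obtain ⟨y, hy, z, hz, hyz⟩ : ∃ y ∈ T, ∃ z ∈ T, y < z := by
    obtain ⟨y, hy, z, hz, hne⟩ := one_lt_card.1 t2
    rcases lt_or_gt_of_ne hne with h | h
    · exact ⟨y, hy, z, hz, h⟩
    · exact ⟨z, hz, y, hy, h⟩
  have hy' := t0 y hy
  refine caseC hKN ct hTL hFB hSR hNum (budA hKN ct hG) (budB hKN ct hLY hG) K F
    (((∂ (fib (2 * K) F T)).card : ℝ) / (fib (2 * K) F T).card) hK3 hF hm.le hM hB.le ?_ ?_
    (fun U u1 u2 => ?_) (hSR.seed K (2 * K) (2 * K) (2 * K + 1) y z F _ T hK hF (by omega) t0 hy hz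
      hyz (by omega) (by omega) hy' (by omega) t3 (by rw [div_mul_cancel₀ _ hp.ne']))
  · rw [div_mul_eq_mul_div, le_div_iff₀ hp, ← c1, ← c2, mul_comm _ ((K - 2 : ℕ) : ℝ)]
    exact_mod_cast h1
  · obtain ⟨g, hg⟩ := t3
    have h2 := card_of_mem_fib hF.1 t0 hg
    have h3 := hLY.ratio g.card (fib (2 * K) F T) fun Y hY => by
      have := card_of_mem_fib hF.1 t0 hY
      omega
    rw [div_le_iff₀ hp, ← c1]
    exact_mod_cast h3.trans (Nat.mul_le_mul_right _ (by omega))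
  · rcases (fib (2 * K) F U).eq_empty_or_nonempty with e | e
    · simp [e]
    · have hq : (0 : ℝ) < (fib (2 * K) F U).card := by exact_mod_cast e.card_pos
      exact (le_div_iff₀ hq).1 (hmin U (mem_filter.2 ⟨mem_tails_of_nonempty u1 e, u2, e⟩))

/-- the lower bound on `Fin n` -/
theorem lower {n K : ℕ} (hK : 1 ≤ K) {𝒜 : Finset (Finset (Fin n))}
    (h1 : ∀ A ∈ 𝒜, A.card = K + 1) (h2 : H54.Inter 𝒜) (hm : NB K < 𝒜.card) :
    ∃ M g, Adm K 𝒜.card M g ∧ val K M g ≤ (∂ 𝒜).card := by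
  obtain ⟨F, f1, f2, f3⟩ := reduceStmt n K 𝒜 h1 h2
  obtain ⟨M, g, a1, a2⟩ := mainStmt K F hK f1 (by omega)
  exact ⟨M, g, f2 ▸ a1, le_trans (by exact_mod_cast a2) f3⟩

/-- Kruskal's bound on `Fin n` -/
theorem lower_kk {n K : ℕ} {𝒜 : Finset (Finset (Fin n))}
    (h1 : ∀ A ∈ 𝒜, A.card = K + 1) (h2 : H54.Inter 𝒜) : kk (K + 1) 𝒜.card ≤ (∂ 𝒜).card := by
  obtain ⟨F, f1, f2, f3⟩ := reduceStmt n K 𝒜 h1 h2
  exact (f2 ▸ hKN.thm _ F f1.1).trans f3

end Pool.Agent.MP_d50107_co.H61
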