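import Pool.Agent.MP_d50107_co.H61.Spec2

/-! Size and shadow of a colexicographic segment of a majority family. -/

namespace Pool.Agent.MP_d50107_co.H61

open Finset
open scoped FinsetFamily
open Pool.Agent.MP_d50107_co.H54 (IsInit)

namespace Seg

theorem card_small (X : Finset ℕ) (s : ℕ) (hs : 3 * s ≤ X.card) :
    (X.powerset.filter fun T => T.card ≤ s).card ≤ 2 * X.card.choose s := by
  induction s with
  | zero =>
    have h : (X.powerset.filter fun T => T.card ≤ 0) ⊆ {∅} := fun T hT => by
      rw [mem_filter] at hT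
      exact mem_singleton.2 (card_eq_zero.1 (by omega))
    have := card_le_card h
    simp only [card_singleton, Nat.choose_zero_right] at this ⊢
    omega
  | succ s ih =>
    have h : (X.powerset.filter fun T => T.card ≤ s + 1) ⊆
        (X.powerset.filter fun T => T.card ≤ s) ∪ powersetCard (s + 1) X := fun T hT => by
      rw [mem_filter, mem_powerset] at hT
      rw [mem_union, mem_filter, mem_powerset, mem_powersetCard]
      by_cases h : T.card ≤ s
      · exact Or.inl ⟨hT.1, h⟩
      · exact Or.inr ⟨hT.1, by omega⟩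
    have h1 := (card_le_card h).trans (card_union_le _ _)
    rw [card_powersetCard] at h1
    have h2 := ih (by omega)
    have h3 := Nat.choose_succ_right_eq X.card s
    have h4 : 2 * X.card.choose s * (s + 1) ≤ X.card.choose (s + 1) * (s + 1) := by
      rw [h3, mul_comm 2, mul_assoc]
      exact Nat.mul_le_mul_left _ (by omega)
    have h5 := Nat.le_of_mul_le_mul_right h4 (Nat.succ_pos s)
    omega

theorem choose_le_CC (j r : ℕ) : (2 * j + 1).choose r ≤ CC j := by
  have h := Nat.choose_le_middle r (2 * j + 1)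
  rw [show (2 * j + 1) / 2 = j by omega] at h
  rw [CC, Nat.choose_symm_half]
  exact h

theorem CC_eq (j : ℕ) : CC j = (2 * j + 1).choose (j + 2) + catalan (j + 1) := by
  have h := ct.c1 (j + 1) (by omega)
  rw [NN, show 2 * (j + 1) - 1 = 2 * j + 1 by omega] at h
  exact h

theorem filter_head {w : ℕ} {T g : Finset ℕ} (hT : Out w T) (hg : g ⊆ range w) :
    ((g ∪ T).filter fun y => y < w) = g := by
  ext y
  simp only [mem_filter, mem_union]
  constructor
  · rintro ⟨h | h, h2⟩
    · exact h
    · have := hT y h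
      omega
  · exact fun h => ⟨Or.inl h, mem_range.1 (hg h)⟩

theorem mem_AF {n K j : ℕ} {T g : Finset ℕ} (hT : Out (2 * j + 1) T)
    (hg : g ⊆ range (2 * j + 1)) :
    g ∪ T ∈ AF n K j ↔ g ∪ T ⊆ range n ∧ g.card + T.card = K + 1 ∧ j + 1 ≤ g.card := by
  rw [AF, H54.mem_fam, filter_head hT hg, card_union_of_disjoint (hT.disjoint hg)]

/-- the tails decide the order -/
theorem lt_of_tail {w : ℕ} {T T' g g' : Finset ℕ} (hT' : Out w T') (hg : g ⊆ range w)
    (h : toColex T < toColex T') : toColex (g ∪ T) < toColex (g' ∪ T') := by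
  rw [Colex.toColex_lt_toColex_iff_exists_forall_lt] at h ⊢
  obtain ⟨a, ha, ha', h⟩ := h
  have hw := hT' a ha
  refine ⟨a, mem_union_right _ ha, fun h1 => ?_, fun b hb hb' => ?_⟩
  · rcases mem_union.1 h1 with h1 | h1
    · have := mem_range.1 (hg h1)
      omega
    · exact ha' h1
  · rcases mem_union.1 hb with h1 | h1
    · have := mem_range.1 (hg h1)
      omega
    · exact h b h1 fun h2 => hb' (mem_union_right _ h2)

theorem split (w : ℕ) (A : Finset ℕ) :
    (A.filter fun y => y < w) ∪ (A.filter fun y => w ≤ y) = A := by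
  ext y
  simp only [mem_union, mem_filter]
  constructor
  · rintro (h | h) <;> exact h.1
  · intro h
    by_cases hy : y < w
    · exact Or.inl ⟨h, hy⟩
    · exact Or.inr ⟨h, by omega⟩

theorem head_subset (w : ℕ) (A : Finset ℕ) : (A.filter fun y => y < w) ⊆ range w :=
  fun _ hy => mem_range.2 (mem_filter.1 hy).2

theorem out_tail (w : ℕ) (A : Finset ℕ) : Out w (A.filter fun y => w ≤ y) :=
  fun _ hy => (mem_filter.1 hy).2

theorem out_Ico {w q : ℕ} {T : Finset ℕ} (h : T ⊆ Ico w q) : Out w T :=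
  fun _ hy => (mem_Ico.1 (h hy)).1

/-- counting by tails inside an interval -/
theorem sum_fib {w q : ℕ} {X : Finset (Finset ℕ)} (h : ∀ A ∈ X, A ⊆ range q) :
    ∑ T ∈ (Ico w q).powerset, (fib w X T).card = X.card := by
  refine hFB.card w X _ (fun T hT => out_Ico (mem_powerset.1 hT)) fun T hT => ?_
  obtain ⟨A, hA, rfl⟩ := mem_image.1 hT
  refine mem_powerset.2 fun y hy => ?_
  rw [mem_filter] at hy
  exact mem_Ico.2 ⟨hy.2, mem_range.1 (h A hA hy.1)⟩

theorem shadow_fib_subset {w : ℕ} {X : Finset (Finset ℕ)} {T : Finset ℕ} (hT : Out w T) :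
    ∂ (fib w X T) ⊆ fib w (∂ X) T := by
  intro g hg
  obtain ⟨A, hA, x, hx, rfl⟩ := mem_shadow_iff.1 hg
  rw [mem_fib] at hA ⊢
  refine ⟨(erase_subset _ _).trans hA.1, mem_shadow_iff.2 ⟨_, hA.2, x, mem_union_left _ hx, ?_⟩⟩
  have hxT : x ∉ T := disjoint_left.1 (hT.disjoint hA.1) hx
  rw [erase_union_distrib, erase_eq_of_notMem hxT]

section

variable {n K j : ℕ} {ℒ : Finset (Finset ℕ)} (hL : IsInit (AF n K j) ℒ)
include hL

theorem card_mem {A : Finset ℕ} (hA : A ∈ ℒ) : A.card = K + 1 :=
  (H54.mem_fam.1 (hL.1 hA)).2.1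

theorem card_shadow_mem {A : Finset ℕ} (hA : A ∈ ∂ ℒ) : A.card = K := by
  obtain ⟨B, hB, x, hx, rfl⟩ := mem_shadow_iff.1 hA
  rw [card_erase_of_mem hx, card_mem hL hB]
  rfl

theorem fib_level {T g : Finset ℕ} (hT : Out (2 * j + 1) T) (hg : g ∈ fib (2 * j + 1) ℒ T) :
    g.card + T.card = K + 1 ∧ j + 1 ≤ g.card := by
  rw [mem_fib] at hg
  exact ((mem_AF hT hg.1).1 (hL.1 hg.2)).2

theorem sfib_level {T g : Finset ℕ} (hT : Out (2 * j + 1) T)
    (hg : g ∈ fib (2 * j + 1) (∂ ℒ) T) : g.card + T.card = K ∧ j ≤ g.card := by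
  refine ⟨card_of_mem_fib (fun A hA => card_shadow_mem hL hA) hT hg, ?_⟩
  rw [mem_fib] at hg
  obtain ⟨x, hx, hA⟩ := mem_shadow_iff_insert_mem.1 hg.2
  have h1 := (H54.mem_fam.1 (hL.1 hA)).2.2
  have h2 : ((insert x (g ∪ T)).filter fun y => y < 2 * j + 1) ⊆ insert x g := by
    intro y hy
    rw [mem_filter, mem_insert] at hy
    rcases hy.1 with h | h
    · exact mem_insert.2 (Or.inl h)
    · refine mem_insert_of_mem ?_
      rw [← filter_head hT hg.1]
      exact mem_filter.2 ⟨h, hy.2⟩
  have h3 := (card_le_card h2).trans (card_insert_le _ _)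
  omega

theorem fib_le_shadow {T : Finset ℕ} (hT : Out (2 * j + 1) T) :
    (fib (2 * j + 1) ℒ T).card ≤ (fib (2 * j + 1) (∂ ℒ) T).card := by
  rcases (fib (2 * j + 1) ℒ T).eq_empty_or_nonempty with e | ⟨g, hg⟩
  · rw [e, card_empty]
    exact Nat.zero_le _
  obtain ⟨h1, h2⟩ := fib_level hL hT hg
  have h3 := hLY.down (2 * j + 1) g.card _
    (fib_subset (fun A hA => card_mem hL hA) hT h1)
  have h4 : g.card * (fib (2 * j + 1) ℒ T).card ≤ g.card * (∂ (fib (2 * j + 1) ℒ T)).card :=
    h3.trans (Nat.mul_le_mul_right _ (by omega))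
  exact (Nat.le_of_mul_le_mul_left h4 (by omega)).trans (card_le_card (shadow_fib_subset hT))

/-- a tail below the tail of a member has a complete fibre -/
theorem complete {T M : Finset ℕ} {l : ℕ} (hM : M ∈ ℒ) (hw : 2 * j + 1 ≤ n) (hTn : T ⊆ range n)
    (hT : Out (2 * j + 1) T) (hl : l + T.card = K + 1) (hj : j + 1 ≤ l)
    (h : toColex T < toColex (M.filter fun y => 2 * j + 1 ≤ y)) :
    fib (2 * j + 1) ℒ T = powersetCard l (range (2 * j + 1)) := by
  refine Subset.antisymm (fib_subset (fun A hA => card_mem hL hA) hT hl) fun g hg => ?_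
  rw [mem_powersetCard] at hg
  refine mem_fib.2 ⟨hg.1, hL.2 M hM _ ((mem_AF hT hg.1).2
    ⟨union_subset (hg.1.trans (range_mono hw)) hTn, by omega, by omega⟩) ?_⟩
  have := lt_of_tail (g' := M.filter fun y => y < 2 * j + 1) (out_tail _ M) hg.1 h
  rwa [split] at this

/-- an empty fibre has nothing of the shadow over it -/
theorem sfib_empty {T : Finset ℕ} (hw : 2 * j + 1 ≤ n) (hT : Out (2 * j + 1) T)
    (he : fib (2 * j + 1) ℒ T = ∅) (hs : K < 2 * j + 1 + T.card) :
    fib (2 * j + 1) (∂ ℒ) T = ∅ := by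
  refine eq_empty_of_forall_notMem fun g hg => ?_
  obtain ⟨h1, h2⟩ := sfib_level hL hT hg
  rw [mem_fib] at hg
  obtain ⟨y, hy, hA⟩ := mem_shadow_iff_insert_mem.1 hg.2
  have key : ∀ x, x < 2 * j + 1 → insert x (g ∪ T) ∉ ℒ := fun x hx hx' => by
    have : insert x g ∈ fib (2 * j + 1) ℒ T :=
      mem_fib.2 ⟨insert_subset (mem_range.2 hx) hg.1, by rwa [insert_union]⟩
    rw [he] at this
    exact notMem_empty _ this
  have hyw : 2 * j + 1 ≤ y := not_lt.1 fun h => key y h hA
  obtain ⟨x, hx, hxg⟩ : ∃ x ∈ range (2 * j + 1), x ∉ g :=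
    exists_mem_notMem_of_card_lt_card (by rw [card_range]; omega)
  have hxw := mem_range.1 hx
  have hxT : x ∉ g ∪ T := fun h => (mem_union.1 h).elim hxg fun h => by
    have := hT x h
    omega
  refine key x hxw (hL.2 _ hA _ ?_ ((Colex.insert_lt_insert hxT hy).2 (by omega)))
  rw [← insert_union]
  refine (mem_AF hT (insert_subset hx hg.1)).2 ⟨?_, ?_, ?_⟩
  · rw [insert_union]
    exact insert_subset (mem_range.2 (by omega))
      ((subset_insert _ _).trans (H54.mem_fam.1 (hL.1 hA)).1)
  · rw [card_insert_of_notMem hxg]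
    omega
  · rw [card_insert_of_notMem hxg]
    omega

theorem sfib_le {T : Finset ℕ} (hT : Out (2 * j + 1) T) {l : ℕ} (hl : l + T.card = K) :
    (fib (2 * j + 1) (∂ ℒ) T).card ≤ (2 * j + 1).choose l :=
  card_le_choose (fib_subset (fun _ hA => card_shadow_mem hL hA) hT hl)

/-- the excess over one tail -/
theorem excess {T M : Finset ℕ} (hM : M ∈ ℒ) (hmax : ∀ A ∈ ℒ, toColex A ≤ toColex M)
    (hw : 2 * j + 1 ≤ n) (hTn : T ⊆ range n) (hT : Out (2 * j + 1) T) (hK : j + 1 ≤ K) :
    (fib (2 * j + 1) (∂ ℒ) T).card ≤ (fib (2 * j + 1) ℒ T).card +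
      ((if T.card = K - j - 1 then catalan (j + 1) else 0) +
      (if T.card ≤ K - j - 2 then CC j else 0) +
      (if T = M.filter fun y => 2 * j + 1 ≤ y then 2 ^ (2 * j + 1) else 0)) := by
  by_cases h0 : T = M.filter fun y => 2 * j + 1 ≤ y
  · rw [if_pos h0]
    have : (fib (2 * j + 1) (∂ ℒ) T).card ≤ 2 ^ (2 * j + 1) := by
      have := card_le_card (filter_subset (fun g => g ∪ T ∈ ∂ ℒ) (range (2 * j + 1)).powerset)
      rwa [card_powerset, card_range] at this
    omega
  rw [if_neg h0]
  rcases (fib (2 * j + 1) (∂ ℒ) T).eq_empty_or_nonempty with e | ⟨g, hg⟩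
  · rw [e, card_empty]
    exact Nat.zero_le _
  obtain ⟨h1, h2⟩ := sfib_level hL hT hg
  have h3 := sfib_le hL hT h1
  by_cases h4 : T.card + 2 ≤ K - j
  · have := choose_le_CC j g.card
    rw [if_pos (show T.card ≤ K - j - 2 by omega)]
    omega
  have h5 := CC_eq j
  rcases lt_or_gt_of_ne (fun e => h0 (toColex_inj.1 e) :
    toColex T ≠ toColex (M.filter fun y => 2 * j + 1 ≤ y)) with h6 | h6
  · have h7 := complete hL (l := g.card + 1) hM hw hTn hT (by omega) (by omega) h6
    rw [h7, card_powersetCard, card_range]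
    by_cases h8 : T.card = K - j - 1
    · rw [if_pos h8]
      have h9 : g.card = j + 1 := by omega
      rw [h9] at h3 ⊢
      rw [CC] at h5
      rw [show j + 1 + 1 = j + 2 from rfl]
      omega
    · have h9 : g.card = j := by omega
      rw [h9] at h3 ⊢
      rw [Nat.choose_symm_half]
      omega
  · have he : fib (2 * j + 1) ℒ T = ∅ := by
      refine eq_empty_of_forall_notMem fun g' hg' => ?_
      rw [mem_fib] at hg'
      have := lt_of_tail (g' := g') hT (head_subset (2 * j + 1) M) h6
      rw [split] at this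
      exact absurd (hmax _ hg'.2) (not_le.2 this)
    by_cases hs : K < 2 * j + 1 + T.card
    · rw [sfib_empty hL hw hT he hs, card_empty]
      exact Nat.zero_le _
    · have hj : j = 0 := by omega
      have h9 : g.card = 1 := by omega
      rw [if_pos (show T.card = K - j - 1 by omega)]
      subst hj
      rw [h9] at h3
      simp only [Nat.mul_zero, Nat.zero_add, Nat.choose_self, catalan_one] at h3 ⊢
      omega

end

end Seg

open Seg in
theorem segStmt : SegStmt := by
  intro n K j ℒ hK hL hm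
  have hne : ℒ.Nonempty := card_pos.1 (lt_of_le_of_lt (Nat.zero_le _) hm)
  obtain ⟨M, hM, hmax⟩ := exists_max_image ℒ (fun A => toColex A) hne
  have hMc := card_mem hL hM
  have hMne : M.Nonempty := card_pos.1 (by omega)
  set p := M.max' hMne with hp
  have hpM : p ∈ M := max'_mem _ _
  have hpn : p < n := mem_range.1 ((H54.mem_fam.1 (hL.1 hM)).1 hpM)
  have hin : ∀ A ∈ ℒ, A ⊆ range (p + 1) := fun A hA y hy =>
    mem_range.2 (Nat.lt_succ_of_le
      (Colex.forall_le_mono (hmax A hA) (fun b hb => le_max' M b hb) y hy))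
  have hin' : ∀ A ∈ ∂ ℒ, A ⊆ range (p + 1) := fun A hA => by
    obtain ⟨B, hB, x, -, rfl⟩ := mem_shadow_iff.1 hA
    exact (erase_subset _ _).trans (hin B hB)
  have hp3 : 3 * (K + 1) < p + 1 := by
    have h1 : ℒ.card ≤ 2 ^ (p + 1) := by
      have := card_le_card (show ℒ ⊆ (range (p + 1)).powerset from
        fun A hA => mem_powerset.2 (hin A hA))
      rwa [card_powerset, card_range] at this
    have h2 : 2 ^ (3 * (K + 1)) < 2 ^ (p + 1) := by
      rw [pow_mul]
      exact lt_of_lt_of_le hm h1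
    exact (Nat.pow_lt_pow_iff_right (by norm_num)).1 h2
  have hw : 2 * j + 1 ≤ n := by omega
  set X := Ico (2 * j + 1) (p + 1) with hX
  set Y := Ico (2 * j + 1) p with hY
  have hXc : X.card = p + 1 - (2 * j + 1) := Nat.card_Ico _ _
  have hYc : Y.card = p + 1 - (2 * j + 1) - 1 := by
    rw [hY, Nat.card_Ico]
    omega
  have hYX : Y ⊆ X := Ico_subset_Ico_right (Nat.le_succ p)
  have hXn : ∀ T ∈ X.powerset, T ⊆ range n := fun T hT y hy => by
    have := mem_Ico.1 (mem_powerset.1 hT hy)
    exact mem_range.2 (by omega)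
  have s1 := sum_fib (w := 2 * j + 1) hin
  have s2 := sum_fib (w := 2 * j + 1) hin'
  have hcomp : ∀ T ∈ powersetCard (K - j) Y,
      fib (2 * j + 1) ℒ T = powersetCard (j + 1) (range (2 * j + 1)) := fun T hT => by
    rw [mem_powersetCard] at hT
    refine complete hL hM hw (hXn T (mem_powerset.2 (hT.1.trans hYX))) (out_Ico hT.1)
      (by omega) le_rfl ?_
    rw [Colex.toColex_lt_toColex_iff_exists_forall_lt]
    refine ⟨p, mem_filter.2 ⟨hpM, by omega⟩, fun h => ?_, fun b hb _ => (mem_Ico.1 (hT.1 hb)).2⟩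
    exact lt_irrefl _ (mem_Ico.1 (hT.1 h)).2
  refine ⟨p + 1 - (2 * j + 1), ⟨by omega, ?_, ?_⟩, ?_, ?_⟩
  · rw [← s1, ← hYc, ← card_powersetCard, mul_comm, ← smul_eq_mul, ← sum_const]
    refine le_trans (le_of_eq (sum_congr rfl fun T hT => ?_))
      (sum_le_sum_of_subset fun T hT => mem_powerset.2 ((mem_powersetCard.1 hT).1.trans hYX))
    rw [hcomp T hT, card_powersetCard, card_range, CC]
  · have h1 : ∑ T ∈ X.powerset, (fib (2 * j + 1) ℒ T).card ≤
        ∑ T ∈ X.powerset, if T.card ≤ K - j then CC j else 0 := by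
      refine sum_le_sum fun T hT => ?_
      have hT' := out_Ico (mem_powerset.1 hT)
      rcases (fib (2 * j + 1) ℒ T).eq_empty_or_nonempty with e | ⟨g, hg⟩
      · rw [e, card_empty]
        exact Nat.zero_le _
      obtain ⟨h1, h2⟩ := fib_level hL hT' hg
      rw [if_pos (by omega)]
      exact (card_le_choose (fib_subset (fun A hA => card_mem hL hA) hT' h1)).trans
        (choose_le_CC _ _)
    rw [← sum_filter, sum_const, smul_eq_mul, s1] at h1
    have h2 := card_small X (K - j) (by omega)
    rw [hXc] at h2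
    calc ℒ.card ≤ _ := h1
      _ ≤ 2 * (p + 1 - (2 * j + 1)).choose (K - j) * CC j := Nat.mul_le_mul_right _ h2
      _ = _ := by ring
  · have h1 : ∑ T ∈ X.powerset, ((fib (2 * j + 1) ℒ T).card +
        if T ∈ powersetCard (K - j - 1) Y then catalan (j + 1) else 0) ≤
        ∑ T ∈ X.powerset, (fib (2 * j + 1) (∂ ℒ) T).card := by
      refine sum_le_sum fun T hT => ?_
      have hT' := out_Ico (mem_powerset.1 hT)
      split_ifs with h
      · rw [mem_powersetCard] at h
        obtain ⟨y, hy, hyT⟩ : ∃ y ∈ Y, y ∉ T :=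
          exists_mem_notMem_of_card_lt_card (by omega)
        have h2 := hcomp (insert y T) (mem_powersetCard.2
          ⟨insert_subset hy h.1, by rw [card_insert_of_notMem hyT]; omega⟩)
        have h3 : powersetCard (j + 1) (range (2 * j + 1)) ⊆ fib (2 * j + 1) (∂ ℒ) T := by
          intro g hg
          have hg' := (mem_powersetCard.1 hg).1
          rw [← h2, mem_fib, union_insert] at hg
          refine mem_fib.2 ⟨hg', mem_shadow_iff_insert_mem.2 ⟨y, fun h4 => ?_, hg.2⟩⟩
          rcases mem_union.1 h4 with h4 | h4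
          · have := mem_range.1 (hg' h4)
            have := (mem_Ico.1 hy).1
            omega
          · exact hyT h4
        have h4 := card_le_card h3
        rw [card_powersetCard, card_range] at h4
        have h5 := card_le_choose
          (fib_subset (l := j + 2) (fun A hA => card_mem hL hA) hT' (by omega))
        have h6 := CC_eq j
        rw [CC] at h6
        omega
      · exact fib_le_shadow hL hT'
    rw [sum_add_distrib, s1, s2, ← sum_filter, sum_const, smul_eq_mul,
      show (X.powerset.filter fun T => T ∈ powersetCard (K - j - 1) Y) =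
        powersetCard (K - j - 1) Y from by
        ext T
        simp only [mem_filter, mem_powerset, and_iff_right_iff_imp]
        exact fun h => (mem_powersetCard.1 h).1.trans hYX,
      card_powersetCard, hYc, mul_comm] at h1
    exact h1
  · have h1 := sum_le_sum (s := X.powerset) fun T hT =>
      excess hL hM hmax hw (hXn T hT) (out_Ico (mem_powerset.1 hT)) hK
    rw [sum_add_distrib, sum_add_distrib, sum_add_distrib, s1, s2, ← sum_filter, ← sum_filter,
      sum_ite_eq', sum_const, sum_const, smul_eq_mul, smul_eq_mul, ← powersetCard_eq_filter,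
      card_powersetCard, hXc] at h1
    have h2 := card_small X (K - j - 2) (by omega)
    rw [hXc] at h2
    have h3 := Nat.mul_le_mul_right (CC j) h2
    have h4 : (if (M.filter fun y => 2 * j + 1 ≤ y) ∈ X.powerset then 2 ^ (2 * j + 1) else 0) ≤
        2 ^ (2 * j + 1) := by
      split_ifs
      · exact le_rfl
      · exact Nat.zero_le _
    rw [EE, mul_comm (catalan _), mul_assoc 2, mul_comm (CC j), ← mul_assoc 2]
    omega

end Pool.Agent.MP_d50107_co.H61
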