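import Pool.Agent.MP_d50107_co.H61.Defs
import Pool.Agent.MP_d50107_co.H54.KKA
import Pool.Agent.MP_d50107_co.H54.Katona

/-!
Specification: the least shadow of an intersecting `(K+1)`-graph with `m > C(2K+1,K+1)` edges on a
large ground set is attained by a two-level family.
-/

namespace Pool.Agent.MP_d50107_co.H61

open Finset
open scoped FinsetFamily
open Pool.Agent.MP_d50107_co.H54 (IsInit)

noncomputable section

/-! ### Numbers -/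

/-- number of `(j+1)`-cliques of the first `m` `j`-sets: `C(a_j, j+1) + ... + C(a_t, t+1)` -/
def cl : ℕ → ℕ → ℕ
  | 0, _ => 0
  | j + 1, m =>
    if m = 0 then 0
    else (top (j + 1) m).choose (j + 2) + cl j (m - (top (j + 1) m).choose (j + 1))

/-- `C(2K-1, K)` -/
def NN (K : ℕ) : ℕ := (2 * K - 1).choose K

/-- `C(2K+1, K+1)` -/
def NB (K : ℕ) : ℕ := (2 * K + 1).choose (K + 1)

/-- `C(2K-2, K-1)` -/
def WW (K : ℕ) : ℕ := (2 * K - 2).choose (K - 1)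

/-- sum of the Catalan numbers of index `1, ..., K-1` -/
def SS (K : ℕ) : ℕ := ∑ j ∈ Ico 1 K, catalan j

/-- sum of `kk K` over a list -/
def sk (K : ℕ) (g : List ℕ) : ℕ := (g.map (kk K)).sum

/-- admissible two-level data -/
def Adm (K m M : ℕ) (g : List ℕ) : Prop :=
  M ≤ NN K ∧ (∀ x ∈ g, x ≤ M) ∧ NB K + g.sum = m + M

/-- the shadow of the two-level family -/
def val (K M : ℕ) (g : List ℕ) : ℕ := kk (K + 1) (NB K - M) + sk K g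

/-- some two-level family of size `m` has shadow at most `v` -/
def Le (K m : ℕ) (v : ℝ) : Prop := ∃ M g, Adm K m M g ∧ (val K M g : ℝ) ≤ v

/-- Inequalities for `kk` and `cl`. -/
structure KN : Prop where
  thm : ∀ (l : ℕ) (𝒜 : Finset (Finset ℕ)), (∀ A ∈ 𝒜, A.card = l) → kk l 𝒜.card ≤ (∂ 𝒜).card
  mono : ∀ l a b : ℕ, a ≤ b → kk l a ≤ kk l b
  le_mul : ∀ l m : ℕ, kk l m ≤ l * m
  lym : ∀ l x m : ℕ, l ≤ x → m ≤ x.choose l → l * m ≤ (x - l + 1) * kk l m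
  clym : ∀ l x m : ℕ, m ≤ x.choose l → (l + 1) * cl l m ≤ (x - l) * m
  dual : ∀ i a m : ℕ, 1 ≤ i → m ≤ (i + a).choose i →
    kk a ((i + a).choose i - m) + cl i m = (i + a).choose (i + 1)
  emono : ∀ i x m : ℕ, x.choose i ≤ m → m ≤ (2 * i).choose i →
    x.choose i + cl i m ≤ m + x.choose (i + 1)
  sub : ∀ l a b : ℕ, kk l (a + b) ≤ kk l a + kk l b
  glue : ∀ l a b : ℕ, kk (l + 1) (a + b) ≤ max (kk (l + 1) a) b + kk l b
  clem : ∀ l x a b : ℕ, l + 2 ≤ x → a ≤ x.choose (l + 1) → b ≤ x.choose (l + 1) →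
    x.choose (l + 1) ≤ a + b →
    x.choose l + kk (l + 1) (a + b - x.choose (l + 1)) ≤ kk (l + 1) a + kk (l + 1) b

/-- Initial segments of the colexicographic order realise `kk`. -/
def InitStmt : Prop :=
  ∀ (w l : ℕ) (ℒ : Finset (Finset ℕ)), IsInit (powersetCard (l + 1) (range w)) ℒ →
    (∂ ℒ).card = kk (l + 1) ℒ.card ∧ IsInit (powersetCard l (range w)) (∂ ℒ)

/-- The purely numerical fields of `KN`. -/
def LymStmt : Prop :=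
  (∀ l m : ℕ, kk l m ≤ l * m) ∧
  (∀ l x m : ℕ, l ≤ x → m ≤ x.choose l → l * m ≤ (x - l + 1) * kk l m) ∧
  (∀ l x m : ℕ, m ≤ x.choose l → (l + 1) * cl l m ≤ (x - l) * m) ∧
  (∀ i a m : ℕ, 1 ≤ i → m ≤ (i + a).choose i →
    kk a ((i + a).choose i - m) + cl i m = (i + a).choose (i + 1)) ∧
  (∀ i x m : ℕ, x.choose i ≤ m → m ≤ (2 * i).choose i →
    x.choose i + cl i m ≤ m + x.choose (i + 1))

/-- Binomial and Catalan facts. -/
structure CT : Prop where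
  hmax : ∀ w i : ℕ, w.choose i ≤ w.choose (i + 1) + catalan i
  two : ∀ K : ℕ, 1 ≤ K → (2 * K).choose K = 2 * NN K
  nsym : ∀ K : ℕ, 1 ≤ K → (2 * K - 1).choose (K - 1) = NN K
  c0 : ∀ K : ℕ, (2 * K).choose K = (2 * K).choose (K + 1) + catalan K
  c1 : ∀ K : ℕ, 1 ≤ K → NN K = (2 * K - 1).choose (K + 1) + catalan K
  c2 : ∀ K : ℕ, 1 ≤ K → WW K = (2 * K - 2).choose K + catalan (K - 1)
  w2 : ∀ K : ℕ, 2 ≤ K → WW K = 2 * NN (K - 1)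
  nw : ∀ K : ℕ, 1 ≤ K → NN K = WW K + (2 * K - 2).choose K
  up : ∀ K : ℕ, 1 ≤ K → (2 * K).choose (K + 1) = (2 * K - 1).choose (K + 1) + NN K
  nb : ∀ K : ℕ, 1 ≤ K → NB K = (2 * K).choose (K + 1) + 2 * NN K
  wk : ∀ K : ℕ, 1 ≤ K → K * NN K = (2 * K - 1) * WW K
  wc : ∀ K : ℕ, 1 ≤ K → WW K = K * catalan (K - 1)
  succ : ∀ i : ℕ, (i + 2) * catalan (i + 1) = 2 * (2 * i + 1) * catalan i
  s2 : ∀ K : ℕ, 2 ≤ K → 5 * SS K + catalan K ≤ 12 * catalan (K - 1)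
  s3 : ∀ K : ℕ, 2 ≤ K → SS K ≤ 2 * catalan (K - 1)
  i1 : ∀ K : ℕ, 2 ≤ K → (3 * K - 2) * (catalan K + SS K) ≤ 2 * NB K
  i2 : ∀ K : ℕ, 2 ≤ K → K * (3 * K - 2) * SS K ≤ 2 * (2 * K + 1) * WW K

/-- bound for the loss of one incomplete piece -/
def Osc (l : ℕ) (lam B : ℝ) : Prop := ∀ r : ℕ, (kk l r : ℝ) - lam * r ≤ B

/-- the bound used when the peeling stops -/
def Stop (mu lam c : ℝ) (J : ℕ) : Prop :=
  ∀ i g m : ℕ, 1 ≤ i → i ≤ J → 1 ≤ g → g ≤ m → m ≤ (2 * i).choose i → (kk i g : ℝ) ≤ lam * g →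
    c * catalan i ≤ mu * m - cl i m

/-- no family on at most `2j-2` points has so small a ratio -/
def NoStop (lam : ℝ) (J : ℕ) : Prop := ∀ j : ℕ, 2 ≤ j → j ≤ J → lam * ((j : ℝ) - 1) < j

/-- Upper bounds for the two-level minimum. -/
structure TL : Prop where
  three : ∀ (K m : ℕ) (h : List ℕ), 2 ≤ K → NB K ≤ m → (∀ x ∈ h, x ≤ NN K) →
    h.sum + (2 * K - 1).choose (K + 1) = m → Le K m ((NN K : ℝ) + sk K h)
  relax : ∀ (K m c : ℕ) (g : List ℕ), 2 ≤ K → NB K ≤ m → c ≤ 2 * NN K →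
    (∀ x ∈ g, x ≤ c ∧ x ≤ NN K) → NB K + g.sum = m + c →
    Le K m ((kk (K + 1) (NB K - c) : ℝ) + sk K g)
  pack : ∀ (K n D : ℕ) (lam O : ℝ), 1 ≤ n → (kk K n : ℝ) ≤ lam * n → Osc K lam O →
    ∃ g : List ℕ, (∀ x ∈ g, x ≤ n) ∧ g.sum = D ∧ (sk K g : ℝ) ≤ lam * D + O
  cand : ∀ (K m n : ℕ) (lam O : ℝ), 1 ≤ K → NB K ≤ m → 1 ≤ n → n ≤ NN K →
    (kk K n : ℝ) ≤ lam * n → Osc K lam O →
    Le K m ((NB K : ℝ) + ((kk K n : ℝ) - cl K n) + lam * ((m : ℝ) - NB K) + O)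
  glob : ∀ K m : ℕ, 1 ≤ K → NB K ≤ m → Le K m ((m : ℝ) + catalan K + SS K)

/-- Small ratios. -/
structure ST : Prop where
  ratio : ∀ i p : ℕ, 2 ≤ i → p + NN (i - 1) ≤ NN i → 3 * i * p ≤ (3 * i - 2) * kk i p
  one : ∀ (K : ℕ) (lam : ℝ), 2 ≤ K → (3 * (K : ℝ) - 2) * lam < 3 * K → Stop 1 lam 1 (K - 1)
  two : ∀ (J : ℕ) (lam : ℝ), NoStop lam J → Stop 1 lam (4 / 5) J
  big : ∀ K M : ℕ, 2 ≤ K → M ≤ NB K → (2 * K + 1) * WW K ≤ K * M →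
    (catalan K : ℝ) + SS K ≤
      (kk (K + 1) (NB K - M) : ℝ) - ((NB K : ℝ) - M) + 2 / (3 * (K : ℝ) - 2) * M

/-- `t` is the ceiling of `i / lam` -/
def Win (lam : ℝ) (i t : ℕ) : Prop := 1 ≤ t ∧ lam * ((t : ℝ) - 1) < i ∧ (i : ℝ) ≤ lam * t

/-- closed version of `Win` -/
def WinC (lam : ℝ) (i t : ℕ) : Prop := 1 ≤ t ∧ lam * ((t : ℝ) - 1) ≤ i ∧ (i : ℝ) ≤ lam * t

/-- the lower bound at level `i` -/
def Vf (i t : ℕ) (lam : ℝ) : ℝ :=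
  ((i + t - 1).choose i : ℝ) * (((i : ℝ) - t + 2) / (i + 1) +
    (t * ((i : ℝ) - lam * ((t : ℝ) - 1)) - 1 / 4) * ((i : ℝ) - t) / (t * i))

/-- A quadratic lower bound for `kk` between two binomial coefficients. -/
def QuadStmt : Prop :=
  ∀ t i g : ℕ, 2 ≤ t → 1 ≤ i → (i + t - 2).choose i ≤ g → g ≤ (i + t - 1).choose i →
    (t : ℝ) * ((i + t - 2).choose i : ℝ) * ((i : ℝ) * g - ((t : ℝ) - 1) * kk i g) ≤
      ((t : ℝ) - 1) * (g : ℝ) ^ 2 - ((t : ℝ) - 5 / 4) * ((i + t - 2).choose i : ℝ) * g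

/-- `Vf` is a lower bound at a stop. -/
def LowStmt : Prop :=
  ∀ (lam : ℝ) (i t g m : ℕ), 1 ≤ lam → 1 ≤ i → Win lam i t → 1 ≤ g → g ≤ m →
    m ≤ (2 * i).choose i → (kk i g : ℝ) ≤ lam * g → Vf i t lam ≤ lam * m - cl i m

/-- `Vf i / catalan i` decreases. -/
def MonoStmt : Prop :=
  ∀ (lam : ℝ) (i t t' : ℕ), 1 ≤ lam → 1 ≤ i → Win lam i t → Win lam (i + 1) t' →
    Vf (i + 1) t' lam * catalan i ≤ Vf i t lam * catalan (i + 1)

/-- the factor of the majorant -/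
def om (t : ℕ) (A lam : ℝ) : ℝ :=
  (A + 1 / 2) ^ 2 / 2 + if t ≤ 2 then 0 else lam / 2 + 1 / 12 + 5 / (2 * (t : ℝ))

/-- the majorant of the loss -/
def Ob (l t : ℕ) (lam : ℝ) : ℝ :=
  if t ≤ 1 then 0
  else ((l + t - 2).choose l : ℝ) * (om t ((l : ℝ) - lam * ((t : ℝ) - 1)) lam / ((t : ℝ) - 1))

/-- Bounds for the loss. -/
structure OS : Prop where
  step : ∀ (l : ℕ) (lam B p : ℝ), Osc l lam B →
    (∀ x : ℕ, l + 1 ≤ x → (x.choose l : ℝ) - lam * x.choose (l + 1) ≤ p) → 0 ≤ p + B →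
    Osc (l + 1) lam (p + B)
  p1 : ∀ (lam : ℝ) (l t x : ℕ), 1 ≤ lam → 2 ≤ t → WinC lam (l + 1) t →
    (t = 2 ∨ lam * ((t : ℝ) - 1) ≤ l) → l + 1 ≤ x →
    (x.choose l : ℝ) - lam * x.choose (l + 1) ≤
      ((l + 1 + t - 2).choose (l + 1) : ℝ) *
        (((l : ℝ) + 1 - lam * ((t : ℝ) - 1)) / ((t : ℝ) - 1))
  p2 : ∀ (lam : ℝ) (l t x : ℕ), 1 ≤ lam → 3 ≤ t → WinC lam (l + 1) t →
    (l : ℝ) ≤ lam * ((t : ℝ) - 1) → l + 1 ≤ x →
    (x.choose l : ℝ) - lam * x.choose (l + 1) ≤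
      ((l + 1 + t - 2).choose (l + 1) : ℝ) *
        (((l : ℝ) + 1 - lam * ((t : ℝ) - 1) + lam) / ((l : ℝ) + 1 + t - 2))
  one : ∀ (K : ℕ) (lam : ℝ), 1 ≤ lam → Osc K lam (SS K)

/-- The polynomial inequality behind the majorant. -/
def PolyTStmt : Prop :=
  ∀ (t : ℕ) (lam A l : ℝ), 3 ≤ t → 1 ≤ lam → 0 ≤ A → A ≤ 1 → l = lam * ((t : ℝ) - 1) + A →
    (A + lam) / (l + t - 2) + l / ((l + t - 2) * (l + t - 3)) * om (t - 1) (A + lam - 1) lam ≤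
      om t A lam / ((t : ℝ) - 1)

/-- The majorant. -/
def MajStmt : Prop :=
  ∀ (lam : ℝ) (l t : ℕ), 1 ≤ lam → WinC lam l t → Osc l lam (Ob l t lam)

/-- a good piece size with a bound for shadow minus cliques -/
def Cand (K : ℕ) (lam B : ℝ) : Prop :=
  ∃ n : ℕ, 1 ≤ n ∧ n ≤ NN K ∧ (kk K n : ℝ) ≤ lam * n ∧ (kk K n : ℝ) - cl K n ≤ B

/-- shadow minus cliques per member, for the block `C(i+T-2, i)` -/
def kf (i T : ℝ) : ℝ := i / (T - 1) - (T - 2) / (i + 1)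

/-- The three candidates. -/
structure CD : Prop where
  full : ∀ (lam : ℝ) (K T : ℕ), 2 ≤ T → T ≤ K → Win lam K T →
    Cand K lam (((K + T - 2).choose K : ℝ) *
      (((K : ℝ) + T - 1) / ((T : ℝ) - 1) * kf K ((T : ℝ) + 1)))
  two : ∀ (lam : ℝ) (K T : ℕ), 2 ≤ T → T ≤ K → Win lam K T →
    ((K : ℝ) - lam * ((T : ℝ) - 1)) * (2 * K + T - 2) ≤ K →
    Cand K lam (((K + T - 2).choose K : ℝ) *
      (kf K T + (K : ℝ) / ((K : ℝ) + T - 2) * kf ((K : ℝ) - 1) T))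
  gen : ∀ (lam : ℝ) (K T : ℕ), 2 ≤ T → T ≤ K → Win lam K T →
    Cand K lam (((K + T - 2).choose K : ℝ) *
      (kf K T + (2 * ((K : ℝ) - lam * ((T : ℝ) - 1)) + 1) * kf ((K : ℝ) - 1) T))

/-- The numerical heart. -/
def NumStmt : Prop :=
  ∀ (K : ℕ) (lam : ℝ), 3 ≤ K → (K : ℝ) - 1 ≤ lam * ((K : ℝ) - 2) → lam ≤ (K : ℝ) - 1 →
    ∃ (c O B : ℝ), 0 ≤ c ∧ c ≤ 1 ∧ Stop lam lam c (K - 1) ∧ Osc K lam O ∧ Cand K lam B ∧
      O ≤ c * catalan (K - 1) ∧ B + O ≤ c * ((catalan K : ℝ) + 2 * catalan (K - 1))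

/-! ### Families -/

/-- stable under replacing a point by a smaller one -/
def Shifted (𝒜 : Finset (Finset ℕ)) : Prop :=
  ∀ A ∈ 𝒜, ∀ i j : ℕ, i < j → j ∈ A → i ∉ A → insert i (A.erase j) ∈ 𝒜

/-- every member of the first family meets every member of the second -/
def Cross (𝒳 ρ : Finset (Finset ℕ)) : Prop := ∀ X ∈ 𝒳, ∀ g ∈ ρ, ∃ x, x ∈ X ∧ x ∈ g

/-- the heads in `range w` of the members with tail `T` -/
def fib (w : ℕ) (𝒜 : Finset (Finset ℕ)) (T : Finset ℕ) : Finset (Finset ℕ) :=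
  (range w).powerset.filter fun g => g ∪ T ∈ 𝒜

/-- all points of `T` are at least `w` -/
def Out (w : ℕ) (T : Finset ℕ) : Prop := ∀ y ∈ T, w ≤ y

/-- the tails that occur -/
def tails (w : ℕ) (𝒜 : Finset (Finset ℕ)) : Finset (Finset ℕ) :=
  𝒜.image fun A => A.filter fun y => w ≤ y

/-- number of members with at least two points outside `range w` -/
def del (w : ℕ) (𝒜 : Finset (Finset ℕ)) : ℕ :=
  (𝒜.filter fun A => 2 ≤ (A.filter fun y => w ≤ y).card).card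

/-- Decomposition by tails. -/
structure FB : Prop where
  card : ∀ (w : ℕ) (𝒜 𝒯 : Finset (Finset ℕ)), (∀ T ∈ 𝒯, Out w T) → tails w 𝒜 ⊆ 𝒯 →
    ∑ T ∈ 𝒯, (fib w 𝒜 T).card = 𝒜.card
  shadow : ∀ (w : ℕ) (𝒜 𝒯 : Finset (Finset ℕ)), (∀ T ∈ 𝒯, Out w T) →
    ∑ T ∈ 𝒯, (∂ (fib w 𝒜 T)).card ≤ (∂ 𝒜).card
  del : ∀ (w : ℕ) (𝒜 : Finset (Finset ℕ)),
    ∑ T ∈ (tails w 𝒜).filter (fun T => 2 ≤ T.card), (fib w 𝒜 T).card = del w 𝒜
  rows : ∀ (w l : ℕ) (𝒜 𝒯 : Finset (Finset ℕ)), (∀ A ∈ 𝒜, A.card = l + 2) →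
    (∀ T ∈ 𝒯, Out w T ∧ T.card ≤ 1) →
    ∑ T ∈ 𝒯, (∂ (fib w 𝒜 T)).card + kk l (H61.del w 𝒜) ≤ (∂ 𝒜).card

/-- Local counting inequalities. -/
structure LY : Prop where
  down : ∀ (w a : ℕ) (𝒴 : Finset (Finset ℕ)), 𝒴 ⊆ powersetCard a (range w) →
    a * 𝒴.card ≤ (w - a + 1) * (∂ 𝒴).card
  up : ∀ (w a : ℕ) (𝒴 𝒵 : Finset (Finset ℕ)), 𝒴 ⊆ powersetCard a (range w) →
    𝒵 ⊆ powersetCard (a + 1) (range w) →
    (∀ Y ∈ 𝒴, ∀ x, x < w → x ∉ Y → insert x Y ∈ 𝒵) → (w - a) * 𝒴.card ≤ (a + 1) * 𝒵.card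
  dens : ∀ (w a : ℕ) (𝒳 : Finset (Finset ℕ)), 𝒳 ⊆ powersetCard a (range (w + 1)) → Shifted 𝒳 →
    a ≤ w → 𝒳.card * w.choose a ≤ (nonMemberSubfamily w 𝒳).card * (w + 1).choose a
  ratio : ∀ (a : ℕ) (𝒴 : Finset (Finset ℕ)), (∀ Y ∈ 𝒴, Y.card = a) → (∂ 𝒴).card ≤ a * 𝒴.card

/-- Peeling lemma for a family that meets every member of `ρ`. -/
def GStmt : Prop :=
  ∀ (mu lam c : ℝ) (J w i a j : ℕ) (𝒳 ρ : Finset (Finset ℕ)), 0 ≤ c → c ≤ 1 → 1 ≤ mu →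
    Stop mu lam c J → i + a = w → a ≤ i + 1 → j ≤ i → j ≤ J →
    𝒳 ⊆ powersetCard a (range w) → Shifted 𝒳 → ρ ⊆ powersetCard j (range w) → ρ.Nonempty →
    ((∂ ρ).card : ℝ) ≤ lam * ρ.card → Cross 𝒳 ρ →
    c * ((w.choose i : ℝ) - w.choose (i + 1)) - mu * w.choose i + w.choose (i + 1) ≤
      ((∂ 𝒳).card : ℝ) - mu * 𝒳.card

/-- Peeling lemma for a family that contains every superset of a member of `ρ`. -/
def HStmt : Prop :=
  ∀ (lam : ℝ) (J w i j : ℕ) (𝒴 ρ : Finset (Finset ℕ)), NoStop lam J → i + 1 ≤ w →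
    w ≤ 2 * i + 1 → j ≤ i + 1 → j ≤ J → 𝒴 ⊆ powersetCard (i + 1) (range w) → Shifted 𝒴 →
    ρ ⊆ powersetCard j (range w) → ρ.Nonempty → ((∂ ρ).card : ℝ) ≤ lam * ρ.card →
    (∀ g ∈ ρ, ∀ B : Finset ℕ, g ⊆ B → B ⊆ range w → B.card = i + 1 → B ∈ 𝒴) →
    𝒴.card + w.choose i ≤ (∂ 𝒴).card + w.choose (i + 1)

/-- shifted intersecting `(K+1)`-graph -/
def Good (K : ℕ) (F : Finset (Finset ℕ)) : Prop :=
  (∀ A ∈ F, A.card = K + 1) ∧ H54.Inter F ∧ Shifted F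

/-- a family of small ratio in `range (2K-2)` that lies under the link of the pair `u, v` -/
def Seed (K : ℕ) (F : Finset (Finset ℕ)) (lam : ℝ) (u v : ℕ) : Prop :=
  ∃ (j : ℕ) (ρ : Finset (Finset ℕ)), j + 1 ≤ K ∧ ρ ⊆ powersetCard j (range (2 * K - 2)) ∧
    ρ.Nonempty ∧ ((∂ ρ).card : ℝ) ≤ lam * ρ.card ∧
    ∀ g ∈ ρ, ∀ B : Finset ℕ, g ⊆ B → B ⊆ range (2 * K - 1) → B.card + 1 = K →
      insert u (insert v B) ∈ F

/-- Structure of a shifted intersecting family. -/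
structure SR : Prop where
  seed : ∀ (K w u v y z : ℕ) (F : Finset (Finset ℕ)) (lam : ℝ) (T : Finset ℕ), 2 ≤ K → Good K F →
    2 * K - 1 ≤ w → Out w T → y ∈ T → z ∈ T → y < z → 2 * K - 1 ≤ u → u < v → u ≤ y → v ≤ z →
    (fib w F T).Nonempty → ((∂ (fib w F T)).card : ℝ) ≤ lam * (fib w F T).card →
    Seed K F lam u v
  nest : ∀ (w y z : ℕ) (F : Finset (Finset ℕ)), Shifted F → w ≤ y → y ≤ z →
    fib w F {z} ⊆ fib w F {y}
  compl : ∀ (K y : ℕ) (F : Finset (Finset ℕ)), Good K F → 2 * K < y →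
    (fib (2 * K) F {y}).card + (fib (2 * K) F {2 * K}).card ≤ (2 * K).choose K
  inner : ∀ (K : ℕ) (F : Finset (Finset ℕ)), 1 ≤ K → Good K F →
    (fib (2 * K) F {2 * K}).card ≤ (∂ (fib (2 * K) F ∅)).card
  dens : ∀ (K : ℕ) (F : Finset (Finset ℕ)), Good K F →
    K * (fib (2 * K) F {2 * K}).card ≤ (K + 1) * (fib (2 * K) F ∅).card
  thin : ∀ (K y : ℕ) (F : Finset (Finset ℕ)), 2 ≤ K → Good K F → 2 * K - 1 ≤ y →
    (fib (2 * K) F ∅).card + WW K < (2 * K).choose (K + 1) →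
    (fib (2 * K - 1) F {y}).card + NN (K - 1) ≤ NN K
  kat : ∀ (K : ℕ) (F : Finset (Finset ℕ)) (T : Finset ℕ), 1 ≤ K → Good K F → Out (2 * K - 1) T →
    T.Nonempty → T ≠ {2 * K - 1, 2 * K} →
    (fib (2 * K - 1) F T).card ≤ (∂ (fib (2 * K - 1) F T)).card

/-- The global bound when a family of very small ratio exists. -/
def GlobStmt : Prop :=
  ∀ (K : ℕ) (F : Finset (Finset ℕ)) (lam c : ℝ), 2 ≤ K → Good K F → 0 ≤ c → c ≤ 1 →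
    Stop 1 lam c (K - 1) → NoStop lam (K - 1) →
    (Seed K F lam (2 * K - 1) (2 * K + 1) →
      (F.card : ℝ) + c * ((catalan K : ℝ) + 2 * catalan (K - 1)) ≤ (∂ F).card) ∧
    (Seed K F lam (2 * K) (2 * K + 1) →
      (F.card : ℝ) + c * ((catalan K : ℝ) + 3 * catalan (K - 1)) ≤ (∂ F).card)

/-- The budget of the part inside `range (2K)`. -/
def BudAStmt : Prop :=
  ∀ (K : ℕ) (F : Finset (Finset ℕ)) (lam c : ℝ), 3 ≤ K → Good K F → 0 ≤ c → c ≤ 1 → 1 ≤ lam →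
    Stop lam lam c (K - 1) → Seed K F lam (2 * K) (2 * K + 1) →
    (2 * K).choose (K + 1) ≤ (fib (2 * K) F ∅).card + WW K →
    c * catalan (K - 1) + (2 * K).choose K - lam * (2 * K).choose (K + 1) ≤
      ((∂ (fib (2 * K) F ∅)).card : ℝ) - lam * (fib (2 * K) F ∅).card

/-- The budget of the link of the point `2K`. -/
def BudBStmt : Prop :=
  ∀ (K : ℕ) (F : Finset (Finset ℕ)) (lam c : ℝ), 3 ≤ K → Good K F → 0 ≤ c → c ≤ 1 → 1 ≤ lam →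
    Stop lam lam c (K - 1) → Seed K F lam (2 * K) (2 * K + 1) →
    NN K ≤ (fib (2 * K) F {2 * K}).card →
    c * ((catalan K : ℝ) + catalan (K - 1)) + (2 * K).choose (K + 1) - lam * (2 * K).choose K ≤
      ((∂ (fib (2 * K) F {2 * K})).card : ℝ) - lam * (fib (2 * K) F {2 * K}).card

/-- Case: a deleted family has very small ratio. -/
def CaseAStmt : Prop :=
  ∀ (K : ℕ) (F : Finset (Finset ℕ)) (T : Finset ℕ), 2 ≤ K → Good K F → NB K ≤ F.card →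
    Out (2 * K) T → 2 ≤ T.card →
    (K - 2) * (∂ (fib (2 * K) F T)).card < (K - 1) * (fib (2 * K) F T).card →
    Le K F.card (∂ F).card

/-- Case: many sets are missing inside `range (2K)`. -/
def CaseMStmt : Prop :=
  ∀ (K : ℕ) (F : Finset (Finset ℕ)), 2 ≤ K → Good K F → NB K ≤ F.card →
    (∀ T : Finset ℕ, Out (2 * K) T → 2 ≤ T.card →
      (K - 1) * (fib (2 * K) F T).card ≤ (K - 2) * (∂ (fib (2 * K) F T)).card) →
    (fib (2 * K) F ∅).card + WW K < (2 * K).choose (K + 1) →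
    Le K F.card (∂ F).card

/-- Case: few deleted sets. -/
def CaseBStmt : Prop :=
  ∀ (K : ℕ) (F : Finset (Finset ℕ)), 2 ≤ K → Good K F → NB K ≤ F.card →
    (2 * K).choose (K + 1) ≤ (fib (2 * K) F ∅).card + WW K →
    (fib (2 * K) F ∅).card + del (2 * K) F ≤ (2 * K).choose (K + 1) →
    Le K F.card (∂ F).card

/-- Case: many deleted sets, least ratio `lam`. -/
def CaseCStmt : Prop :=
  ∀ (K : ℕ) (F : Finset (Finset ℕ)) (lam : ℝ), 3 ≤ K → Good K F → NB K ≤ F.card →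
    (2 * K).choose (K + 1) ≤ (fib (2 * K) F ∅).card + WW K →
    (2 * K).choose (K + 1) ≤ (fib (2 * K) F ∅).card + del (2 * K) F →
    (K : ℝ) - 1 ≤ lam * ((K : ℝ) - 2) → lam ≤ (K : ℝ) - 1 →
    (∀ T : Finset ℕ, Out (2 * K) T → 2 ≤ T.card →
      lam * (fib (2 * K) F T).card ≤ (∂ (fib (2 * K) F T)).card) →
    Seed K F lam (2 * K) (2 * K + 1) →
    Le K F.card (∂ F).card

/-- The lower bound for shifted families. -/
def MainStmt : Prop :=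
  ∀ (K : ℕ) (F : Finset (Finset ℕ)), 1 ≤ K → Good K F → NB K < F.card → Le K F.card (∂ F).card

/-- Reduction to shifted families of natural numbers. -/
def ReduceStmt : Prop :=
  ∀ (n K : ℕ) (𝒜 : Finset (Finset (Fin n))), (∀ A ∈ 𝒜, A.card = K + 1) → H54.Inter 𝒜 →
    ∃ F : Finset (Finset ℕ), Good K F ∧ F.card = 𝒜.card ∧ (∂ F).card ≤ (∂ 𝒜).card

/-- The construction. -/
def UpperStmt : Prop :=
  ∀ (n K m M : ℕ) (g : List ℕ), 1 ≤ K → Adm K m M g → 2 * K + 1 + g.length ≤ n →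
    ∃ 𝒜 : Finset (Finset (Fin n)), (∀ A ∈ 𝒜, A.card = K + 1) ∧ H54.Inter 𝒜 ∧ 𝒜.card = m ∧
      (∂ 𝒜).card ≤ val K M g

/-- The construction in the range of Kruskal's theorem. -/
def SmallStmt : Prop :=
  ∀ (n K m : ℕ), m ≤ NB K → m ≤ n.choose (K + 1) →
    ∃ 𝒜 : Finset (Finset (Fin n)), (∀ A ∈ 𝒜, A.card = K + 1) ∧ H54.Inter 𝒜 ∧ 𝒜.card = m ∧
      (∂ 𝒜).card ≤ kk (K + 1) m

/-- The number of pieces can be bounded. -/
def FitStmt : Prop :=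
  ∀ (n K m M : ℕ) (g : List ℕ), 1 ≤ K → Adm K m M g →
    (m < n ∨ (16 ^ (K + 1) ≤ n ∧ m + NN K * (2 * K + 2) ≤ NB K + NN K * n)) → NB K < m →
    ∃ M' g', Adm K m M' g' ∧ 2 * K + 1 + g'.length ≤ n ∧ val K M' g' ≤ val K M g

end

end Pool.Agent.MP_d50107_co.H61
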