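import Pool.Agent.MP_d50107_co.H61.Main
import Pool.Agent.MP_d50107_co.H54.Main

/-! Specification: explicit thresholds for the ranges above `|A_(K-1)|`. -/

namespace Pool.Agent.MP_d50107_co.H61

open Finset
open scoped FinsetFamily
open Pool.Agent.MP_d50107_co.H54 (IsInit)

/-- the `(K+1)`-subsets of `range n` with at least `j + 1` points below `2j + 1` -/
def AF (n K j : ℕ) : Finset (Finset ℕ) :=
  H54.fam (fun x : ℕ => x < 2 * j + 1) (range n) (K + 1) (j + 1)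

/-- `C(2j+1, j+1)` -/
def CC (j : ℕ) : ℕ := (2 * j + 1).choose (j + 1)

/-- the threshold for the number of outside points -/
def QQ (K : ℕ) : ℕ := 32 * K * 4 ^ K

/-- upper bound for the excess of a segment -/
def EE (K i t : ℕ) : ℕ :=
  catalan (i + 1) * t.choose (K - i - 1) + 2 * CC i * t.choose (K - i - 2) + 2 ^ (2 * i + 1)

/-- the size `m` is reached with `u` outside points -/
def Sz (K j u m : ℕ) : Prop :=
  3 * (K - j) ≤ u ∧ CC j * (u - 1).choose (K - j) ≤ m ∧ m ≤ 2 * CC j * u.choose (K - j)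

/-- A shifted intersecting family lies in a majority family or has a large excess. -/
def DichStmt : Prop :=
  ∀ (K : ℕ) (F : Finset (Finset ℕ)), 1 ≤ K → Good K F →
    (∃ j, j + 1 ≤ K ∧ ∀ A ∈ F, j + 1 ≤ (A.filter fun x => x < 2 * j + 1).card) ∨
      (2 ^ (2 * K + 1) + 1) * F.card ≤ 2 ^ (2 * K + 1) * ((∂ F).card + 1)

/-- Size and shadow of a segment of a majority family. -/
def SegStmt : Prop :=
  ∀ (n K j : ℕ) (ℒ : Finset (Finset ℕ)), j + 1 ≤ K → IsInit (AF n K j) ℒ → 8 ^ (K + 1) < ℒ.card →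
    ∃ u, Sz K j u ℒ.card ∧
      ℒ.card + catalan (j + 1) * (u - 1).choose (K - j - 1) ≤ (∂ ℒ).card ∧
      (∂ ℒ).card ≤ ℒ.card + EE K j u

/-- The numerical comparisons. -/
structure AR : Prop where
  small : ∀ K i t m : ℕ, i + 2 ≤ K → QQ K ≤ t → Sz K i t m → 2 ^ (2 * K + 1) * (EE K i t + 1) ≤ m
  lower : ∀ K i j t u m : ℕ, i + 2 ≤ K → j < i → QQ K ≤ t → Sz K i t m → Sz K j u m →
    EE K i t ≤ catalan (j + 1) * (u - 1).choose (K - j - 1)
  bign : ∀ K i t n m : ℕ, i + 2 ≤ K → Sz K i t m →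
    CC (i + 1) * (n - (2 * i + 3)).choose (K - i - 1) < m →
    64 * (K + 1) ^ 2 * 16 ^ (K + 1) ≤ n → QQ K ≤ t
  bigm : ∀ K i t m : ℕ, i + 2 ≤ K → Sz K i t m → (32 * (K + 1) * 4 ^ (K + 1)) ^ (K + 1) ≤ m →
    QQ K ≤ t

/-- Passing between `Fin n` and the natural numbers. -/
structure LF : Prop where
  reduce : ∀ (n K : ℕ) (𝒜 : Finset (Finset (Fin n))), (∀ A ∈ 𝒜, A.card = K + 1) → H54.Inter 𝒜 →
    ∃ F : Finset (Finset ℕ), Good K F ∧ (∀ A ∈ F, A ⊆ range n) ∧ F.card = 𝒜.card ∧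
      (∂ F).card ≤ (∂ 𝒜).card
  lift : ∀ (n K j : ℕ) (X : Finset (Finset ℕ)), X ⊆ AF n K j →
    ∃ 𝒢 : Finset (Finset (Fin n)), 𝒢 ⊆ H54.maj n (K + 1) j ∧ 𝒢.card = X.card ∧
      (∂ 𝒢).card ≤ (∂ X).card
  card : ∀ n K j : ℕ, (H54.maj n (K + 1) j).card = (AF n K j).card
  low : ∀ n K j : ℕ, j ≤ K → 2 * j + 1 ≤ n →
    CC j * (n - (2 * j + 1)).choose (K - j) ≤ (AF n K j).card
  top : ∀ n K : ℕ, 1 ≤ K →
    (AF n K (K - 1)).card ≤ (2 * K - 1).choose (K + 1) + NN K * (n - (2 * K - 1))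

end Pool.Agent.MP_d50107_co.H61
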