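import Pool.Agent.MP_d50107_co.H61.Spec2

/-! The ranges above `|A_(K-1)|` with explicit thresholds, from the four rows of part two. -/

namespace Pool.Agent.MP_d50107_co.H61

open Finset
open scoped FinsetFamily
open Pool.Agent.MP_d50107_co.H54 (IsInit)

theorem kk_AF {n K j : ℕ} {F X : Finset (Finset ℕ)} (h : F ⊆ AF n K j) (hX : IsInit (AF n K j) X)
    (hc : X.card ≤ F.card) : (∂ X).card ≤ (∂ F).card :=
  H54.kk_fam (P := fun x : ℕ => x < 2 * j + 1) (fun _ _ h1 h2 => lt_of_le_of_lt h1 h2) (range n)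
    (K + 1) (j + 1) F X h hX hc

theorem top_aux (hD : DichStmt) (hS : SegStmt) (hA : AR) (hL : LF) {n K m : ℕ} (hK : 1 ≤ K)
    (hc : 64 * (K + 1) ^ 2 * 16 ^ (K + 1) ≤ n ∨ (32 * (K + 1) * 4 ^ (K + 1)) ^ (K + 1) ≤ m)
    (hb : (2 * K - 1).choose (K + 1) + NN K * (n - (2 * K - 1)) < m)
    {𝒜₀ : Finset (Finset (Fin n))} (f1 : ∀ A ∈ 𝒜₀, A.card = K + 1) (f2 : H54.Inter 𝒜₀)
    (f3 : 𝒜₀.card = m) :
    ∃ i ℒ, IsGreatest {j | m ≤ (H54.maj n (K + 1) j).card} i ∧ IsInit (H54.maj n (K + 1) i) ℒ ∧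
      ℒ.card = m ∧ ∀ 𝒜 : Finset (Finset (Fin n)), (∀ A ∈ 𝒜, A.card = K + 1) → H54.Inter 𝒜 →
        𝒜.card = m → (∂ ℒ).card ≤ (∂ 𝒜).card := by
  have hN : 1 ≤ NN K := Nat.choose_pos (by omega)
  have p1 : 8 ^ (K + 1) ≤ 16 ^ (K + 1) := Nat.pow_le_pow_left (by norm_num) _
  have p2 : K + 1 < 16 ^ (K + 1) := Nat.lt_pow_self (by norm_num)
  have p3 : 64 * 16 ^ (K + 1) ≤ 64 * (K + 1) ^ 2 * 16 ^ (K + 1) :=
    Nat.mul_le_mul_right _ (Nat.le_mul_of_pos_right _ (by positivity))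
  have hm8 : 8 ^ (K + 1) < m := by
    rcases hc with h | h
    · have : 1 * (n - (2 * K - 1)) ≤ NN K * (n - (2 * K - 1)) := Nat.mul_le_mul_right _ hN
      generalize 16 ^ (K + 1) = P at *
      generalize 8 ^ (K + 1) = R at *
      omega
    · refine lt_of_lt_of_le (Nat.pow_lt_pow_left ?_ (by omega)) h
      have : 1 ≤ (K + 1) * 4 ^ (K + 1) := Nat.succ_le_of_lt (by positivity)
      rw [mul_assoc]
      omega
  have hm1 : 2 ^ (2 * (K + 1)) < m := by
    refine lt_of_le_of_lt ?_ hm8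
    rw [pow_mul]
    exact Nat.pow_le_pow_left (by norm_num) _
  have h0 : m ≤ (H54.maj n (K + 1) 0).card :=
    f3.ge.trans (H54.le_card_star (by omega) f1 f2 (by omega))
  have hbd : ∀ j, m ≤ (H54.maj n (K + 1) j).card → j + 2 ≤ K := fun j hj => by
    by_contra hc
    rcases (show j = K - 1 ∨ K + 1 ≤ j + 1 by omega) with e | e
    · have := hL.top n K hK
      rw [e, hL.card] at hj
      omega
    · have := H54.card_maj_le (n := n) (k := K + 1) (j := j) e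
      omega
  obtain ⟨i, hi1, hi2⟩ : ∃ i, m ≤ (H54.maj n (K + 1) i).card ∧
      ∀ j, m ≤ (H54.maj n (K + 1) j).card → j ≤ i :=
    ⟨_, Nat.findGreatest_spec (P := fun j => m ≤ (H54.maj n (K + 1) j).card) (Nat.zero_le K) h0,
      fun j hj => Nat.le_findGreatest (by have := hbd j hj; omega) hj⟩
  have hi := hbd i hi1
  obtain ⟨ℒ, hL1, hLc⟩ := H54.exists_isInit _ m hi1
  obtain ⟨X, hX, hXc⟩ := H54.exists_isInit (AF n K i) m (hL.card n K i ▸ hi1)
  obtain ⟨t, t1, -, t3⟩ := hS n K i X (by omega) hX (by omega)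
  rw [hXc] at t1 t3
  obtain ⟨𝒢, g1, g2, g3⟩ := hL.lift n K i X hX.1
  have hLX : (∂ ℒ).card ≤ (∂ X).card := (H54.kk_maj g1 hL1 (by omega)).trans g3
  have hQ : QQ K ≤ t := by
    rcases hc with h | h
    · refine hA.bign K i t n m hi t1 ?_ h
      have h1 := hL.low n K (i + 1) (by omega) (by
        generalize 16 ^ (K + 1) = P at *
        omega)
      have h2 : (H54.maj n (K + 1) (i + 1)).card < m := not_le.1 fun h => by
        have := hi2 _ h
        omega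
      rw [hL.card] at h2
      exact h1.trans_lt h2
    · exact hA.bigm K i t m hi t1 h
  refine ⟨i, ℒ, ⟨hi1, hi2⟩, hL1, hLc, fun 𝒜 a1 a2 a3 => ?_⟩
  obtain ⟨F, b1, b2, b3, b4⟩ := hL.reduce n K 𝒜 a1 a2
  refine hLX.trans (le_trans ?_ b4)
  rcases hD K F hK b1 with ⟨j, j1, j2⟩ | hd
  · have hF : F ⊆ AF n K j := fun A hA' => H54.mem_fam.2 ⟨b2 A hA', b1.1 A hA', j2 A hA'⟩
    have hj : m ≤ (AF n K j).card := by
      have := card_le_card hF
      omega
    rcases (hi2 j (hL.card n K j ▸ hj)).eq_or_lt with rfl | hlt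
    · exact kk_AF hF hX (by omega)
    · obtain ⟨Y, hY, hYc⟩ := H54.exists_isInit (AF n K j) m hj
      obtain ⟨u, u1, u2, -⟩ := hS n K j Y j1 hY (by omega)
      rw [hYc] at u1 u2
      have h1 := hA.lower K i j t u m hi hlt hQ t1 u1
      have h2 := kk_AF hF hY (by omega)
      omega
  · have h1 := hA.small K i t m hi hQ t1
    rw [b3, a3] at hd
    have h2 : 2 ^ (2 * K + 1) * (m + EE K i t + 1) ≤ 2 ^ (2 * K + 1) * ((∂ F).card + 1) := by
      nlinarith
    have := Nat.le_of_mul_le_mul_left h2 (by positivity)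
    omega

end Pool.Agent.MP_d50107_co.H61
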